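import Pool.Agent.Y989.SD.Stm
import Pool.Agent.H974R2.Infinite

/-!
Project SD (helper989): from the usual definition of `C^(1,α)` conformal maps to expansions, and
passage from finite probabilities to the product measure.
-/

set_option autoImplicit false

namespace Pool.Agent.Y989.SD

open H974 H973 Finset MeasureTheory Filter Topology

theorem mem_disc {z : ℂ} : z ∈ disc ↔ ‖z‖ ≤ 1 := by
  unfold disc
  rw [Metric.mem_closedBall, dist_zero_right]

theorem smW_of {f g : ℂ → ℂ} {M α : ℝ} (h0 : 0 < α) (h1 : α ≤ 1) (hi : Set.InjOn f disc)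
    (hc : ContinuousOn f disc) (hd : ∀ z, ‖z‖ < 1 → HasDerivAt f (g z) z)
    (hn : ∀ z ∈ disc, g z ≠ 0)
    (hg : ∀ z ∈ disc, ∀ w ∈ disc, ‖g z - g w‖ ≤ M * ‖z - w‖ ^ α) : SmW f g M α := by
  have hM : 0 ≤ M := by
    have := hg 1 (by rw [mem_disc]; simp) 0 (by rw [mem_disc]; simp)
    have h2 : ‖(1 : ℂ) - 0‖ ^ α = 1 := by simp
    rw [h2, mul_one] at this
    exact (norm_nonneg _).trans this
  -- inside
  have key : ∀ z w : ℂ, ‖z‖ < 1 → ‖w‖ < 1 →
      ‖f z - f w - g w * (z - w)‖ ≤ M * ‖z - w‖ ^ (1 + α) := by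
    intro z w hz hw
    have hconv : Convex ℝ (Metric.ball (0 : ℂ) 1 ∩ Metric.closedBall w ‖z - w‖) :=
      (convex_ball _ _).inter (convex_closedBall _ _)
    have h3 := hconv.norm_image_sub_le_of_norm_hasDerivWithin_le
      (f := fun t => f t - g w * t) (f' := fun t => g t - g w) (C := M * ‖z - w‖ ^ α)
      (x := w) (y := z) ?_ ?_ ?_ ?_
    · have h4 : f z - g w * z - (f w - g w * w) = f z - f w - g w * (z - w) := by ring
      rw [h4] at h3
      refine h3.trans (le_of_eq ?_)
      by_cases hzw : ‖z - w‖ = 0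
      · rw [hzw, mul_zero, Real.zero_rpow (by linarith), mul_zero]
      · have hp : 0 < ‖z - w‖ := lt_of_le_of_ne (norm_nonneg _) (Ne.symm hzw)
        rw [Real.rpow_add hp, Real.rpow_one]
        ring
    · rintro t ⟨ht, -⟩
      have ht' : ‖t‖ < 1 := by simpa using ht
      have h5 : HasDerivAt (fun t => f t - g w * t) (g t - g w) t := by
        have h6 := (hd t ht').sub ((hasDerivAt_id' t).const_mul (g w))
        rw [mul_one] at h6
        exact h6
      exact h5.hasDerivWithinAt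
    · rintro t ⟨ht, ht2⟩
      have ht' : ‖t‖ < 1 := by simpa using ht
      refine (hg t (mem_disc.mpr ht'.le) w (mem_disc.mpr hw.le)).trans ?_
      apply mul_le_mul_of_nonneg_left _ hM
      apply Real.rpow_le_rpow (norm_nonneg _) _ h0.le
      rw [Metric.mem_closedBall, dist_eq_norm] at ht2
      exact ht2
    · refine ⟨by simpa using hw, ?_⟩
      rw [Metric.mem_closedBall, dist_self]
      exact norm_nonneg _
    · refine ⟨by simpa using hz, ?_⟩
      rw [Metric.mem_closedBall, dist_eq_norm]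
  -- continuity of g
  have hgc : ContinuousOn g disc := by
    intro w hw
    rw [ContinuousWithinAt, tendsto_iff_norm_sub_tendsto_zero]
    have h7 : Tendsto (fun z : ℂ => M * ‖z - w‖ ^ α) (𝓝[disc] w) (𝓝 0) := by
      have h8 : Continuous fun z : ℂ => M * ‖z - w‖ ^ α := by
        apply Continuous.mul continuous_const
        exact (continuous_norm.comp (continuous_id.sub continuous_const)).rpow_const
          (fun _ => Or.inr h0.le)
      have h9 := h8.tendsto w
      simp only [sub_self, norm_zero, Real.zero_rpow h0.ne', mul_zero] at h9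
      exact h9.mono_left nhdsWithin_le_nhds
    refine squeeze_zero' (Eventually.of_forall fun _ => norm_nonneg _) ?_ h7
    filter_upwards [self_mem_nhdsWithin] with z hz
    exact hg z hz w hw
  refine ⟨h0, h1, ?_, hn, hi⟩
  intro z hz w hw
  have hz' := mem_disc.mp hz
  have hw' := mem_disc.mp hw
  have hin : ∀ (t : ℂ), ‖t‖ ≤ 1 → ∀ r : ℝ, r ∈ Set.Ico (0 : ℝ) 1 → ‖(r : ℂ) * t‖ < 1 := by
    intro t ht r hr
    rw [norm_mul, Complex.norm_real, Real.norm_eq_abs, abs_of_nonneg hr.1]
    calc r * ‖t‖ ≤ r * 1 := mul_le_mul_of_nonneg_left ht hr.1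
      _ < 1 := by linarith [hr.2]
  have ht : ∀ t : ℂ, ‖t‖ ≤ 1 → Tendsto (fun r : ℝ => (r : ℂ) * t) (𝓝[Set.Ico 0 1] 1)
      (𝓝[disc] t) := by
    intro t ht
    rw [tendsto_nhdsWithin_iff]
    constructor
    · have h10 : Continuous fun r : ℝ => (r : ℂ) * t :=
        Complex.continuous_ofReal.mul continuous_const
      have h11 := h10.tendsto 1
      simp only [Complex.ofReal_one, one_mul] at h11
      exact h11.mono_left nhdsWithin_le_nhds
    · filter_upwards [self_mem_nhdsWithin] with r hr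
      exact mem_disc.mpr (hin t ht r hr).le
  have : NeBot (𝓝[Set.Ico (0 : ℝ) 1] 1) := by
    rw [← mem_closure_iff_nhdsWithin_neBot, closure_Ico (by norm_num)]
    exact ⟨zero_le_one, le_rfl⟩
  have hfz : Tendsto (fun r : ℝ => f ((r : ℂ) * z)) (𝓝[Set.Ico 0 1] 1) (𝓝 (f z)) :=
    (hc z hz).tendsto.comp (ht z hz')
  have hfw : Tendsto (fun r : ℝ => f ((r : ℂ) * w)) (𝓝[Set.Ico 0 1] 1) (𝓝 (f w)) :=
    (hc w hw).tendsto.comp (ht w hw')
  have hgw : Tendsto (fun r : ℝ => g ((r : ℂ) * w)) (𝓝[Set.Ico 0 1] 1) (𝓝 (g w)) :=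
    (hgc w hw).tendsto.comp (ht w hw')
  have hz2 := (ht z hz').mono_right (nhdsWithin_le_nhds (s := disc))
  have hw2 := (ht w hw').mono_right (nhdsWithin_le_nhds (s := disc))
  have hL := ((hfz.sub hfw).sub (hgw.mul (hz2.sub hw2))).norm
  have hR : Tendsto (fun r : ℝ => M * ‖(r : ℂ) * z - (r : ℂ) * w‖ ^ (1 + α))
      (𝓝[Set.Ico 0 1] 1) (𝓝 (M * ‖z - w‖ ^ (1 + α))) :=
    (((hz2.sub hw2).norm).rpow_const (Or.inr (by linarith))).const_mul M
  refine le_of_tendsto_of_tendsto hL hR ?_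
  filter_upwards [self_mem_nhdsWithin] with r hr
  exact key _ _ (hin z hz' r hr) (hin w hw' r hr)

end Pool.Agent.Y989.SD
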