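import Pool.Agent.Y989.SD.Stm2

/-!
Project SD (helper989), job SD-ALO (written by helper936): lower bound for the probability that two
boundary arcs are joined.
-/

set_option autoImplicit false

namespace Pool.Agent.Y989.SD.ALO

open H974 H973 Finset

/-! ## Elementary facts -/

theorem cir_add (θ : ℝ) : cir (θ + 2 * Real.pi) = cir θ := by
  unfold cir
  push_cast
  rw [add_mul, Complex.exp_add, Complex.exp_two_pi_mul_I, mul_one]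

theorem cir_mem (θ : ℝ) : cir θ ∈ disc := by
  unfold cir disc
  rw [Metric.mem_closedBall, dist_zero_right, Complex.norm_exp_ofReal_mul_I]

theorem cir_lip (θ θ' : ℝ) : ‖cir θ - cir θ'‖ ≤ |θ - θ'| := by
  have h : cir θ - cir θ' = cir θ' * (Complex.exp (Complex.I * ((θ - θ' : ℝ) : ℂ)) - 1) := by
    unfold cir
    rw [mul_sub, ← Complex.exp_add, mul_one]
    congr 2
    push_cast
    ring
  have h1 : ‖cir θ'‖ = 1 := Complex.norm_exp_ofReal_mul_I θ'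
  rw [h, norm_mul, h1, one_mul]
  exact Real.norm_exp_I_mul_ofReal_sub_one_le

theorem near_mono {f : ℂ → ℂ} {ε a b a' b' : ℝ} (h1 : a ≤ a') (h2 : b' ≤ b) :
    near f ε a' b' ⊆ near f ε a b := by
  rintro v ⟨h, θ, h3, h4, h5⟩
  exact ⟨h, θ, h1.trans h3, h4.trans h2, h5⟩

theorem near_add (f : ℂ → ℂ) (ε a b : ℝ) :
    near f ε (a + 2 * Real.pi) (b + 2 * Real.pi) = near f ε a b := by
  ext v
  constructor
  · rintro ⟨h, θ, h3, h4, h5⟩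
    refine ⟨h, θ - 2 * Real.pi, by linarith, by linarith, ?_⟩
    rw [← cir_add, sub_add_cancel]
    exact h5
  · rintro ⟨h, θ, h3, h4, h5⟩
    refine ⟨h, θ + 2 * Real.pi, by linarith, by linarith, ?_⟩
    rw [cir_add]
    exact h5

theorem PC_sym (f : ℂ → ℂ) (ε a b c d : ℝ) :
    PC f ε c d (a + 2 * Real.pi) (b + 2 * Real.pi) = PC f ε a b c d := by
  unfold PC
  rw [near_add]
  apply Pr_congr
  intro F _
  constructor
  · rintro ⟨u, hu, w, hw, h⟩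
    exact ⟨w, hw, u, hu, h.symm⟩
  · rintro ⟨u, hu, w, hw, h⟩
    exact ⟨w, hw, u, hu, h.symm⟩

theorem mem_BX_of {ε : ℝ} (hε : 0 < ε) {u v : Vtx} {r : ℤ}
    (h : ‖pos ε u - pos ε v‖ ≤ ε * r) : u ∈ BX v r := by
  have h1 : |ε * ((u.1 : ℝ) - v.1)| ≤ ε * r := by
    have h2 := (Complex.abs_re_le_norm (pos ε u - pos ε v)).trans h
    have h3 : (pos ε u - pos ε v).re = ε * ((u.1 : ℝ) - v.1) := by
      simp only [pos, Complex.sub_re]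
      ring
    rwa [h3] at h2
  have h2 : |ε * ((u.2 : ℝ) - v.2)| ≤ ε * r := by
    have h2 := (Complex.abs_im_le_norm (pos ε u - pos ε v)).trans h
    have h3 : (pos ε u - pos ε v).im = ε * ((u.2 : ℝ) - v.2) := by
      simp only [pos, Complex.sub_im]
      ring
    rwa [h3] at h2
  rw [abs_mul, abs_of_pos hε] at h1 h2
  have h3 := abs_le.1 (le_of_mul_le_mul_left h1 hε)
  have h4 := abs_le.1 (le_of_mul_le_mul_left h2 hε)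
  rw [mem_BX]
  refine ⟨⟨?_, ?_⟩, ?_, ?_⟩
  · have : ((v.1 : ℤ) : ℝ) - r ≤ u.1 := by linarith [h3.1]
    exact_mod_cast this
  · have : (u.1 : ℝ) ≤ v.1 + r := by linarith [h3.2]
    exact_mod_cast this
  · have : ((v.2 : ℤ) : ℝ) - r ≤ u.2 := by linarith [h4.1]
    exact_mod_cast this
  · have : (u.2 : ℝ) ≤ v.2 + r := by linarith [h4.2]
    exact_mod_cast this

theorem BX_shift {v w x : Vtx} {n m : ℤ} (h : w ∈ BX v n) (hx : x ∈ BX v m) : x ∈ BX w (m + n) := by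
  rw [mem_BX] at *
  omega

/-! ## Gluing -/

theorem Blk_mono {T : Finset Vtx} {A B : Vtx → Prop} {z : Vtx} {F G : Finset Edg} (h : F ⊆ G)
    (hF : Blk T A B z F) : Blk T A B z G := by
  intro u hu hA w hw hB hr
  refine hF u hu hA w hw hB (hr.mono ?_)
  have h1 : ∀ y, (y ∈ T ∧ ¬ Reach (G : Set Edg) z y) → (y ∈ T ∧ ¬ Reach (F : Set Edg) z y) :=
    fun y hy => ⟨hy.1, fun h2 => hy.2 (h2.mono (by exact_mod_cast h))⟩
  rintro e ⟨he1, he2⟩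
  exact ⟨h1 _ he1, h1 _ he2⟩

theorem join {T : Finset Vtx} {A B : Vtx → Prop} {z : Vtx} {F : Finset Edg} (hF : F ⊆ ES T)
    (hb : Blk T A B z F) {u w : Vtx} (hu : u ∈ T) (hA : A u) (hw : w ∈ T) (hB : B w)
    (h : Reach (F : Set Edg) u w) : Reach (F : Set Edg) z u := by
  by_contra hc
  refine hb u hu hA w hw hB ?_
  have h1 := reach_EV (F := (F : Set Edg)) (V := fun y => y ∈ T ∧ ¬ Reach (F : Set Edg) z y)
    (R := Set.univ) (u := u) (v := w) (fun y hy => ⟨reach_mem (F := (F : Set Edg))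
      (fun e he => hF (Finset.mem_coe.mp he)) hu hy, fun h2 => hc (h2.trans hy.symm)⟩)
    (fun e _ => Set.mem_univ e) h
  exact h1.mono Set.inter_subset_left

theorem glue (T : Finset Vtx) (U U' : Set Vtx) (A B A' B' Q Q' : Vtx → Prop)
    (hU : ∀ u ∈ U, u ∈ T ∧ A u) (hU' : ∀ u ∈ U', u ∈ T ∧ A' u) (hQ : ∀ w, Q w → B w)
    (hQ' : ∀ w, Q' w → B' w) :
    Pr hf (ES T) (fun F => ∃ z ∈ T, Blk T A B z F ∧ Blk T A' B' z F) *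
      (Pr hf (ES T) (fun F => ∃ u ∈ U, ∃ w ∈ T, Q w ∧ Reach (F : Set Edg) u w) *
      Pr hf (ES T) (fun F => ∃ u ∈ U', ∃ w ∈ T, Q' w ∧ Reach (F : Set Edg) u w)) ≤
    Pr hf (ES T) (fun F => ∃ u ∈ U, ∃ w ∈ U', Reach (F : Set Edg) u w) := by
  have i1 : IncrE (ES T) (fun F => ∃ z ∈ T, Blk T A B z F ∧ Blk T A' B' z F) := by
    rintro F G h - ⟨z, hz, h1, h2⟩
    exact ⟨z, hz, Blk_mono h h1, Blk_mono h h2⟩
  have i2 : ∀ (V : Set Vtx) (P : Vtx → Prop), IncrE (ES T)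
      (fun F => ∃ u ∈ V, ∃ w ∈ T, P w ∧ Reach (F : Set Edg) u w) := by
    rintro V P F G h - ⟨u, hu, w, hw, h1, h2⟩
    exact ⟨u, hu, w, hw, h1, h2.mono (by exact_mod_cast h)⟩
  have i3 : IncrE (ES T) (fun F => (∃ u ∈ U, ∃ w ∈ T, Q w ∧ Reach (F : Set Edg) u w) ∧
      ∃ u ∈ U', ∃ w ∈ T, Q' w ∧ Reach (F : Set Edg) u w) :=
    fun F G h h' hh => ⟨i2 U Q F G h h' hh.1, i2 U' Q' F G h h' hh.2⟩
  have h1 := Pr_harris (p := hf) okhalf (i2 U Q) (i2 U' Q')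
  have h2 := Pr_harris (p := hf) okhalf i1 i3
  refine (mul_le_mul_of_nonneg_left h1 (Pr_nonneg okhalf _ _)).trans (h2.trans ?_)
  apply Pr_mono okhalf
  rintro F hF ⟨⟨z, -, hb, hb'⟩, ⟨u, hu, w, hw, hq, hr⟩, u', hu', w', hw', hq', hr'⟩
  have h3 := join hF hb (hU u hu).1 (hU u hu).2 hw (hQ w hq) hr
  have h4 := join hF hb' (hU' u' hu').1 (hU' u' hu').2 hw' (hQ' w' hq') hr'
  exact ⟨u, hu, u', hu', h3.symm.trans h4⟩

/-! ## Elementary inequalities -/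

theorem frac1 {A d m : ℝ} (hA : 0 < A) (hd : 0 < d) (hm : 0 < m) (h : m ≤ A + d) :
    A / (A + d) ≤ min A m / m := by
  rcases le_total A m with h1 | h1
  · rw [min_eq_left h1]
    gcongr
  · rw [min_eq_right h1, div_self hm.ne', div_le_one (by positivity)]
    linarith

theorem frac2 {A d δ0 δ1 : ℝ} (hA : 0 < A) (hδ : 0 < δ0) (hd : δ0 ≤ d) (hδ1 : 0 < δ1) :
    min δ0 δ1 * (A / (A + d)) ≤ min A δ1 := by
  have h0 : 0 < A + d := by linarith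
  have h1 : A / (A + d) ≤ 1 := (div_le_one h0).2 (by linarith)
  have h2 : 0 ≤ A / (A + d) := by positivity
  have h3 : 0 < min δ0 δ1 := lt_min hδ hδ1
  apply le_min
  · have h4 : min δ0 δ1 * (A / (A + d)) = A * (min δ0 δ1 / (A + d)) := by ring
    rw [h4]
    have h5 : min δ0 δ1 / (A + d) ≤ 1 := (div_le_one h0).2 (by
      have := min_le_left δ0 δ1
      linarith)
    nlinarith
  · have h4 := min_le_right δ0 δ1
    nlinarith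

theorem fin {κ X Y P Q : ℝ} (hκ : 0 < κ) (hX : 0 ≤ X) (hY : 0 ≤ Y) (h1 : κ * X ≤ P)
    (h2 : κ * Y ≤ Q) : κ ^ (1 / 3 : ℝ) * κ ^ (1 / 3 : ℝ) * (X * Y) ^ (1 / 3 : ℝ) ≤
      P ^ (1 / 3 : ℝ) * Q ^ (1 / 3 : ℝ) := by
  have h3 : κ ^ (1 / 3 : ℝ) * κ ^ (1 / 3 : ℝ) * (X * Y) ^ (1 / 3 : ℝ) =
      (κ * X) ^ (1 / 3 : ℝ) * (κ * Y) ^ (1 / 3 : ℝ) := by
    rw [Real.mul_rpow hκ.le hX, Real.mul_rpow hκ.le hY, Real.mul_rpow hX hY]
    ring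
  rw [h3]
  have h4 : 0 ≤ κ * X := by positivity
  have h5 : 0 ≤ κ * Y := by positivity
  exact mul_le_mul (Real.rpow_le_rpow h4 h1 (by norm_num)) (Real.rpow_le_rpow h5 h2 (by norm_num))
    (Real.rpow_nonneg h5 _) (Real.rpow_nonneg (h4.trans h1) _)

/-- the conclusion of `S_ARM1` -/
def Arm (f : ℂ → ℂ) (ρ B α ε0 c : ℝ) : Prop :=
  ∀ ε : ℝ, 0 < ε → ε ≤ ε0 → ∀ (θ a : ℝ) (v : Vtx) (R : ℤ),
    Bp f ε ρ B α θ v → ε / 2 ≤ a → a ≤ 1 → a / ε ≤ R → 1 ≤ R → R ≤ ⌊ρ / ε⌋ →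
    c * (a / (ε * R)) ^ (1 / 3 : ℝ) ≤ Pr hf (ES (TD f ε)) (fun F =>
      ∃ u ∈ near f ε (θ - a) (θ + a), ∃ w ∈ TD f ε, w ∉ BX v (R - 1) ∧
        Reach (F : Set Edg) u w)

theorem PC_ge {f : ℂ → ℂ} {ε θ1 θ2 θ3 θ4 a b c d : ℝ} (h1 : θ1 ≤ a) (h2 : b ≤ θ2) (h3 : θ3 ≤ c)
    (h4 : d ≤ θ4) : Pr hf (ES (TD f ε)) (fun F => ∃ u ∈ near f ε a b, ∃ w ∈ near f ε c d,
      Reach (F : Set Edg) u w) ≤ PC f ε θ1 θ2 θ3 θ4 := by
  unfold PC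
  apply Pr_mono okhalf
  rintro F - ⟨u, hu, w, hw, h⟩
  exact ⟨u, near_mono h1 h2 hu, w, near_mono h3 h4 hw, h⟩

/-- from the probabilities to the bound -/
theorem concl {f : ℂ → ℂ} {ε θ1 θ2 θ3 θ4 ta tb a' b' c0 cA κ X Y P Q : ℝ} {va vb : Vtx} {R : ℤ}
    {A B A' B' : Vtx → Prop} (hc0 : 0 < c0) (hcA : 0 < cA) (hκ : 0 < κ) (hX : 0 ≤ X) (hY : 0 ≤ Y)
    (hP : κ * X ≤ P) (hQ : κ * Y ≤ Q)
    (h1 : θ1 ≤ ta - a') (h2 : ta + a' ≤ θ2) (h3 : θ3 ≤ tb - b') (h4 : tb + b' ≤ θ4)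
    (hU : ∀ u ∈ near f ε (ta - a') (ta + a'), A u) (hU' : ∀ u ∈ near f ε (tb - b') (tb + b'), A' u)
    (hB : ∀ w, w ∉ BX va (R - 1) → B w) (hB' : ∀ w, w ∉ BX vb (R - 1) → B' w)
    (hz : c0 ≤ Pr hf (ES (TD f ε)) (fun F => ∃ z ∈ TD f ε, Blk (TD f ε) A B z F ∧
      Blk (TD f ε) A' B' z F))
    (ha : cA * P ^ (1 / 3 : ℝ) ≤ Pr hf (ES (TD f ε)) (fun F =>
      ∃ u ∈ near f ε (ta - a') (ta + a'), ∃ w ∈ TD f ε, w ∉ BX va (R - 1) ∧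
        Reach (F : Set Edg) u w))
    (hb : cA * Q ^ (1 / 3 : ℝ) ≤ Pr hf (ES (TD f ε)) (fun F =>
      ∃ u ∈ near f ε (tb - b') (tb + b'), ∃ w ∈ TD f ε, w ∉ BX vb (R - 1) ∧
        Reach (F : Set Edg) u w)) :
    c0 * (cA * cA) * (κ ^ (1 / 3 : ℝ) * κ ^ (1 / 3 : ℝ)) * (X * Y) ^ (1 / 3 : ℝ) ≤
      PC f ε θ1 θ2 θ3 θ4 := by
  refine le_trans ?_ (PC_ge h1 h2 h3 h4)
  have hg := glue (TD f ε) (near f ε (ta - a') (ta + a')) (near f ε (tb - b') (tb + b')) A B A' B'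
    (fun w => w ∉ BX va (R - 1)) (fun w => w ∉ BX vb (R - 1)) (fun u hu => ⟨hu.1, hU u hu⟩)
    (fun u hu => ⟨hu.1, hU' u hu⟩) hB hB'
  refine le_trans ?_ hg
  have hP0 : 0 ≤ P := le_trans (by positivity) hP
  have hQ0 : 0 ≤ Q := le_trans (by positivity) hQ
  have e1 := fin hκ hX hY hP hQ
  have e2 : c0 * (cA * cA) * (κ ^ (1 / 3 : ℝ) * κ ^ (1 / 3 : ℝ)) * (X * Y) ^ (1 / 3 : ℝ) ≤
      c0 * ((cA * P ^ (1 / 3 : ℝ)) * (cA * Q ^ (1 / 3 : ℝ))) := by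
    have e3 : 0 < c0 * (cA * cA) := by positivity
    have e4 := mul_le_mul_of_nonneg_left e1 e3.le
    calc _ = c0 * (cA * cA) * (κ ^ (1 / 3 : ℝ) * κ ^ (1 / 3 : ℝ) * (X * Y) ^ (1 / 3 : ℝ)) := by ring
      _ ≤ _ := e4
      _ = _ := by ring
  refine e2.trans ?_
  have e5 : 0 ≤ P ^ (1 / 3 : ℝ) := Real.rpow_nonneg hP0 _
  have e6 : 0 ≤ Q ^ (1 / 3 : ℝ) := Real.rpow_nonneg hQ0 _
  exact mul_le_mul hz (mul_le_mul ha hb (by positivity) (Pr_nonneg okhalf _ _)) (by positivity)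
    (Pr_nonneg okhalf _ _)

/-! ## Small gaps -/

theorem caseA {f : ℂ → ℂ} {ρ B α H cW cA δ0 ε0 : ℝ} (hH : 0 < H) (hcW : 0 < cW) (hcA : 0 < cA)
    (hlip : ∀ θ θ' : ℝ, ‖f (cir θ) - f (cir θ')‖ ≤ H * |θ - θ'|)
    (hGD : ∀ ε : ℝ, 0 < ε → ε ≤ ε0 → GDc f ε ρ B α)
    (hW : ∀ (T : Finset Vtx) (v : Vtx) (L : ℤ), Win T v L B α → ∀ r : ℤ, 1 ≤ r → 128 * r ≤ L →
      cW ≤ Pr hf (ES T) (HT T v r (64 * r)))
    (hA : Arm f ρ B α ε0 cA) (hδ : 128 * ((5 + 2 * H) * δ0) ≤ ρ) (hδ1 : δ0 ≤ 1)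
    {ε θ1 θ2 θ3 θ4 : ℝ} (hε : 0 < ε) (hε0 : ε ≤ ε0) (hεδ : ε ≤ δ0)
    (h23 : θ2 < θ3) (hd : θ3 - θ2 ≤ δ0) (h12 : ε ≤ θ2 - θ1)
    (h34 : ε ≤ θ4 - θ3) :
    cW * (cA * cA) * ((1 / (130 * (5 + 2 * H))) ^ (1 / 3 : ℝ) *
      (1 / (130 * (5 + 2 * H))) ^ (1 / 3 : ℝ)) *
      ((θ2 - θ1) / (θ2 - θ1 + (θ3 - θ2)) * ((θ4 - θ3) / (θ4 - θ3 + (θ3 - θ2)))) ^ (1 / 3 : ℝ) ≤
      PC f ε θ1 θ2 θ3 θ4 := by
  obtain ⟨hG1, hG2, hG3⟩ := hGD ε hε hε0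
  set m : ℝ := max (θ3 - θ2) ε with hm
  have hmε : ε ≤ m := le_max_right _ _
  have hmd : θ3 - θ2 ≤ m := le_max_left _ _
  have hmδ : m ≤ δ0 := max_le hd hεδ
  have hm0 : 0 < m := hε.trans_le hmε
  set r0 : ℤ := ⌈(4 + 2 * H) * m / ε⌉ with hr0
  have hr1 : (4 + 2 * H) * m ≤ ε * r0 := by
    have h := Int.le_ceil ((4 + 2 * H) * m / ε)
    rw [div_le_iff₀ hε, ← hr0] at h
    linarith
  have hr2 : ε * r0 ≤ (5 + 2 * H) * m := by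
    have h := (Int.ceil_lt_add_one ((4 + 2 * H) * m / ε)).le
    have h2 : ε * (r0 : ℝ) ≤ ε * ((4 + 2 * H) * m / ε + 1) := mul_le_mul_of_nonneg_left h hε.le
    have h3 : ε * ((4 + 2 * H) * m / ε + 1) = (4 + 2 * H) * m + ε := by
      field_simp
    linarith
  have hr3 : 1 ≤ r0 := Int.ceil_pos.2 (by positivity)
  have hL : 128 * r0 ≤ ⌊ρ / ε⌋ := by
    rw [Int.le_floor, le_div_iff₀ hε]
    push_cast
    nlinarith
  obtain ⟨v0, hv0, hv0', hv0W⟩ := hG2 θ2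
  have hBX : ∀ (p : Vtx) (θ : ℝ), ‖pos ε p - f (cir θ)‖ ≤ 2 * ε → |θ - θ2| ≤ 2 * m →
      p ∈ BX v0 r0 := by
    intro p θ h1 h2
    apply mem_BX_of hε
    have h3 : pos ε p - pos ε v0 = (pos ε p - f (cir θ)) + (f (cir θ) - f (cir θ2)) -
      (pos ε v0 - f (cir θ2)) := by ring
    rw [h3]
    have h4 := norm_sub_le ((pos ε p - f (cir θ)) + (f (cir θ) - f (cir θ2)))
      (pos ε v0 - f (cir θ2))
    have h5 := norm_add_le (pos ε p - f (cir θ)) (f (cir θ) - f (cir θ2))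
    have h6 := hlip θ θ2
    have h7 : H * |θ - θ2| ≤ H * (2 * m) := mul_le_mul_of_nonneg_left h2 hH.le
    linarith
  -- the parameters of an arm
  have key : ∀ A : ℝ, ε ≤ A → ∀ (t : ℝ), |t - θ2| ≤ 2 * m → 
      ∃ v : Vtx, Bp f ε ρ B α t v ∧ v ∈ BX v0 r0 ∧
      cA * ((min A m / 2) / (ε * ((65 * r0 : ℤ) : ℝ))) ^ (1 / 3 : ℝ) ≤
        Pr hf (ES (TD f ε)) (fun F =>
          ∃ u ∈ near f ε (t - min A m / 2) (t + min A m / 2), ∃ w ∈ TD f ε,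
            w ∉ BX v (65 * r0 - 1) ∧ Reach (F : Set Edg) u w) := by
    intro A hA1 t ht
    obtain ⟨v, hv, hv', hvW⟩ := hG2 t
    refine ⟨v, ⟨hv, hv', hvW⟩, hBX v t hv' ht, ?_⟩
    have h1 : min A m ≤ m := min_le_right _ _
    have h2 : ε ≤ min A m := le_min hA1 hmε
    refine hA ε hε hε0 t (min A m / 2) v (65 * r0) ⟨hv, hv', hvW⟩ (by linarith) (by linarith) ?_
      (by linarith) (by linarith)
    rw [div_le_iff₀ hε]
    push_cast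
    nlinarith
  have hquot : ∀ A : ℝ, ε ≤ A → 1 / (130 * (5 + 2 * H)) * (A / (A + (θ3 - θ2))) ≤
      (min A m / 2) / (ε * ((65 * r0 : ℤ) : ℝ)) := by
    intro A hA1
    have hA0 : 0 < A := hε.trans_le hA1
    have h1 := frac1 hA0 (sub_pos.2 h23) hm0 (max_le (by linarith) (by linarith))
    have h2 : 0 < min A m := lt_min hA0 hm0
    have h3 : ε * ((65 * r0 : ℤ) : ℝ) ≤ 65 * ((5 + 2 * H) * m) := by
      push_cast
      nlinarith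
    have h4 : 0 < ε * ((65 * r0 : ℤ) : ℝ) := by
      have : (0 : ℝ) < r0 := by exact_mod_cast (by linarith : (0 : ℤ) < r0)
      push_cast
      positivity
    calc 1 / (130 * (5 + 2 * H)) * (A / (A + (θ3 - θ2))) ≤
        1 / (130 * (5 + 2 * H)) * (min A m / m) := by gcongr
      _ = (min A m / 2) / (65 * ((5 + 2 * H) * m)) := by
        field_simp
        norm_num
      _ ≤ _ := by gcongr
  have hAm : ∀ A : ℝ, min A m ≤ m := fun A => min_le_right _ _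
  have hAm' : ∀ A : ℝ, min A m ≤ A := fun A => min_le_left _ _
  have hAm0 : ∀ A : ℝ, ε ≤ A → 0 < min A m := fun A h => lt_min (hε.trans_le h) hm0
  have p1 := hAm (θ2 - θ1)
  have p2 := hAm' (θ2 - θ1)
  have p3 := hAm0 (θ2 - θ1) h12
  have q1 := hAm (θ4 - θ3)
  have q2 := hAm' (θ4 - θ3)
  have q3 := hAm0 (θ4 - θ3) h34
  obtain ⟨va, -, hva, ha⟩ := key (θ2 - θ1) h12 (θ2 - min (θ2 - θ1) m / 2) (by
    rw [abs_le]
    constructor <;> linarith)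
  obtain ⟨vb, -, hvb, hb⟩ := key (θ4 - θ3) h34 (θ3 + min (θ4 - θ3) m / 2) (by
    rw [abs_le]
    constructor <;> linarith)
  have hcore : cW ≤ Pr hf (ES (TD f ε)) (fun F => ∃ z ∈ TD f ε,
      Blk (TD f ε) (fun u => u ∈ BX v0 r0) (fun w => w ∉ BX v0 (64 * r0 - 1)) z F ∧
      Blk (TD f ε) (fun u => u ∈ BX v0 r0) (fun w => w ∉ BX v0 (64 * r0 - 1)) z F) := by
    refine (hW _ v0 _ hv0W r0 hr3 hL).trans (Pr_mono okhalf ?_)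
    rintro F - ⟨z, hz, -, -, hz2⟩
    exact ⟨z, hz, hz2, hz2⟩
  have hout : ∀ v : Vtx, v ∈ BX v0 r0 → ∀ w, w ∉ BX v (65 * r0 - 1) → w ∉ BX v0 (64 * r0 - 1) := by
    intro v hv w hw h
    apply hw
    have := BX_shift hv h
    rwa [show 64 * r0 - 1 + r0 = 65 * r0 - 1 by ring] at this
  have hin : ∀ a b : ℝ, |a - θ2| ≤ 2 * m → |b - θ2| ≤ 2 * m → ∀ u ∈ near f ε a b,
      u ∈ BX v0 r0 := by
    rintro a b ha hb u ⟨-, θ, h1, h2, h3⟩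
    refine hBX u θ h3 ?_
    rw [abs_le] at ha hb ⊢
    constructor <;> linarith
  refine concl (R := 65 * r0) hcW hcA (by positivity) (by
    have : 0 < θ2 - θ1 := hε.trans_le h12
    have : 0 < θ3 - θ2 := sub_pos.2 h23
    positivity) (by
    have : 0 < θ4 - θ3 := hε.trans_le h34
    have : 0 < θ3 - θ2 := sub_pos.2 h23
    positivity) (hquot _ h12) (hquot _ h34) ?_ ?_ ?_ ?_
    (hin _ _ ?_ ?_) (hin _ _ ?_ ?_) (hout va hva) (hout vb hvb) hcore ha hb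
  · linarith
  · linarith
  · linarith
  · linarith
  all_goals
    rw [abs_le]
    constructor <;> linarith

/-! ## Large gaps -/

/-- the conclusion of `S_CHN` -/
def Chn (f : ℂ → ℂ) (ρ B α ε1 ρ' c : ℝ) : Prop :=
  ∀ ε : ℝ, 0 < ε → ε ≤ ε1 → ∀ (θ θ' : ℝ) (v v' : Vtx),
    Bp f ε ρ B α θ v → Bp f ε ρ B α θ' v' →
    c ≤ Pr hf (ES (TD f ε)) (fun F => ∃ z ∈ TD f ε,
      Blk (TD f ε) (fun u => u ∈ BX v ⌊ρ' / ε⌋) (fun w => w ∉ BX v (64 * ⌊ρ' / ε⌋ - 1)) z F ∧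
      Blk (TD f ε) (fun u => u ∈ BX v' ⌊ρ' / ε⌋) (fun w => w ∉ BX v' (64 * ⌊ρ' / ε⌋ - 1)) z F)

theorem caseB {f : ℂ → ℂ} {ρ B α H cC cA δ0 δ1 ε0 ρ' : ℝ} (hH : 0 < H) (hcC : 0 < cC)
    (hcA : 0 < cA)
    (hlip : ∀ θ θ' : ℝ, ‖f (cir θ) - f (cir θ')‖ ≤ H * |θ - θ'|)
    (hGD : ∀ ε : ℝ, 0 < ε → ε ≤ ε0 → GDc f ε ρ B α)
    (hA : Arm f ρ B α ε0 cA) (hρ' : 0 < ρ') (hρρ : 200 * ρ' ≤ ρ) (hC : Chn f ρ B α ε0 ρ' cC)
    (hδ0 : 0 < δ0) (hδ1 : 0 < δ1) (hδ1' : δ1 ≤ 1) (hδ1ρ : δ1 ≤ ρ') (hδ1H : H * δ1 ≤ ρ')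
    {ε θ1 θ2 θ3 θ4 : ℝ} (hε : 0 < ε) (hε0 : ε ≤ ε0) (hεδ : ε ≤ δ1) (hερ : 10 * ε ≤ ρ')
    (hd : δ0 ≤ θ3 - θ2) (h12 : ε ≤ θ2 - θ1) (h34 : ε ≤ θ4 - θ3) :
    cC * (cA * cA) * ((min δ0 δ1 / (128 * ρ')) ^ (1 / 3 : ℝ) *
      (min δ0 δ1 / (128 * ρ')) ^ (1 / 3 : ℝ)) *
      ((θ2 - θ1) / (θ2 - θ1 + (θ3 - θ2)) * ((θ4 - θ3) / (θ4 - θ3 + (θ3 - θ2)))) ^ (1 / 3 : ℝ) ≤
      PC f ε θ1 θ2 θ3 θ4 := by
  obtain ⟨hG1, hG2, hG3⟩ := hGD ε hε hε0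
  set N : ℤ := ⌊ρ' / ε⌋ with hN
  have hN1 : ε * N ≤ ρ' := by
    have h := Int.floor_le (ρ' / ε)
    rw [le_div_iff₀ hε, ← hN] at h
    linarith
  have hN2 : ρ' - ε ≤ ε * N := by
    have h := (Int.lt_floor_add_one (ρ' / ε)).le
    rw [div_le_iff₀ hε] at h
    rw [← hN] at h
    linarith
  have hN3 : 1 ≤ N := by
    rw [hN, Int.le_floor, le_div_iff₀ hε]
    push_cast
    linarith
  have hN0 : (0 : ℝ) < N := by exact_mod_cast (by linarith : (0 : ℤ) < N)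
  have hL : 64 * N ≤ ⌊ρ / ε⌋ := by
    rw [Int.le_floor, le_div_iff₀ hε]
    push_cast
    linarith
  have hmin0 : 0 < min δ0 δ1 := lt_min hδ0 hδ1
  have key : ∀ A : ℝ, ε ≤ A → ∀ (t : ℝ),
      ∃ v : Vtx, Bp f ε ρ B α t v ∧
      (∀ u ∈ near f ε (t - min A δ1 / 2) (t + min A δ1 / 2), u ∈ BX v N) ∧
      cA * ((min A δ1 / 2) / (ε * ((64 * N : ℤ) : ℝ))) ^ (1 / 3 : ℝ) ≤
        Pr hf (ES (TD f ε)) (fun F =>
          ∃ u ∈ near f ε (t - min A δ1 / 2) (t + min A δ1 / 2), ∃ w ∈ TD f ε,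
            w ∉ BX v (64 * N - 1) ∧ Reach (F : Set Edg) u w) := by
    intro A hA1 t
    obtain ⟨v, hv, hv', hvW⟩ := hG2 t
    have h1 : min A δ1 ≤ δ1 := min_le_right _ _
    have h2 : ε ≤ min A δ1 := le_min hA1 hεδ
    refine ⟨v, ⟨hv, hv', hvW⟩, ?_, ?_⟩
    · rintro u ⟨-, θ, h3, h4, h5⟩
      apply mem_BX_of hε
      have h6 : pos ε u - pos ε v = (pos ε u - f (cir θ)) + (f (cir θ) - f (cir t)) -
        (pos ε v - f (cir t)) := by ring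
      rw [h6]
      have h7 := norm_sub_le ((pos ε u - f (cir θ)) + (f (cir θ) - f (cir t)))
        (pos ε v - f (cir t))
      have h8 := norm_add_le (pos ε u - f (cir θ)) (f (cir θ) - f (cir t))
      have h9 := hlip θ t
      have h10 : |θ - t| ≤ δ1 / 2 := by
        rw [abs_le]
        constructor <;> linarith
      have h11 : H * |θ - t| ≤ H * (δ1 / 2) := mul_le_mul_of_nonneg_left h10 hH.le
      linarith
    · refine hA ε hε hε0 t (min A δ1 / 2) v (64 * N) ⟨hv, hv', hvW⟩ (by linarith) (by linarith) ?_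
        (by linarith) (by linarith)
      rw [div_le_iff₀ hε]
      push_cast
      linarith
  have hquot : ∀ A : ℝ, ε ≤ A → min δ0 δ1 / (128 * ρ') * (A / (A + (θ3 - θ2))) ≤
      (min A δ1 / 2) / (ε * ((64 * N : ℤ) : ℝ)) := by
    intro A hA1
    have hA0 : 0 < A := hε.trans_le hA1
    have h1 := frac2 hA0 hδ0 hd hδ1
    have h3 : ε * ((64 * N : ℤ) : ℝ) ≤ 64 * ρ' := by
      push_cast
      linarith
    have h4 : 0 < ε * ((64 * N : ℤ) : ℝ) := by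
      push_cast
      positivity
    have h5 : 0 < min A δ1 := lt_min hA0 hδ1
    calc min δ0 δ1 / (128 * ρ') * (A / (A + (θ3 - θ2))) =
        (min δ0 δ1 * (A / (A + (θ3 - θ2)))) / (128 * ρ') := by ring
      _ ≤ (min A δ1) / (128 * ρ') := by gcongr
      _ = (min A δ1 / 2) / (64 * ρ') := by
        field_simp
        norm_num
      _ ≤ _ := by gcongr
  have p2 : min (θ2 - θ1) δ1 ≤ θ2 - θ1 := min_le_left _ _
  have q2 : min (θ4 - θ3) δ1 ≤ θ4 - θ3 := min_le_left _ _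
  obtain ⟨va, hva, hain, ha⟩ := key (θ2 - θ1) h12 (θ2 - min (θ2 - θ1) δ1 / 2)
  obtain ⟨vb, hvb, hbin, hb⟩ := key (θ4 - θ3) h34 (θ3 + min (θ4 - θ3) δ1 / 2)
  have hcore := hC ε hε hε0 _ _ va vb hva hvb
  refine concl (R := 64 * N) hcC hcA (by positivity) (by
    have : 0 < θ2 - θ1 := hε.trans_le h12
    have : 0 < θ3 - θ2 := hδ0.trans_le hd
    positivity) (by
    have : 0 < θ4 - θ3 := hε.trans_le h34
    have : 0 < θ3 - θ2 := hδ0.trans_le hd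
    positivity) (hquot _ h12) (hquot _ h34) ?_ ?_ ?_ ?_ hain hbin (fun w hw => hw)
    (fun w hw => hw) hcore ha hb
  all_goals linarith

/-! ## The theorem -/

theorem oneside {f : ℂ → ℂ} (hWIN : S_WIN) (hGA : S_GA) (hGD : S_GD) (hCHN : S_CHN)
    (hARM : S_ARM1) (hf : Smooth f) : ∃ c ε0 : ℝ, 0 < c ∧ 0 < ε0 ∧ ∀ ε θ1 θ2 θ3 θ4 : ℝ,
      0 < ε → ε ≤ ε0 → θ2 < θ3 → ε ≤ θ2 - θ1 → ε ≤ θ4 - θ3 →
      c * ((θ2 - θ1) / (θ2 - θ1 + (θ3 - θ2)) * ((θ4 - θ3) / (θ4 - θ3 + (θ3 - θ2)))) ^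
        (1 / 3 : ℝ) ≤ PC f ε θ1 θ2 θ3 θ4 := by
  obtain ⟨g, M, α, hS⟩ := hf
  obtain ⟨l, H, -, hH, hlip, -⟩ := hGA f g M α hS
  obtain ⟨ρ, B, ε0, hρ, hε0, hG⟩ := hGD f g M α hS
  have hG' : ∀ ε : ℝ, 0 < ε → ε ≤ ε0 → GDc f ε ρ B α := hG
  obtain ⟨cW, CW, hcW, -, hW⟩ := hWIN B α hS.al0
  obtain ⟨cA, hcA, hA⟩ := hARM f g M α hS ρ B ε0 hρ hε0 hG'
  obtain ⟨cC, ε1, hcC, hε1, hC⟩ := hCHN f g M α hS ρ B ε0 hρ hε0 hG' (ρ / 200) (by positivity)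
    (by linarith)
  have hlip' : ∀ θ θ' : ℝ, ‖f (cir θ) - f (cir θ')‖ ≤ H * |θ - θ'| := fun θ θ' =>
    ((hlip _ (cir_mem θ) _ (cir_mem θ')).2).trans (mul_le_mul_of_nonneg_left (cir_lip θ θ') hH.le)
  have hW' : ∀ (T : Finset Vtx) (v : Vtx) (L : ℤ), Win T v L B α → ∀ r : ℤ, 1 ≤ r →
      128 * r ≤ L → cW ≤ Pr Pool.Agent.Y989.SD.hf (ES T) (HT T v r (64 * r)) := by
    intro T v L hw r hr hL
    exact (hW T v L hw r r hr le_rfl (by linarith)).2.2.2 hL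
  set ρ' : ℝ := ρ / 200 with hρ'
  have hρ'0 : 0 < ρ' := by positivity
  set δ0 : ℝ := min 1 (ρ / (128 * (5 + 2 * H))) with hδ0
  have hδ00 : 0 < δ0 := lt_min one_pos (by positivity)
  have hδ01 : δ0 ≤ 1 := min_le_left _ _
  have hδ0ρ : 128 * ((5 + 2 * H) * δ0) ≤ ρ := by
    have h := min_le_right 1 (ρ / (128 * (5 + 2 * H)))
    rw [← hδ0, le_div_iff₀ (by positivity)] at h
    linarith
  set δ1 : ℝ := min 1 (min ρ' (ρ' / H)) with hδ1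
  have hδ10 : 0 < δ1 := lt_min one_pos (lt_min hρ'0 (by positivity))
  have hδ11 : δ1 ≤ 1 := min_le_left _ _
  have hδ1ρ : δ1 ≤ ρ' := (min_le_right _ _).trans (min_le_left _ _)
  have hδ1H : H * δ1 ≤ ρ' := by
    have h : δ1 ≤ ρ' / H := (min_le_right _ _).trans (min_le_right _ _)
    rw [le_div_iff₀ hH] at h
    linarith
  set ε2 : ℝ := min (min ε0 ε1) (min (min δ0 δ1) (ρ' / 10)) with hε2
  have k1 : ε2 ≤ ε0 := (min_le_left _ _).trans (min_le_left _ _)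
  have k2 : ε2 ≤ ε1 := (min_le_left _ _).trans (min_le_right _ _)
  have k3 : ε2 ≤ δ0 := (min_le_right _ _).trans ((min_le_left _ _).trans (min_le_left _ _))
  have k4 : ε2 ≤ δ1 := (min_le_right _ _).trans ((min_le_left _ _).trans (min_le_right _ _))
  have k5 : ε2 ≤ ρ' / 10 := (min_le_right _ _).trans (min_le_right _ _)
  have hε20 : 0 < ε2 := lt_min (lt_min hε0 hε1) (lt_min (lt_min hδ00 hδ10) (by positivity))
  set cc1 : ℝ := cW * (cA * cA) * ((1 / (130 * (5 + 2 * H))) ^ (1 / 3 : ℝ) *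
      (1 / (130 * (5 + 2 * H))) ^ (1 / 3 : ℝ)) with hcc1
  set cc2 : ℝ := cC * (cA * cA) * ((min δ0 δ1 / (128 * ρ')) ^ (1 / 3 : ℝ) *
      (min δ0 δ1 / (128 * ρ')) ^ (1 / 3 : ℝ)) with hcc2
  have hmin0 : 0 < min δ0 δ1 := lt_min hδ00 hδ10
  have hcc10 : 0 < cc1 := by positivity
  have hcc20 : 0 < cc2 := by positivity
  refine ⟨min cc1 cc2, ε2, lt_min hcc10 hcc20, hε20, ?_⟩
  intro ε θ1 θ2 θ3 θ4 hε hεε h23 h12 h34
  have hA' : Arm f ρ B α ε2 cA := fun ε h1 h2 => hA ε h1 (h2.trans k1)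
  have hC' : Chn f ρ B α ε2 ρ' cC := fun ε h1 h2 => hC ε h1 (h2.trans k2)
  have hG'' : ∀ ε : ℝ, 0 < ε → ε ≤ ε2 → GDc f ε ρ B α := fun ε h1 h2 => hG' ε h1 (h2.trans k1)
  have hnn : 0 ≤ ((θ2 - θ1) / (θ2 - θ1 + (θ3 - θ2)) *
      ((θ4 - θ3) / (θ4 - θ3 + (θ3 - θ2)))) ^ (1 / 3 : ℝ) := by
    have : 0 < θ2 - θ1 := hε.trans_le h12
    have : 0 < θ3 - θ2 := sub_pos.2 h23
    have : 0 < θ4 - θ3 := hε.trans_le h34
    positivity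
  rcases le_total (θ3 - θ2) δ0 with hd | hd
  · refine (mul_le_mul_of_nonneg_right (min_le_left cc1 cc2) hnn).trans ?_
    exact caseA hH hcW hcA hlip' hG'' hW' hA' hδ0ρ hδ01 hε hεε (hεε.trans k3) h23 hd h12 h34
  · refine (mul_le_mul_of_nonneg_right (min_le_right cc1 cc2) hnn).trans ?_
    exact caseB hH hcC hcA hlip' hG'' hA' hρ'0 (by linarith) hC' hδ00 hδ10 hδ11 hδ1ρ hδ1H hε hεε
      (hεε.trans k4) (by linarith) hd h12 h34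

theorem t_ALO : S_WIN → S_GA → S_GD → S_CHN → S_ARM1 → S_ALO := by
  intro hWIN hGA hGD hCHN hARM f hS
  obtain ⟨c, ε0, hc, hε0, h⟩ := oneside hWIN hGA hGD hCHN hARM hS
  refine ⟨c, ε0, hc, hε0, ?_⟩
  intro ε θ1 θ2 θ3 θ4 hε hεε h12 h23 h34 h41 h1 h2
  unfold EE
  rcases le_total (θ3 - θ2) (θ1 + 2 * Real.pi - θ4) with hm | hm
  · rw [min_eq_left hm]
    exact h ε θ1 θ2 θ3 θ4 hε hεε h23 h1 h2
  · rw [min_eq_right hm, ← PC_sym, mul_comm ((θ2 - θ1) / _)]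
    have h3 := h ε θ3 θ4 (θ1 + 2 * Real.pi) (θ2 + 2 * Real.pi) hε hεε h41 h2 (by linarith)
    rwa [show θ2 + 2 * Real.pi - (θ1 + 2 * Real.pi) = θ2 - θ1 by ring] at h3

end Pool.Agent.Y989.SD.ALO
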