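import Pool.Agent.Y989.SD.Stm2

/-!
Project SD (helper989): arms from small boundary arcs (helper876).
-/

set_option autoImplicit false

namespace Pool.Agent.Y989.SD.ARM1

open H974 H973 Finset
open Pool.Agent.Y989.SD

/-! ### The events are increasing -/

theorem XT_incr (T : Finset Vtx) (v : Vtx) (r R : ℤ) : IncrE (ES T) (XT T v r R) := by
  rintro F G hFG - ⟨u, hu, hur, w, hw, hwR, h⟩
  exact ⟨u, hu, hur, w, hw, hwR, h.mono (by exact_mod_cast hFG)⟩

theorem HT_incr (T : Finset Vtx) (v : Vtx) (r R : ℤ) : IncrE (ES T) (HT T v r R) := by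
  rintro F G hFG - ⟨z, hz, hzR, hb, hB⟩
  refine ⟨z, hz, hzR, hb, fun u hu hur w hw hwR h => hB u hu hur w hw hwR (h.mono ?_)⟩
  have hsub : (F : Set Edg) ⊆ (G : Set Edg) := by exact_mod_cast hFG
  rintro e ⟨h1, h2⟩
  exact ⟨⟨h1.1, fun h => h1.2 (h.mono hsub)⟩, ⟨h2.1, fun h => h2.2 (h.mono hsub)⟩⟩

/-- The blocking cluster meets the crossing. -/
theorem joined {T : Finset Vtx} {v : Vtx} {r R : ℤ} {F : Finset Edg} (hF : F ⊆ ES T)
    (h64 : 64 * r ≤ R) (hX : XT T v r R F) (hH : HT T v r (64 * r) F) :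
    ∃ z ∈ T, z ∈ BX v (64 * r) ∧ btT T z ∧ ∃ w ∈ T, w ∉ BX v (R - 1) ∧
      Reach (F : Set Edg) z w := by
  obtain ⟨u, hu, hur, w, hw, hwR, h⟩ := hX
  obtain ⟨z, hz, hzR, hb, hB⟩ := hH
  refine ⟨z, hz, hzR, hb, w, hw, hwR, ?_⟩
  by_contra hzw
  have hw' : w ∉ BX v (64 * r - 1) := by
    intro hc
    apply hwR
    rw [mem_BX] at hc ⊢
    omega
  apply hB u hu hur w hw hw'
  have h1 := reach_EV (F := (F : Set Edg)) (V := fun y => y ∈ T ∧ ¬ Reach (F : Set Edg) z y)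
    (R := Set.univ) (u := u) (v := w) ?_ (fun _ _ => Set.mem_univ _) h
  · exact h1.mono Set.inter_subset_left
  · intro y hy
    refine ⟨reach_mem (fun e he => hF (by exact_mod_cast he)) hu hy, fun hzy => hzw ?_⟩
    exact hzy.trans (hy.symm.trans h)

/-! ### Points of the circle -/

theorem norm_cir (θ : ℝ) : ‖cir θ‖ = 1 := Complex.norm_exp_ofReal_mul_I θ

theorem cir_mem (θ : ℝ) : cir θ ∈ disc := by
  unfold disc
  rw [Metric.mem_closedBall, dist_zero_right, norm_cir]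

theorem cir_add_int (θ : ℝ) (k : ℤ) : cir (θ + 2 * Real.pi * k) = cir θ := by
  unfold cir
  rw [Complex.exp_eq_exp_iff_exists_int]
  exact ⟨k, by push_cast; ring⟩

/-- chord and arc -/
theorem chord {x y : ℝ} (h : |x - y| ≤ Real.pi) : |x - y| ≤ Real.pi / 2 * ‖cir x - cir y‖ := by
  have h1 : cir x - cir y = cir y * (Complex.exp (Complex.I * ((x - y : ℝ) : ℂ)) - 1) := by
    unfold cir
    rw [mul_sub, ← Complex.exp_add, mul_one]
    congr 2
    push_cast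
    ring
  have h2 : ‖cir x - cir y‖ = 2 * |Real.sin ((x - y) / 2)| := by
    rw [h1, norm_mul, norm_cir, one_mul, Complex.norm_exp_I_mul_ofReal_sub_one, Real.norm_eq_abs,
      abs_mul, abs_two]
  have h3 : |(x - y) / 2| ≤ Real.pi / 2 := by
    rw [abs_div, abs_two]
    linarith
  have h4 := Real.mul_abs_le_abs_sin h3
  rw [abs_div, abs_two] at h4
  rw [h2]
  have hpi := Real.pi_pos
  have h5 : Real.pi * (2 / Real.pi * (|x - y| / 2)) ≤ Real.pi * |Real.sin ((x - y) / 2)| :=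
    mul_le_mul_of_nonneg_left h4 hpi.le
  have h6 : Real.pi * (2 / Real.pi * (|x - y| / 2)) = |x - y| := by field_simp
  linarith

/-- choice of the argument -/
theorem choose_arg (θ θ' : ℝ) : ∃ θ'' : ℝ, cir θ'' = cir θ' ∧
    |θ'' - θ| ≤ Real.pi / 2 * ‖cir θ' - cir θ‖ := by
  have hpi := Real.pi_pos
  set k : ℤ := round ((θ - θ') / (2 * Real.pi)) with hk
  refine ⟨θ' + 2 * Real.pi * k, cir_add_int θ' k, ?_⟩
  have h1 := abs_sub_round ((θ - θ') / (2 * Real.pi))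
  rw [← hk] at h1
  have h2 : |θ' + 2 * Real.pi * k - θ| ≤ Real.pi := by
    have h3 : θ' + 2 * Real.pi * k - θ = -(2 * Real.pi * ((θ - θ') / (2 * Real.pi) - k)) := by
      field_simp
      ring
    rw [h3, abs_neg, abs_mul, abs_of_pos (by positivity : 0 < 2 * Real.pi)]
    have := mul_le_mul_of_nonneg_left h1 (by positivity : 0 ≤ 2 * Real.pi)
    linarith
  have h4 := chord h2
  rwa [cir_add_int] at h4

theorem norm_pos_sub {ε : ℝ} (hε : 0 < ε) {z v : Vtx} {n : ℤ} (h : z ∈ BX v n) :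
    ‖pos ε z - pos ε v‖ ≤ 2 * n * ε := by
  rw [mem_BX] at h
  have h1 : |(z.1 : ℝ) - v.1| ≤ n := by
    rw [abs_le]
    constructor
    · have : ((v.1 - n : ℤ) : ℝ) ≤ z.1 := by exact_mod_cast h.1.1
      push_cast at this
      linarith
    · have : (z.1 : ℝ) ≤ ((v.1 + n : ℤ) : ℝ) := by exact_mod_cast h.1.2
      push_cast at this
      linarith
  have h2 : |(z.2 : ℝ) - v.2| ≤ n := by
    rw [abs_le]
    constructor
    · have : ((v.2 - n : ℤ) : ℝ) ≤ z.2 := by exact_mod_cast h.2.1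
      push_cast at this
      linarith
    · have : (z.2 : ℝ) ≤ ((v.2 + n : ℤ) : ℝ) := by exact_mod_cast h.2.2
      push_cast at this
      linarith
  have h3 := Complex.norm_le_abs_re_add_abs_im (pos ε z - pos ε v)
  have h4 : (pos ε z - pos ε v).re = ε * ((z.1 : ℝ) - v.1) := by simp [pos]; ring
  have h5 : (pos ε z - pos ε v).im = ε * ((z.2 : ℝ) - v.2) := by simp [pos]; ring
  rw [h4, h5, abs_mul, abs_mul, abs_of_pos hε] at h3
  have h6 := mul_le_mul_of_nonneg_left h1 hε.le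
  have h7 := mul_le_mul_of_nonneg_left h2 hε.le
  linarith

/-! ### The statement -/

theorem t_ARM1 : S_WIN → S_GA → S_ARM1 := by
  intro hWIN hGA f g M α hf' ρ B ε0 hρ hε0 hGD
  obtain ⟨l, H, hl, -, hlip, -, -, -, -⟩ := hGA f g M α hf'
  obtain ⟨c1, C1, hc1, -, hW⟩ := hWIN B α hf'.al0
  set κ : ℝ := min (1 / 200) (l / 300) with hκ
  have hκ0 : 0 < κ := lt_min (by norm_num) (by positivity)
  have hκ1 : κ ≤ 1 / 200 := min_le_left _ _
  have hκ2 : κ ≤ l / 300 := min_le_right _ _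
  have hA : 0 < c1 ^ 2 * (κ / 2) ^ (1 / 3 : ℝ) := by positivity
  have hB : 0 < c1 * κ ^ (1 / 3 : ℝ) := by positivity
  refine ⟨min (c1 ^ 2 * (κ / 2) ^ (1 / 3 : ℝ)) (c1 * κ ^ (1 / 3 : ℝ)), lt_min hA hB, ?_⟩
  intro ε hε hε1 θ a v R hBp ha ha1 haR hR hRL
  obtain ⟨hv, hvθ, hwin⟩ := hBp
  have ha0 : 0 < a := by linarith
  have hR0 : (0 : ℝ) < R := by exact_mod_cast (by omega : 0 < R)
  have hq0 : 0 ≤ a / (ε * R) := by positivity
  have hp0 : 0 ≤ (a / (ε * R)) ^ (1 / 3 : ℝ) := Real.rpow_nonneg hq0 _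
  set L : ℤ := ⌊ρ / ε⌋ with hL
  set r : ℤ := ⌊κ * a / ε⌋ with hr
  set T := TD f ε with hT
  by_cases hr1 : 1 ≤ r
  · -- windows
    have hrle : (r : ℝ) ≤ κ * a / ε := Int.floor_le _
    have hr200 : 200 * (r : ℝ) ≤ R := by
      have h1 : κ * a / ε = κ * (a / ε) := by ring
      have h2 : κ * (a / ε) ≤ 1 / 200 * R := by
        have h3 : 0 ≤ a / ε := by positivity
        calc κ * (a / ε) ≤ 1 / 200 * (a / ε) := mul_le_mul_of_nonneg_right hκ1 h3
          _ ≤ 1 / 200 * R := mul_le_mul_of_nonneg_left haR (by norm_num)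
      linarith
    have hr200' : 200 * r ≤ R := by exact_mod_cast hr200
    obtain ⟨-, hX, -, -⟩ := hW T v L hwin r R hr1 (by omega) hRL
    obtain ⟨-, -, -, hH⟩ := hW T v L hwin r R hr1 (by omega) hRL
    have hH' := hH (by omega)
    have hr0 : (0 : ℝ) < r := by exact_mod_cast (by omega : 0 < r)
    have hhar := Pr_harris (p := hf) okhalf (XT_incr T v r R) (HT_incr T v r (64 * r))
    have hrr : κ / 2 * (a / (ε * R)) ≤ (r : ℝ) / R := by
      have h1 : κ * a / ε < r + 1 := Int.lt_floor_add_one _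
      have h2 : (1 : ℝ) ≤ r := by exact_mod_cast hr1
      have h3 : κ * a / ε / 2 ≤ r := by linarith
      have h4 : κ / 2 * (a / (ε * R)) = κ * a / ε / 2 / R := by field_simp
      rw [h4]
      exact div_le_div_of_nonneg_right h3 hR0.le
    have hpow : (κ / 2) ^ (1 / 3 : ℝ) * (a / (ε * R)) ^ (1 / 3 : ℝ) ≤
        ((r : ℝ) / R) ^ (1 / 3 : ℝ) := by
      rw [← Real.mul_rpow (by positivity) hq0]
      exact Real.rpow_le_rpow (by positivity) hrr (by norm_num)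
    have hlow : c1 ^ 2 * (κ / 2) ^ (1 / 3 : ℝ) * (a / (ε * R)) ^ (1 / 3 : ℝ) ≤
        Pr hf (ES T) (fun F => XT T v r R F ∧ HT T v r (64 * r) F) := by
      refine le_trans ?_ hhar
      have h1 : c1 * ((κ / 2) ^ (1 / 3 : ℝ) * (a / (ε * R)) ^ (1 / 3 : ℝ)) ≤
          Pr hf (ES T) (XT T v r R) := (mul_le_mul_of_nonneg_left hpow hc1.le).trans hX
      have h2 : 0 ≤ c1 * ((κ / 2) ^ (1 / 3 : ℝ) * (a / (ε * R)) ^ (1 / 3 : ℝ)) := by positivity
      have h3 := mul_le_mul h1 hH' hc1.le (h2.trans h1)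
      calc _ = c1 * ((κ / 2) ^ (1 / 3 : ℝ) * (a / (ε * R)) ^ (1 / 3 : ℝ)) * c1 := by ring
        _ ≤ _ := h3
    have hmin : min (c1 ^ 2 * (κ / 2) ^ (1 / 3 : ℝ)) (c1 * κ ^ (1 / 3 : ℝ)) *
        (a / (ε * R)) ^ (1 / 3 : ℝ) ≤
        c1 ^ 2 * (κ / 2) ^ (1 / 3 : ℝ) * (a / (ε * R)) ^ (1 / 3 : ℝ) :=
      mul_le_mul_of_nonneg_right (min_le_left _ _) hp0
    refine hmin.trans (hlow.trans (Pr_mono okhalf ?_))
    rintro F hF ⟨hXF, hHF⟩
    obtain ⟨z, hz, hzB, hbt, w, hw, hwR, hzw⟩ := joined hF (by omega) hXF hHF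
    refine ⟨z, ?_, w, hw, hwR, hzw⟩
    refine ⟨hz, ?_⟩
    obtain ⟨θ', hθ'⟩ := (hGD ε hε hε1).2.2 z hbt
    obtain ⟨θ'', e1, e2⟩ := choose_arg θ θ'
    have h1 : ‖f (cir θ') - f (cir θ)‖ ≤ 131 * κ * a := by
      have h2 := norm_pos_sub hε hzB
      have h3 : f (cir θ') - f (cir θ) = -(pos ε z - f (cir θ')) + (pos ε z - pos ε v) +
          (pos ε v - f (cir θ)) := by ring
      rw [h3]
      have h4 := norm_add_le (-(pos ε z - f (cir θ')) + (pos ε z - pos ε v))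
        (pos ε v - f (cir θ))
      have h5 := norm_add_le (-(pos ε z - f (cir θ'))) (pos ε z - pos ε v)
      rw [norm_neg] at h5
      have h6 : (r : ℝ) * ε ≤ κ * a := by
        rw [le_div_iff₀ hε] at hrle
        exact hrle
      have h7 : (1 : ℝ) ≤ r := by exact_mod_cast hr1
      have h8 : ε ≤ r * ε := by nlinarith
      push_cast at h2
      nlinarith
    have h2 : ‖cir θ' - cir θ‖ ≤ 131 * κ * a / l := by
      rw [le_div_iff₀ hl, mul_comm]
      exact ((hlip _ (cir_mem θ') _ (cir_mem θ)).1).trans h1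
    have h3 : |θ'' - θ| ≤ a := by
      refine e2.trans ?_
      have h4 : 131 * κ * a / l ≤ 131 / 300 * a := by
        rw [div_le_iff₀ hl]
        have h5 : κ * a ≤ l / 300 * a := mul_le_mul_of_nonneg_right hκ2 ha0.le
        linarith
      have h5 := Real.pi_lt_d2
      have h6 := Real.pi_pos
      calc Real.pi / 2 * ‖cir θ' - cir θ‖ ≤ Real.pi / 2 * (131 / 300 * a) :=
            mul_le_mul_of_nonneg_left (h2.trans h4) (by positivity)
        _ ≤ a := by nlinarith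
    have h4 := abs_le.1 h3
    refine ⟨θ'', by linarith, by linarith, ?_⟩
    rw [e1]
    linarith
  · -- a single vertex
    have hlt : κ * a / ε < 1 := by
      by_contra hc
      push Not at hc
      exact hr1 (Int.le_floor.2 (by exact_mod_cast hc))
    obtain ⟨-, -, hV, -⟩ := hW T v L hwin 1 R le_rfl hR hRL
    have hpow : κ ^ (1 / 3 : ℝ) * (a / (ε * R)) ^ (1 / 3 : ℝ) ≤ (R : ℝ) ^ (-(1 / 3 : ℝ)) := by
      rw [← Real.mul_rpow hκ0.le hq0, Real.rpow_neg hR0.le, ← Real.inv_rpow hR0.le]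
      apply Real.rpow_le_rpow (by positivity) _ (by norm_num)
      have h1 : κ * (a / (ε * R)) = κ * a / ε * (R : ℝ)⁻¹ := by field_simp
      rw [h1]
      have h2 : 0 ≤ (R : ℝ)⁻¹ := by positivity
      nlinarith
    have hmin : min (c1 ^ 2 * (κ / 2) ^ (1 / 3 : ℝ)) (c1 * κ ^ (1 / 3 : ℝ)) *
        (a / (ε * R)) ^ (1 / 3 : ℝ) ≤ c1 * κ ^ (1 / 3 : ℝ) * (a / (ε * R)) ^ (1 / 3 : ℝ) :=
      mul_le_mul_of_nonneg_right (min_le_right _ _) hp0
    have h2 : c1 * κ ^ (1 / 3 : ℝ) * (a / (ε * R)) ^ (1 / 3 : ℝ) ≤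
        c1 * (R : ℝ) ^ (-(1 / 3 : ℝ)) := by
      rw [mul_assoc]
      exact mul_le_mul_of_nonneg_left hpow hc1.le
    refine hmin.trans (h2.trans (hV.trans (Pr_mono okhalf ?_)))
    rintro F hF ⟨w, hw, hwR, h⟩
    exact ⟨v, ⟨hv, θ, by linarith, by linarith, hvθ⟩, w, hw, hwR, h⟩

end Pool.Agent.Y989.SD.ARM1
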