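import Pool.Agent.Y989.SD.Stm3

/-!
Project SD (helper989), part AUP (helper550): the upper bound for two arcs.
-/

set_option autoImplicit false

namespace Pool.Agent.Y989.SD.AUP

open H974 H973 Finset


theorem cir_sub (θ θ' : ℝ) : ‖cir θ' - cir θ‖ = ‖2 * Real.sin ((θ' - θ) / 2)‖ := by
  rw [← Complex.norm_exp_I_mul_ofReal_sub_one]
  have h1 : cir θ' - cir θ = cir θ * (Complex.exp (Complex.I * ((θ' - θ : ℝ) : ℂ)) - 1) := by
    unfold cir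
    rw [mul_sub, ← Complex.exp_add, mul_one]
    congr 2
    push_cast
    ring
  rw [h1, norm_mul]
  have h2 : ‖cir θ‖ = 1 := by
    unfold cir
    exact Complex.norm_exp_ofReal_mul_I θ
  rw [h2, one_mul]

theorem cir_up (θ θ' : ℝ) : ‖cir θ' - cir θ‖ ≤ |θ' - θ| := by
  rw [cir_sub, ← Complex.norm_exp_I_mul_ofReal_sub_one]
  exact Real.norm_exp_I_mul_ofReal_sub_one_le

theorem cir_low (θ θ' d : ℝ) (hd : 0 ≤ d) (h1 : d ≤ θ' - θ) (h2 : d ≤ 2 * Real.pi - (θ' - θ)) :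
    d / 2 ≤ ‖cir θ' - cir θ‖ := by
  rw [cir_sub, Real.norm_eq_abs]
  refine le_trans ?_ (le_abs_self _)
  have hpi := Real.pi_pos
  have hpi4 := Real.pi_le_four
  have h3 : 2 / Real.pi * (d / 2) ≤ Real.sin ((θ' - θ) / 2) := by
    have h5 : 0 ≤ 2 / Real.pi := by positivity
    rcases le_total ((θ' - θ) / 2) (Real.pi / 2) with h | h
    · have h4 := Real.mul_le_sin (x := (θ' - θ) / 2) (by linarith) h
      exact (mul_le_mul_of_nonneg_left (by linarith) h5).trans h4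
    · have h4 := Real.mul_le_sin (x := Real.pi - (θ' - θ) / 2) (by linarith) (by linarith)
      rw [Real.sin_pi_sub] at h4
      exact (mul_le_mul_of_nonneg_left (by linarith) h5).trans h4
  have h6 : d / 4 ≤ 2 / Real.pi * (d / 2) := by
    rw [div_mul_div_comm, le_div_iff₀ (by positivity)]
    nlinarith
  linarith

/-- Small arcs. -/
theorem small_le {ε a d K κ : ℝ} (hε : 0 < ε) (ha : ε ≤ a) (hd : 0 < d) (hK : 4 ≤ K) (hκ : 0 < κ)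
    (hκ1 : κ ≤ 1) (h : ⌈K * a / ε⌉ ≤ ⌊κ * d / ε⌋) :
    ((⌈K * a / ε⌉ : ℤ) : ℝ) / ((⌊κ * d / ε⌋ : ℤ) : ℝ) ≤ 8 * K / κ * (a / (a + d)) ∧
      K * a ≤ κ * d ∧ 4 * ε ≤ κ * d ∧ 1 ≤ ⌈K * a / ε⌉ ∧
      ((⌊κ * d / ε⌋ : ℤ) : ℝ) * ε ≤ κ * d := by
  have ha0 : 0 < a := by linarith
  have e1 : K ≤ K * a / ε := by
    rw [le_div_iff₀ hε]
    nlinarith
  have e2 : K * a / ε ≤ ((⌈K * a / ε⌉ : ℤ) : ℝ) := Int.le_ceil _
  have e3 : ((⌈K * a / ε⌉ : ℤ) : ℝ) < K * a / ε + 1 := Int.ceil_lt_add_one _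
  have e4 : ((⌊κ * d / ε⌋ : ℤ) : ℝ) ≤ κ * d / ε := Int.floor_le _
  have e5 : κ * d / ε < ((⌊κ * d / ε⌋ : ℤ) : ℝ) + 1 := Int.lt_floor_add_one _
  have e6 : ((⌈K * a / ε⌉ : ℤ) : ℝ) ≤ ((⌊κ * d / ε⌋ : ℤ) : ℝ) := by exact_mod_cast h
  set p := K * a / ε with hp
  set q := κ * d / ε with hq
  have e7 : K * a ≤ κ * d := by
    have : p ≤ q := by linarith
    rw [hp, hq] at this
    exact (div_le_div_iff_of_pos_right hε).1 this
  refine ⟨?_, e7, by nlinarith, ?_, ?_⟩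
  · have f1 : ((⌈p⌉ : ℤ) : ℝ) ≤ 2 * p := by linarith
    have f2 : q / 2 ≤ ((⌊q⌋ : ℤ) : ℝ) := by linarith
    have f3 : 0 < q / 2 := by linarith
    have f4 : ((⌈p⌉ : ℤ) : ℝ) / ((⌊q⌋ : ℤ) : ℝ) ≤ 2 * p / (q / 2) :=
      div_le_div₀ (by linarith) f1 f3 f2
    refine f4.trans ?_
    have f5 : 2 * p / (q / 2) = 4 * K / κ * (a / d) := by
      rw [hp, hq]
      field_simp
      ring
    rw [f5]
    have f60 : a ≤ d := by
      have g1 : 4 * a ≤ K * a := mul_le_mul_of_nonneg_right hK ha0.le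
      have g2 : κ * d ≤ 1 * d := mul_le_mul_of_nonneg_right hκ1 hd.le
      linarith
    have f6 : a / d ≤ 2 * (a / (a + d)) := by
      rw [div_le_iff₀ hd, mul_assoc, div_mul_eq_mul_div, ← mul_div_assoc,
        le_div_iff₀ (by linarith)]
      nlinarith
    have f7 : 0 ≤ 4 * K / κ := by positivity
    calc 4 * K / κ * (a / d) ≤ 4 * K / κ * (2 * (a / (a + d))) :=
          mul_le_mul_of_nonneg_left f6 f7
      _ = 8 * K / κ * (a / (a + d)) := by ring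
  · have : (1 : ℝ) ≤ ((⌈p⌉ : ℤ) : ℝ) := by linarith
    exact_mod_cast this
  · rw [hq, le_div_iff₀ hε] at e4
    exact e4

/-- Large arcs. -/
theorem large_le {ε a d K κ : ℝ} (hε : 0 < ε) (ha : ε ≤ a) (hd : 0 < d) (hκ : 0 < κ)
    (h : ¬ ⌈K * a / ε⌉ ≤ ⌊κ * d / ε⌋) : 1 ≤ (1 + (K + 1) / κ) * (a / (a + d)) := by
  have ha0 : 0 < a := by linarith
  have e3 : ((⌈K * a / ε⌉ : ℤ) : ℝ) < K * a / ε + 1 := Int.ceil_lt_add_one _
  have e5 : κ * d / ε < ((⌊κ * d / ε⌋ : ℤ) : ℝ) + 1 := Int.lt_floor_add_one _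
  have e6 : ((⌊κ * d / ε⌋ : ℤ) : ℝ) + 1 ≤ ((⌈K * a / ε⌉ : ℤ) : ℝ) := by
    exact_mod_cast Int.add_one_le_of_lt (not_le.1 h)
  have e7 : κ * d / ε < K * a / ε + 1 := by linarith
  have e8 : κ * d < K * a + ε := by
    have := mul_lt_mul_of_pos_right e7 hε
    rw [add_mul, div_mul_cancel₀ _ hε.ne', div_mul_cancel₀ _ hε.ne', one_mul] at this
    exact this
  rw [← mul_div_assoc, le_div_iff₀ (by linarith), one_mul, add_mul, one_mul, div_mul_eq_mul_div]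
  have e9 : d ≤ (K + 1) * a / κ := by
    rw [le_div_iff₀ hκ]
    linarith
  linarith


theorem cir_mem (θ : ℝ) : cir θ ∈ disc := by
  unfold disc
  rw [Metric.mem_closedBall, dist_zero_right]
  unfold cir
  exact (Complex.norm_exp_ofReal_mul_I θ).le

theorem pos_low {ε : ℝ} (hε : 0 < ε) (u v : Vtx) :
    ε * |(u.1 : ℝ) - v.1| ≤ ‖pos ε u - pos ε v‖ ∧ ε * |(u.2 : ℝ) - v.2| ≤ ‖pos ε u - pos ε v‖ := by
  constructor
  · refine le_trans (le_of_eq ?_) (Complex.abs_re_le_norm _)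
    unfold pos
    rw [Complex.sub_re]
    simp only
    rw [← mul_sub, abs_mul, abs_of_pos hε]
  · refine le_trans (le_of_eq ?_) (Complex.abs_im_le_norm _)
    unfold pos
    rw [Complex.sub_im]
    simp only
    rw [← mul_sub, abs_mul, abs_of_pos hε]

theorem pos_up {ε : ℝ} (hε : 0 < ε) (u v : Vtx) :
    ‖pos ε u - pos ε v‖ ≤ ε * |(u.1 : ℝ) - v.1| + ε * |(u.2 : ℝ) - v.2| := by
  refine (Complex.norm_le_abs_re_add_abs_im _).trans (le_of_eq ?_)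
  unfold pos
  rw [Complex.sub_re, Complex.sub_im]
  simp only
  rw [← mul_sub, ← mul_sub, abs_mul, abs_mul, abs_of_pos hε]

/-- Vertices near the arc are in the small box. -/
theorem near_mem {f : ℂ → ℂ} {l H : ℝ}
    (hl : ∀ z ∈ disc, ∀ w ∈ disc, l * ‖z - w‖ ≤ ‖f z - f w‖ ∧ ‖f z - f w‖ ≤ H * ‖z - w‖)
    (hH : 0 < H) {ε a θ θ0 : ℝ} (hε : 0 < ε) (ha : ε ≤ a) {u v : Vtx}
    (hv : ‖pos ε v - f (cir θ0)‖ ≤ 2 * ε) (hθ : |θ - θ0| ≤ a / 2)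
    (hu : ‖pos ε u - f (cir θ)‖ ≤ 2 * ε) : u ∈ BX v ⌈(H / 2 + 4) * a / ε⌉ := by
  have h1 : ‖f (cir θ) - f (cir θ0)‖ ≤ H * (a / 2) :=
    ((hl _ (cir_mem θ) _ (cir_mem θ0)).2).trans
      (mul_le_mul_of_nonneg_left ((cir_up θ0 θ).trans hθ) hH.le)
  have h2 : ‖pos ε u - pos ε v‖ ≤ (H / 2 + 4) * a := by
    have e : pos ε u - pos ε v = (pos ε u - f (cir θ)) + (f (cir θ) - f (cir θ0)) -
        (pos ε v - f (cir θ0)) := by ring
    rw [e]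
    refine (norm_sub_le _ _).trans ?_
    have := norm_add_le (pos ε u - f (cir θ)) (f (cir θ) - f (cir θ0))
    linarith
  obtain ⟨h3, h4⟩ := pos_low hε u v
  have h5 : ∀ x y : ℤ, ε * |(x : ℝ) - y| ≤ ‖pos ε u - pos ε v‖ →
      y - ⌈(H / 2 + 4) * a / ε⌉ ≤ x ∧ x ≤ y + ⌈(H / 2 + 4) * a / ε⌉ := by
    intro x y hxy
    have h6 : |(x : ℝ) - y| ≤ (H / 2 + 4) * a / ε := by
      rw [le_div_iff₀ hε, mul_comm]
      exact hxy.trans h2
    have h7 : |(x : ℝ) - y| ≤ ((⌈(H / 2 + 4) * a / ε⌉ : ℤ) : ℝ) := h6.trans (Int.le_ceil _)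
    rw [abs_le] at h7
    obtain ⟨h8, h9⟩ := h7
    constructor
    · have : ((y - ⌈(H / 2 + 4) * a / ε⌉ : ℤ) : ℝ) ≤ (x : ℝ) := by push_cast; linarith
      exact_mod_cast this
    · have : (x : ℝ) ≤ ((y + ⌈(H / 2 + 4) * a / ε⌉ : ℤ) : ℝ) := by push_cast; linarith
      exact_mod_cast this
  rw [mem_BX]
  exact ⟨h5 _ _ h3, h5 _ _ h4⟩

/-- Vertices near the other arc are far. -/
theorem far_not {f : ℂ → ℂ} {l H : ℝ}
    (hl : ∀ z ∈ disc, ∀ w ∈ disc, l * ‖z - w‖ ≤ ‖f z - f w‖ ∧ ‖f z - f w‖ ≤ H * ‖z - w‖)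
    (hl0 : 0 < l) {ε d θ θ0 : ℝ} (hε : 0 < ε) (hd : 0 ≤ d) {u v : Vtx}
    (hv : ‖pos ε v - f (cir θ0)‖ ≤ 2 * ε) (h1 : d ≤ θ - θ0) (h2 : d ≤ 2 * Real.pi - (θ - θ0))
    (hu : ‖pos ε u - f (cir θ)‖ ≤ 2 * ε) {R : ℤ}
    (hR : 2 * ((R : ℝ) * ε) + 4 * ε < l * (d / 2)) : u ∉ BX v R ∧ v ∉ BX u R := by
  have h3 : l * (d / 2) ≤ ‖f (cir θ) - f (cir θ0)‖ :=
    (mul_le_mul_of_nonneg_left (cir_low θ0 θ d hd h1 h2) hl0.le).trans
      (hl _ (cir_mem θ) _ (cir_mem θ0)).1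
  have h4 : ‖f (cir θ) - f (cir θ0)‖ ≤ ‖pos ε u - pos ε v‖ + 4 * ε := by
    have e : f (cir θ) - f (cir θ0) = (pos ε u - pos ε v) - (pos ε u - f (cir θ)) +
        (pos ε v - f (cir θ0)) := by ring
    rw [e]
    refine (norm_add_le _ _).trans ?_
    have := norm_sub_le (pos ε u - pos ε v) (pos ε u - f (cir θ))
    linarith
  have h5 := pos_up hε u v
  have key : ¬ (|(u.1 : ℝ) - v.1| ≤ R ∧ |(u.2 : ℝ) - v.2| ≤ R) := by
    rintro ⟨h6, h7⟩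
    have h8 := mul_le_mul_of_nonneg_left h6 hε.le
    have h9 := mul_le_mul_of_nonneg_left h7 hε.le
    nlinarith
  constructor
  · intro hx
    rw [mem_BX] at hx
    refine key ⟨?_, ?_⟩
    · have i1 : ((v.1 - R : ℤ) : ℝ) ≤ (u.1 : ℝ) := by exact_mod_cast hx.1.1
      have i2 : (u.1 : ℝ) ≤ ((v.1 + R : ℤ) : ℝ) := by exact_mod_cast hx.1.2
      push_cast at i1 i2
      rw [abs_le]
      constructor <;> linarith
    · have i1 : ((v.2 - R : ℤ) : ℝ) ≤ (u.2 : ℝ) := by exact_mod_cast hx.2.1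
      have i2 : (u.2 : ℝ) ≤ ((v.2 + R : ℤ) : ℝ) := by exact_mod_cast hx.2.2
      push_cast at i1 i2
      rw [abs_le]
      constructor <;> linarith
  · intro hx
    rw [mem_BX] at hx
    refine key ⟨?_, ?_⟩
    · have i1 : ((u.1 - R : ℤ) : ℝ) ≤ (v.1 : ℝ) := by exact_mod_cast hx.1.1
      have i2 : (v.1 : ℝ) ≤ ((u.1 + R : ℤ) : ℝ) := by exact_mod_cast hx.1.2
      push_cast at i1 i2
      rw [abs_le]
      constructor <;> linarith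
    · have i1 : ((u.2 - R : ℤ) : ℝ) ≤ (v.2 : ℝ) := by exact_mod_cast hx.2.1
      have i2 : (v.2 : ℝ) ≤ ((u.2 + R : ℤ) : ℝ) := by exact_mod_cast hx.2.2
      push_cast at i1 i2
      rw [abs_le]
      constructor <;> linarith

theorem XT_incr (S : Finset Edg) (T : Finset Vtx) (v : Vtx) (r R : ℤ) : IncrE S (XT T v r R) := by
  rintro F G h _ ⟨u, hu, hur, w, hw, hwR, hreach⟩
  exact ⟨u, hu, hur, w, hw, hwR, hreach.mono (by exact_mod_cast h)⟩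

/-- A path which leaves the box crosses the annulus inside the box. -/
theorem XT_exit {T : Finset Vtx} {F : Finset Edg} (hF : F ⊆ ES T) {v u w : Vtx} {r R : ℤ}
    (hrR : r ≤ R) (hu : u ∈ T) (hur : u ∈ BX v r) (hw : w ∉ BX v (R - 1))
    (h : Reach (F : Set Edg) u w) : XT T v r R (F ∩ ES (T ∩ BX v R)) := by
  have hub : u ∈ BX v R := by
    rw [mem_BX] at hur ⊢
    omega
  have hv : w.1 ≤ v.1 - R ∨ v.1 + R ≤ w.1 ∨ w.2 ≤ v.2 - R ∨ v.2 + R ≤ w.2 := by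
    by_contra hcon
    apply hw
    rw [mem_BX]
    omega
  obtain ⟨y, h1, h2, h3⟩ := arm_exit hF hu hub h hv
  refine ⟨u, hu, hur, y, (Finset.mem_inter.1 h1).1, ?_, h3⟩
  intro hy
  rw [mem_BX] at hy
  unfold onBX at h2
  omega

theorem XT_res {T : Finset Vtx} {v : Vtx} {r R : ℤ} :
    Pr hf (ES (T ∩ BX v R)) (XT T v r R) ≤ Pr hf (ES T) (XT T v r R) :=
  Pr_mono_set okhalf (ES_mono Finset.inter_subset_left) (XT_incr _ _ _ _ _)

theorem one_le {T : Finset Vtx} {v : Vtx} {r R : ℤ} (A : Finset Edg → Prop)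
    (hA : ∀ F, F ⊆ ES T → A F → XT T v r R (F ∩ ES (T ∩ BX v R))) :
    Pr hf (ES T) A ≤ Pr hf (ES T) (XT T v r R) := by
  have h1 : Pr hf (ES T) A ≤ Pr hf (ES T) (fun F => XT T v r R (F ∩ ES (T ∩ BX v R))) :=
    Pr_mono okhalf hA
  refine h1.trans ?_
  have h2 := Pr_restrict (S := ES T) (S' := ES (T ∩ BX v R)) (ES_mono Finset.inter_subset_left)
    (XT T v r R)
  exact (le_of_eq h2).trans XT_res

theorem two_le {T : Finset Vtx} {v v' : Vtx} {r r' R : ℤ} (A : Finset Edg → Prop)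
    (hd : ∀ x, x ∈ BX v R → x ∉ BX v' R)
    (hA : ∀ F, F ⊆ ES T → A F → XT T v r R (F ∩ ES (T ∩ BX v R)) ∧
      XT T v' r' R (F ∩ ES (T ∩ BX v' R))) :
    Pr hf (ES T) A ≤ Pr hf (ES T) (XT T v r R) * Pr hf (ES T) (XT T v' r' R) := by
  have h1 : Pr hf (ES T) A ≤ Pr hf (ES T) (fun F => XT T v r R (F ∩ ES (T ∩ BX v R)) ∧
      XT T v' r' R (F ∩ ES (T ∩ BX v' R))) := Pr_mono okhalf hA
  refine h1.trans ?_
  have h2 : Disjoint (ES (T ∩ BX v R)) (ES (T ∩ BX v' R)) := by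
    rw [Finset.disjoint_left]
    intro e he he'
    rw [mem_ES, Finset.mem_inter] at he he'
    exact hd _ he.1.2 he'.1.2
  have h3 := Pr_indep' (U := ES T) (ES_mono Finset.inter_subset_left)
    (ES_mono Finset.inter_subset_left) h2 (XT T v r R) (XT T v' r' R)
  refine (le_of_eq h3).trans ?_
  exact mul_le_mul XT_res XT_res (Pr_nonneg okhalf _ _) (Pr_nonneg okhalf _ _)

theorem t_AUP : S_WIN → S_GA → S_GD → S_AUP := by
  intro hW hGA hGD f hf0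
  obtain ⟨g, M, α, hS⟩ := hf0
  obtain ⟨l, H, hl0, hH, hl, -⟩ := hGA f g M α hS
  obtain ⟨ρ, B, ε0, hρ, hε0, hG⟩ := hGD f g M α hS
  obtain ⟨c, C, hc, hC, hWin⟩ := hW B α hS.al0
  set K : ℝ := H / 2 + 4 with hK
  have hK4 : 4 ≤ K := by rw [hK]; linarith
  set κ : ℝ := min (l / 20) (min 1 (ρ / 4)) with hκ
  have hκ0 : 0 < κ := lt_min (by positivity) (lt_min one_pos (by positivity))
  have hκ1 : κ ≤ 1 := (min_le_right _ _).trans (min_le_left _ _)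
  have hκl : κ ≤ l / 20 := min_le_left _ _
  have hκρ : κ ≤ ρ / 4 := (min_le_right _ _).trans (min_le_right _ _)
  set C1 : ℝ := C * (8 * K / κ) ^ (1 / 3 : ℝ) + (1 + (K + 1) / κ) ^ (1 / 3 : ℝ) with hC1
  have hK0 : 0 < K := by linarith
  have p1 : 0 < C * (8 * K / κ) ^ (1 / 3 : ℝ) := by positivity
  have p2 : 0 < (1 + (K + 1) / κ) ^ (1 / 3 : ℝ) := by positivity
  refine ⟨C1 * C1, ε0, by positivity, hε0, ?_⟩
  intro ε θ1 θ2 θ3 θ4 hε hεε h12 h23 h34 h41 ha hb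
  obtain ⟨-, hG2, -⟩ := hG ε hε hεε
  set a := θ2 - θ1 with hadef
  set b := θ4 - θ3 with hbdef
  set d := min (θ3 - θ2) (θ1 + 2 * Real.pi - θ4) with hddef
  have hd : 0 < d := lt_min (by linarith) (by linarith)
  have hd1 : d ≤ θ3 - θ2 := min_le_left _ _
  have hd2 : d ≤ θ1 + 2 * Real.pi - θ4 := min_le_right _ _
  have ha0 : 0 < a := by linarith
  have hb0 : 0 < b := by linarith
  obtain ⟨va, hva, hva2, hvaW⟩ := hG2 ((θ1 + θ2) / 2)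
  obtain ⟨vb, hvb, hvb2, hvbW⟩ := hG2 ((θ3 + θ4) / 2)
  set T := TD f ε with hT
  set R : ℤ := ⌊κ * d / ε⌋ with hRdef
  have hpi4 := Real.pi_le_four
  have hRL : R ≤ ⌊ρ / ε⌋ := by
    refine Int.floor_le_floor ?_
    refine div_le_div_of_nonneg_right ?_ hε.le
    have : d ≤ 4 := by linarith
    nlinarith
  -- the bound for one arc
  have hone : ∀ (x : ℝ) (v : Vtx), ε ≤ x → Win T v ⌊ρ / ε⌋ B α → ⌈K * x / ε⌉ ≤ R →
      Pr hf (ES T) (XT T v ⌈K * x / ε⌉ R) ≤ C1 * (x / (x + d)) ^ (1 / 3 : ℝ) := by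
    intro x v hx hvW hsm
    obtain ⟨q1, -, -, q4, -⟩ := small_le hε hx hd hK4 hκ0 hκ1 hsm
    have q5 := (hWin T v _ hvW _ _ q4 hsm hRL).1
    have hx0 : 0 < x := by linarith
    have q6 : (((⌈K * x / ε⌉ : ℤ) : ℝ) / (R : ℝ)) ^ (1 / 3 : ℝ) ≤
        (8 * K / κ * (x / (x + d))) ^ (1 / 3 : ℝ) := by
      refine Real.rpow_le_rpow ?_ q1 (by norm_num)
      have : (0 : ℝ) ≤ ((⌈K * x / ε⌉ : ℤ) : ℝ) := by exact_mod_cast (by omega : (0 : ℤ) ≤ ⌈K * x / ε⌉)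
      have : (0 : ℝ) ≤ (R : ℝ) := by exact_mod_cast (by omega : (0 : ℤ) ≤ R)
      positivity
    rw [Real.mul_rpow (by positivity) (by positivity)] at q6
    calc Pr hf (ES T) (XT T v ⌈K * x / ε⌉ R) ≤ C * (((⌈K * x / ε⌉ : ℤ) : ℝ) / (R : ℝ)) ^ (1 / 3 : ℝ) := q5
      _ ≤ C * ((8 * K / κ) ^ (1 / 3 : ℝ) * (x / (x + d)) ^ (1 / 3 : ℝ)) :=
          mul_le_mul_of_nonneg_left q6 hC.le
      _ = C * (8 * K / κ) ^ (1 / 3 : ℝ) * (x / (x + d)) ^ (1 / 3 : ℝ) := by ring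
      _ ≤ C1 * (x / (x + d)) ^ (1 / 3 : ℝ) := by
          refine mul_le_mul_of_nonneg_right ?_ (by positivity)
          rw [hC1]
          linarith
  have hlarge : ∀ x : ℝ, ε ≤ x → ¬ ⌈K * x / ε⌉ ≤ R → 1 ≤ C1 * (x / (x + d)) ^ (1 / 3 : ℝ) := by
    intro x hx hsm
    have hx0 : 0 < x := by linarith
    have q1 := large_le hε hx hd hκ0 hsm
    have q2 : (1 : ℝ) ^ (1 / 3 : ℝ) ≤ ((1 + (K + 1) / κ) * (x / (x + d))) ^ (1 / 3 : ℝ) :=
      Real.rpow_le_rpow zero_le_one q1 (by norm_num)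
    rw [Real.one_rpow, Real.mul_rpow (by positivity) (by positivity)] at q2
    refine q2.trans (mul_le_mul_of_nonneg_right ?_ (by positivity))
    rw [hC1]
    linarith
  have hEE : EE θ1 θ2 θ3 θ4 ^ (1 / 3 : ℝ) =
      (a / (a + d)) ^ (1 / 3 : ℝ) * (b / (b + d)) ^ (1 / 3 : ℝ) := by
    unfold EE
    rw [Real.mul_rpow (by positivity) (by positivity)]
  have hgoal : PC f ε θ1 θ2 θ3 θ4 ≤
      (C1 * (a / (a + d)) ^ (1 / 3 : ℝ)) * (C1 * (b / (b + d)) ^ (1 / 3 : ℝ)) → 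
      PC f ε θ1 θ2 θ3 θ4 ≤ C1 * C1 * EE θ1 θ2 θ3 θ4 ^ (1 / 3 : ℝ) := by
    intro h
    rw [hEE]
    refine h.trans (le_of_eq (by ring))
  apply hgoal
  have hPa : 0 ≤ Pr hf (ES T) (XT T va ⌈K * a / ε⌉ R) := Pr_nonneg okhalf _ _
  have hPb : 0 ≤ Pr hf (ES T) (XT T vb ⌈K * b / ε⌉ R) := Pr_nonneg okhalf _ _
  -- membership
  have hna : ∀ u ∈ near f ε θ1 θ2, u ∈ T ∧ u ∈ BX va ⌈K * a / ε⌉ := by
    rintro u ⟨hu, θ, t1, t2, t3⟩
    refine ⟨hu, near_mem hl hH hε ha hva2 ?_ t3⟩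
    rw [abs_le]
    constructor <;> linarith
  have hnb : ∀ u ∈ near f ε θ3 θ4, u ∈ T ∧ u ∈ BX vb ⌈K * b / ε⌉ := by
    rintro u ⟨hu, θ, t1, t2, t3⟩
    refine ⟨hu, near_mem hl hH hε hb hvb2 ?_ t3⟩
    rw [abs_le]
    constructor <;> linarith
  have hRad : 4 * ε ≤ κ * d → (R : ℝ) * ε ≤ κ * d → 2 * (((2 * R : ℤ) : ℝ) * ε) + 4 * ε < l * (d / 2) ∧
      2 * (((R - 1 : ℤ) : ℝ) * ε) + 4 * ε < l * (d / 2) := by
    intro i1 i2
    have i3 : κ * d ≤ l / 20 * d := mul_le_mul_of_nonneg_right hκl hd.le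
    have i4 : 0 < l * d := by positivity
    push_cast
    constructor <;> nlinarith
  have hfa : 4 * ε ≤ κ * d → (R : ℝ) * ε ≤ κ * d → ∀ w ∈ near f ε θ3 θ4, w ∉ BX va (R - 1) := by
    rintro i1 i2 w ⟨hw, θ, t1, t2, t3⟩
    exact (far_not hl hl0 hε hd.le hva2 (by linarith) (by linarith) t3 (hRad i1 i2).2).1
  have hfb : 4 * ε ≤ κ * d → (R : ℝ) * ε ≤ κ * d → ∀ w ∈ near f ε θ1 θ2, w ∉ BX vb (R - 1) := by
    rintro i1 i2 w ⟨hw, θ, t1, t2, t3⟩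
    exact (far_not hl hl0 hε hd.le t3 (θ := (θ3 + θ4) / 2) (by linarith) (by linarith) hvb2
      (hRad i1 i2).2).2
  have hdis : 4 * ε ≤ κ * d → (R : ℝ) * ε ≤ κ * d → ∀ x, x ∈ BX va R → x ∉ BX vb R := by
    intro i1 i2 x hx hx'
    have := (far_not hl hl0 hε hd.le hva2 (θ := (θ3 + θ4) / 2) (by linarith) (by linarith) hvb2
      (hRad i1 i2).1).1
    apply this
    rw [mem_BX] at hx hx' ⊢
    omega
  have hle1 : PC f ε θ1 θ2 θ3 θ4 ≤ 1 := Pr_le_one okhalf _ _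
  by_cases sa : ⌈K * a / ε⌉ ≤ R
  · obtain ⟨-, -, i1, -, i2⟩ := small_le hε ha hd hK4 hκ0 hκ1 sa
    by_cases sb : ⌈K * b / ε⌉ ≤ R
    · have h1 : PC f ε θ1 θ2 θ3 θ4 ≤ Pr hf (ES T) (XT T va ⌈K * a / ε⌉ R) *
          Pr hf (ES T) (XT T vb ⌈K * b / ε⌉ R) := by
        refine two_le _ (hdis i1 i2) ?_
        rintro F hF ⟨u, hu, w, hw, hr⟩
        exact ⟨XT_exit hF sa (hna u hu).1 (hna u hu).2 (hfa i1 i2 w hw) hr,
          XT_exit hF sb (hnb w hw).1 (hnb w hw).2 (hfb i1 i2 u hu) hr.symm⟩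
      exact h1.trans (mul_le_mul (hone a va ha hvaW sa) (hone b vb hb hvbW sb) hPb
        (hPa.trans (hone a va ha hvaW sa)))
    · have h1 : PC f ε θ1 θ2 θ3 θ4 ≤ Pr hf (ES T) (XT T va ⌈K * a / ε⌉ R) := by
        refine one_le _ ?_
        rintro F hF ⟨u, hu, w, hw, hr⟩
        exact XT_exit hF sa (hna u hu).1 (hna u hu).2 (hfa i1 i2 w hw) hr
      have h2 := hone a va ha hvaW sa
      have h3 := hlarge b hb sb
      calc PC f ε θ1 θ2 θ3 θ4 ≤ (C1 * (a / (a + d)) ^ (1 / 3 : ℝ)) * 1 := by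
            rw [mul_one]; exact h1.trans h2
        _ ≤ _ := mul_le_mul_of_nonneg_left h3 (hPa.trans h2)
  · have h3 := hlarge a ha sa
    by_cases sb : ⌈K * b / ε⌉ ≤ R
    · obtain ⟨-, -, i1, -, i2⟩ := small_le hε hb hd hK4 hκ0 hκ1 sb
      have h1 : PC f ε θ1 θ2 θ3 θ4 ≤ Pr hf (ES T) (XT T vb ⌈K * b / ε⌉ R) := by
        refine one_le _ ?_
        rintro F hF ⟨u, hu, w, hw, hr⟩
        exact XT_exit hF sb (hnb w hw).1 (hnb w hw).2 (hfb i1 i2 u hu) hr.symm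
      have h2 := hone b vb hb hvbW sb
      calc PC f ε θ1 θ2 θ3 θ4 ≤ 1 * (C1 * (b / (b + d)) ^ (1 / 3 : ℝ)) := by
            rw [one_mul]; exact h1.trans h2
        _ ≤ _ := mul_le_mul_of_nonneg_right h3 (hPb.trans h2)
    · have h4 := hlarge b hb sb
      calc PC f ε θ1 θ2 θ3 θ4 ≤ 1 * 1 := by rw [one_mul]; exact hle1
        _ ≤ _ := mul_le_mul h3 h4 zero_le_one (zero_le_one.trans h3)

end Pool.Agent.Y989.SD.AUP
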