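import Pool.Agent.Y989.SD.Stm

/-!
Project SD, job SD-BASE: one arm in half-planes.
-/

set_option autoImplicit false

namespace Pool.Agent.Y989.SD.BASE

open H974 H973 Finset

theorem mem_UUhs {s : ℝ} {R : ℤ} {y : Vtx} : y ∈ UU (hs s) R ↔
    ((-R ≤ y.1 ∧ y.1 ≤ R) ∧ (-(32 * R) ≤ y.2 ∧ y.2 ≤ 32 * R)) ∧ s * (y.1 : ℝ) ≤ (y.2 : ℝ) := by
  rw [mem_UU, mem_QB]
  unfold hs
  rw [Int.ceil_le]

theorem inter_eq {s : ℝ} {R : ℤ} (_hR : 1 ≤ R) :
    UU (hs s) R ∩ BX (0, 0) R = HB s (-1) R := by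
  ext y
  rw [Finset.mem_inter, mem_UUhs, mem_BX, mem_HB]
  simp only [zero_sub, zero_add]
  constructor
  · rintro ⟨⟨⟨h1, h2⟩, h3⟩, h4, h5⟩
    exact ⟨⟨h4, h5⟩, by linarith⟩
  · rintro ⟨⟨h4, h5⟩, h3⟩
    exact ⟨⟨⟨h4, by omega⟩, by linarith⟩, h4, h5⟩

theorem ES_mono {S T : Finset Vtx} (h : S ⊆ T) : ES S ⊆ ES T := by
  intro e he
  rw [mem_ES] at he ⊢
  exact ⟨h he.1, h he.2⟩

theorem zero_mem {s : ℝ} {R : ℤ} (hR : 1 ≤ R) : ((0, 0) : Vtx) ∈ UU (hs s) R := by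
  rw [mem_UUhs]
  simp only [Int.cast_zero, mul_zero, le_refl, and_true]
  omega

theorem upper {s : ℝ} {R : ℤ} (hR : 1 ≤ R) : AP (hs s) R ≤ armP (HB s (-1) R) R := by
  have hsub : ES (HB s (-1) R) ⊆ ES (UU (hs s) R) := by
    rw [← inter_eq hR]
    exact ES_mono Finset.inter_subset_left
  unfold AP armP
  rw [← Pr_restrict hsub (armC (HB s (-1) R) (0, 0) R)]
  apply Pr_mono okhalf
  rintro F hF ⟨y, hy, hyQ, hreach⟩
  rw [mem_UUhs] at hy
  have h1 := arm_exit hF (c := (0, 0)) (n := R) (zero_mem hR) (by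
    rw [mem_BX]; simp only; omega) hreach (by
    unfold onQ at hyQ
    simp only
    omega)
  rw [inter_eq hR] at h1
  exact h1

theorem lower {s : ℝ} {R : ℤ} (hs2 : |s| ≤ 2) (hR : 1 ≤ R) :
    armP (HB s (-1) (32 * R)) (32 * R) ≤ AP (hs s) R := by
  have hsubV : UU (hs s) R ⊆ HB s (-1) (32 * R) := by
    intro y hy
    rw [mem_UUhs] at hy
    rw [mem_HB]
    obtain ⟨⟨h1, h2⟩, h3⟩ := hy
    exact ⟨⟨by omega, by omega⟩, by linarith⟩
  have hsub : ES (UU (hs s) R) ⊆ ES (HB s (-1) (32 * R)) := ES_mono hsubV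
  unfold AP armP
  rw [show hf = (fun _ : Edg => (1/2 : ℝ)) from rfl, ← Pr_restrict hsub (armQ (hs s) R)]
  apply Pr_mono okhalf
  rintro F hF ⟨y, hy, hyB, hreach⟩
  obtain ⟨w, h1, h2, h3⟩ := first_exit (a := -R) (b := R) (c := -(32 * R)) (d := 32 * R)
    (u := ((0, 0) : Vtx)) (by unfold inR; simp only; omega) hreach (by
      unfold onBX at hyB
      simp only at hyB
      omega)
  have h00 : ((0, 0) : Vtx) ∈ HB s (-1) (32 * R) := hsubV (zero_mem hR)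
  have hw : w ∈ HB s (-1) (32 * R) := reach_mem (F := (F : Set Edg))
    (fun e he => hF (Finset.mem_coe.mp he)) h00 (h3.mono Set.inter_subset_left)
  rw [mem_HB] at hw
  unfold inR at h1
  have hwU : w ∈ UU (hs s) R := by
    rw [mem_UUhs]
    exact ⟨h1, by linarith [hw.2]⟩
  have hw2 : w.2 ≠ -(32 * R) := by
    intro hh
    have e1 : s * (w.1 : ℝ) ≤ (w.2 : ℝ) := by linarith [hw.2]
    rw [hh] at e1
    have e2 : |s * (w.1 : ℝ)| ≤ 2 * R := by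
      rw [abs_mul]
      have e3 : |(w.1 : ℝ)| ≤ R := by
        rw [abs_le]
        constructor
        · exact_mod_cast h1.1.1
        · exact_mod_cast h1.1.2
      exact mul_le_mul hs2 e3 (abs_nonneg _) (by norm_num)
    have e4 := (abs_le.1 e2).1
    have e5 : (1 : ℝ) ≤ R := by exact_mod_cast hR
    push_cast at e1
    linarith
  refine ⟨w, hwU, ?_, h3.mono ?_⟩
  · unfold onQ
    rcases h2 with h2 | h2 | h2 | h2
    · exact Or.inl h2
    · exact Or.inr (Or.inl h2)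
    · exact absurd h2 hw2
    · exact Or.inr (Or.inr h2)
  · rintro e ⟨he1, he2⟩
    rw [Finset.mem_coe] at he1 he2 ⊢
    rw [Finset.mem_inter, mem_ES, mem_UUhs, mem_UUhs]
    have h5 := mem_ES.mp (hF he1)
    rw [mem_HB, mem_HB] at h5
    obtain ⟨h6, h7⟩ := mem_RE_ends he2
    unfold inR at h6 h7
    exact ⟨he1, ⟨h6, by linarith [h5.1.2]⟩, h7, by linarith [h5.2.2]⟩

theorem t_BASE : S_BASE := by
  obtain ⟨c, C, hc, hC, h⟩ := exponents
  refine ⟨c * (32 : ℝ) ^ (-(1 / 3 : ℝ)), C, by positivity, hC, fun s R hs2 hR => ?_⟩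
  have key : ∀ n : ℕ, 1 ≤ n → c * (n : ℝ) ^ (-(1 / 3 : ℝ)) ≤ armP (HB s (-1) n) n ∧
      armP (HB s (-1) n) n ≤ C * (n : ℝ) ^ (-(1 / 3 : ℝ)) := by
    intro n hn
    obtain ⟨e1, e2⟩ := (h n hn).2 s (-1) (Or.inr (by norm_num))
    have hn0 : (0 : ℝ) < n := by exact_mod_cast hn
    have hp : 0 < (n : ℝ) ^ ((1 : ℝ) / 3) := Real.rpow_pos_of_pos hn0 _
    have hinv : (n : ℝ) ^ (-(1 / 3 : ℝ)) = ((n : ℝ) ^ ((1 : ℝ) / 3))⁻¹ := Real.rpow_neg hn0.le _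
    rw [hinv, ← div_eq_mul_inv, ← div_eq_mul_inv, div_le_iff₀ hp, le_div_iff₀ hp]
    constructor <;> linarith [mul_comm ((n : ℝ) ^ ((1 : ℝ) / 3)) (armP (HB s (-1) n) n)]
  lift R to ℕ using (by omega) with n
  have hn : 1 ≤ n := by exact_mod_cast hR
  constructor
  · have h1 := (key (32 * n) (by omega)).1
    have h2 := lower (s := s) (R := (n : ℤ)) hs2 hR
    have e1 : ((32 * n : ℕ) : ℤ) = 32 * (n : ℤ) := by push_cast; ring
    rw [e1] at h1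
    refine le_trans ?_ (h1.trans h2)
    have e2 : ((32 * n : ℕ) : ℝ) ^ (-(1 / 3 : ℝ)) =
        (32 : ℝ) ^ (-(1 / 3 : ℝ)) * (n : ℝ) ^ (-(1 / 3 : ℝ)) := by
      push_cast
      rw [Real.mul_rpow (by norm_num) (by positivity)]
    rw [e2, mul_assoc]
    simp
  · have h1 := (key n hn).2
    have h2 := upper (s := s) (R := (n : ℤ)) hR
    refine h2.trans (h1.trans (le_of_eq ?_))
    simp

end Pool.Agent.Y989.SD.BASE
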