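import Mathlib
import Pool.Agent.H973R2.Exp3
import Pool.Agent.H974R2.Split

/-!
Project SD (helper989): crossing probabilities between two boundary arcs of a smooth Jordan domain
are, up to constants, Cardy's function of the cross-ratio.  Definitions and statements of the parts.
-/

set_option autoImplicit false

namespace Pool.Agent.Y989.SD

open H974 H973 Finset

/-- Every edge is open with probability `1/2`. -/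
noncomputable abbrev hf : Edg → ℝ := fun _ => 1 / 2

/-! ## Epigraph domains -/

/-- The box `[-R, R] × [-32 R, 32 R]`. -/
noncomputable def QB (R : ℤ) : Finset Vtx := Icc (-R) R ×ˢ Icc (-(32 * R)) (32 * R)

theorem mem_QB {R : ℤ} {y : Vtx} :
    y ∈ QB R ↔ (-R ≤ y.1 ∧ y.1 ≤ R) ∧ (-(32 * R) ≤ y.2 ∧ y.2 ≤ 32 * R) := by
  unfold QB
  rw [Finset.mem_product, Finset.mem_Icc, Finset.mem_Icc]

open Classical in
/-- The vertices of the box on or above the graph of `h`. -/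
noncomputable def UU (h : ℤ → ℤ) (R : ℤ) : Finset Vtx := (QB R).filter fun y => h y.1 ≤ y.2

theorem mem_UU {h : ℤ → ℤ} {R : ℤ} {y : Vtx} : y ∈ UU h R ↔ y ∈ QB R ∧ h y.1 ≤ y.2 := by
  unfold UU
  rw [Finset.mem_filter]

/-- `h` vanishes at `0` and its steps are at most `K`. -/
structure Lp (K : ℤ) (h : ℤ → ℤ) : Prop where
  zero : h 0 = 0
  lip : ∀ x, |h (x + 1) - h x| ≤ K

/-- The left, right and top sides of the box. -/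
def onQ (R : ℤ) (y : Vtx) : Prop := y.1 = -R ∨ y.1 = R ∨ y.2 = 32 * R

/-- `0` is joined to the sides of the box. -/
def armQ (h : ℤ → ℤ) (R : ℤ) (F : Finset Edg) : Prop :=
  ∃ y ∈ UU h R, onQ R y ∧ Reach (F : Set Edg) (0, 0) y

/-- One-arm probability in the epigraph domain. -/
noncomputable def AP (h : ℤ → ℤ) (R : ℤ) : ℝ := Pr hf (ES (UU h R)) (armQ h R)

/-- The box of radius `r` is joined to the sides of the box of radius `R`. -/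
def annQ (h : ℤ → ℤ) (r R : ℤ) (F : Finset Edg) : Prop :=
  ∃ u ∈ UU h r, ∃ y ∈ UU h R, onQ R y ∧ Reach (F : Set Edg) u y

/-- Crossing probability of the annulus in the epigraph domain. -/
noncomputable def XP (h : ℤ → ℤ) (r R : ℤ) : ℝ := Pr hf (ES (UU h R)) (annQ h r R)

/-- The vertex `u` of the epigraph domain has a neighbour outside. -/
def btH (h : ℤ → ℤ) (u : Vtx) : Prop :=
  h u.1 ≤ u.2 ∧ (u.2 < h (u.1 + 1) ∨ u.2 < h (u.1 - 1) ∨ u.2 - 1 < h u.1)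

/-- The `F`-cluster of `z` meets every path of `T` from `A` to `B`. -/
def Blk (T : Finset Vtx) (A B : Vtx → Prop) (z : Vtx) (F : Finset Edg) : Prop :=
  ∀ u ∈ T, A u → ∀ w ∈ T, B w →
    ¬ Reach (EV fun y => y ∈ T ∧ ¬ Reach (F : Set Edg) z y) u w

/-- Some cluster, which touches the graph of `h`, blocks the half-annulus. -/
def hcQ (h : ℤ → ℤ) (r : ℤ) (F : Finset Edg) : Prop :=
  ∃ z ∈ UU h (2 * r), btH h z ∧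
    Blk (UU h (2 * r)) (fun u => u ∈ QB r) (fun w => onQ (2 * r) w) z F

/-- Planarity: an arch and a path starting below it. -/
def S_ARCH : Prop := ∀ (a b c d : ℤ) (V V' : Vtx → Prop) (x1 x2 x' : ℤ) (w' : Vtx),
  a ≤ x1 → x1 < x' → x' < x2 → x2 ≤ b → c < d → (∀ w, V w → V' w → False) →
  V (x1, c) → Reach (EV V ∩ ↑(RE a b c d)) (x1, c) (x2, c) →
  V' (x', c) → Reach (EV V' ∩ ↑(RE a b c d)) (x', c) w' →
  (w'.1 ≤ a ∨ b ≤ w'.1 ∨ d ≤ w'.2 ∨ (w'.2 ≤ c ∧ (w'.1 < x1 ∨ x2 < w'.1))) → False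

/-- Three crossings give a blocking cluster. -/
def S_HCD : Prop := ∀ (h : ℤ → ℤ) (r : ℤ) (F : Finset Edg), Lp 10 h → 1 ≤ r →
  LRc (-(2 * r)) (2 * r) (32 * r) (64 * r) F →
  TBc (-(2 * r)) (-r) (-(64 * r)) (64 * r) F → TBc r (2 * r) (-(64 * r)) (64 * r) F →
  hcQ h r (F ∩ ES (UU h (2 * r)))

/-- Blocking clusters exist at every scale. -/
def S_HCP : Prop := ∃ c : ℝ, 0 < c ∧ ∀ (h : ℤ → ℤ) (r : ℤ), Lp 10 h → 1 ≤ r →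
  c ≤ Pr hf (ES (UU h (2 * r))) (hcQ h r)

/-- Extension of arms. -/
def S_EXT : Prop := ∃ c : ℝ, 0 < c ∧ ∀ (h : ℤ → ℤ) (R : ℤ), Lp 10 h → 1 ≤ R →
  c ≤ AP h 1 ∧ c * AP h R ≤ AP h (2 * R)

/-- Quasi-multiplicativity. -/
def S_QM : Prop := ∃ c : ℝ, 0 < c ∧ ∀ (h : ℤ → ℤ) (r R : ℤ), Lp 10 h → 1 ≤ r → r ≤ R →
  c * (AP h r * XP h r R) ≤ AP h R

/-- Submultiplicativity. -/
def S_SUB : Prop := ∀ (h : ℤ → ℤ) (r R : ℤ), Lp 10 h → 1 ≤ r → r ≤ R →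
  AP h R ≤ AP h r * XP h r R

/-- Monotonicity. -/
def S_MONO : Prop :=
  (∀ (h h' : ℤ → ℤ) (R : ℤ), Lp 10 h → Lp 10 h' → 1 ≤ R → (∀ x, |x| ≤ R → h' x ≤ h x) →
    AP h R ≤ AP h' R) ∧
  ∀ (h : ℤ → ℤ) (r R : ℤ), Lp 10 h → 1 ≤ r → r ≤ R → AP h R ≤ AP h r

/-- The cluster of the origin in the epigraph domain. -/
def Kap (h : ℤ → ℤ) (R : ℤ) (F : Finset Edg) (y : Vtx) : Prop :=
  y ∈ UU h R ∧ Reach (↑(F ∩ ES (UU h R)) : Set Edg) (0, 0) y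

/-- `x` is the largest column `≤ 15 X` in which the set `κ` touches the graph of `h`, and
`X - 1 ≤ x`. -/
def ColR (h : ℤ → ℤ) (X : ℤ) (κ : Vtx → Prop) (x : ℤ) : Prop :=
  X - 1 ≤ x ∧ x ≤ 15 * X ∧ (∃ q, κ q ∧ btH h q ∧ q.1 = x) ∧
    ∀ q, κ q → btH h q → q.1 ≤ 15 * X → q.1 ≤ x

/-- The same on the left. -/
def ColL (h : ℤ → ℤ) (X : ℤ) (κ : Vtx → Prop) (x : ℤ) : Prop :=
  X - 1 ≤ -x ∧ -x ≤ 15 * X ∧ (∃ q, κ q ∧ btH h q ∧ q.1 = x) ∧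
    ∀ q, κ q → btH h q → -q.1 ≤ 15 * X → x ≤ q.1

/-- Deterministic part of the comparison of two domains. -/
def S_CMPD : Prop := ∀ (h h' : ℤ → ℤ) (X w R : ℤ) (F : Finset Edg), Lp 10 h → Lp 10 h' →
  (∀ x, h' x ≤ h x) → (∀ x, h x - h' x ≤ w) → (∀ x, |x| < X ∨ 14 * X < |x| → h x = h' x) →
  1 ≤ X → 32 * X ≤ R → F ⊆ ES (UU h' R) → armQ h' R F → ¬ armQ h R (F ∩ ES (UU h R)) →
  ∃ x, (ColR h X (Kap h R F) x ∨ ColL h X (Kap h R F) x) ∧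
    ∃ u ∈ BX (x, h x) (w + 24), ∃ y ∈ UU h' R, onQ R y ∧
      Reach ((F : Set Edg) ∩ {e | ¬ Kap h R F (src e) ∧ ¬ Kap h R F (tgt e)}) u y

/-- Comparison of the arms in two domains which differ little, at one scale. -/
def S_CMP : Prop := ∃ C β : ℝ, 0 < C ∧ 0 < β ∧ ∀ (h h' : ℤ → ℤ) (X w R : ℤ), Lp 10 h → Lp 10 h' →
  (∀ x, h' x ≤ h x) → (∀ x, h x - h' x ≤ w) → (∀ x, |x| < X ∨ 14 * X < |x| → h x = h' x) →
  1 ≤ w → 1 ≤ X → 32 * X ≤ R →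
  AP h' R ≤ (1 + C * ((w : ℝ) / X) ^ β) * AP h R

/-- The straight line of slope `s`. -/
noncomputable def hs (s : ℝ) (x : ℤ) : ℤ := ⌈s * (x : ℝ)⌉

/-- `h` is `C^(1,α)`-close to the line of slope `s`, at all scales up to `L`. -/
def Flat (h : ℤ → ℤ) (s B α : ℝ) (L : ℤ) : Prop :=
  ∀ x : ℤ, |x| ≤ L → |(h x : ℝ) - s * x| ≤ B * (1 + |(x : ℝ)| * (|(x : ℝ)| / L) ^ α)

/-- Comparison with the half-plane. -/
def S_TEL : Prop := ∀ B α : ℝ, 0 < α → ∃ c : ℝ, 0 < c ∧ ∀ (h : ℤ → ℤ) (s : ℝ) (L R : ℤ), Lp 3 h →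
  |s| ≤ 2 → Flat h s B α L → 1 ≤ R → R ≤ L →
  c * AP (hs s) R ≤ AP h R ∧ c * AP h R ≤ AP (hs s) R

/-- One arm in half-planes. -/
def S_BASE : Prop := ∃ c C : ℝ, 0 < c ∧ 0 < C ∧ ∀ (s : ℝ) (R : ℤ), |s| ≤ 2 → 1 ≤ R →
  c * (R : ℝ) ^ (-(1 / 3 : ℝ)) ≤ AP (hs s) R ∧ AP (hs s) R ≤ C * (R : ℝ) ^ (-(1 / 3 : ℝ))

/-! ## Windows in a general finite set of vertices -/

/-- The vertex with coordinates `y` in the frame at `v` with upward direction `e`. -/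
def emb (e v y : Vtx) : Vtx := (v.1 + y.1 * e.2 + y.2 * e.1, v.2 - y.1 * e.1 + y.2 * e.2)

/-- Around the vertex `v`, up to the distance `L`, the set `T` is the epigraph of a function which is
`C^(1,α)`-close to a straight line through `v`. -/
def Win (T : Finset Vtx) (v : Vtx) (L : ℤ) (B α : ℝ) : Prop :=
  ∃ e : Vtx, (e = (0, 1) ∨ e = (1, 0) ∨ e = (0, -1) ∨ e = (-1, 0)) ∧
    ∃ (h : ℤ → ℤ) (s : ℝ), Lp 3 h ∧ |s| ≤ 2 ∧ Flat h s B α L ∧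
      ∀ y ∈ QB L, (emb e v y ∈ T ↔ h y.1 ≤ y.2)

/-- A vertex of `T` with a neighbour outside `T`. -/
def btT (T : Finset Vtx) (u : Vtx) : Prop :=
  u ∈ T ∧ ((u.1 + 1, u.2) ∉ T ∨ (u.1 - 1, u.2) ∉ T ∨ (u.1, u.2 + 1) ∉ T ∨ (u.1, u.2 - 1) ∉ T)

/-- Crossing of the annulus around `v` inside `T`. -/
def XT (T : Finset Vtx) (v : Vtx) (r R : ℤ) (F : Finset Edg) : Prop :=
  ∃ u ∈ T, u ∈ BX v r ∧ ∃ w ∈ T, w ∉ BX v (R - 1) ∧ Reach (F : Set Edg) u w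

/-- Arm from `v` inside `T`. -/
def VT (T : Finset Vtx) (v : Vtx) (R : ℤ) (F : Finset Edg) : Prop :=
  ∃ w ∈ T, w ∉ BX v (R - 1) ∧ Reach (F : Set Edg) v w

/-- A cluster of a boundary vertex blocks the annulus around `v` inside `T`. -/
def HT (T : Finset Vtx) (v : Vtx) (r R : ℤ) (F : Finset Edg) : Prop :=
  ∃ z ∈ T, z ∈ BX v R ∧ btT T z ∧ Blk T (fun u => u ∈ BX v r) (fun w => w ∉ BX v (R - 1)) z F

/-- The estimates in the windows. -/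
def S_WIN : Prop := ∀ B α : ℝ, 0 < α → ∃ c C : ℝ, 0 < c ∧ 0 < C ∧
  ∀ (T : Finset Vtx) (v : Vtx) (L : ℤ), Win T v L B α → ∀ r R : ℤ, 1 ≤ r → r ≤ R → R ≤ L →
    Pr hf (ES T) (XT T v r R) ≤ C * ((r : ℝ) / R) ^ (1 / 3 : ℝ) ∧
    c * ((r : ℝ) / R) ^ (1 / 3 : ℝ) ≤ Pr hf (ES T) (XT T v r R) ∧
    c * (R : ℝ) ^ (-(1 / 3 : ℝ)) ≤ Pr hf (ES T) (VT T v R) ∧
    (128 * r ≤ L → c ≤ Pr hf (ES T) (HT T v r (64 * r)))

/-! ## Smooth Jordan domains -/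

/-- The closed unit disc. -/
def disc : Set ℂ := Metric.closedBall 0 1

/-- The point of the unit circle of argument `θ`. -/
noncomputable def cir (θ : ℝ) : ℂ := Complex.exp (θ * Complex.I)

/-- `f` maps the closed unit disc injectively, is complex differentiable there up to the boundary,
with the nonvanishing derivative `g`, and the error of the first-order expansion is
`O(|z - w|^(1+α))`, uniformly. -/
structure SmW (f g : ℂ → ℂ) (M α : ℝ) : Prop where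
  al0 : 0 < α
  al1 : α ≤ 1
  exp : ∀ z ∈ disc, ∀ w ∈ disc, ‖f z - f w - g w * (z - w)‖ ≤ M * ‖z - w‖ ^ (1 + α)
  ne : ∀ w ∈ disc, g w ≠ 0
  inj : Set.InjOn f disc

/-- `f` is a conformal map of the closed disc onto a `C^(1,α)` Jordan domain, up to the boundary. -/
def Smooth (f : ℂ → ℂ) : Prop := ∃ (g : ℂ → ℂ) (M α : ℝ), SmW f g M α

/-- The inward unit normal at the boundary point `f w`. -/
noncomputable def nu (g : ℂ → ℂ) (w : ℂ) : ℂ := -(w * g w) / (‖g w‖ : ℂ)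

/-- The real scalar product. -/
noncomputable def ip (a b : ℂ) : ℝ := a.re * b.re + a.im * b.im

/-- Elementary properties of `f`. -/
def S_GA : Prop := ∀ (f g : ℂ → ℂ) (M α : ℝ), SmW f g M α →
  ∃ l H : ℝ, 0 < l ∧ 0 < H ∧
    (∀ z ∈ disc, ∀ w ∈ disc, l * ‖z - w‖ ≤ ‖f z - f w‖ ∧ ‖f z - f w‖ ≤ H * ‖z - w‖) ∧
    (∀ w ∈ disc, l ≤ ‖g w‖ ∧ ‖g w‖ ≤ H) ∧
    (∀ z ∈ disc, ∀ w ∈ disc, ‖g z - g w‖ ≤ H * ‖z - w‖ ^ α) ∧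
    IsCompact (f '' disc) ∧ (∀ w, ‖w‖ < 1 → f w ∈ interior (f '' disc))

/-- Near a boundary point the domain is close to the half-plane. -/
def S_GB : Prop := ∀ (f g : ℂ → ℂ) (M α : ℝ), SmW f g M α → ∃ ρ C : ℝ, 0 < ρ ∧ 0 < C ∧
  ∀ w : ℂ, ‖w‖ = 1 → ∀ z : ℂ, ‖z - f w‖ ≤ ρ →
    (z ∈ f '' disc → -(C * ‖z - f w‖ ^ (1 + α)) ≤ ip (nu g w) (z - f w)) ∧
    (C * ‖z - f w‖ ^ (1 + α) ≤ ip (nu g w) (z - f w) → z ∈ f '' disc)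

/-- The cone property. -/
def S_GC : Prop := ∀ (f g : ℂ → ℂ) (M α : ℝ), SmW f g M α → ∃ ρ : ℝ, 0 < ρ ∧
  ∀ w : ℂ, ‖w‖ = 1 → ∀ z ∈ f '' disc, ‖z - f w‖ ≤ ρ → ∀ ξ : ℂ, ‖ξ‖ ≤ ρ →
    1 / 5 * ‖ξ‖ ≤ ip (nu g w) ξ → z + ξ ∈ f '' disc

/-- The position of the vertex `v` of the lattice `ε ℤ²`. -/
noncomputable def pos (ε : ℝ) (v : Vtx) : ℂ := ⟨ε * v.1, ε * v.2⟩

open Classical in
/-- The vertices of `ε ℤ²` in the domain `f '' disc`. -/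
noncomputable def TD (f : ℂ → ℂ) (ε : ℝ) : Finset Vtx :=
  if h : {v : Vtx | pos ε v ∈ f '' disc}.Finite then h.toFinset else ∅

/-- The lattice domain, near its boundary. -/
def S_GD : Prop := ∀ (f g : ℂ → ℂ) (M α : ℝ), SmW f g M α → ∃ ρ B ε0 : ℝ, 0 < ρ ∧ 0 < ε0 ∧
  ∀ ε : ℝ, 0 < ε → ε ≤ ε0 →
    (∀ v : Vtx, v ∈ TD f ε ↔ pos ε v ∈ f '' disc) ∧
    (∀ θ : ℝ, ∃ v ∈ TD f ε, ‖pos ε v - f (cir θ)‖ ≤ 2 * ε ∧ Win (TD f ε) v ⌊ρ / ε⌋ B α) ∧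
    (∀ v : Vtx, btT (TD f ε) v → ∃ θ : ℝ, ‖pos ε v - f (cir θ)‖ ≤ ε)

/-- The vertices of the lattice domain at distance at most `2 ε` from the boundary arc
`f (cir [θ₁, θ₂])`. -/
def near (f : ℂ → ℂ) (ε θ1 θ2 : ℝ) : Set Vtx :=
  {v | v ∈ TD f ε ∧ ∃ θ, θ1 ≤ θ ∧ θ ≤ θ2 ∧ ‖pos ε v - f (cir θ)‖ ≤ 2 * ε}

/-- Probability that two boundary arcs are joined inside the domain. -/
noncomputable def PC (f : ℂ → ℂ) (ε θ1 θ2 θ3 θ4 : ℝ) : ℝ :=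
  Pr hf (ES (TD f ε)) fun F => ∃ u ∈ near f ε θ1 θ2, ∃ w ∈ near f ε θ3 θ4,
    Reach (F : Set Edg) u w

/-- The elementary expression comparable to the cross-ratio. -/
noncomputable def EE (θ1 θ2 θ3 θ4 : ℝ) : ℝ :=
  (θ2 - θ1) / (θ2 - θ1 + min (θ3 - θ2) (θ1 + 2 * Real.pi - θ4)) *
    ((θ4 - θ3) / (θ4 - θ3 + min (θ3 - θ2) (θ1 + 2 * Real.pi - θ4)))

/-- Upper bound for arcs. -/
def S_AUP : Prop := ∀ f : ℂ → ℂ, Smooth f → ∃ C ε0 : ℝ, 0 < C ∧ 0 < ε0 ∧ ∀ ε θ1 θ2 θ3 θ4 : ℝ,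
  0 < ε → ε ≤ ε0 → θ1 < θ2 → θ2 < θ3 → θ3 < θ4 → θ4 < θ1 + 2 * Real.pi →
  ε ≤ θ2 - θ1 → ε ≤ θ4 - θ3 → PC f ε θ1 θ2 θ3 θ4 ≤ C * EE θ1 θ2 θ3 θ4 ^ (1 / 3 : ℝ)

/-- Lower bound for arcs. -/
def S_ALO : Prop := ∀ f : ℂ → ℂ, Smooth f → ∃ c ε0 : ℝ, 0 < c ∧ 0 < ε0 ∧ ∀ ε θ1 θ2 θ3 θ4 : ℝ,
  0 < ε → ε ≤ ε0 → θ1 < θ2 → θ2 < θ3 → θ3 < θ4 → θ4 < θ1 + 2 * Real.pi →
  ε ≤ θ2 - θ1 → ε ≤ θ4 - θ3 → c * EE θ1 θ2 θ3 θ4 ^ (1 / 3 : ℝ) ≤ PC f ε θ1 θ2 θ3 θ4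

/-- The cross-ratio of four points of the unit circle. -/
noncomputable def xr (θ1 θ2 θ3 θ4 : ℝ) : ℝ :=
  Real.sin ((θ2 - θ1) / 2) * Real.sin ((θ4 - θ3) / 2) /
    (Real.sin ((θ3 - θ1) / 2) * Real.sin ((θ4 - θ2) / 2))

/-- The cross-ratio is comparable to `EE`, and lies between `0` and `1`. -/
def S_XR : Prop := ∃ c C : ℝ, 0 < c ∧ 0 < C ∧ ∀ θ1 θ2 θ3 θ4 : ℝ, θ1 < θ2 → θ2 < θ3 → θ3 < θ4 →
  θ4 < θ1 + 2 * Real.pi → 0 < xr θ1 θ2 θ3 θ4 ∧ xr θ1 θ2 θ3 θ4 < 1 ∧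
    c * EE θ1 θ2 θ3 θ4 ≤ xr θ1 θ2 θ3 θ4 ∧ xr θ1 θ2 θ3 θ4 ≤ C * EE θ1 θ2 θ3 θ4

/-- Cardy's function. -/
noncomputable def cardy (x : ℝ) : ℝ :=
  (∫ t in (0 : ℝ)..x, (t * (1 - t)) ^ (-(2 / 3 : ℝ))) /
    ∫ t in (0 : ℝ)..1, (t * (1 - t)) ^ (-(2 / 3 : ℝ))

/-- Cardy's function is comparable to the cube root. -/
def S_CDY : Prop := ∃ c C : ℝ, 0 < c ∧ 0 < C ∧ ∀ x : ℝ, 0 < x → x < 1 →
  c * x ^ (1 / 3 : ℝ) ≤ cardy x ∧ cardy x ≤ C * x ^ (1 / 3 : ℝ)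

end Pool.Agent.Y989.SD
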