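import Mathlib
import Pool.Agent.Y989.SD.Stm

/-!
# Cardy's function is comparable to the cube root
-/

set_option autoImplicit false

open MeasureTheory intervalIntegral Set Pool.Agent.Y989.SD

namespace Pool.Agent.Y989.SD.CDY

noncomputable def ph (t : ℝ) : ℝ := (t * (1 - t)) ^ (-(2 / 3 : ℝ))

lemma ph_nonneg {t : ℝ} (h0 : 0 ≤ t) (h1 : t ≤ 1) : 0 ≤ ph t :=
  Real.rpow_nonneg (mul_nonneg h0 (by linarith)) _

lemma int_pow (a b : ℝ) : IntervalIntegrable (fun t : ℝ => t ^ (-(2 / 3 : ℝ))) volume a b :=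
  intervalIntegral.intervalIntegrable_rpow' (by norm_num)

lemma int_pow' (a b : ℝ) :
    IntervalIntegrable (fun t : ℝ => (1 - t) ^ (-(2 / 3 : ℝ))) volume a b := by
  have h := (int_pow (1 - a) (1 - b)).comp_sub_left 1
  simpa using h

lemma val_pow (x : ℝ) :
    ∫ t in (0 : ℝ)..x, t ^ (-(2 / 3 : ℝ)) = 3 * x ^ (1 / 3 : ℝ) := by
  rw [integral_rpow (Or.inl (by norm_num))]
  have h1 : (-(2 / 3 : ℝ) + 1) = 1 / 3 := by norm_num
  rw [h1, Real.zero_rpow (by norm_num)]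
  ring

lemma two_pos' : (0 : ℝ) < 2 ^ (2 / 3 : ℝ) := Real.rpow_pos_of_pos two_pos _

/-- bound on the left half -/
lemma ph_le_left {t : ℝ} (h0 : 0 < t) (h1 : t ≤ 1 / 2) :
    ph t ≤ 2 ^ (2 / 3 : ℝ) * t ^ (-(2 / 3 : ℝ)) := by
  have h2 : (2 : ℝ) ^ (2 / 3 : ℝ) = (1 / 2 : ℝ) ^ (-(2 / 3 : ℝ)) := by
    rw [one_div, Real.inv_rpow two_pos.le, Real.rpow_neg two_pos.le, inv_inv]
  rw [h2, ← Real.mul_rpow (by norm_num) h0.le, ph]
  apply Real.rpow_le_rpow_of_nonpos (by positivity) _ (by norm_num)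
  nlinarith

lemma ph_symm (t : ℝ) : ph (1 - t) = ph t := by
  unfold ph
  congr 1
  ring

lemma ph_ge {t : ℝ} (h0 : 0 < t) (h1 : t < 1) : t ^ (-(2 / 3 : ℝ)) ≤ ph t := by
  apply Real.rpow_le_rpow_of_nonpos (mul_pos h0 (by linarith)) _ (by norm_num)
  nlinarith

lemma ph_le {t : ℝ} (h0 : 0 < t) (h1 : t < 1) :
    ph t ≤ 2 ^ (2 / 3 : ℝ) * t ^ (-(2 / 3 : ℝ)) + 2 ^ (2 / 3 : ℝ) * (1 - t) ^ (-(2 / 3 : ℝ)) := by
  have h2 : 0 ≤ (2 : ℝ) ^ (2 / 3 : ℝ) * t ^ (-(2 / 3 : ℝ)) :=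
    mul_nonneg two_pos'.le (Real.rpow_nonneg h0.le _)
  have h3 : 0 ≤ (2 : ℝ) ^ (2 / 3 : ℝ) * (1 - t) ^ (-(2 / 3 : ℝ)) :=
    mul_nonneg two_pos'.le (Real.rpow_nonneg (by linarith) _)
  rcases le_total t (1 / 2) with h | h
  · linarith [ph_le_left h0 h]
  · have := ph_le_left (t := 1 - t) (by linarith) (by linarith)
    rw [ph_symm] at this
    linarith

lemma ph_int {a b : ℝ} (h0 : 0 ≤ a) (hab : a ≤ b) (h1 : b ≤ 1) :
    IntervalIntegrable ph volume a b := by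
  have hg : IntervalIntegrable (fun t : ℝ => 2 ^ (2 / 3 : ℝ) * t ^ (-(2 / 3 : ℝ)) +
      2 ^ (2 / 3 : ℝ) * (1 - t) ^ (-(2 / 3 : ℝ))) volume a b :=
    ((int_pow a b).const_mul _).add ((int_pow' a b).const_mul _)
  refine hg.mono_fun' ?_ ?_
  · apply Measurable.aestronglyMeasurable
    unfold ph
    fun_prop
  · rw [uIoc_of_le hab]
    have h2 : ∀ᵐ t : ℝ ∂volume, t ≠ 1 := by
      simp [ae_iff, measure_singleton]
    filter_upwards [ae_restrict_mem measurableSet_Ioc, ae_restrict_of_ae h2] with t ht ht1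
    have h3 : 0 < t := lt_of_le_of_lt h0 ht.1
    have h4 : t < 1 := lt_of_le_of_ne (ht.2.trans h1) ht1
    rw [Real.norm_of_nonneg (ph_nonneg h3.le h4.le)]
    exact ph_le h3 h4

theorem main : ∃ c C : ℝ, 0 < c ∧ 0 < C ∧ ∀ x : ℝ, 0 < x → x < 1 →
    c * x ^ (1 / 3 : ℝ) ≤ (∫ t in (0 : ℝ)..x, ph t) / (∫ t in (0 : ℝ)..1, ph t) ∧
    (∫ t in (0 : ℝ)..x, ph t) / (∫ t in (0 : ℝ)..1, ph t) ≤ C * x ^ (1 / 3 : ℝ) := by
  set J : ℝ := ∫ t in (0 : ℝ)..1, ph t with hJ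
  have hlow : ∀ x : ℝ, 0 < x → x ≤ 1 → 3 * x ^ (1 / 3 : ℝ) ≤ ∫ t in (0 : ℝ)..x, ph t := by
    intro x hx hx1
    rw [← val_pow x]
    refine integral_mono_on_of_le_Ioo hx.le (int_pow 0 x) (ph_int le_rfl hx.le hx1) ?_
    intro t ht
    exact ph_ge ht.1 (ht.2.trans_le hx1)
  have hJ0 : 0 < J := by
    have := hlow 1 one_pos le_rfl
    rw [Real.one_rpow] at this
    linarith
  have hx3 : ∀ x : ℝ, 0 < x → 0 < x ^ (1 / 3 : ℝ) := fun x hx => Real.rpow_pos_of_pos hx _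
  refine ⟨3 / J, (3 * 2 ^ (2 / 3 : ℝ) + 2 * J) / J, by positivity, by positivity, ?_⟩
  intro x hx hx1
  constructor
  · rw [div_mul_eq_mul_div]
    exact div_le_div_of_nonneg_right (hlow x hx hx1.le) hJ0.le
  · rw [div_mul_eq_mul_div]
    refine div_le_div_of_nonneg_right ?_ hJ0.le
    have hp := hx3 x hx
    have h2 := two_pos'
    rcases le_total x (1 / 2) with h | h
    · have h1 : ∫ t in (0 : ℝ)..x, ph t ≤ ∫ t in (0 : ℝ)..x, 2 ^ (2 / 3 : ℝ) * t ^ (-(2 / 3 : ℝ)) := by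
        refine integral_mono_on_of_le_Ioo hx.le (ph_int le_rfl hx.le hx1.le)
          ((int_pow 0 x).const_mul _) ?_
        intro t ht
        exact ph_le_left ht.1 (ht.2.le.trans h)
      rw [intervalIntegral.integral_const_mul, val_pow x] at h1
      refine h1.trans ?_
      have : 0 ≤ 2 * J * x ^ (1 / 3 : ℝ) := by positivity
      linarith
    · have h1 : ∫ t in (0 : ℝ)..x, ph t ≤ J := by
        have h3 := integral_add_adjacent_intervals (ph_int le_rfl hx.le hx1.le)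
          (ph_int hx.le hx1.le le_rfl)
        have h4 : 0 ≤ ∫ t in x..1, ph t :=
          intervalIntegral.integral_nonneg hx1.le fun t ht => ph_nonneg (hx.le.trans ht.1) ht.2
        rw [hJ, ← h3]
        linarith
      have h5 : x ≤ x ^ (1 / 3 : ℝ) := by
        have := Real.rpow_le_rpow_of_exponent_ge hx hx1.le (by norm_num : (1 / 3 : ℝ) ≤ 1)
        rwa [Real.rpow_one] at this
      have h6 : J ≤ 2 * J * x ^ (1 / 3 : ℝ) := by nlinarith
      have : 0 ≤ 3 * 2 ^ (2 / 3 : ℝ) * x ^ (1 / 3 : ℝ) := by positivity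
      linarith

theorem t_CDY : S_CDY := main

end Pool.Agent.Y989.SD.CDY
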