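import Pool.Agent.Y989.SD.Stm3

/-!
Project SD: any two macroscopic windows are connected (by helper378).
-/

set_option autoImplicit false

namespace Pool.Agent.Y989.SD.CHN

open H974 H973 Finset

/-! ### deterministic part -/

/-- a path of `T` whose start is not in the cluster of `z` avoids it -/
theorem reach_avoid {T : Finset Vtx} {F : Finset Edg} (hF : F ⊆ ES T) {z u w : Vtx} (hu : u ∈ T)
    (h : Reach (F : Set Edg) u w) (hz : ¬ Reach (F : Set Edg) z u) :
    Reach (EV fun y => y ∈ T ∧ ¬ Reach (F : Set Edg) z y) u w := by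
  induction h with
  | refl => exact Reach.refl _ _
  | @tail a b hab hs ih =>
    have hab' : Reach (F : Set Edg) u a := hab
    have hb : Reach (F : Set Edg) u b := hab'.trans hs.reach
    have mem : ∀ x, Reach (F : Set Edg) u x → x ∈ T ∧ ¬ Reach (F : Set Edg) z x := by
      intro x hx
      refine ⟨reach_mem (T := T) (fun e he => hF (by exact_mod_cast he)) hu hx, ?_⟩
      intro hzx
      exact hz (hzx.trans hx.symm)
    obtain ⟨e, he, hc⟩ := hs
    refine ih.trans (Adj.reach ⟨e, ?_, hc⟩)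
    rcases hc with ⟨h1, h2⟩ | ⟨h1, h2⟩
    · change (_ ∧ _) ∧ (_ ∧ _)
      rw [h1, h2]
      exact ⟨mem a hab', mem b hb⟩
    · change (_ ∧ _) ∧ (_ ∧ _)
      rw [h1, h2]
      exact ⟨mem b hb, mem a hab'⟩

/-- a crossing path meets the blocking cluster -/
theorem meets {T : Finset Vtx} {F : Finset Edg} (hF : F ⊆ ES T) {A B : Vtx → Prop} {z u w : Vtx}
    (hb : Blk T A B z F) (hu : u ∈ T) (hA : A u) (hw : w ∈ T) (hB : B w)
    (h : Reach (F : Set Edg) u w) : Reach (F : Set Edg) z u := by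
  by_contra hz
  exact hb u hu hA w hw hB (reach_avoid hF hu h hz)

theorem Blk.congr {T : Finset Vtx} {F : Finset Edg} {A B : Vtx → Prop} {z z' : Vtx}
    (hb : Blk T A B z F) (h : Reach (F : Set Edg) z z') : Blk T A B z' F := by
  intro u hu hA w hw hB hr
  apply hb u hu hA w hw hB
  refine hr.mono ?_
  rintro e ⟨⟨h1, h2⟩, h3, h4⟩
  exact ⟨⟨h1, fun h5 => h2 (h.symm.trans h5)⟩, h3, fun h5 => h4 (h.symm.trans h5)⟩

theorem Blk.mono {T : Finset Vtx} {F G : Finset Edg} (hFG : F ⊆ G) {A B : Vtx → Prop} {z : Vtx}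
    (hb : Blk T A B z F) : Blk T A B z G := by
  intro u hu hA w hw hB hr
  apply hb u hu hA w hw hB
  refine hr.mono ?_
  have hm : ∀ y, Reach (F : Set Edg) z y → Reach (G : Set Edg) z y := fun y hy =>
    hy.mono (by exact_mod_cast hFG)
  rintro e ⟨⟨h1, h2⟩, h3, h4⟩
  exact ⟨⟨h1, fun h5 => h2 (hm _ h5)⟩, h3, fun h5 => h4 (hm _ h5)⟩

theorem HT_incr (S : Finset Edg) (T : Finset Vtx) (v : Vtx) (r R : ℤ) : IncrE S (HT T v r R) := by
  rintro F G hFG - ⟨z, h1, h2, h3, h4⟩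
  exact ⟨z, h1, h2, h3, Blk.mono hFG h4⟩

theorem XT_incr (S : Finset Edg) (T : Finset Vtx) (v : Vtx) (r R : ℤ) : IncrE S (XT T v r R) := by
  rintro F G hFG - ⟨u, h1, h2, w, h3, h4, h5⟩
  exact ⟨u, h1, h2, w, h3, h4, h5.mono (by exact_mod_cast hFG)⟩

/-- one step of the chain -/
theorem step {T : Finset Vtx} {F : Finset Edg} (hF : F ⊆ ES T) {v v' z z' : Vtx} {N : ℤ}
    (hN : 8 ≤ N) (h1 : 8 * |v.1 - v'.1| ≤ N) (h2 : 8 * |v.2 - v'.2| ≤ N)
    (hz : Blk T (fun u => u ∈ BX v N) (fun w => w ∉ BX v (64 * N - 1)) z F)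
    (hz' : Blk T (fun u => u ∈ BX v' N) (fun w => w ∉ BX v' (64 * N - 1)) z' F)
    (hX : XT T v (N / 2) (66 * N) F) : Reach (F : Set Edg) z z' := by
  obtain ⟨u, hu, hu2, w, hw, hw2, hr⟩ := hX
  have a1 := abs_le.mp (show |v.1 - v'.1| ≤ N / 8 by omega)
  have a2 := abs_le.mp (show |v.2 - v'.2| ≤ N / 8 by omega)
  rw [mem_BX] at hu2 hw2
  have e1 : Reach (F : Set Edg) z u := by
    refine meets hF hz hu ?_ hw ?_ hr
    · rw [mem_BX]
      omega
    · rw [mem_BX]
      omega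
  have e2 : Reach (F : Set Edg) z' u := by
    refine meets hF hz' hu ?_ hw ?_ hr
    · rw [mem_BX]
      omega
    · rw [mem_BX]
      omega
  exact e1.trans e2.symm

/-! ### probability -/

/-- Harris' inequality for finitely many events -/
theorem harris_fin {p : Edg → ℝ} (hp : Ok p) {S : Finset Edg} (A : ℕ → Finset Edg → Prop)
    (hA : ∀ j, IncrE S (A j)) {c : ℝ} (hc : 0 ≤ c) (k : ℕ) (h : ∀ j < k, c ≤ Pr p S (A j)) :
    c ^ k ≤ Pr p S (fun F => ∀ j < k, A j F) := by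
  induction k with
  | zero =>
    rw [Pr_true S (fun F _ j hj => absurd hj (Nat.not_lt_zero j)), pow_zero]
  | succ k ih =>
    have h1 := ih (fun j hj => h j (hj.trans (Nat.lt_succ_self k)))
    have h2 := h k (Nat.lt_succ_self k)
    have hi : IncrE S (fun F => ∀ j < k, A j F) := fun F G hFG hG hF j hj =>
      hA j F G hFG hG (hF j hj)
    have h3 := Pr_harris hp hi (hA k)
    calc c ^ (k + 1) = c ^ k * c := pow_succ c k
      _ ≤ Pr p S (fun F => ∀ j < k, A j F) * Pr p S (A k) :=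
          mul_le_mul h1 h2 hc (Pr_nonneg hp _ _)
      _ ≤ _ := h3
      _ ≤ _ := by
          refine Pr_mono hp fun F _ hF j hj => ?_
          rcases Nat.lt_succ_iff_lt_or_eq.mp hj with h4 | rfl
          · exact hF.1 j h4
          · exact hF.2

/-! ### geometry -/

theorem cir_norm (θ : ℝ) : ‖cir θ‖ = 1 := Complex.norm_exp_ofReal_mul_I θ

theorem cir_mem (θ : ℝ) : cir θ ∈ disc := by
  unfold disc
  rw [Metric.mem_closedBall, dist_zero_right, cir_norm]

theorem cir_sub (a b : ℝ) : ‖cir a - cir b‖ ≤ |a - b| := by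
  have h1 : cir a - cir b = cir b * (Complex.exp (Complex.I * ((a - b : ℝ) : ℂ)) - 1) := by
    unfold cir
    rw [mul_sub, mul_one, ← Complex.exp_add]
    congr 2
    push_cast
    ring
  rw [h1, norm_mul, cir_norm, one_mul]
  exact Real.norm_exp_I_mul_ofReal_sub_one_le

theorem cir_periodic (θ : ℝ) (k : ℤ) : cir (θ + k * (2 * Real.pi)) = cir θ := by
  unfold cir
  have : ((θ + k * (2 * Real.pi) : ℝ) : ℂ) * Complex.I =
      (θ : ℂ) * Complex.I + k * (2 * Real.pi * Complex.I) := by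
    push_cast
    ring
  rw [this]
  exact Complex.exp_periodic.int_mul k _

/-- an argument of the same point close to a given one -/
theorem exists_arg (θ θ' : ℝ) : ∃ θ'' : ℝ, cir θ'' = cir θ' ∧ |θ'' - θ| ≤ 2 * Real.pi := by
  have hp : 0 < 2 * Real.pi := by positivity
  refine ⟨θ' + (-⌊(θ' - θ) / (2 * Real.pi)⌋ : ℤ) * (2 * Real.pi), cir_periodic _ _, ?_⟩
  have h1 := Int.floor_le ((θ' - θ) / (2 * Real.pi))
  have h2 := Int.lt_floor_add_one ((θ' - θ) / (2 * Real.pi))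
  rw [le_div_iff₀ hp] at h1
  rw [div_lt_iff₀ hp] at h2
  rw [abs_le]
  push_cast
  constructor
  · nlinarith
  · nlinarith

theorem pos_sub_re (ε : ℝ) (v w : Vtx) : (pos ε v - pos ε w).re = ε * ((v.1 - w.1 : ℤ) : ℝ) := by
  rw [Complex.sub_re]
  change ε * (v.1 : ℝ) - ε * (w.1 : ℝ) = _
  push_cast
  ring

theorem pos_sub_im (ε : ℝ) (v w : Vtx) : (pos ε v - pos ε w).im = ε * ((v.2 - w.2 : ℤ) : ℝ) := by
  rw [Complex.sub_im]
  change ε * (v.2 : ℝ) - ε * (w.2 : ℝ) = _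
  push_cast
  ring

/-- real distance and lattice distance -/
theorem lattice_dist {ε ρ' : ℝ} (hε : 0 < ε) (h : ε * 100 ≤ ρ') {v w : Vtx}
    (hvw : ‖pos ε v - pos ε w‖ ≤ ρ' / 20 + 4 * ε) :
    8 * |v.1 - w.1| ≤ ⌊ρ' / ε⌋ ∧ 8 * |v.2 - w.2| ≤ ⌊ρ' / ε⌋ := by
  have hfl : ρ' - ε ≤ ε * (⌊ρ' / ε⌋ : ℝ) := by
    have h1 := Int.lt_floor_add_one (ρ' / ε)
    rw [div_lt_iff₀ hε] at h1
    nlinarith
  have key : ∀ d : ℤ, ε * |(d : ℝ)| ≤ ρ' / 20 + 4 * ε → 8 * |d| ≤ ⌊ρ' / ε⌋ := by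
    intro d hd
    have h2 : ε * (8 * |(d : ℝ)|) ≤ ε * (⌊ρ' / ε⌋ : ℝ) := by
      refine le_trans ?_ hfl
      linarith
    have h3 := le_of_mul_le_mul_left h2 hε
    have h4 : ((8 * |d| : ℤ) : ℝ) ≤ (⌊ρ' / ε⌋ : ℝ) := by
      push_cast
      exact h3
    exact_mod_cast h4
  constructor
  · apply key
    have h5 := Complex.abs_re_le_norm (pos ε v - pos ε w)
    rw [pos_sub_re, abs_mul, abs_of_pos hε] at h5
    exact h5.trans hvw
  · apply key
    have h5 := Complex.abs_im_le_norm (pos ε v - pos ε w)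
    rw [pos_sub_im, abs_mul, abs_of_pos hε] at h5
    exact h5.trans hvw

theorem t_CHN : S_WIN → S_GA → S_CHN := by
  intro hWIN hGA f g M α hf' ρ B ε0 hρ hε0 hGD ρ' hρ' h200
  obtain ⟨l, H, hl, hH, hlip, -⟩ := hGA f g M α hf'
  obtain ⟨c, C, hc, hC, hwin⟩ := hWIN B α hf'.al0
  -- the number of steps
  obtain ⟨m, hm⟩ := exists_nat_gt (40 * Real.pi * H / ρ')
  have hm0 : 0 < (m : ℝ) := lt_of_le_of_lt (by positivity) hm
  have hmn : 0 < m := by exact_mod_cast hm0
  set c0 : ℝ := min c 1 / 198 with hc0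
  have hc0pos : 0 < c0 := by
    have : 0 < min c 1 := lt_min hc one_pos
    positivity
  refine ⟨(c0 * c0) ^ (m + 1), min ε0 (ρ' / 100), by positivity, by positivity, ?_⟩
  intro ε hε hε1 θ θ' v v' hv hv'
  have hεε0 : ε ≤ ε0 := hε1.trans (min_le_left _ _)
  have hε100 : ε * 100 ≤ ρ' := by
    have := hε1.trans (min_le_right _ _)
    rw [le_div_iff₀ (by norm_num)] at this
    exact this
  obtain ⟨-, hbase, -⟩ := hGD ε hε hεε0
  set N : ℤ := ⌊ρ' / ε⌋ with hN
  set L : ℤ := ⌊ρ / ε⌋ with hL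
  set T := TD f ε with hT
  have hN100 : 100 ≤ N := by
    rw [hN, Int.le_floor, le_div_iff₀ hε]
    push_cast
    linarith
  have hNL : 200 * N ≤ L := by
    rw [hL, Int.le_floor]
    push_cast
    have h1 := Int.floor_le (ρ' / ε)
    rw [le_div_iff₀ hε] at h1 ⊢
    nlinarith
  -- the chain
  obtain ⟨θ'', hθ'', hθ2⟩ := exists_arg θ θ'
  have hv'' : Bp f ε ρ B α θ'' v' := by
    unfold Bp at hv' ⊢
    rw [hθ'']
    exact hv'
  set th : ℕ → ℝ := fun j => θ + j * ((θ'' - θ) / m) with hth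
  have hth0 : th 0 = θ := by simp [hth]
  have hthm : th m = θ'' := by
    simp only [hth]
    field_simp
    ring
  have hex : ∀ j : ℕ, ∃ x : Vtx, Bp f ε ρ B α (th j) x ∧ (j = 0 → x = v) ∧ (j = m → x = v') := by
    intro j
    by_cases h0 : j = 0
    · refine ⟨v, ?_, fun _ => rfl, fun h => ?_⟩
      · rw [h0, hth0]
        exact hv
      · omega
    · by_cases h1 : j = m
      · refine ⟨v', ?_, fun h => absurd h h0, fun _ => rfl⟩
        rw [h1, hthm]
        exact hv''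
      · obtain ⟨x, hx, hx2, hx3⟩ := hbase (th j)
        exact ⟨x, ⟨hx, hx2, hx3⟩, fun h => absurd h h0, fun h => absurd h h1⟩
  choose vs hvs hvs0 hvsm using hex
  -- consecutive base vertices are close
  have hclose : ∀ j, 8 * |(vs j).1 - (vs (j + 1)).1| ≤ N ∧ 8 * |(vs j).2 - (vs (j + 1)).2| ≤ N := by
    intro j
    refine lattice_dist hε hε100 ?_
    have h1 := (hvs j).2.1
    have h2 := (hvs (j + 1)).2.1
    have h3 : ‖f (cir (th j)) - f (cir (th (j + 1)))‖ ≤ ρ' / 20 := by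
      refine (hlip _ (cir_mem _) _ (cir_mem _)).2.trans ?_
      have h4 := cir_sub (th j) (th (j + 1))
      have h5 : |th j - th (j + 1)| ≤ 2 * Real.pi / m := by
        have : th j - th (j + 1) = -((θ'' - θ) / m) := by
          simp only [hth]
          push_cast
          ring
        rw [this, abs_neg, abs_div, abs_of_pos hm0]
        gcongr
      have h6 : H * ‖cir (th j) - cir (th (j + 1))‖ ≤ H * (2 * Real.pi / m) := by
        gcongr
        exact h4.trans h5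
      refine h6.trans ?_
      rw [div_lt_iff₀ hρ'] at hm
      rw [mul_div_assoc', div_le_iff₀ hm0]
      nlinarith
    have h7 : pos ε (vs j) - pos ε (vs (j + 1)) =
        (pos ε (vs j) - f (cir (th j))) + (f (cir (th j)) - f (cir (th (j + 1)))) +
          -(pos ε (vs (j + 1)) - f (cir (th (j + 1)))) := by ring
    rw [h7]
    refine (norm_add₃_le).trans ?_
    rw [norm_neg]
    linarith
  -- the events
  have hHT : ∀ j, c0 ≤ Pr hf (ES T) (HT T (vs j) N (64 * N)) := by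
    intro j
    have h1 := (hwin T (vs j) L (hvs j).2.2 N (64 * N) (by omega) (by omega) (by omega)).2.2.2
      (by omega)
    refine le_trans ?_ h1
    rw [hc0]
    have h2 : min c 1 ≤ c := min_le_left _ _
    have h3 : 0 < min c 1 := lt_min hc one_pos
    linarith
  have hXT : ∀ j, c0 ≤ Pr hf (ES T) (XT T (vs j) (N / 2) (66 * N)) := by
    intro j
    have h1 := (hwin T (vs j) L (hvs j).2.2 (N / 2) (66 * N) (by omega) (by omega) (by omega)).2.1
    refine le_trans ?_ h1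
    have h2 : (1 / 198 : ℝ) ≤ ((N / 2 : ℤ) : ℝ) / ((66 * N : ℤ) : ℝ) := by
      have h3 : (0 : ℝ) < ((66 * N : ℤ) : ℝ) := by
        have : (0 : ℤ) < 66 * N := by omega
        exact_mod_cast this
      rw [le_div_iff₀ h3]
      have h4 : ((66 * N : ℤ) : ℝ) ≤ 198 * ((N / 2 : ℤ) : ℝ) := by
        have : 66 * N ≤ 198 * (N / 2) := by omega
        exact_mod_cast this
      linarith
    have h5 : (1 / 198 : ℝ) ≤ (((N / 2 : ℤ) : ℝ) / ((66 * N : ℤ) : ℝ)) ^ (1 / 3 : ℝ) := by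
      calc (1 / 198 : ℝ) = (1 / 198 : ℝ) ^ (1 : ℝ) := (Real.rpow_one _).symm
        _ ≤ (1 / 198 : ℝ) ^ (1 / 3 : ℝ) :=
            Real.rpow_le_rpow_of_exponent_ge (by norm_num) (by norm_num) (by norm_num)
        _ ≤ _ := Real.rpow_le_rpow (by norm_num) h2 (by norm_num)
    calc c0 = min c 1 * (1 / 198) := by rw [hc0]; ring
      _ ≤ c * (((N / 2 : ℤ) : ℝ) / ((66 * N : ℤ) : ℝ)) ^ (1 / 3 : ℝ) :=
          mul_le_mul (min_le_left _ _) h5 (by norm_num) hc.le
  set A : ℕ → Finset Edg → Prop := fun j F =>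
    HT T (vs j) N (64 * N) F ∧ XT T (vs j) (N / 2) (66 * N) F with hA
  have hAi : ∀ j, IncrE (ES T) (A j) := fun j F G hFG hG hF =>
    ⟨HT_incr _ _ _ _ _ F G hFG hG hF.1, XT_incr _ _ _ _ _ F G hFG hG hF.2⟩
  have hAp : ∀ j, c0 * c0 ≤ Pr hf (ES T) (A j) := by
    intro j
    refine le_trans ?_ (Pr_harris okhalf (HT_incr (ES T) T (vs j) N (64 * N))
      (XT_incr (ES T) T (vs j) (N / 2) (66 * N)))
    exact mul_le_mul (hHT j) (hXT j) hc0pos.le (Pr_nonneg okhalf _ _)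
  refine (harris_fin okhalf A hAi (by positivity) (m + 1) (fun j _ => hAp j)).trans ?_
  refine Pr_mono okhalf ?_
  intro F hF hAF
  -- all the clusters are the same
  have hz : ∀ j, j < m + 1 → ∃ z ∈ T,
      Blk T (fun u => u ∈ BX (vs j) N) (fun w => w ∉ BX (vs j) (64 * N - 1)) z F := by
    intro j hj
    obtain ⟨⟨z, h1, -, -, h2⟩, -⟩ := hAF j hj
    exact ⟨z, h1, h2⟩
  obtain ⟨z, hzT, hzB⟩ := hz 0 (by omega)
  have hall : ∀ j, j < m + 1 →
      Blk T (fun u => u ∈ BX (vs j) N) (fun w => w ∉ BX (vs j) (64 * N - 1)) z F := by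
    intro j
    induction j with
    | zero => exact fun _ => hzB
    | succ j ih =>
      intro hj
      have h1 := ih (by omega)
      obtain ⟨z', -, h2⟩ := hz (j + 1) hj
      have h3 := step hF (by omega) (hclose j).1 (hclose j).2 h1 h2 (hAF j (by omega)).2
      exact Blk.congr h2 h3.symm
  refine ⟨z, hzT, ?_, ?_⟩
  · have := hall 0 (by omega)
    rwa [hvs0 0 rfl] at this
  · have := hall m (by omega)
    rwa [hvsm m rfl] at this

end Pool.Agent.Y989.SD.CHN
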