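import Pool.Agent.Y989.SD.Stm4

/-!
Project SD: one-scale comparison (adapted from the file of helper872).
-/

set_option autoImplicit false

namespace Pool.Agent.Y989.SD.CMP

open H974 H973 Finset

theorem t_CMP2 : S_CMPD → S_CMPA2 → S_XPL → S_EXT → S_QM → S_SUB → S_MONO → S_CMP := by
  intro hD hA hXPL hE hQ hS hM
  obtain ⟨C, β, hC, hβ, hA⟩ := hA
  obtain ⟨c, hc, hE⟩ := hE
  obtain ⟨c', hc', hQ⟩ := hQ
  have okh : Ok hf := fun e => ⟨by norm_num, by norm_num⟩
  set D : ℝ := 1 / (c * (c ^ 6 * c')) with hDdef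
  have hD0 : 0 < D := by positivity
  refine ⟨C / (c ^ 6 * c') + D * 100 ^ β, β, by positivity, hβ, ?_⟩
  intro h h' X w R hh hh' hle hw hout hw1 hX hR
  have hR1 : 1 ≤ R := by omega
  -- extension of the arms
  obtain ⟨Z, hZ⟩ : ∃ Z : ℤ, Z = max 1 (X - 1) := ⟨_, rfl⟩
  have hZ1 : 1 ≤ Z := by omega
  have hZX : 32 * X ≤ 64 * Z := by omega
  have hZX' : Z ≤ X := by omega
  have h5 : c ^ 6 * AP h Z ≤ AP h (64 * Z) := by
    have e1 := (hE h Z hh hZ1).2
    have e2 := (hE h (2 * Z) hh (by omega)).2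
    have e3 := (hE h (2 * (2 * Z)) hh (by omega)).2
    have e4 := (hE h (2 * (2 * (2 * Z))) hh (by omega)).2
    have e5 := (hE h (2 * (2 * (2 * (2 * Z)))) hh (by omega)).2
    have e6 := (hE h (2 * (2 * (2 * (2 * (2 * Z))))) hh (by omega)).2
    have e7 : 2 * (2 * (2 * (2 * (2 * (2 * Z))))) = 64 * Z := by ring
    rw [e7] at e6
    calc c ^ 6 * AP h Z = c * (c * (c * (c * (c * (c * AP h Z))))) := by ring
      _ ≤ c * (c * (c * (c * (c * AP h (2 * Z))))) := by gcongr
      _ ≤ c * (c * (c * (c * AP h (2 * (2 * Z))))) := by gcongr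
      _ ≤ c * (c * (c * AP h (2 * (2 * (2 * Z))))) := by gcongr
      _ ≤ c * (c * AP h (2 * (2 * (2 * (2 * Z))))) := by gcongr
      _ ≤ c * AP h (2 * (2 * (2 * (2 * (2 * Z))))) := by gcongr
      _ ≤ AP h (64 * Z) := e6
  have h6 : AP h (64 * Z) ≤ AP h (32 * X) := hM.2 h (32 * X) (64 * Z) hh (by omega) hZX
  have h7 := hQ h (32 * X) R hh (by omega) hR
  have hXP : 0 ≤ XP h (32 * X) R := Pr_nonneg okh _ _
  have hAP : 0 ≤ AP h R := Pr_nonneg okh _ _
  have hw0 : (0 : ℝ) < w := by exact_mod_cast hw1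
  have hX0 : (0 : ℝ) < X := by exact_mod_cast hX
  have hpow : 0 ≤ ((w : ℝ) / X) ^ β := by positivity
  have h8 : c ^ 6 * c' * (AP h Z * XP h (32 * X) R) ≤ AP h R := by
    calc c ^ 6 * c' * (AP h Z * XP h (32 * X) R) =
          c' * ((c ^ 6 * AP h Z) * XP h (32 * X) R) := by ring
      _ ≤ c' * (AP h (32 * X) * XP h (32 * X) R) := by
          apply mul_le_mul_of_nonneg_left _ hc'.le
          exact mul_le_mul_of_nonneg_right (h5.trans h6) hXP
      _ ≤ AP h R := h7
  have h9 : AP h Z * XP h (32 * X) R ≤ AP h R / (c ^ 6 * c') := by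
    rw [le_div_iff₀ (by positivity)]
    linarith
  by_cases hwX : 4 * (w + 24) ≤ X
  · have hZe : Z = X - 1 := by omega
    have hsub : UU h R ⊆ UU h' R := by
      intro y hy
      rw [mem_UU] at hy ⊢
      exact ⟨hy.1, (hle y.1).trans hy.2⟩
    have hES : ES (UU h R) ⊆ ES (UU h' R) := by
      intro e he
      rw [mem_ES] at he ⊢
      exact ⟨hsub he.1, hsub he.2⟩
    have h1 : AP h' R ≤ Pr hf (ES (UU h' R)) (fun F => armQ h R (F ∩ ES (UU h R))) +
        Pr hf (ES (UU h' R)) (fun F => armQ h' R F ∧ ¬ armQ h R (F ∩ ES (UU h R))) := by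
      unfold AP
      refine le_trans (Pr_mono okh ?_) (Pr_or_le okh _ _ _)
      intro F _ hF
      by_cases h2 : armQ h R (F ∩ ES (UU h R))
      · exact Or.inl h2
      · exact Or.inr ⟨hF, h2⟩
    have h2 : Pr hf (ES (UU h' R)) (fun F => armQ h R (F ∩ ES (UU h R))) = AP h R := by
      unfold AP
      rw [Pr_local hES (A := fun F => armQ h R (F ∩ ES (UU h R)))
        (fun F _ => by rw [Finset.inter_assoc, Finset.inter_self])]
      apply Pr_congr
      intro F hF
      rw [Finset.inter_eq_left.2 hF]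
    have h3 := hA h h' X w R hh hh' hle hw hout hw1 hwX hR
    rw [← hZe] at h3
    have h4 : Pr hf (ES (UU h' R)) (fun F => armQ h' R F ∧ ¬ armQ h R (F ∩ ES (UU h R))) ≤
        C * ((w : ℝ) / X) ^ β * (AP h Z * XP h (32 * X) R) := by
      refine le_trans (Pr_mono okh ?_) h3
      intro F hF hF2
      exact hD h h' X w R F hh hh' hle hw hout hX hR hF hF2.1 hF2.2
    have h10 : C * ((w : ℝ) / X) ^ β * (AP h Z * XP h (32 * X) R) ≤
        C * ((w : ℝ) / X) ^ β * (AP h R / (c ^ 6 * c')) :=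
      mul_le_mul_of_nonneg_left h9 (by positivity)
    rw [h2] at h1
    have h11 : (1 + C / (c ^ 6 * c') * ((w : ℝ) / X) ^ β) * AP h R =
        AP h R + C * ((w : ℝ) / X) ^ β * (AP h R / (c ^ 6 * c')) := by
      field_simp
    have h12 : (1 + C / (c ^ 6 * c') * ((w : ℝ) / X) ^ β) * AP h R ≤
        (1 + (C / (c ^ 6 * c') + D * 100 ^ β) * ((w : ℝ) / X) ^ β) * AP h R := by
      apply mul_le_mul_of_nonneg_right _ hAP
      have : 0 ≤ D * 100 ^ β * ((w : ℝ) / X) ^ β := by positivity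
      nlinarith
    refine le_trans ?_ h12
    rw [h11]
    linarith
  · -- `w` is of order `X` at least
    have hc1 : c ≤ 1 := (hE h 1 hh le_rfl).1.trans (Pr_le_one okh _ _)
    have hAPZ : 0 ≤ AP h Z := Pr_nonneg okh _ _
    have g1 : AP h' R ≤ AP h' (32 * X) * XP h' (32 * X) R := hS h' (32 * X) R hh' (by omega) hR
    have g2 : AP h' (32 * X) ≤ AP h' Z := hM.2 h' Z (32 * X) hh' hZ1 (by omega)
    have g3 : AP h' Z ≤ AP h Z / c := by
      rw [le_div_iff₀ hc]
      by_cases hX2 : 2 ≤ X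
      · have : AP h' Z ≤ AP h Z := by
          apply hM.1 h' h Z hh' hh hZ1
          intro x hx
          exact le_of_eq (hout x (Or.inl (by omega)))
        have h0 : 0 ≤ AP h' Z := Pr_nonneg okh _ _
        nlinarith
      · have hZe : Z = 1 := by omega
        have h0 : AP h' Z ≤ 1 := Pr_le_one okh _ _
        have h1 := (hE h 1 hh le_rfl).1
        rw [← hZe] at h1
        nlinarith
    have g4 : XP h' (32 * X) R ≤ XP h (32 * X) R :=
      hXPL h h' X R hh hh' (fun x hx => hout x (Or.inr hx)) hX hR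
    have g5 : AP h' R ≤ D * AP h R := by
      have hXP' : 0 ≤ XP h' (32 * X) R := Pr_nonneg okh _ _
      calc AP h' R ≤ AP h' (32 * X) * XP h' (32 * X) R := g1
        _ ≤ (AP h Z / c) * XP h (32 * X) R := by
            apply mul_le_mul (g2.trans g3) g4 hXP'
            positivity
        _ = (AP h Z * XP h (32 * X) R) / c := by ring
        _ ≤ (AP h R / (c ^ 6 * c')) / c := by gcongr
        _ = D * AP h R := by rw [hDdef]; field_simp
    have g6 : 1 / 100 ≤ (w : ℝ) / X := by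
      rw [div_le_div_iff₀ (by norm_num) hX0]
      have : X ≤ 100 * w := by omega
      have : (X : ℝ) ≤ 100 * w := by exact_mod_cast this
      linarith
    have g7 : 1 ≤ 100 ^ β * ((w : ℝ) / X) ^ β := by
      rw [← Real.mul_rpow (by norm_num) (by positivity)]
      apply Real.one_le_rpow _ hβ.le
      linarith
    have g8 : D ≤ 1 + (C / (c ^ 6 * c') + D * 100 ^ β) * ((w : ℝ) / X) ^ β := by
      have e1 : D * 1 ≤ D * (100 ^ β * ((w : ℝ) / X) ^ β) := mul_le_mul_of_nonneg_left g7 hD0.le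
      have e2 : 0 ≤ C / (c ^ 6 * c') * ((w : ℝ) / X) ^ β := by positivity
      nlinarith
    exact g5.trans (mul_le_mul_of_nonneg_right g8 hAP)

end Pool.Agent.Y989.SD.CMP
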