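import Pool.Agent.Y989.SD.Stm4

/-!
# Project SD (helper989), job SD-CMPA

`S_CMPA2`: the cluster of the origin in the domain above `h` reaches the columns near `± X`, and a
second path, disjoint from it, joins the box of size `w + 24` at the last boundary column of the
cluster to the sides of the large box: the probability is at most
`C (w / X) ^ β * AP h (X - 1) * XP h (32 X) R`.  `S_XPL`: crossings of the outer annulus when the two
functions agree outside `[-14 X, 14 X]`.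

* Sum over the values of the cluster, which is determined by the edges touching it; the second
  path uses the other edges.
* The second path crosses an annulus of the plane inside the box of size `32 X`, and the outer
  annulus.
-/

set_option autoImplicit false

namespace Pool.Agent.Y989.SD.CMPA

open H974 H973 Finset Pool.Agent.Y989.SD

/-! ### paths -/

theorem adj_coord {G : Set Edg} {z z' : Vtx} (h : Adj G z z') :
    (z'.1 = z.1 + 1 ∧ z'.2 = z.2) ∨ (z'.1 = z.1 - 1 ∧ z'.2 = z.2) ∨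
      (z'.1 = z.1 ∧ z'.2 = z.2 + 1) ∨ (z'.1 = z.1 ∧ z'.2 = z.2 - 1) := by
  obtain ⟨⟨x, y, _ | _⟩, -, h⟩ := h
  · simp only [src_mk, tgt_false] at h
    rcases h with ⟨h1, h2⟩ | ⟨h1, h2⟩ <;> rw [← h1, ← h2] <;> simp
  · simp only [src_mk, tgt_true] at h
    rcases h with ⟨h1, h2⟩ | ⟨h1, h2⟩ <;> rw [← h1, ← h2] <;> simp

/-- The last visit of a set of vertices. -/
theorem last_exit {G : Set Edg} {A : Finset Vtx} {u y : Vtx} (hu : u ∈ A) (h : Reach G u y) :
    ∃ z ∈ A, Reach (G ∩ {e | ¬ (src e ∈ A ∧ tgt e ∈ A)}) z y := by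
  induction h with
  | refl => exact ⟨u, hu, Reach.refl _ _⟩
  | @tail w w' _ hs ih =>
    obtain ⟨z, hz, hr⟩ := ih
    obtain ⟨e, he, hc⟩ := hs
    by_cases hA : src e ∈ A ∧ tgt e ∈ A
    · refine ⟨w', ?_, Reach.refl _ _⟩
      rcases hc with ⟨_, h2⟩ | ⟨h1, _⟩
      · rw [← h2]; exact hA.2
      · rw [← h1]; exact hA.1
    · exact ⟨z, hz, hr.trans (Adj.reach ⟨e, ⟨he, hA⟩, hc⟩)⟩

/-- The first exit from a set of vertices. -/
theorem exit_or {G : Set Edg} {A : Finset Vtx} {u y : Vtx} (hu : u ∈ A) (h : Reach G u y) :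
    (y ∈ A ∧ Reach (G ∩ ↑(ES A)) u y) ∨
      ∃ z ∈ A, ∃ z', z' ∉ A ∧ Adj G z z' ∧ Reach (G ∩ ↑(ES A)) u z := by
  induction h with
  | refl => exact Or.inl ⟨hu, Reach.refl _ _⟩
  | @tail w w' _ hs ih =>
    rcases ih with ⟨hw, hr⟩ | ih
    · by_cases hw' : w' ∈ A
      · left
        refine ⟨hw', hr.trans (Adj.reach ?_)⟩
        obtain ⟨e, he, hc⟩ := hs
        refine ⟨e, ⟨he, ?_⟩, hc⟩
        rw [Finset.mem_coe, mem_ES]
        rcases hc with ⟨h1, h2⟩ | ⟨h1, h2⟩
        · rw [h1, h2]; exact ⟨hw, hw'⟩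
        · rw [h1, h2]; exact ⟨hw', hw⟩
      · exact Or.inr ⟨w, hw, w', hw', hs, hr⟩
    · exact Or.inr ih

theorem reach_mem_set {T : Finset Vtx} {F : Set Edg} (hF : ∀ e ∈ F, e ∈ ES T) {u v : Vtx}
    (hv : v ∈ T) (h : Reach F u v) : u ∈ T := reach_mem hF hv h.symm

/-! ### Lipschitz functions -/

theorem lp_nat {h : ℤ → ℤ} (hh : Lp 10 h) (n : ℕ) : |h n| ≤ 10 * n ∧ |h (-n)| ≤ 10 * n := by
  induction n with
  | zero => simp [hh.zero]
  | succ n ih =>
    have h1 := hh.lip n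
    have h2 := hh.lip (-(n : ℤ) - 1)
    rw [sub_add_cancel] at h2
    have e : (-((n + 1 : ℕ) : ℤ)) = -(n : ℤ) - 1 := by push_cast; ring
    rw [e]
    push_cast
    rw [abs_le] at h1 h2 ⊢
    rw [abs_le, abs_le] at ih
    rw [abs_le]
    omega

theorem lp_abs {h : ℤ → ℤ} (hh : Lp 10 h) (x : ℤ) : |h x| ≤ 10 * |x| := by
  obtain ⟨n, hn | hn⟩ := Int.eq_nat_or_neg x
  · rw [hn, abs_of_nonneg (Int.natCast_nonneg n)]
    exact (lp_nat hh n).1
  · rw [hn, abs_neg, abs_of_nonneg (Int.natCast_nonneg n)]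
    exact (lp_nat hh n).2

/-- explicit bounds -/
theorem lp_bd {h : ℤ → ℤ} (hh : Lp 10 h) {x M : ℤ} (h1 : -M ≤ x) (h2 : x ≤ M) :
    -(10 * M) ≤ h x ∧ h x ≤ 10 * M := by
  have h3 := lp_abs hh x
  have h4 : |x| ≤ M := abs_le.2 ⟨h1, h2⟩
  have h5 : |h x| ≤ 10 * M := by omega
  exact abs_le.1 h5

/-! ### the two domains -/

/-- two functions which agree far away -/
structure TwoW (h h' : ℤ → ℤ) (X R : ℤ) : Prop where
  l : Lp 10 h
  l' : Lp 10 h'
  eq : ∀ x, 14 * X < |x| → h x = h' x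
  X1 : 1 ≤ X
  R1 : 32 * X ≤ R

/-- the hypotheses on the two functions -/
structure Two (h h' : ℤ → ℤ) (X R : ℤ) : Prop extends TwoW h h' X R where
  le : ∀ x, h' x ≤ h x

variable {h h' : ℤ → ℤ} {X R : ℤ}

theorem Two.sub (T : Two h h' X R) : UU h R ⊆ UU h' R := by
  intro y hy
  rw [mem_UU] at hy ⊢
  exact ⟨hy.1, (T.le y.1).trans hy.2⟩

theorem UU_sub {h : ℤ → ℤ} {r R : ℤ} (hr : r ≤ R) : UU h r ⊆ UU h R := by
  intro y hy
  rw [mem_UU, mem_QB] at hy ⊢
  omega

theorem ES_sub {A B : Finset Vtx} (h : A ⊆ B) : ES A ⊆ ES B := by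
  intro e he
  rw [mem_ES] at he ⊢
  exact ⟨h he.1, h he.2⟩

/-- far away the two domains agree -/
theorem TwoW.far (T : TwoW h h' X R) {a b : Vtx} (ha : a ∈ UU h' R) (hb : b ∈ UU h' R)
    (hab : |b.1 - a.1| + |b.2 - a.2| ≤ 1) (hQ : a ∉ QB (32 * X)) : a ∈ UU h R ∧ b ∈ UU h R := by
  have hX := T.X1
  rw [mem_UU] at ha hb
  rw [mem_QB] at hQ
  have key : ∀ c : Vtx, c ∈ QB R → h' c.1 ≤ c.2 → (14 * X < |c.1| ∨ 1000 * X ≤ c.2) →
      c ∈ UU h R := by
    intro c hc h1 h2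
    rw [mem_UU]
    refine ⟨hc, ?_⟩
    by_cases h3 : 14 * X < |c.1|
    · rw [T.eq c.1 h3]; exact h1
    · have h4 : |c.1| ≤ 14 * X := not_lt.1 h3
      have h5 := lp_bd T.l (abs_le.1 h4).1 (abs_le.1 h4).2
      omega
  have hlow : ¬ 14 * X + 1 < |a.1| → 1001 * X ≤ a.2 := by
    intro h1
    have h2 : |a.1| ≤ 14 * X + 1 := not_lt.1 h1
    have h3 := lp_bd T.l' (abs_le.1 h2).1 (abs_le.1 h2).2
    have h4 := abs_le.1 h2
    omega
  have hb1 : |b.1| ≤ |a.1| + |b.1 - a.1| := by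
    have := abs_add_le a.1 (b.1 - a.1)
    rwa [add_sub_cancel] at this
  have ha1 : |a.1| ≤ |b.1| + |b.1 - a.1| := by
    have := abs_add_le b.1 (a.1 - b.1)
    rw [add_sub_cancel, abs_sub_comm] at this
    exact this
  have hb2 := le_abs_self (a.2 - b.2)
  rw [abs_sub_comm] at hb2
  have hnn1 := abs_nonneg (b.1 - a.1)
  have hnn2 := abs_nonneg (b.2 - a.2)
  constructor
  · apply key a ha.1 ha.2
    by_cases h1 : 14 * X + 1 < |a.1|
    · left; omega
    · right; have := hlow h1; omega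
  · apply key b hb.1 hb.2
    by_cases h1 : 14 * X + 1 < |a.1|
    · left; omega
    · right; have := hlow h1; omega

theorem edge_near (e : Edg) : |(tgt e).1 - (src e).1| + |(tgt e).2 - (src e).2| ≤ 1 ∧
    |(src e).1 - (tgt e).1| + |(src e).2 - (tgt e).2| ≤ 1 := by
  obtain ⟨x, y, _ | _⟩ := e <;> simp

/-- the edges of the larger domain outside the box belong to the smaller domain -/
theorem TwoW.edge (T : TwoW h h' X R) {e : Edg} (he : e ∈ ES (UU h' R))
    (hQ : ¬ (src e ∈ QB (32 * X) ∧ tgt e ∈ QB (32 * X))) : e ∈ ES (UU h R) := by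
  rw [mem_ES] at he ⊢
  by_cases h1 : src e ∈ QB (32 * X)
  · have h2 : tgt e ∉ QB (32 * X) := fun h2 => hQ ⟨h1, h2⟩
    exact (T.far he.2 he.1 (edge_near e).2 h2).symm
  · exact T.far he.1 he.2 (edge_near e).1 h1

/-- the sides of the large box -/
theorem TwoW.side (T : TwoW h h' X R) {y : Vtx} (hy : y ∈ UU h' R) (hs : onQ R y) :
    y ∈ UU h R := by
  have hX := T.X1
  have hR := T.R1
  rw [mem_UU] at hy ⊢
  refine ⟨hy.1, ?_⟩
  by_cases h3 : 14 * X < |y.1|
  · rw [T.eq y.1 h3]; exact hy.2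
  · have h4 : |y.1| ≤ 14 * X := not_lt.1 h3
    have h5 := lp_bd T.l (abs_le.1 h4).1 (abs_le.1 h4).2
    have h6 := abs_le.1 h4
    rcases hs with h7 | h7 | h7 <;> omega

/-- the edges of the larger domain outside the box -/
noncomputable def T2 (h' : ℤ → ℤ) (X R : ℤ) : Finset Edg :=
  (ES (UU h' R)).filter fun e => ¬ (src e ∈ QB (32 * X) ∧ tgt e ∈ QB (32 * X))

theorem T2_sub' (h' : ℤ → ℤ) (X R : ℤ) : T2 h' X R ⊆ ES (UU h' R) := Finset.filter_subset _ _

theorem TwoW.T2_sub (T : TwoW h h' X R) : T2 h' X R ⊆ ES (UU h R) := by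
  intro e he
  rw [T2, Finset.mem_filter] at he
  exact T.edge he.1 he.2

/-- a path from the box to the sides crosses the annulus -/
theorem TwoW.ann (T : TwoW h h' X R) {F : Finset Edg} (hF : F ⊆ ES (UU h' R)) {u y : Vtx}
    (hu : u ∈ QB (32 * X)) (hy : y ∈ UU h' R) (hs : onQ R y) (hr : Reach (F : Set Edg) u y) :
    annQ h (32 * X) R (F ∩ T2 h' X R) := by
  obtain ⟨z, hz, hr'⟩ := last_exit hu hr
  have hsub : (F : Set Edg) ∩ {e | ¬ (src e ∈ QB (32 * X) ∧ tgt e ∈ QB (32 * X))} ⊆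
      ↑(F ∩ T2 h' X R) := by
    rintro e ⟨h1, h2⟩
    rw [Finset.mem_coe, Finset.mem_inter, T2, Finset.mem_filter]
    exact ⟨h1, hF h1, h2⟩
  have hr2 := hr'.mono hsub
  have hyU := T.side hy hs
  have hzU : z ∈ UU h R := reach_mem_set (fun e he => by
    rw [Finset.mem_coe, Finset.mem_inter] at he
    exact T.T2_sub he.2) hyU hr2
  refine ⟨z, ?_, y, hyU, hs, hr2⟩
  rw [mem_UU] at hzU ⊢
  exact ⟨hz, hzU.2⟩

theorem ann_incr (S : Finset Edg) (h : ℤ → ℤ) (r R : ℤ) : IncrE S (annQ h r R) := by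
  rintro F G hFG _ ⟨u, hu, y, hy, hs, hr⟩
  exact ⟨u, hu, y, hy, hs, hr.mono (by exact_mod_cast hFG)⟩

/-- **Comparison of the annuli.** -/
theorem XP_le (T : TwoW h h' X R) : XP h' (32 * X) R ≤ XP h (32 * X) R := by
  unfold XP
  have h1 : Pr hf (ES (UU h' R)) (annQ h' (32 * X) R) ≤
      Pr hf (ES (UU h' R)) (fun F => annQ h (32 * X) R (F ∩ T2 h' X R)) := by
    apply Pr_mono okhalf
    rintro F hF ⟨u, hu, y, hy, hs, hr⟩
    rw [mem_UU] at hu
    exact T.ann hF hu.1 hy hs hr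
  refine h1.trans ?_
  rw [Pr_restrict (T2_sub' h' X R)]
  exact Pr_mono_set okhalf T.T2_sub (ann_incr _ _ _ _)

/-! ### the local event and the annulus -/

/-- the path event -/
def PE (h' : ℤ → ℤ) (R : ℤ) (v : Vtx) (w : ℤ) (F : Finset Edg) : Prop :=
  ∃ u ∈ BX v w, ∃ y ∈ UU h' R, onQ R y ∧ Reach (F : Set Edg) u y

theorem PE_incr (S : Finset Edg) (R : ℤ) (v : Vtx) (w : ℤ) : IncrE S (PE h' R v w) := by
  rintro F G hFG _ ⟨u, hu, y, hy, hs, hr⟩
  exact ⟨u, hu, y, hy, hs, hr.mono (by exact_mod_cast hFG)⟩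

/-- the local event -/
def LE (v : Vtx) (r ρ : ℤ) (F : Finset Edg) : Prop :=
  ∃ u ∈ BX v r, ∃ y ∈ BX v ρ, onBX v ρ y ∧ Reach (F : Set Edg) u y

theorem LE_incr (S : Finset Edg) (v : Vtx) (r ρ : ℤ) : IncrE S (LE v r ρ) := by
  rintro F G hFG _ ⟨u, hu, y, hy, hs, hr⟩
  exact ⟨u, hu, y, hy, hs, hr.mono (by exact_mod_cast hFG)⟩

theorem exit_BX {F : Finset Edg} {v u y : Vtx} {ρ : ℤ} (hu : u ∈ BX v ρ) (hy : y ∉ BX v ρ)
    (hr : Reach (F : Set Edg) u y) : ∃ z ∈ BX v ρ, onBX v ρ z ∧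
      Reach (↑(F ∩ ES (BX v ρ)) : Set Edg) u z := by
  rcases exit_or hu hr with ⟨h1, _⟩ | ⟨z, hz, z', hz', had, hrz⟩
  · exact absurd h1 hy
  · refine ⟨z, hz, ?_, ?_⟩
    · have h2 := adj_coord had
      rw [mem_BX] at hz hz'
      unfold onBX
      omega
    · rw [Finset.coe_inter]; exact hrz

theorem path_bound (T : Two h h' X R) {v : Vtx} {w ρ : ℤ} (hv1 : |v.1| ≤ 15 * X)
    (hv2 : |v.2| ≤ 150 * X) (hw : w ≤ ρ) (hρ : ρ ≤ X) :
    Pr hf (ES (UU h' R)) (PE h' R v w) ≤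
      Pr hf (ES (BX v ρ)) (LE v w ρ) * XP h (32 * X) R := by
  have hX := T.X1
  have hR := T.R1
  rw [abs_le] at hv1 hv2
  have hBQ : ∀ y ∈ BX v ρ, y ∈ QB (32 * X) := by
    intro y hy
    rw [mem_BX] at hy
    rw [mem_QB]
    omega
  have hd : Disjoint (ES (UU h' R) ∩ ES (BX v ρ)) (T2 h' X R) := by
    rw [Finset.disjoint_left]
    intro e h1 h2
    rw [Finset.mem_inter, mem_ES, mem_ES] at h1
    rw [T2, Finset.mem_filter] at h2
    exact h2.2 ⟨hBQ _ h1.2.1, hBQ _ h1.2.2⟩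
  have h1 : Pr hf (ES (UU h' R)) (PE h' R v w) ≤ Pr hf (ES (UU h' R)) (fun F =>
      LE v w ρ (F ∩ (ES (UU h' R) ∩ ES (BX v ρ))) ∧ annQ h (32 * X) R (F ∩ T2 h' X R)) := by
    apply Pr_mono okhalf
    rintro F hF ⟨u, hu, y, hy, hs, hr⟩
    have huρ : u ∈ BX v ρ := by
      rw [mem_BX] at hu ⊢; omega
    have hyn : y ∉ BX v ρ := by
      intro hy2
      rw [mem_BX] at hy2
      rcases hs with h7 | h7 | h7 <;> omega
    refine ⟨?_, T.ann hF (hBQ u huρ) hy hs hr⟩
    obtain ⟨z, hz, hzs, hzr⟩ := exit_BX huρ hyn hr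
    refine ⟨u, hu, z, hz, hzs, hzr.mono ?_⟩
    have h2 : F ∩ ES (BX v ρ) ⊆ F ∩ (ES (UU h' R) ∩ ES (BX v ρ)) := by
      intro e he
      rw [Finset.mem_inter] at he
      rw [Finset.mem_inter, Finset.mem_inter]
      exact ⟨he.1, hF he.1, he.2⟩
    exact_mod_cast h2
  refine h1.trans ?_
  rw [Pr_indep' Finset.inter_subset_left (T2_sub' h' X R) hd]
  apply mul_le_mul _ _ (Pr_nonneg okhalf _ _) (Pr_nonneg okhalf _ _)
  · exact Pr_mono_set okhalf Finset.inter_subset_right (LE_incr _ _ _ _)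
  · exact Pr_mono_set okhalf T.T2_sub (ann_incr _ _ _ _)

/-! ### the cluster of the origin -/

open Classical in
/-- the cluster, as a finite set -/
noncomputable def kap (h : ℤ → ℤ) (R : ℤ) (F : Finset Edg) : Finset Vtx :=
  (UU h R).filter fun y => Kap h R F y

theorem mem_kap {F : Finset Edg} {y : Vtx} : y ∈ kap h R F ↔ Kap h R F y := by
  classical
  unfold kap
  rw [Finset.mem_filter]
  exact ⟨fun h => h.2, fun h => ⟨h.1, h⟩⟩

theorem kap_eq (F : Finset Edg) : (fun y => y ∈ kap h R F) = Kap h R F :=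
  funext fun _ => propext mem_kap

/-- the edges which touch `k` -/
noncomputable def tch (S : Finset Edg) (k : Finset Vtx) : Finset Edg :=
  S.filter fun e => src e ∈ k ∨ tgt e ∈ k

theorem kap_mono {F G : Finset Edg} (hFG : F ⊆ G) {y : Vtx} (hy : Kap h R F y) :
    Kap h R G y := by
  refine ⟨hy.1, hy.2.mono ?_⟩
  exact_mod_cast Finset.inter_subset_inter_right hFG

theorem zero_mem (T : Two h h' X R) : ((0, 0) : Vtx) ∈ UU h R := by
  have hX := T.X1
  have hR := T.R1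
  rw [mem_UU, mem_QB]
  simp only [T.l.zero]
  omega

/-- the cluster is determined by the edges which touch it -/
theorem kap_local (T : Two h h' X R) {S F : Finset Edg} (hF : F ⊆ S) (k : Finset Vtx) :
    kap h R F = k ↔ kap h R (F ∩ tch S k) = k := by
  have h0 := zero_mem T
  constructor
  · intro hk
    ext y
    rw [mem_kap]
    constructor
    · intro hy
      rw [← hk, mem_kap]
      exact kap_mono Finset.inter_subset_left hy
    · intro hy
      rw [← hk, mem_kap] at hy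
      refine ⟨hy.1, ?_⟩
      have key : ∀ z, Reach (↑(F ∩ ES (UU h R)) : Set Edg) (0, 0) z →
          Reach (↑(F ∩ tch S k ∩ ES (UU h R)) : Set Edg) (0, 0) z := by
        intro z hz
        induction hz with
        | refl => exact Reach.refl _ _
        | @tail w w' hw hs ih =>
          obtain ⟨e, he, hc⟩ := hs
          have hwU : w ∈ UU h R := reach_mem (fun e he => by
            rw [Finset.mem_coe, Finset.mem_inter] at he
            exact he.2) h0 hw
          have hwk : w ∈ k := by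
            rw [← hk, mem_kap]
            exact ⟨hwU, hw⟩
          rw [Finset.mem_coe, Finset.mem_inter] at he
          refine ih.trans (Adj.reach ⟨e, ?_, hc⟩)
          rw [Finset.mem_coe, Finset.mem_inter, Finset.mem_inter, tch, Finset.mem_filter]
          refine ⟨⟨he.1, hF he.1, ?_⟩, he.2⟩
          rcases hc with ⟨h1, _⟩ | ⟨_, h2⟩
          · left; rw [h1]; exact hwk
          · right; rw [h2]; exact hwk
      exact key y hy.2
  · intro hk
    ext y
    rw [mem_kap]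
    constructor
    · intro hy
      have key : ∀ z, Reach (↑(F ∩ ES (UU h R)) : Set Edg) (0, 0) z → z ∈ k ∧
          Reach (↑(F ∩ tch S k ∩ ES (UU h R)) : Set Edg) (0, 0) z := by
        intro z hz
        induction hz with
        | refl =>
          refine ⟨?_, Reach.refl _ _⟩
          rw [← hk, mem_kap]
          exact ⟨h0, Reach.refl _ _⟩
        | @tail w w' hw hs ih =>
          obtain ⟨e, he, hc⟩ := hs
          rw [Finset.mem_coe, Finset.mem_inter] at he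
          have hr : Reach (↑(F ∩ tch S k ∩ ES (UU h R)) : Set Edg) (0, 0) w' := by
            refine ih.2.trans (Adj.reach ⟨e, ?_, hc⟩)
            rw [Finset.mem_coe, Finset.mem_inter, Finset.mem_inter, tch, Finset.mem_filter]
            refine ⟨⟨he.1, hF he.1, ?_⟩, he.2⟩
            rcases hc with ⟨h1, _⟩ | ⟨_, h2⟩
            · left; rw [h1]; exact ih.1
            · right; rw [h2]; exact ih.1
          refine ⟨?_, hr⟩
          rw [← hk, mem_kap]
          have he2 := mem_ES.1 he.2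
          refine ⟨?_, hr⟩
          rcases hc with ⟨_, h2⟩ | ⟨h1, _⟩
          · rw [← h2]; exact he2.2
          · rw [← h1]; exact he2.1
      exact (key y hy.2).1
    · intro hy
      rw [← hk, mem_kap] at hy
      exact kap_mono Finset.inter_subset_left hy

/-! ### the two columns -/

/-- a rule which chooses a column -/
structure ColS (X : ℤ) (Col : (Vtx → Prop) → ℤ → Prop) : Prop where
  uniq : ∀ κ x x', Col κ x → Col κ x' → x = x'
  bd : ∀ κ x, Col κ x → |x| ≤ 15 * X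
  far : ∀ κ x, Col κ x → ∃ q : Vtx, κ q ∧ (X - 1 ≤ q.1 ∨ q.1 ≤ -(X - 1))

theorem colR {h : ℤ → ℤ} {X : ℤ} (hX : 1 ≤ X) : ColS X (ColR h X) := by
  refine ⟨?_, ?_, ?_⟩
  · rintro κ x x' ⟨_, h2, ⟨q, h3, h4, h5⟩, h6⟩ ⟨_, k2, ⟨q', k3, k4, k5⟩, k6⟩
    have e1 := h6 q' k3 k4 (by omega)
    have e2 := k6 q h3 h4 (by omega)
    omega
  · rintro κ x ⟨h1, h2, _, _⟩
    rw [abs_le]; omega
  · rintro κ x ⟨h1, _, ⟨q, h3, _, h5⟩, _⟩
    exact ⟨q, h3, Or.inl (by omega)⟩

theorem colL {h : ℤ → ℤ} {X : ℤ} (hX : 1 ≤ X) : ColS X (ColL h X) := by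
  refine ⟨?_, ?_, ?_⟩
  · rintro κ x x' ⟨_, h2, ⟨q, h3, h4, h5⟩, h6⟩ ⟨_, k2, ⟨q', k3, k4, k5⟩, k6⟩
    have e1 := h6 q' k3 k4 (by omega)
    have e2 := k6 q h3 h4 (by omega)
    omega
  · rintro κ x ⟨h1, h2, _, _⟩
    rw [abs_le]; omega
  · rintro κ x ⟨h1, _, ⟨q, h3, _, h5⟩, _⟩
    exact ⟨q, h3, Or.inr (by omega)⟩

/-- a cluster which reaches the column `X - 1` contains an arm -/
theorem col_arm (T : Two h h' X R) {F : Finset Edg} {q : Vtx} (hq : Kap h R F q)
    (hX : X - 1 ≤ q.1 ∨ q.1 ≤ -(X - 1)) : armQ h (X - 1) (F ∩ ES (UU h (X - 1))) := by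
  have hX1 := T.X1
  have hR := T.R1
  have h0 : ((0, 0) : Vtx) ∈ QB (X - 1) := by
    rw [mem_QB]; simp only; omega
  have hU : ∀ z, Reach (↑(F ∩ ES (UU h R)) : Set Edg) (0, 0) z → z ∈ UU h R := fun z hz =>
    reach_mem (fun e he => by
      rw [Finset.mem_coe, Finset.mem_inter] at he
      exact he.2) (zero_mem T) hz
  have hE : (↑(F ∩ ES (UU h R)) : Set Edg) ∩ ↑(ES (QB (X - 1))) ⊆
      ↑(F ∩ ES (UU h (X - 1))) := by
    rintro e ⟨h1, h2⟩
    rw [Finset.mem_coe] at h1 h2 ⊢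
    rw [Finset.mem_inter, mem_ES, mem_UU, mem_UU] at h1
    rw [mem_ES] at h2
    rw [Finset.mem_inter, mem_ES, mem_UU, mem_UU]
    exact ⟨h1.1, ⟨h2.1, h1.2.1.2⟩, ⟨h2.2, h1.2.2.2⟩⟩
  rcases exit_or h0 hq.2 with ⟨h1, h2⟩ | ⟨z, hz, z', hz', had, hr⟩
  · refine ⟨q, ?_, ?_, h2.mono hE⟩
    · rw [mem_UU]; exact ⟨h1, (mem_UU.1 hq.1).2⟩
    · rw [mem_QB] at h1
      unfold onQ
      omega
  · have hzU : z ∈ UU h R := hU z (hr.mono Set.inter_subset_left)
    have hz'U : z' ∈ UU h R := hU z' ((hr.mono Set.inter_subset_left).trans had.reach)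
    refine ⟨z, ?_, ?_, hr.mono hE⟩
    · rw [mem_UU]; exact ⟨hz, (mem_UU.1 hzU).2⟩
    · have h3 := adj_coord had
      have h4 := (mem_UU.1 hz'U).2
      rw [mem_QB] at hz hz'
      unfold onQ
      by_contra hcon
      push Not at hcon
      have h5 : -(X - 1) ≤ z'.1 ∧ z'.1 ≤ X - 1 := by omega
      have h6 := lp_bd T.l h5.1 h5.2
      omega

/-! ### summation over the clusters -/

theorem Pr_sum (S : Finset Edg) (A : Finset Edg → Prop) :
    Pr hf S A = ∑ k ∈ (UU h R).powerset, Pr hf S (fun F => kap h R F = k ∧ A F) := by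
  classical
  unfold Pr
  rw [← Ex_sum]
  apply Ex_congr
  intro F _
  rw [Finset.sum_eq_single (kap h R F)]
  · exact ind_congr ⟨fun h => ⟨rfl, h⟩, fun h => h.2⟩
  · intro k _ hk
    exact ind_not_of fun h => hk h.1.symm
  · intro hk
    exact absurd (Finset.mem_powerset.2 (Finset.filter_subset _ _)) hk

theorem Pr_false (S : Finset Edg) {A : Finset Edg → Prop} (hA : ∀ F, F ⊆ S → ¬ A F) :
    Pr hf S A = 0 := by
  unfold Pr
  rw [Ex_congr (g := fun _ => 0) (fun F hF => ind_not_of (hA F hF)), Ex_const]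

/-- the event, for one rule -/
def EvC (h h' : ℤ → ℤ) (R w : ℤ) (Col : (Vtx → Prop) → ℤ → Prop) (F : Finset Edg) : Prop :=
  ∃ x, Col (Kap h R F) x ∧ ∃ u ∈ BX (x, h x) w, ∃ y ∈ UU h' R, onQ R y ∧
    Reach ((F : Set Edg) ∩ {e | ¬ Kap h R F (src e) ∧ ¬ Kap h R F (tgt e)}) u y

theorem one_side (T : Two h h' X R) {w : ℤ} {B : ℝ} (hB0 : 0 ≤ B)
    (hB : ∀ v : Vtx, |v.1| ≤ 15 * X → |v.2| ≤ 150 * X →
      Pr hf (ES (UU h' R)) (PE h' R v w) ≤ B)
    {Col : (Vtx → Prop) → ℤ → Prop} (hC : ColS X Col) :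
    Pr hf (ES (UU h' R)) (EvC h h' R w Col) ≤ AP h (X - 1) * B := by
  classical
  set S : Finset Edg := ES (UU h' R) with hS
  rw [Pr_sum (h := h) (R := R) S]
  have key : ∀ k ∈ (UU h R).powerset,
      Pr hf S (fun F => kap h R F = k ∧ EvC h h' R w Col F) ≤
        Pr hf S (fun F => kap h R F = k ∧ ∃ x, Col (Kap h R F) x) * B := by
    intro k _
    by_cases hx : ∃ x, Col (fun y => y ∈ k) x
    · obtain ⟨x, hx⟩ := hx
      have hbd := hC.bd _ x hx
      have hxl := abs_le.1 hbd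
      have hh := lp_bd T.l hxl.1 hxl.2
      have h2 : Pr hf S (fun F => kap h R F = k ∧ EvC h h' R w Col F) ≤
          Pr hf S (fun F => (kap h R (F ∩ tch S k) = k) ∧
            PE h' R (x, h x) w (F ∩ (S \ tch S k))) := by
        apply Pr_mono okhalf
        rintro F hF ⟨hk, x', hx', u, hu, y, hy, hs, hr⟩
        refine ⟨(kap_local T hF k).1 hk, ?_⟩
        have hxx : x' = x := by
          apply hC.uniq _ x' x hx'
          rw [← kap_eq, hk]
          exact hx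
        subst hxx
        refine ⟨u, hu, y, hy, hs, hr.mono ?_⟩
        rintro e ⟨h3, h4⟩
        rw [Finset.mem_coe] at h3 ⊢
        rw [Finset.mem_inter, Finset.mem_sdiff, tch, Finset.mem_filter]
        refine ⟨h3, hF h3, ?_⟩
        rintro ⟨_, h5⟩
        rcases h5 with h5 | h5
        · exact h4.1 (mem_kap.1 (by rw [hk]; exact h5))
        · exact h4.2 (mem_kap.1 (by rw [hk]; exact h5))
      have htS : tch S k ⊆ S := Finset.filter_subset _ _
      have h3 : Pr hf S (fun F => (kap h R (F ∩ tch S k) = k) ∧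
            PE h' R (x, h x) w (F ∩ (S \ tch S k))) =
          Pr hf (tch S k) (fun F => kap h R F = k) * Pr hf (S \ tch S k) (PE h' R (x, h x) w) :=
        Pr_indep' htS Finset.sdiff_subset Finset.disjoint_sdiff (fun F => kap h R F = k) _
      have h4 : Pr hf (tch S k) (fun F => kap h R F = k) = Pr hf S (fun F => kap h R F = k) := by
        rw [← Pr_restrict htS (fun F => kap h R F = k)]
        exact Pr_congr fun F hF => (kap_local T hF k).symm
      have h5 : Pr hf S (fun F => kap h R F = k) =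
          Pr hf S (fun F => kap h R F = k ∧ ∃ x, Col (Kap h R F) x) := by
        apply Pr_congr
        intro F _
        refine ⟨fun hk => ⟨hk, x, ?_⟩, fun hk => hk.1⟩
        rw [← kap_eq, hk]
        exact hx
      have h6 : Pr hf (S \ tch S k) (PE h' R (x, h x) w) ≤ B := by
        refine (Pr_mono_set okhalf Finset.sdiff_subset (PE_incr _ _ _ _)).trans
          (hB (x, h x) hbd ?_)
        rw [abs_le]
        constructor
        · show -(150 * X) ≤ h x
          omega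
        · show h x ≤ 150 * X
          omega
      calc _ ≤ _ := h2
        _ = Pr hf S (fun F => kap h R F = k ∧ ∃ x, Col (Kap h R F) x) *
            Pr hf (S \ tch S k) (PE h' R (x, h x) w) := by rw [h3, h4, h5]
        _ ≤ _ := mul_le_mul_of_nonneg_left h6 (Pr_nonneg okhalf _ _)
    · have h2 : Pr hf S (fun F => kap h R F = k ∧ EvC h h' R w Col F) = 0 := by
        apply Pr_false
        rintro F _ ⟨hk, x, hx', _⟩
        apply hx
        refine ⟨x, ?_⟩
        rw [← hk, kap_eq]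
        exact hx'
      rw [h2]
      exact mul_nonneg (Pr_nonneg okhalf _ _) hB0
  refine (Finset.sum_le_sum key).trans ?_
  rw [← Finset.sum_mul, ← Pr_sum (h := h) (R := R) S]
  apply mul_le_mul_of_nonneg_right _ hB0
  have hX1 := T.X1
  have hR := T.R1
  have hsub : ES (UU h (X - 1)) ⊆ S := ES_sub ((UU_sub (by omega)).trans T.sub)
  have h7 : Pr hf S (fun F => ∃ x, Col (Kap h R F) x) ≤
      Pr hf S (fun F => armQ h (X - 1) (F ∩ ES (UU h (X - 1)))) := by
    apply Pr_mono okhalf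
    rintro F _ ⟨x, hx⟩
    obtain ⟨q, hq, hq1⟩ := hC.far _ x hx
    exact col_arm T hq hq1
  refine h7.trans (le_of_eq ?_)
  exact Pr_restrict hsub (armQ h (X - 1))

/-- **The cluster of the modified boundary.** -/
theorem t_CMPA : S_FPA → S_CMPA2 := by
  rintro ⟨C, β, hC, hβ, hF⟩
  refine ⟨2 * C * 200 ^ β, β, by positivity, hβ, ?_⟩
  intro h h' X w R hl hl' hle hw heq hw1 hwX hR
  have hX1 : 1 ≤ X := by omega
  have T : Two h h' X R := ⟨⟨hl, hl', fun x hx => heq x (Or.inr hx), hX1, hR⟩, hle⟩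
  have hX100 : 100 ≤ X := by omega
  have hρ1 : w + 24 ≤ X / 4 := by omega
  have hρ2 : X / 4 ≤ X := by omega
  have hAP : 0 ≤ AP h (X - 1) := Pr_nonneg okhalf _ _
  have hXP : 0 ≤ XP h (32 * X) R := Pr_nonneg okhalf _ _
  set D : ℝ := C * (((w + 24 : ℤ) : ℝ) / ((X / 4 : ℤ) : ℝ)) ^ β with hD
  have hD0 : 0 ≤ D := by
    rw [hD]
    apply mul_nonneg hC.le
    apply Real.rpow_nonneg
    apply div_nonneg
    · exact_mod_cast (by omega : (0 : ℤ) ≤ w + 24)
    · exact_mod_cast (by omega : (0 : ℤ) ≤ X / 4)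
  have hB : ∀ v : Vtx, |v.1| ≤ 15 * X → |v.2| ≤ 150 * X →
      Pr hf (ES (UU h' R)) (PE h' R v (w + 24)) ≤ D * XP h (32 * X) R := by
    intro v hv1 hv2
    refine (path_bound T hv1 hv2 hρ1 hρ2).trans ?_
    exact mul_le_mul_of_nonneg_right (hF v (w + 24) (X / 4) (by omega) hρ1) hXP
  have hDle : D ≤ C * 200 ^ β * ((w : ℝ) / X) ^ β := by
    rw [hD, mul_assoc C, ← Real.mul_rpow (by norm_num) (by
      apply div_nonneg
      · exact_mod_cast (by omega : (0 : ℤ) ≤ w)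
      · exact_mod_cast (by omega : (0 : ℤ) ≤ X))]
    apply mul_le_mul_of_nonneg_left _ hC.le
    apply Real.rpow_le_rpow _ _ hβ.le
    · apply div_nonneg
      · exact_mod_cast (by omega : (0 : ℤ) ≤ w + 24)
      · exact_mod_cast (by omega : (0 : ℤ) ≤ X / 4)
    · have hXr : (0 : ℝ) < X := by exact_mod_cast (by omega : (0 : ℤ) < X)
      have hwr : (1 : ℝ) ≤ w := by exact_mod_cast hw1
      have h4 : (X : ℝ) / 8 ≤ ((X / 4 : ℤ) : ℝ) := by
        have h5 : X ≤ 8 * (X / 4) := by omega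
        have h6 : (X : ℝ) ≤ 8 * ((X / 4 : ℤ) : ℝ) := by exact_mod_cast h5
        linarith
      have h7 : (((w + 24 : ℤ)) : ℝ) ≤ 25 * w := by push_cast; linarith
      calc (((w + 24 : ℤ)) : ℝ) / ((X / 4 : ℤ) : ℝ) ≤ (25 * w) / ((X : ℝ) / 8) := by
            apply div_le_div₀ (by positivity) h7 (by positivity) h4
        _ = 200 * ((w : ℝ) / X) := by
            field_simp
            ring
  have e1 := one_side T (w := w + 24) (mul_nonneg hD0 hXP) hB (colR (h := h) hX1)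
  have e2 := one_side T (w := w + 24) (mul_nonneg hD0 hXP) hB (colL (h := h) hX1)
  have e3 : Pr hf (ES (UU h' R)) (fun F =>
    ∃ x, (ColR h X (Kap h R F) x ∨ ColL h X (Kap h R F) x) ∧
      ∃ u ∈ BX (x, h x) (w + 24), ∃ y ∈ UU h' R, onQ R y ∧
        Reach ((F : Set Edg) ∩ {e | ¬ Kap h R F (src e) ∧ ¬ Kap h R F (tgt e)}) u y) ≤
      Pr hf (ES (UU h' R)) (EvC h h' R (w + 24) (ColR h X)) +
        Pr hf (ES (UU h' R)) (EvC h h' R (w + 24) (ColL h X)) := by
    refine le_trans (Pr_mono okhalf ?_) (Pr_or_le okhalf _ _ _)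
    rintro F _ ⟨x, hx | hx, h3⟩
    · exact Or.inl ⟨x, hx, h3⟩
    · exact Or.inr ⟨x, hx, h3⟩
  have e4 : AP h (X - 1) * (D * XP h (32 * X) R) ≤
      C * 200 ^ β * ((w : ℝ) / X) ^ β * (AP h (X - 1) * XP h (32 * X) R) := by
    have := mul_le_mul_of_nonneg_right hDle (mul_nonneg hAP hXP)
    linarith
  have e5 : 2 * C * 200 ^ β * ((w : ℝ) / X) ^ β * (AP h (X - 1) * XP h (32 * X) R) =
      2 * (C * 200 ^ β * ((w : ℝ) / X) ^ β * (AP h (X - 1) * XP h (32 * X) R)) := by ring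
  rw [e5]
  linarith

/-- **Crossings of the outer annulus.** -/
theorem t_XPL : S_XPL := fun _ _ _ _ hl hl' heq hX hR => XP_le ⟨hl, hl', heq, hX, hR⟩

end Pool.Agent.Y989.SD.CMPA

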