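import Pool.Agent.Y989.SD.Stm

/-!
Project SD (helper989): deterministic comparison of the arms in two domains (by helper383).
-/

set_option autoImplicit false

namespace Pool.Agent.Y989.SD.CMPD

open H974 H973 Finset

/-- the last exit from a set -/
theorem last_exit {F : Set Edg} {K : Vtx → Prop} {a b : Vtx} (h : Reach F a b) (ha : K a)
    (hb : ¬ K b) : ∃ q q', K q ∧ ¬ K q' ∧ Adj F q q' ∧
      Reach (F ∩ {e | ¬ K (src e) ∧ ¬ K (tgt e)}) q' b := by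
  induction h with
  | refl => exact absurd ha hb
  | @tail b' b _ hs ih =>
    by_cases hb' : K b'
    · exact ⟨b', b, hb', hb, hs, Reach.refl _ _⟩
    · obtain ⟨q, q', h1, h2, h3, h4⟩ := ih hb'
      refine ⟨q, q', h1, h2, h3, h4.trans (Adj.reach ?_)⟩
      obtain ⟨e, he, hc⟩ := hs
      refine ⟨e, ⟨he, ?_⟩, hc⟩
      rcases hc with ⟨e1, e2⟩ | ⟨e1, e2⟩
      · exact ⟨by rw [e1]; exact hb', by rw [e2]; exact hb⟩
      · exact ⟨by rw [e1]; exact hb, by rw [e2]; exact hb'⟩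

theorem RE_of_ends {a b c d : ℤ} {e : Edg} (h1 : (a ≤ (src e).1 ∧ (src e).1 ≤ b) ∧
    (c ≤ (src e).2 ∧ (src e).2 ≤ d)) (h2 : (a ≤ (tgt e).1 ∧ (tgt e).1 ≤ b) ∧
    (c ≤ (tgt e).2 ∧ (tgt e).2 ≤ d)) : e ∈ RE a b c d := by
  obtain ⟨x, y, _ | _⟩ := e
  · rw [mem_RE_false]
    simp only [src_mk, tgt_false] at h1 h2
    omega
  · rw [mem_RE_true]
    simp only [src_mk, tgt_true] at h1 h2
    omega

theorem adj_coord {F : Set Edg} {u v : Vtx} (h : Adj F u v) :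
    (v.1 = u.1 + 1 ∧ v.2 = u.2) ∨ (v.1 = u.1 - 1 ∧ v.2 = u.2) ∨ (v.1 = u.1 ∧ v.2 = u.2 + 1) ∨
      (v.1 = u.1 ∧ v.2 = u.2 - 1) := by
  obtain ⟨⟨x, y, _ | _⟩, -, hc⟩ := h
  · simp only [src_mk, tgt_false] at hc
    rcases hc with ⟨h1, h2⟩ | ⟨h1, h2⟩
    · subst h1; subst h2; simp
    · subst h1; subst h2; simp
  · simp only [src_mk, tgt_true] at hc
    rcases hc with ⟨h1, h2⟩ | ⟨h1, h2⟩
    · subst h1; subst h2; simp
    · subst h1; subst h2; simp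

/-- the vertices of a path from a vertex -/
theorem inv_reach {G : Set Edg} {N : Vtx → Prop} (hG : ∀ e ∈ G, N (src e) ∧ N (tgt e)) {u v : Vtx}
    (hu : N u) (h : Reach G u v) : N v := by
  induction h with
  | refl => exact hu
  | tail _ hs _ =>
    obtain ⟨e, he, hc⟩ := hs
    rcases hc with ⟨_, h2⟩ | ⟨h1, _⟩
    · rw [← h2]; exact (hG e he).2
    · rw [← h1]; exact (hG e he).1

/-- the right side -/
theorem right (hA : S_ARCH) (h h' : ℤ → ℤ) (X w R : ℤ) (K : Vtx → Prop) (G : Set Edg)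
    (hL : Lp 10 h) (hle : ∀ x, h' x ≤ h x) (hw : ∀ x, h x - h' x ≤ w)
    (heq : ∀ x, |x| < X ∨ 14 * X < |x| → h x = h' x) (hX : 1 ≤ X) (_hXR : 32 * X ≤ R)
    (hK0 : K (0, 0)) (hK1 : ∀ v, K v → v ∈ UU h R) (hK2 : ∀ v, K v → Reach (EV K) (0, 0) v)
    (hG : ∀ e ∈ G, (src e ∈ UU h' R ∧ ¬ K (src e)) ∧ (tgt e ∈ UU h' R ∧ ¬ K (tgt e)))
    (q q' y : Vtx) (hq : K q) (hq' : ¬ K q') (hqU : q' ∈ UU h' R) (hqN : q' ∉ UU h R)
    (hadj : (q'.1 = q.1 + 1 ∧ q'.2 = q.2) ∨ (q'.1 = q.1 - 1 ∧ q'.2 = q.2) ∨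
      (q'.1 = q.1 ∧ q'.2 = q.2 + 1) ∨ (q'.1 = q.1 ∧ q'.2 = q.2 - 1))
    (hy : Reach G q' y) (hyQ : onQ R y) (hpos : 0 < q'.1) :
    ∃ x, ColR h X K x ∧ ∃ u ∈ BX (x, h x) (w + 24), Reach G u y := by
  have hlip1 : ∀ x, h (x + 1) ≤ h x + 10 ∧ h x - 10 ≤ h (x + 1) := fun x => by
    have := abs_le.1 (hL.lip x)
    omega
  have hlip2 : ∀ x, h (x - 1) ≤ h x + 10 ∧ h x - 10 ≤ h (x - 1) := fun x => by
    have := hlip1 (x - 1)
    rw [sub_add_cancel] at this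
    omega
  have hw0 : 0 ≤ w := by
    have h1 := hle 0
    have h2 := hw 0
    omega
  rw [mem_UU] at hqU hqN
  have hq'lt : q'.2 < h q'.1 := by
    by_contra hc
    push Not at hc
    exact hqN ⟨hqU.1, hc⟩
  have hq'ge : h' q'.1 ≤ q'.2 := hqU.2
  have hq'box := mem_QB.1 hqU.1
  have hX1 : X ≤ q'.1 ∧ q'.1 ≤ 14 * X := by
    have habs : |q'.1| = q'.1 := abs_of_pos hpos
    by_contra hc
    have h1 := heq q'.1 (by rw [habs]; omega)
    omega
  have hqK := mem_UU.1 (hK1 q hq)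
  have hqbt : btH h q := by
    refine ⟨hqK.2, ?_⟩
    rcases hadj with ⟨e1, e2⟩ | ⟨e1, e2⟩ | ⟨e1, e2⟩ | ⟨e1, e2⟩
    · left
      rw [← e1, ← e2]
      exact hq'lt
    · right; left
      rw [← e1, ← e2]
      exact hq'lt
    · exfalso
      rw [e1] at hq'lt
      have := hqK.2
      omega
    · right; right
      rw [← e1, ← e2]
      exact hq'lt
  have hq1 : q'.1 - 1 ≤ q.1 ∧ q.1 ≤ q'.1 + 1 := by omega
  obtain ⟨x, ⟨⟨q1, hq1K, hq1b, hq1x⟩, hx15⟩, hmax⟩ :=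
    Int.exists_greatest_of_bdd (P := fun x => (∃ v, K v ∧ btH h v ∧ v.1 = x) ∧ x ≤ 15 * X)
      ⟨15 * X, fun z hz => hz.2⟩ ⟨q.1, ⟨q, hq, hqbt, rfl⟩, by omega⟩
  have hqx : q.1 ≤ x := hmax q.1 ⟨⟨q, hq, hqbt, rfl⟩, by omega⟩
  refine ⟨x, ⟨by omega, hx15, ⟨q1, hq1K, hq1b, hq1x⟩,
    fun v hv hvb hv15 => hmax v.1 ⟨⟨v, hv, hvb, rfl⟩, hv15⟩⟩, ?_⟩
  rcases le_or_gt x (q'.1 + 1) with hc | hc
  · -- the vertex `q'` is near
    refine ⟨q', ?_, hy⟩
    rw [mem_BX]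
    have h1 := hw q'.1
    have h2 : h q'.1 - 10 ≤ h x ∧ h x ≤ h q'.1 + 10 := by
      have hcase : x = q'.1 ∨ x = q'.1 + 1 ∨ x = q'.1 - 1 := by omega
      rcases hcase with rfl | rfl | rfl
      · omega
      · have := hlip1 q'.1
        omega
      · have := hlip2 q'.1
        omega
    simp only
    omega
  · -- the path passes below `q1`
    have hq1U := mem_UU.1 (hK1 q1 hq1K)
    have hq1box := mem_QB.1 hq1U.1
    have hq1h : h x ≤ q1.2 ∧ q1.2 ≤ h x + 10 := by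
      obtain ⟨b1, b2⟩ := hq1b
      rw [hq1x] at b1 b2
      have := hlip1 x
      have := hlip2 x
      omega
    have hN : ∀ v, Reach G q' v → v ∈ UU h' R ∧ ¬ K v := fun v hv =>
      inv_reach (N := fun v => v ∈ UU h' R ∧ ¬ K v) hG ⟨mem_UU.2 hqU, hq'⟩ hv
    by_cases hex : ∃ v, Reach G q' v ∧ v.1 = x ∧ v.2 < q1.2
    · obtain ⟨v, hv, hvx, hv2⟩ := hex
      refine ⟨v, ?_, hv.symm.trans hy⟩
      have h1 := (mem_UU.1 (hN v hv).1).2
      rw [hvx] at h1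
      have h2 := hw x
      rw [mem_BX]
      simp only
      omega
    · exfalso
      push Not at hex
      let V : Vtx → Prop := fun v => K v ∨ (v.1 = 0 ∧ v.2 < 0) ∨ (v.1 = x ∧ v.2 < q1.2)
      let V' : Vtx → Prop := fun v => Reach G q' v ∨ (v.1 = q'.1 ∧ v.2 < q'.2)
      have hdis : ∀ v, V v → V' v → False := by
        rintro v (hv | ⟨v1, v2⟩ | ⟨v1, v2⟩) (hv' | ⟨w1, w2⟩)
        · exact (hN v hv').2 hv
        · have h1 := (mem_UU.1 (hK1 v hv)).2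
          rw [w1] at h1
          omega
        · have h1 := (mem_UU.1 (hN v hv').1).2
          have h2 := heq 0 (Or.inl (by rw [abs_zero]; omega))
          rw [v1, ← h2, hL.zero] at h1
          omega
        · omega
        · have := hex v hv' v1
          omega
        · omega
      have hKV : EV K ⊆ EV V ∩ ↑(RE (-R) R (-(32 * R)) (32 * R)) := by
        rintro e ⟨e1, e2⟩
        refine ⟨⟨Or.inl e1, Or.inl e2⟩, ?_⟩
        exact RE_of_ends (mem_QB.1 (mem_UU.1 (hK1 _ e1)).1) (mem_QB.1 (mem_UU.1 (hK1 _ e2)).1)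
      have p1 : Reach (EV V ∩ ↑(RE (-R) R (-(32 * R)) (32 * R))) (0, -(32 * R)) (0, 0) := by
        refine vline' (by omega) (by omega) (by omega) (by omega) fun k _ hk2 => ?_
        rcases eq_or_lt_of_le hk2 with rfl | hlt
        · exact Or.inl hK0
        · exact Or.inr (Or.inl ⟨rfl, hlt⟩)
      have p2 : Reach (EV V ∩ ↑(RE (-R) R (-(32 * R)) (32 * R))) (0, 0) q1 :=
        (hK2 q1 hq1K).mono hKV
      have hq1e : q1 = (x, q1.2) := Prod.ext hq1x rfl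
      have p3 : Reach (EV V ∩ ↑(RE (-R) R (-(32 * R)) (32 * R))) (x, -(32 * R)) (x, q1.2) := by
        refine vline' (by omega) (by omega) (by omega) (by omega) fun k _ hk2 => ?_
        rcases eq_or_lt_of_le hk2 with rfl | hlt
        · rw [← hq1e]
          exact Or.inl hq1K
        · exact Or.inr (Or.inr ⟨rfl, hlt⟩)
      rw [← hq1e] at p3
      have hV'q : ∀ k, k ≤ q'.2 → V' (q'.1, k) := by
        intro k hk
        rcases eq_or_lt_of_le hk with rfl | hlt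
        · exact Or.inl (Reach.refl _ _)
        · exact Or.inr ⟨rfl, hlt⟩
      have p4 : Reach (EV V' ∩ ↑(RE (-R) R (-(32 * R)) (32 * R))) (q'.1, -(32 * R)) q' := by
        exact vline' (by omega) (by omega) (by omega) (by omega) fun k _ hk2 => hV'q k hk2
      have p5 : Reach (EV V' ∩ ↑(RE (-R) R (-(32 * R)) (32 * R))) q' y := by
        refine reach_EV (fun v hv => Or.inl hv) (fun e he => ?_) hy
        have h1 := hG e he
        exact RE_of_ends (mem_QB.1 (mem_UU.1 h1.1.1).1) (mem_QB.1 (mem_UU.1 h1.2.1).1)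
      refine hA (-R) R (-(32 * R)) (32 * R) V V' 0 x q'.1 y (by omega) hpos (by omega) (by omega)
        (by omega) hdis (Or.inr (Or.inl ⟨rfl, by simp only; omega⟩)) ((p1.trans p2).trans p3.symm)
        (hV'q _ (by omega)) (p4.trans p5) ?_
      rcases hyQ with h1 | h1 | h1
      · left; omega
      · right; left; omega
      · right; right; left; omega

/-- the mirror image -/
def mr (v : Vtx) : Vtx := (-v.1, v.2)

theorem mr_mr (v : Vtx) : mr (mr v) = v := by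
  obtain ⟨x, y⟩ := v
  simp [mr]

theorem psi_eq (v : Vtx) : (rfx 0).ψ v = mr v := by
  obtain ⟨x, y⟩ := v
  rw [rfx_ψ, zero_sub]
  rfl

theorem mem_UU_mr {h : ℤ → ℤ} {R : ℤ} {v : Vtx} :
    v ∈ UU (fun x => h (-x)) R ↔ mr v ∈ UU h R := by
  rw [mem_UU, mem_UU, mem_QB, mem_QB]
  unfold mr
  simp only
  omega

theorem edge_mr {G : Set Edg} {N N' : Vtx → Prop} (hN : ∀ v, N v → N' (mr v))
    (hG : ∀ e ∈ G, N (src e) ∧ N (tgt e)) :
    ∀ e ∈ (rfx 0).φ '' G, N' (src e) ∧ N' (tgt e) := by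
  rintro _ ⟨e, he, rfl⟩
  obtain ⟨h1, h2⟩ := hG e he
  rcases (rfx 0).compat e with ⟨e1, e2⟩ | ⟨e1, e2⟩
  · rw [e1, e2, psi_eq, psi_eq]
    exact ⟨hN _ h1, hN _ h2⟩
  · rw [e1, e2, psi_eq, psi_eq]
    exact ⟨hN _ h2, hN _ h1⟩

theorem btH_mr {h : ℤ → ℤ} {v : Vtx} : btH (fun x => h (-x)) v ↔ btH h (mr v) := by
  unfold btH mr
  simp only
  rw [show -(v.1 + 1) = -v.1 - 1 by ring, show -(v.1 - 1) = -v.1 + 1 by ring]
  tauto

/-- the left side -/
theorem left (hA : S_ARCH) (h h' : ℤ → ℤ) (X w R : ℤ) (K : Vtx → Prop) (G : Set Edg)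
    (hL : Lp 10 h) (hle : ∀ x, h' x ≤ h x) (hw : ∀ x, h x - h' x ≤ w)
    (heq : ∀ x, |x| < X ∨ 14 * X < |x| → h x = h' x) (hX : 1 ≤ X) (hXR : 32 * X ≤ R)
    (hK0 : K (0, 0)) (hK1 : ∀ v, K v → v ∈ UU h R) (hK2 : ∀ v, K v → Reach (EV K) (0, 0) v)
    (hG : ∀ e ∈ G, (src e ∈ UU h' R ∧ ¬ K (src e)) ∧ (tgt e ∈ UU h' R ∧ ¬ K (tgt e)))
    (q q' y : Vtx) (hq : K q) (hq' : ¬ K q') (hqU : q' ∈ UU h' R) (hqN : q' ∉ UU h R)
    (hadj : (q'.1 = q.1 + 1 ∧ q'.2 = q.2) ∨ (q'.1 = q.1 - 1 ∧ q'.2 = q.2) ∨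
      (q'.1 = q.1 ∧ q'.2 = q.2 + 1) ∨ (q'.1 = q.1 ∧ q'.2 = q.2 - 1))
    (hy : Reach G q' y) (hyQ : onQ R y) (hneg : q'.1 < 0) :
    ∃ x, ColL h X K x ∧ ∃ u ∈ BX (x, h x) (w + 24), Reach G u y := by
  have hmr0 : mr (0, 0) = (0, 0) := rfl
  obtain ⟨x, ⟨c1, c2, ⟨p, hp1, hp2, hp3⟩, c4⟩, u, hu, hur⟩ :=
    right hA (fun x => h (-x)) (fun x => h' (-x)) X w R (fun v => K (mr v)) ((rfx 0).φ '' G)
      ⟨by simp only [neg_zero]; exact hL.zero, fun x => by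
        have h1 := hL.lip (-x - 1)
        rw [sub_add_cancel] at h1
        rw [show -(x + 1) = -x - 1 by ring, abs_sub_comm]
        exact h1⟩
      (fun x => hle (-x)) (fun x => hw (-x)) (fun x hx => heq (-x) (by rwa [abs_neg])) hX hXR
      hK0 (fun v hv => mem_UU_mr.2 (hK1 _ hv))
      (fun v hv => by
        have h1 := (rfx 0).reach (hK2 _ hv)
        rw [psi_eq, psi_eq, mr_mr, hmr0] at h1
        refine h1.mono (edge_mr (N := K) (N' := fun v => K (mr v)) (fun v hv => ?_)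
          (fun e he => he))
        rw [mr_mr]
        exact hv)
      (edge_mr (N := fun v => v ∈ UU h' R ∧ ¬ K v)
        (N' := fun v => v ∈ UU (fun x => h' (-x)) R ∧ ¬ K (mr v)) (fun v hv => by
        rw [mem_UU_mr, mr_mr]
        exact hv) hG)
      (mr q) (mr q') (mr y) (by rw [mr_mr]; exact hq) (by rw [mr_mr]; exact hq')
      (by rw [mem_UU_mr, mr_mr]; exact hqU) (by rw [mem_UU_mr, mr_mr]; exact hqN)
      (by unfold mr; simp only; omega)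
      (by
        have h1 := (rfx 0).reach hy
        rwa [psi_eq, psi_eq] at h1)
      (by
        unfold onQ mr at *
        simp only
        omega)
      (by unfold mr; simp only; omega)
  refine ⟨-x, ⟨by omega, by omega, ⟨mr p, hp1, btH_mr.1 hp2, ?_⟩, fun v hv hvb hvx => ?_⟩, mr u, ?_, ?_⟩
  · unfold mr
    simp only
    omega
  · have h1 := c4 (mr v) (by simp only; rw [mr_mr]; exact hv) (by rw [btH_mr, mr_mr]; exact hvb) (by
      unfold mr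
      simp only
      omega)
    unfold mr at h1
    simp only at h1
    omega
  · rw [mem_BX] at hu ⊢
    unfold mr
    simp only at hu ⊢
    omega
  · have h1 := ((rfx 0).reach_iff (F := G) (u := mr u) (v := y)).1
    rw [psi_eq, psi_eq, mr_mr] at h1
    exact h1 hur

theorem t_CMPD : S_ARCH → S_CMPD := by
  intro hA h h' X w R F hL hL' hle hw heq hX hXR hF harm hnarm
  obtain ⟨y, hyU, hyQ, hyR⟩ := harm
  have hK0 : Kap h R F (0, 0) := by
    refine ⟨mem_UU.2 ⟨mem_QB.2 (by simp only; omega), ?_⟩, Reach.refl _ _⟩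
    simp only
    rw [hL.zero]
  have hyK : ¬ Kap h R F y := fun hc => hnarm ⟨y, hc.1, hyQ, hc.2⟩
  obtain ⟨q, q', hq, hq', hadj, hrest⟩ := last_exit hyR hK0 hyK
  have hK1 : ∀ v, Kap h R F v → v ∈ UU h R := fun v hv => hv.1
  have hK2 : ∀ v, Kap h R F v → Reach (EV (Kap h R F)) (0, 0) v := by
    intro v hv
    have h1 := reach_EV (V := Kap h R F) (R := Set.univ) (fun u hu => ?_) (fun _ _ => trivial) hv.2
    · exact h1.mono Set.inter_subset_left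
    · refine ⟨?_, hu⟩
      refine inv_reach (N := fun v => v ∈ UU h R) (fun e he => ?_) hK0.1 hu
      exact mem_ES.1 (Finset.mem_inter.1 (Finset.mem_coe.1 he)).2
  have hG : ∀ e ∈ ((F : Set Edg) ∩ {e | ¬ Kap h R F (src e) ∧ ¬ Kap h R F (tgt e)}),
      (src e ∈ UU h' R ∧ ¬ Kap h R F (src e)) ∧ (tgt e ∈ UU h' R ∧ ¬ Kap h R F (tgt e)) := by
    rintro e ⟨he, h1, h2⟩
    have h3 := mem_ES.1 (hF (Finset.mem_coe.1 he))
    exact ⟨⟨h3.1, h1⟩, ⟨h3.2, h2⟩⟩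
  have hco := adj_coord hadj
  obtain ⟨e, he, hc⟩ := hadj
  have heU := mem_ES.1 (hF (Finset.mem_coe.1 he))
  have hqU : q' ∈ UU h' R := by
    rcases hc with ⟨_, h2⟩ | ⟨h1, _⟩
    · rw [← h2]; exact heU.2
    · rw [← h1]; exact heU.1
  have hqN : q' ∉ UU h R := by
    intro hin
    apply hq'
    refine ⟨hin, hq.2.trans (Adj.reach ⟨e, ?_, hc⟩)⟩
    rw [Finset.mem_coe, Finset.mem_inter, mem_ES]
    refine ⟨Finset.mem_coe.1 he, ?_⟩
    rcases hc with ⟨h1, h2⟩ | ⟨h1, h2⟩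
    · rw [h1, h2]; exact ⟨hq.1, hin⟩
    · rw [h1, h2]; exact ⟨hin, hq.1⟩
  have hne : q'.1 ≠ 0 := by
    intro h0
    have h1 := heq q'.1 (Or.inl (by rw [h0, abs_zero]; omega))
    rw [mem_UU] at hqU hqN
    exact hqN ⟨hqU.1, by rw [h1]; exact hqU.2⟩
  rcases lt_or_gt_of_ne hne with hlt | hgt
  · obtain ⟨x, hx, u, hu, hr⟩ := left hA h h' X w R (Kap h R F) _ hL hle hw heq hX hXR hK0 hK1 hK2
      hG q q' y hq hq' hqU hqN hco hrest hyQ hlt
    exact ⟨x, Or.inr hx, u, hu, y, hyU, hyQ, hr⟩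
  · obtain ⟨x, hx, u, hu, hr⟩ := right hA h h' X w R (Kap h R F) _ hL hle hw heq hX hXR hK0 hK1 hK2
      hG q q' y hq hq' hqU hqN hco hrest hyQ hgt
    exact ⟨x, Or.inl hx, u, hu, y, hyU, hyQ, hr⟩

end Pool.Agent.Y989.SD.CMPD
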