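import Pool.Agent.Y989.SD.Stm2

/-!
Project SD, job 8034: a window in standard position (`S_EMB`).
-/

set_option autoImplicit false

namespace Pool.Agent.Y989.SD.EMB

open H974 H973 Finset

/-- Composition of symmetries. -/
def cmp (g f : LSym) : LSym where
  φ := f.φ.trans g.φ
  ψ := f.ψ.trans g.ψ
  compat := by
    intro e
    simp only [Equiv.trans_apply]
    rcases f.compat e with ⟨h1, h2⟩ | ⟨h1, h2⟩ <;> rcases g.compat (f.φ e) with ⟨h3, h4⟩ | ⟨h3, h4⟩ <;>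
      rw [h1] at * <;> rw [h2] at * <;> simp_all

/-- The maps `emb` are symmetries. -/
theorem exists_sym (e v : Vtx) (he : e = (0, 1) ∨ e = (1, 0) ∨ e = (0, -1) ∨ e = (-1, 0)) :
    ∃ g : LSym, ∀ y, g.ψ y = emb e v y := by
  rcases he with rfl | rfl | rfl | rfl
  · refine ⟨trl v.1 v.2, ?_⟩
    rintro ⟨x, y⟩
    simp only [trl_ψ, emb, Prod.mk.injEq]
    constructor <;> ring
  · refine ⟨cmp (trl v.1 0) (cmp (rfy v.2) tps), ?_⟩
    rintro ⟨x, y⟩
    show (trl v.1 0).ψ ((rfy v.2).ψ (tps.ψ (x, y))) = _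
    simp only [trl_ψ, rfy_ψ, tps_ψ, emb, Prod.mk.injEq]
    constructor <;> ring
  · refine ⟨cmp (rfy v.2) (rfx v.1), ?_⟩
    rintro ⟨x, y⟩
    show (rfy v.2).ψ ((rfx v.1).ψ (x, y)) = _
    simp only [rfx_ψ, rfy_ψ, emb, Prod.mk.injEq]
    constructor <;> ring
  · refine ⟨cmp (trl 0 v.2) (cmp (rfx v.1) tps), ?_⟩
    rintro ⟨x, y⟩
    show (trl 0 v.2).ψ ((rfx v.1).ψ (tps.ψ (x, y))) = _
    simp only [trl_ψ, rfx_ψ, tps_ψ, emb, Prod.mk.injEq]
    constructor <;> ring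

/-- The maps `emb` preserve the distance. -/
theorem emb_mem_BX (e v : Vtx) (he : e = (0, 1) ∨ e = (1, 0) ∨ e = (0, -1) ∨ e = (-1, 0))
    (y z : Vtx) (n : ℤ) : emb e v y ∈ BX (emb e v z) n ↔ y ∈ BX z n := by
  obtain ⟨y1, y2⟩ := y
  obtain ⟨z1, z2⟩ := z
  rcases he with rfl | rfl | rfl | rfl <;>
  · simp only [mem_BX, emb]
    omega

theorem t_EMB : S_EMB := by
  rintro T v L B α ⟨e, he, h, s, h1, h2, h3, h4⟩
  obtain ⟨g, hg⟩ := exists_sym e v he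
  refine ⟨g, h, s, ?_, ?_, h1, h2, h3, ?_⟩
  · rw [hg]
    simp [emb]
  · intro y z n
    rw [hg, hg]
    exact emb_mem_BX e v he y z n
  · intro y hy
    rw [hg]
    exact h4 y hy

end Pool.Agent.Y989.SD.EMB
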