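import Pool.Agent.Y989.SD.Stm3
import Pool.Agent.H974R2.Block

/-!
Project SD (helper989), part FPA (by helper710): polynomial decay of the crossing probability of
annuli in the full plane.
-/

set_option autoImplicit false
set_option linter.all false

namespace Pool.Agent.Y989.SD.FPA

open H974 H973 Finset

/-- A path from the inner box to the outside crosses the annulus. -/
theorem not_blk {F : Finset Edg} {R1 R2 : ℤ} (h1 : 0 ≤ R1) (h2 : R1 < R2) {u v : Vtx}
    (hu : (-R1 ≤ u.1 ∧ u.1 ≤ R1) ∧ (-R1 ≤ u.2 ∧ u.2 ≤ R1))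
    (h : Reach (↑F : Set Edg) u v) (hv : v.1 ≤ -R2 ∨ R2 ≤ v.1 ∨ v.2 ≤ -R2 ∨ R2 ≤ v.2) :
    ¬ H974.Blk R1 R2 F := by
  obtain ⟨w, k1, k2, k3⟩ := first_exit (a := -R2) (b := R2) (c := -R2) (d := R2)
    (by unfold inR; omega) h hv
  rintro ⟨hb1, hb2⟩
  rcases k2 with k2 | k2 | k2 | k2
  · apply hb1
    right
    obtain ⟨y1, y2, m1, m2, m3, -⟩ := sub_LR (a := -R2) (b := -R1) (c := -R2) (d := R2) (by omega)
      (by rintro x y ⟨-, h⟩ _ _; simp only [mem_coe, mem_RE_true] at h; omega)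
      (by rintro x y ⟨-, h⟩ _ _; simp only [mem_coe, mem_RE_false] at h; omega)
      k3.symm k2.le hu.1.1
    exact ⟨y1, y2, m1, m2, m3.mono (by rintro e ⟨⟨h4, -⟩, h5⟩; exact ⟨h4, h5⟩)⟩
  · apply hb1
    left
    obtain ⟨y1, y2, m1, m2, m3, -⟩ := sub_LR (a := R1) (b := R2) (c := -R2) (d := R2) (by omega)
      (by rintro x y ⟨-, h⟩ _ _; simp only [mem_coe, mem_RE_true] at h; omega)
      (by rintro x y ⟨-, h⟩ _ _; simp only [mem_coe, mem_RE_false] at h; omega)
      k3 hu.1.2 k2.ge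
    exact ⟨y1, y2, m1, m2, m3.mono (by rintro e ⟨⟨h4, -⟩, h5⟩; exact ⟨h4, h5⟩)⟩
  · apply hb2
    right
    obtain ⟨y1, y2, m1, m2, m3, -⟩ := sub_TB (a := -R2) (b := R2) (c := -R2) (d := -R1) (by omega)
      (by rintro x y ⟨-, h⟩ _ _; simp only [mem_coe, mem_RE_false] at h; omega)
      (by rintro x y ⟨-, h⟩ _ _; simp only [mem_coe, mem_RE_true] at h; omega)
      k3.symm k2.le hu.2.1
    exact ⟨y1, y2, m1, m2, m3.mono (by rintro e ⟨⟨h4, -⟩, h5⟩; exact ⟨h4, h5⟩)⟩
  · apply hb2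
    left
    obtain ⟨y1, y2, m1, m2, m3, -⟩ := sub_TB (a := -R2) (b := R2) (c := R1) (d := R2) (by omega)
      (by rintro x y ⟨-, h⟩ _ _; simp only [mem_coe, mem_RE_false] at h; omega)
      (by rintro x y ⟨-, h⟩ _ _; simp only [mem_coe, mem_RE_true] at h; omega)
      k3 hu.2.2 k2.ge
    exact ⟨y1, y2, m1, m2, m3.mono (by rintro e ⟨⟨h4, -⟩, h5⟩; exact ⟨h4, h5⟩)⟩

theorem pr_annuli' (j K : ℕ) {U : Finset Edg} (hU : boxE (RR (j + K)) ⊆ U) :
    Pr (fun _ => (1/2 : ℝ)) U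
      (fun F => ∀ k, j ≤ k → k < j + K → ¬ H974.Blk (RR k) (RR (k + 1)) F) ≤
      (1 - (1/2 : ℝ)^188)^K := by
  have ok := okq (q := 1/2) (by norm_num) (by norm_num)
  induction K with
  | zero =>
    simp only [pow_zero]
    exact Pr_le_one ok _ _
  | succ K ih =>
    have hlt : RR (j + K) < RR (j + K + 1) := by rw [RR_succ]; have := RR_ge (j + K); omega
    have hU' : boxE (RR (j + K)) ⊆ U := (boxE_mono hlt.le).trans hU
    have i1 := ih hU'
    have hann : annE (RR (j + K)) (RR (j + K + 1)) ⊆ U := Finset.sdiff_subset.trans hU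
    have e1 : Pr (fun _ => (1/2 : ℝ)) U
        (fun F => ∀ k, j ≤ k → k < j + (K + 1) → ¬ H974.Blk (RR k) (RR (k + 1)) F) =
        Pr (fun _ => (1/2 : ℝ)) U
          (fun F => (∀ k, j ≤ k → k < j + K → ¬ H974.Blk (RR k) (RR (k + 1)) F) ∧
          ¬ H974.Blk (RR (j + K)) (RR (j + K + 1)) F) := by
      apply Pr_congr
      intro F _
      constructor
      · intro h
        exact ⟨fun k hk hk' => h k hk (by omega), h (j + K) (by omega) (by omega)⟩
      · rintro ⟨h, h'⟩ k hk hk'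
        rcases Nat.lt_or_ge k (j + K) with hlt | hge
        · exact h k hk hlt
        · have : k = j + K := by omega
          rw [this]; exact h'
    have i2 := Pr_indep (p := fun _ => (1/2:ℝ))
      (A := fun F => ∀ k, j ≤ k → k < j + K → ¬ H974.Blk (RR k) (RR (k + 1)) F)
      (B := fun F => ¬ H974.Blk (RR (j + K)) (RR (j + K + 1)) F) hU' hann (Finset.disjoint_sdiff)
      (fun F _ => forall_congr' fun k => forall_congr' fun hk => forall_congr' fun hk' => not_congr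
        (Blk_local (by rw [RR_succ]; have := RR_ge k; omega)
          (Finset.sdiff_subset.trans (boxE_mono (RR_mono (by omega)))) F))
      (fun F _ => not_congr (Blk_local hlt (Finset.Subset.refl _) F))
    rw [e1, i2, Pr_not, pow_succ]
    have hb : (1/2 : ℝ)^188 ≤ Pr (fun _ => (1/2 : ℝ)) U
        (H974.Blk (RR (j + K)) (RR (j + K + 1))) := by
      rw [RR_succ] at hann ⊢
      exact pr_Blk (by have := RR_ge (j + K); omega) hann
    apply mul_le_mul i1 (by linarith)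
    · have := Pr_le_one ok U (H974.Blk (RR (j + K)) (RR (j + K + 1)))
      linarith
    · apply pow_nonneg
      have : (1/2 : ℝ)^188 ≤ 1 := pow_le_one₀ (by norm_num) (by norm_num)
      linarith

/-- the crossing event -/
def Ev (v : Vtx) (r R : ℤ) (F : Finset Edg) : Prop :=
  ∃ u ∈ BX v r, ∃ y ∈ BX v R, onBX v R y ∧ Reach (F : Set Edg) u y

theorem Ev_mono {v : Vtx} {r R : ℤ} {F G : Finset Edg} (h : F ⊆ G) (hF : Ev v r R F) :
    Ev v r R G := by
  obtain ⟨u, hu, y, hy, hb, hr⟩ := hF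
  exact ⟨u, hu, y, hy, hb, hr.mono (by exact_mod_cast h)⟩

/-- translation to the origin -/
theorem to_zero (v : Vtx) {r R : ℤ} (hR : 1 ≤ R) {n : ℕ} (hn : (R : ℤ) ≤ n) :
    Pr hf (ES (BX v R)) (Ev v r R) ≤ Pr (fun _ => (1/2 : ℝ)) (boxE n) (Ev (0, 0) r R) := by
  obtain ⟨a, b⟩ := v
  have ok := okq (q := 1/2) (by norm_num) (by norm_num)
  have hsub : ES (BX (a, b) R) ⊆ (trl a b).mp (boxE n) := by
    unfold boxE
    rw [trl_RE]
    rintro ⟨x, y, _ | _⟩ h
    · rw [mem_ES, mem_BX, mem_BX] at h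
      simp only [src, tgt, Bool.false_eq_true, if_false] at h
      rw [mem_RE_false]
      omega
    · rw [mem_ES, mem_BX, mem_BX] at h
      simp only [src, tgt, if_true] at h
      rw [mem_RE_true]
      omega
  refine (Pr_mono_set ok hsub fun F G h _ hF => Ev_mono h hF).trans ?_
  rw [LSym.pr]
  refine Pr_mono ok fun F _ => ?_
  rintro ⟨⟨u1, u2⟩, hu, ⟨y1, y2⟩, hy, hb, hr⟩
  rw [mem_BX] at hu hy
  refine ⟨(u1 - a, u2 - b), ?_, (y1 - a, y2 - b), ?_, ?_, ?_⟩
  · rw [mem_BX]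
    simp only at hu ⊢
    omega
  · rw [mem_BX]
    simp only at hy ⊢
    omega
  · unfold onBX at hb ⊢
    simp only at hb ⊢
    omega
  · rw [← (trl a b).reach_iff, trl_ψ, trl_ψ, ← LSym.coe_mp]
    simpa using hr

theorem scales {r R : ℤ} {j m : ℕ} (hj : r ≤ RR j) (hm : (RR (j + m) : ℤ) ≤ R) (v : Vtx)
    (hR : 1 ≤ R) : Pr hf (ES (BX v R)) (Ev v r R) ≤ (1 - (1/2 : ℝ)^188)^m := by
  obtain ⟨n, rfl⟩ := Int.eq_ofNat_of_zero_le (show 0 ≤ R by omega)
  have ok := okq (q := 1/2) (by norm_num) (by norm_num)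
  refine (to_zero v hR le_rfl).trans ?_
  have hmn : RR (j + m) ≤ n := by exact_mod_cast hm
  refine le_trans ?_ (pr_annuli' j m (boxE_mono hmn))
  apply Pr_mono ok
  rintro F _ ⟨u, hu, y, hy, hb, hr⟩ k hk hk'
  have hlt : RR k < RR (k + 1) := by rw [RR_succ]; have := RR_ge k; omega
  have hlt' : (RR k : ℤ) < RR (k + 1) := by exact_mod_cast hlt
  have hle : RR (k + 1) ≤ RR (j + m) := RR_mono (by omega)
  have hle' : (RR (k + 1) : ℤ) ≤ n := by
    have : (RR (k + 1) : ℤ) ≤ RR (j + m) := by exact_mod_cast hle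
    exact this.trans hm
  have hjk : (RR j : ℤ) ≤ RR k := by exact_mod_cast RR_mono hk
  rw [mem_BX] at hu
  simp only at hu
  refine not_blk (u := u) (v := y) (by positivity) hlt' ?_ hr ?_
  · omega
  · unfold onBX at hb
    simp only at hb
    omega

theorem t_FPA : S_FPA := by
  obtain ⟨l, hl⟩ : ∃ l : ℝ, l = 1 - (1/2 : ℝ)^188 := ⟨_, rfl⟩
  have hl1 : l < 1 := by
    rw [hl]
    have : (0 : ℝ) < (1/2 : ℝ)^188 := by positivity
    linarith
  have hl0 : 0 < l := by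
    rw [hl]
    have : (1/2 : ℝ)^188 < 1 := pow_lt_one₀ (by norm_num) (by norm_num) (by norm_num)
    linarith
  have hlog3 : 0 < Real.log 3 := Real.log_pos (by norm_num)
  obtain ⟨β, hβ⟩ : ∃ β : ℝ, β = -Real.log l / Real.log 3 := ⟨_, rfl⟩
  have hβ0 : 0 < β := by
    rw [hβ]
    exact div_pos (neg_pos.2 (Real.log_neg hl0 hl1)) hlog3
  have hlβ : l = (3 : ℝ) ^ (-β) := by
    rw [hβ, Real.rpow_def_of_pos (by norm_num)]
    have : Real.log 3 * -(-Real.log l / Real.log 3) = Real.log l := by field_simp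
    rw [this, Real.exp_log hl0]
  refine ⟨81 ^ β, β, by positivity, hβ0, ?_⟩
  intro v r R hr hrR
  have hr' : (1 : ℝ) ≤ r := by exact_mod_cast hr
  have hR' : (1 : ℝ) ≤ R := by exact_mod_cast (hr.trans hrR)
  have ok := okq (q := 1/2) (by norm_num) (by norm_num)
  rw [← Real.mul_rpow (by norm_num) (by positivity)]
  by_cases htriv : (R : ℝ) ≤ 81 * r
  · refine (Pr_le_one ok _ _).trans ?_
    refine Real.one_le_rpow ?_ hβ0.le
    rw [mul_div_assoc', le_div_iff₀ (by linarith)]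
    linarith
  · rw [not_le] at htriv
    obtain ⟨i, hi1, hi2⟩ := exists_nat_pow_near hr' (show (1 : ℝ) < 3 by norm_num)
    have hj : r ≤ RR (i + 1) := by
      have h1 : (r : ℝ) ≤ ((3 ^ (i + 1) : ℕ) : ℝ) := by push_cast; exact hi2.le
      have h2 : r ≤ ((3 ^ (i + 1) : ℕ) : ℤ) := by exact_mod_cast h1
      have h3 : (3 ^ (i + 1) : ℕ) ≤ RR (i + 1) := by
        unfold RR
        omega
      have h4 : ((3 ^ (i + 1) : ℕ) : ℤ) ≤ RR (i + 1) := by exact_mod_cast h3
      exact h2.trans h4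
    have hx : (1 : ℝ) ≤ (R : ℝ) / (27 * 3 ^ i) := by
      rw [le_div_iff₀ (by positivity)]
      linarith
    obtain ⟨m, hm1, hm2⟩ := exists_nat_pow_near hx (show (1 : ℝ) < 3 by norm_num)
    rw [le_div_iff₀ (by positivity)] at hm1
    rw [div_lt_iff₀ (by positivity)] at hm2
    have hm : (RR (i + 1 + m) : ℤ) ≤ R := by
      have h1 : ((RR (i + 1 + m) : ℕ) : ℝ) ≤ R := by
        unfold RR
        push_cast
        refine le_trans (le_of_eq ?_) hm1
        ring
      exact_mod_cast h1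
    have h1 := scales hj hm v (hr.trans hrR)
    refine h1.trans ?_
    have e : ((3 : ℝ) ^ (-β)) ^ m = (((3 : ℝ) ^ m)⁻¹) ^ β := by
      rw [← Real.rpow_natCast, ← Real.rpow_mul (by norm_num),
        show -β * (m : ℝ) = (-(m : ℝ)) * β by ring, Real.rpow_mul (by norm_num),
        Real.rpow_neg (by norm_num), Real.rpow_natCast]
    rw [← hl, hlβ, e]
    refine Real.rpow_le_rpow (by positivity) ?_ hβ0.le
    rw [inv_eq_one_div, mul_div_assoc', div_le_div_iff₀ (by positivity) (by linarith), one_mul]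
    have h2 : (R : ℝ) < 3 ^ m * 3 * (27 * 3 ^ i) := by rwa [pow_succ] at hm2
    have h3 : (3 : ℝ) ^ m * 3 * (27 * 3 ^ i) ≤ 3 ^ m * 3 * (27 * r) := by gcongr
    have h4 : (3 : ℝ) ^ m * 3 * (27 * r) = 81 * r * 3 ^ m := by ring
    linarith

end Pool.Agent.Y989.SD.FPA
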