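import Pool.Agent.Y989.SD.Stm

/-!
Project SD (helper989): elementary properties of smooth conformal maps (by helper38).
-/

set_option autoImplicit false

namespace Pool.Agent.Y989.SD.GA

open Pool.Agent.Y989.SD Filter Topology

lemma two_pt {f g : ℂ → ℂ} {M α : ℝ} (h : SmW f g M α) {z w : ℂ} (hz : z ∈ disc) (hw : w ∈ disc) :
    ‖g z - g w‖ ≤ 2 * M * ‖z - w‖ ^ α := by
  by_cases hzw : z = w
  · subst hzw
    rw [sub_self, sub_self, norm_zero, Real.zero_rpow h.al0.ne', mul_zero]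
  · have hpos : 0 < ‖z - w‖ := norm_pos_iff.2 (sub_ne_zero.2 hzw)
    have h1 := h.exp z hz w hw
    have h2 := h.exp w hw z hz
    rw [norm_sub_rev w z] at h2
    have h3 : (g z - g w) * (z - w) = (f z - f w - g w * (z - w)) + (f w - f z - g z * (w - z)) := by
      ring
    have h4 : ‖g z - g w‖ * ‖z - w‖ ≤ 2 * M * ‖z - w‖ ^ α * ‖z - w‖ := by
      rw [← norm_mul, h3]
      refine (norm_add_le _ _).trans ?_
      have h5 : ‖z - w‖ ^ (1 + α) = ‖z - w‖ ^ α * ‖z - w‖ := by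
        rw [add_comm, Real.rpow_add hpos, Real.rpow_one]
      rw [h5] at h1 h2
      linarith
    exact le_of_mul_le_mul_right h4 hpos

lemma disc_cpt : IsCompact disc := isCompact_closedBall _ _

lemma disc_dist {z w : ℂ} (hz : z ∈ disc) (hw : w ∈ disc) : ‖z - w‖ ≤ 2 := by
  have h1 : ‖z‖ ≤ 1 := mem_closedBall_zero_iff.1 hz
  have h2 : ‖w‖ ≤ 1 := mem_closedBall_zero_iff.1 hw
  exact (norm_sub_le _ _).trans (by linarith)

lemma cont_of {F : ℂ → ℂ} {K α : ℝ} (hα : 0 < α)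
    (hF : ∀ z ∈ disc, ∀ w ∈ disc, ‖F z - F w‖ ≤ K * ‖z - w‖ ^ α) : ContinuousOn F disc := by
  intro w hw
  rw [ContinuousWithinAt, tendsto_iff_norm_sub_tendsto_zero]
  have h1 : Tendsto (fun z : ℂ => K * ‖z - w‖ ^ α) (𝓝[disc] w) (𝓝 0) := by
    have hc : Continuous (fun z : ℂ => K * ‖z - w‖ ^ α) := by
      refine continuous_const.mul ?_
      exact (continuous_id.sub continuous_const).norm.rpow_const (fun _ => Or.inr hα.le)
    have h2 := hc.tendsto w
    rw [sub_self, norm_zero, Real.zero_rpow hα.ne', mul_zero] at h2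
    exact h2.mono_left nhdsWithin_le_nhds
  refine squeeze_zero' (Eventually.of_forall fun _ => norm_nonneg _) ?_ h1
  filter_upwards [self_mem_nhdsWithin] with z hz
  exact hF z hz w hw

theorem t_GA : S_GA := by
  intro f g M α h
  have hα := h.al0
  have hα1 := h.al1
  have h1d : (1 : ℂ) ∈ disc := by simp [disc]
  have h0d : (0 : ℂ) ∈ disc := by simp [disc]
  have hM : 0 ≤ M := by
    have := h.exp 1 h1d 0 h0d
    rw [sub_zero, norm_one, Real.one_rpow, mul_one, mul_one] at this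
    exact (norm_nonneg _).trans this
  have hg2 : ∀ z ∈ disc, ∀ w ∈ disc, ‖g z - g w‖ ≤ 2 * M * ‖z - w‖ ^ α :=
    fun z hz w hw => two_pt h hz hw
  have hgc : ContinuousOn g disc := cont_of hα hg2
  -- bounds of `g`
  obtain ⟨w0, hw0, hmin⟩ := disc_cpt.exists_isMinOn ⟨0, h0d⟩ hgc.norm
  obtain ⟨w1, hw1, hmax⟩ := disc_cpt.exists_isMaxOn ⟨0, h0d⟩ hgc.norm
  set l0 := ‖g w0‖ with hl0
  set H0 := ‖g w1‖ with hH0
  have hl0pos : 0 < l0 := norm_pos_iff.2 (h.ne w0 hw0)
  have hH0pos : 0 ≤ H0 := norm_nonneg _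
  have hgl : ∀ w ∈ disc, l0 ≤ ‖g w‖ := fun w hw => hmin hw
  have hgH : ∀ w ∈ disc, ‖g w‖ ≤ H0 := fun w hw => hmax hw
  -- powers
  have hpow : ∀ z ∈ disc, ∀ w ∈ disc, ‖z - w‖ ^ (1 + α) ≤ 2 * ‖z - w‖ := by
    intro z hz w hw
    have h2 := disc_dist hz hw
    have h3 : ‖z - w‖ ^ α ≤ 2 := by
      calc ‖z - w‖ ^ α ≤ (2 : ℝ) ^ α := Real.rpow_le_rpow (norm_nonneg _) h2 hα.le
        _ ≤ (2 : ℝ) ^ (1 : ℝ) := Real.rpow_le_rpow_of_exponent_le (by norm_num) hα1
        _ = 2 := Real.rpow_one 2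
    have h4 : ‖z - w‖ ^ (1 + α) = ‖z - w‖ * ‖z - w‖ ^ α := by
      rw [Real.rpow_add_of_nonneg (norm_nonneg _) zero_le_one hα.le, Real.rpow_one]
    rw [h4, mul_comm]
    exact mul_le_mul_of_nonneg_right h3 (norm_nonneg _)
  have hup : ∀ z ∈ disc, ∀ w ∈ disc, ‖f z - f w‖ ≤ (H0 + 2 * M) * ‖z - w‖ := by
    intro z hz w hw
    have h2 := h.exp z hz w hw
    have h3 : f z - f w = (f z - f w - g w * (z - w)) + g w * (z - w) := by ring
    rw [h3]
    refine (norm_add_le _ _).trans ?_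
    rw [norm_mul]
    have h4 := mul_le_mul_of_nonneg_left (hpow z hz w hw) hM
    have h5 := mul_le_mul_of_nonneg_right (hgH w hw) (norm_nonneg (z - w))
    linarith
  have hfc : ContinuousOn f disc := by
    refine cont_of (α := 1) (K := H0 + 2 * M) one_pos fun z hz w hw => ?_
    rw [Real.rpow_one]
    exact hup z hz w hw
  -- lower bound
  obtain ⟨δ, hδ, hδM⟩ : ∃ δ : ℝ, 0 < δ ∧ M * δ ^ α ≤ l0 / 2 := by
    have hc : Continuous (fun x : ℝ => M * x ^ α) :=
      continuous_const.mul (continuous_id.rpow_const fun _ => Or.inr hα.le)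
    have h2 := hc.tendsto 0
    rw [Real.zero_rpow hα.ne', mul_zero] at h2
    have h3 : ∀ᶠ x in 𝓝[>] (0 : ℝ), M * x ^ α < l0 / 2 :=
      (h2.mono_left nhdsWithin_le_nhds).eventually_lt_const (by positivity)
    obtain ⟨x, hx, hx'⟩ := (h3.and self_mem_nhdsWithin).exists
    exact ⟨x, hx', hx.le⟩
  have hnear : ∀ z ∈ disc, ∀ w ∈ disc, ‖z - w‖ ≤ δ → l0 / 2 * ‖z - w‖ ≤ ‖f z - f w‖ := by
    intro z hz w hw hd
    have h2 := h.exp z hz w hw
    have h4 : ‖z - w‖ ^ (1 + α) = ‖z - w‖ ^ α * ‖z - w‖ := by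
      rw [add_comm, Real.rpow_add_of_nonneg (norm_nonneg _) hα.le zero_le_one, Real.rpow_one]
    have h5 : ‖z - w‖ ^ α ≤ δ ^ α := Real.rpow_le_rpow (norm_nonneg _) hd hα.le
    have h6 : M * ‖z - w‖ ^ α ≤ l0 / 2 := (mul_le_mul_of_nonneg_left h5 hM).trans hδM
    have h7 : M * ‖z - w‖ ^ (1 + α) ≤ l0 / 2 * ‖z - w‖ := by
      rw [h4, ← mul_assoc]
      exact mul_le_mul_of_nonneg_right h6 (norm_nonneg _)
    have h8 : ‖g w * (z - w)‖ ≤ ‖f z - f w‖ + ‖f z - f w - g w * (z - w)‖ := by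
      have : g w * (z - w) = (f z - f w) - (f z - f w - g w * (z - w)) := by ring
      calc ‖g w * (z - w)‖ = ‖(f z - f w) - (f z - f w - g w * (z - w))‖ := by rw [← this]
        _ ≤ _ := norm_sub_le _ _
    rw [norm_mul] at h8
    have h9 := mul_le_mul_of_nonneg_right (hgl w hw) (norm_nonneg (z - w))
    linarith
  obtain ⟨m, hm, hfar⟩ : ∃ m : ℝ, 0 < m ∧ ∀ z ∈ disc, ∀ w ∈ disc, δ ≤ ‖z - w‖ →
      m ≤ ‖f z - f w‖ := by
    set K : Set (ℂ × ℂ) := (disc ×ˢ disc) ∩ {p | δ ≤ ‖p.1 - p.2‖} with hK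
    have hKc : IsCompact K := by
      refine (disc_cpt.prod disc_cpt).inter_right ?_
      exact isClosed_le continuous_const (continuous_fst.sub continuous_snd).norm
    have hcont : ContinuousOn (fun p : ℂ × ℂ => ‖f p.1 - f p.2‖) K := by
      refine ContinuousOn.norm (ContinuousOn.sub ?_ ?_)
      · exact hfc.comp continuousOn_fst fun p hp => hp.1.1
      · exact hfc.comp continuousOn_snd fun p hp => hp.1.2
    by_cases hne : K.Nonempty
    · obtain ⟨p, hp, hpm⟩ := hKc.exists_isMinOn hne hcont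
      refine ⟨‖f p.1 - f p.2‖, norm_pos_iff.2 (sub_ne_zero.2 fun he => ?_), ?_⟩
      · have h2 := h.inj hp.1.1 hp.1.2 he
        have h3 : δ ≤ ‖p.1 - p.2‖ := hp.2
        rw [h2, sub_self, norm_zero] at h3
        exact absurd h3 (not_le.2 hδ)
      · intro z hz w hw hd
        exact hpm (show (z, w) ∈ K from ⟨⟨hz, hw⟩, hd⟩)
    · refine ⟨1, one_pos, fun z hz w hw hd => ?_⟩
      exact absurd ⟨(z, w), ⟨⟨hz, hw⟩, hd⟩⟩ hne
  refine ⟨min (l0 / 2) (m / 2), H0 + 2 * M + 1, lt_min (by positivity) (by positivity),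
    by positivity, ?_, ?_, ?_, disc_cpt.image_of_continuousOn hfc, ?_⟩
  · intro z hz w hw
    refine ⟨?_, (hup z hz w hw).trans (mul_le_mul_of_nonneg_right (by linarith) (norm_nonneg _))⟩
    rcases le_total ‖z - w‖ δ with hd | hd
    · exact (mul_le_mul_of_nonneg_right (min_le_left _ _) (norm_nonneg _)).trans
        (hnear z hz w hw hd)
    · have h2 := disc_dist hz hw
      have h3 := hfar z hz w hw hd
      calc min (l0 / 2) (m / 2) * ‖z - w‖ ≤ m / 2 * 2 :=
            mul_le_mul (min_le_right _ _) h2 (norm_nonneg _) (by positivity)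
        _ = m := by ring
        _ ≤ _ := h3
  · intro w hw
    refine ⟨(min_le_left _ _).trans ((half_le_self hl0pos.le).trans (hgl w hw)),
      (hgH w hw).trans (by linarith)⟩
  · intro z hz w hw
    refine (hg2 z hz w hw).trans (mul_le_mul_of_nonneg_right (by linarith) ?_)
    exact Real.rpow_nonneg (norm_nonneg _) _
  · -- openness
    have hsub : Metric.ball (0 : ℂ) 1 ⊆ disc := Metric.ball_subset_closedBall
    have hd : ∀ w ∈ Metric.ball (0 : ℂ) 1, HasDerivAt f (g w) w := by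
      intro w hw
      rw [hasDerivAt_iff_isLittleO, Asymptotics.isLittleO_iff]
      intro c hc
      have hcont : Continuous (fun z : ℂ => M * ‖z - w‖ ^ α) :=
        continuous_const.mul
          ((continuous_id.sub continuous_const).norm.rpow_const fun _ => Or.inr hα.le)
      have h2 := hcont.tendsto w
      rw [sub_self, norm_zero, Real.zero_rpow hα.ne', mul_zero] at h2
      filter_upwards [h2.eventually_lt_const hc, Metric.isOpen_ball.mem_nhds hw] with z hz hz'
      have h3 := h.exp z (hsub hz') w (hsub hw)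
      have h4 : ‖z - w‖ ^ (1 + α) = ‖z - w‖ ^ α * ‖z - w‖ := by
        rw [add_comm, Real.rpow_add_of_nonneg (norm_nonneg _) hα.le zero_le_one, Real.rpow_one]
      rw [h4, ← mul_assoc] at h3
      rw [smul_eq_mul, mul_comm (z - w)]
      exact h3.trans (mul_le_mul_of_nonneg_right hz.le (norm_nonneg _))
    have han : AnalyticOnNhd ℂ f (Metric.ball 0 1) := by
      have : DifferentiableOn ℂ f (Metric.ball 0 1) := fun w hw =>
        (hd w hw).differentiableAt.differentiableWithinAt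
      exact this.analyticOnNhd Metric.isOpen_ball
    rcases han.is_constant_or_isOpen (convex_ball _ _).isPreconnected with hco | hop
    · exfalso
      obtain ⟨w, hw⟩ := hco
      have h2 : (0 : ℂ) ∈ Metric.ball (0 : ℂ) 1 := by simp
      have h3 : (1 / 2 : ℂ) ∈ Metric.ball (0 : ℂ) 1 := by
        rw [mem_ball_zero_iff]
        norm_num
      have h4 := h.inj (hsub h2) (hsub h3) ((hw _ h2).trans (hw _ h3).symm)
      norm_num at h4
    · intro w hw
      have h2 : w ∈ Metric.ball (0 : ℂ) 1 := mem_ball_zero_iff.2 hw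
      have h3 := hop (Metric.ball 0 1) subset_rfl Metric.isOpen_ball
      exact mem_interior.2 ⟨_, Set.image_mono hsub, h3, ⟨w, h2, rfl⟩⟩

end Pool.Agent.Y989.SD.GA
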