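import Pool.Agent.Y989.SD.Stm

/-!
# Project SD: near a boundary point the domain is close to a half-plane
-/

set_option autoImplicit false

namespace Pool.Agent.Y989.SD.GB

open Filter Topology

theorem ip_eq (a b : ℂ) : ip a b = ((starRingEnd ℂ) a * b).re := by
  unfold ip
  simp

theorem ip_add (a b c : ℂ) : ip a (b + c) = ip a b + ip a c := by
  unfold ip
  simp only [Complex.add_re, Complex.add_im]
  ring

theorem ip_smul (a b : ℂ) (t : ℝ) : ip a (t • b) = t * ip a b := by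
  unfold ip
  simp only [Complex.real_smul, Complex.re_ofReal_mul, Complex.im_ofReal_mul]
  ring

theorem ip_le (a b : ℂ) : |ip a b| ≤ ‖a‖ * ‖b‖ := by
  rw [ip_eq]
  calc |((starRingEnd ℂ) a * b).re| ≤ ‖(starRingEnd ℂ) a * b‖ := Complex.abs_re_le_norm _
    _ = ‖a‖ * ‖b‖ := by rw [norm_mul, Complex.norm_conj]

theorem nu_norm {g : ℂ → ℂ} {w : ℂ} (hw : ‖w‖ = 1) (hg : g w ≠ 0) : ‖nu g w‖ = 1 := by
  unfold nu
  rw [norm_div, norm_neg, norm_mul, hw, one_mul, Complex.norm_real, norm_norm,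
    div_self (norm_ne_zero_iff.2 hg)]

theorem ip_main {g : ℂ → ℂ} {w : ℂ} (ζ : ℂ) (hw : ‖w‖ = 1) (hg : g w ≠ 0) :
    ip (nu g w) (g w * (ζ - w)) = ‖g w‖ * (1 - ((starRingEnd ℂ) w * ζ).re) := by
  have e1 : (starRingEnd ℂ) (nu g w) * (g w * (ζ - w)) =
      (‖g w‖ : ℂ) * (1 - (starRingEnd ℂ) w * ζ) := by
    have h1 : (starRingEnd ℂ) w * w = 1 := by
      rw [Complex.conj_mul', hw]
      simp
    have h2 : (starRingEnd ℂ) (g w) * g w = (‖g w‖ : ℂ) ^ 2 := Complex.conj_mul' _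
    have h3 : (‖g w‖ : ℂ) ≠ 0 := by
      simpa using hg
    unfold nu
    rw [map_div₀, map_neg, map_mul, Complex.conj_ofReal, div_mul_eq_mul_div, div_eq_iff h3]
    linear_combination (-((starRingEnd ℂ) w * (ζ - w))) * h2 + ((‖g w‖ : ℂ) ^ 2) * h1
  rw [ip_eq, e1, Complex.re_ofReal_mul, Complex.sub_re, Complex.one_re]

theorem re_le {w ζ : ℂ} (hw : ‖w‖ = 1) (hζ : ‖ζ‖ ≤ 1) : ((starRingEnd ℂ) w * ζ).re ≤ 1 := by
  refine (Complex.re_le_norm _).trans ?_
  rw [norm_mul, Complex.norm_conj, hw, one_mul]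
  exact hζ

theorem circ {w ζ : ℂ} (hw : ‖w‖ = 1) (hζ : ‖ζ‖ = 1) :
    1 - ((starRingEnd ℂ) w * ζ).re = ‖ζ - w‖ ^ 2 / 2 := by
  have h1 : Complex.normSq ζ = 1 := by rw [Complex.normSq_eq_norm_sq, hζ]; norm_num
  have h2 : Complex.normSq w = 1 := by rw [Complex.normSq_eq_norm_sq, hw]; norm_num
  rw [← Complex.normSq_eq_norm_sq, Complex.normSq_sub, h1, h2, mul_comm ζ]
  ring

theorem sq_le {r α : ℝ} (hr : 0 ≤ r) (hr2 : r ≤ 2) (h0 : 0 < α) (h1 : α ≤ 1) :
    r ^ 2 / 2 ≤ r ^ (1 + α) := by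
  rcases hr.eq_or_lt with h | h
  · rw [← h]
    have : (0:ℝ) ≤ 0 ^ (1 + α) := by positivity
    simpa using this
  · have e1 : r ^ 2 = r ^ (1 + α) * r ^ (1 - α) := by
      rw [← Real.rpow_add h, ← Real.rpow_natCast]
      congr 1
      push_cast
      ring
    have e2 : r ^ (1 - α) ≤ 2 := by
      calc r ^ (1 - α) ≤ 2 ^ (1 - α) := Real.rpow_le_rpow hr hr2 (by linarith)
        _ ≤ 2 ^ (1:ℝ) := Real.rpow_le_rpow_of_exponent_le (by norm_num) (by linarith)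
        _ = 2 := Real.rpow_one 2
    have e3 : 0 < r ^ (1 + α) := by positivity
    rw [e1]
    nlinarith

/-- the region of the plane above a curve tangent to the boundary is convex -/
theorem conv (C : ℝ) (hC : 0 ≤ C) (ν b : ℂ) {p : ℝ} (hp : 1 ≤ p) :
    Convex ℝ {z : ℂ | C * ‖z - b‖ ^ p < ip ν (z - b)} := by
  intro z₁ h₁ z₂ h₂ s t hs ht hst
  simp only [Set.mem_setOf_eq] at h₁ h₂ ⊢
  have e1 : s • z₁ + t • z₂ - b = s • (z₁ - b) + t • (z₂ - b) := by
    have : b = s • b + t • b := by rw [← add_smul, hst, one_smul]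
    nth_rewrite 1 [this]
    rw [smul_sub, smul_sub]
    abel
  have e2 : ‖s • (z₁ - b) + t • (z₂ - b)‖ ≤ s * ‖z₁ - b‖ + t * ‖z₂ - b‖ := by
    refine (norm_add_le _ _).trans ?_
    rw [norm_smul, norm_smul, Real.norm_of_nonneg hs, Real.norm_of_nonneg ht]
  have e3 : ‖s • (z₁ - b) + t • (z₂ - b)‖ ^ p ≤ s * ‖z₁ - b‖ ^ p + t * ‖z₂ - b‖ ^ p := by
    refine (Real.rpow_le_rpow (norm_nonneg _) e2 (by linarith)).trans ?_
    have := (convexOn_rpow hp).2 (norm_nonneg (z₁ - b)) (norm_nonneg (z₂ - b)) hs ht hst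
    simpa using this
  rw [e1, ip_add, ip_smul, ip_smul]
  have e4 := mul_le_mul_of_nonneg_left e3 hC
  have e5 : 0 < s * (ip ν (z₁ - b) - C * ‖z₁ - b‖ ^ p) + t * (ip ν (z₂ - b) - C * ‖z₂ - b‖ ^ p) := by
    rcases hs.eq_or_lt with h | h
    · have ht1 : t = 1 := by linarith
      rw [← h, ht1]
      linarith
    · have q1 := mul_pos h (sub_pos.2 h₁)
      have q2 := mul_nonneg ht (sub_pos.2 h₂).le
      linarith
  nlinarith

theorem t_GB : S_GA → S_GB := by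
  intro hGA f g M α hS
  obtain ⟨l, H, hl, hH, hLip, hgl, -, hcpt, hint⟩ := hGA f g M α hS
  have hα0 := hS.al0
  have hα1 := hS.al1
  have hM : 0 ≤ M := by
    have h := hS.exp 1 (by simp [disc]) 0 (by simp [disc])
    have := (norm_nonneg _).trans h
    simpa using this
  have hlp : 0 < l ^ (1 + α) := by positivity
  obtain ⟨C₀, hC₀⟩ : ∃ C₀ : ℝ, C₀ = M / l ^ (1 + α) := ⟨_, rfl⟩
  obtain ⟨C₁, hC₁⟩ : ∃ C₁ : ℝ, C₁ = H / l ^ (1 + α) + C₀ := ⟨_, rfl⟩
  have hC₀0 : 0 ≤ C₀ := by rw [hC₀]; positivity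
  have hC₁0 : C₀ ≤ C₁ := by
    rw [hC₁]
    have : 0 ≤ H / l ^ (1 + α) := by positivity
    linarith
  have hmem : ∀ w : ℂ, ‖w‖ ≤ 1 → w ∈ disc := fun w hw => by simpa [disc] using hw
  have pw : ∀ w : ℂ, ‖w‖ = 1 → ∀ ζ ∈ disc,
      ‖ζ - w‖ ^ (1 + α) ≤ ‖f ζ - f w‖ ^ (1 + α) / l ^ (1 + α) := by
    intro w hw ζ hζ
    rw [← Real.div_rpow (norm_nonneg _) hl.le]
    apply Real.rpow_le_rpow (norm_nonneg _) _ (by linarith)
    rw [le_div_iff₀ hl]
    have := (hLip ζ hζ w (hmem w hw.le)).1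
    linarith
  have err : ∀ w : ℂ, ‖w‖ = 1 → ∀ ζ ∈ disc,
      |ip (nu g w) (f ζ - f w) - ‖g w‖ * (1 - ((starRingEnd ℂ) w * ζ).re)| ≤
        M * ‖ζ - w‖ ^ (1 + α) := by
    intro w hw ζ hζ
    have hgw := hS.ne w (hmem w hw.le)
    have e1 : f ζ - f w = g w * (ζ - w) + (f ζ - f w - g w * (ζ - w)) := by ring
    have e2 := hS.exp ζ hζ w (hmem w hw.le)
    have e3 := ip_le (nu g w) (f ζ - f w - g w * (ζ - w))
    rw [nu_norm hw hgw, one_mul] at e3
    have e4 : ip (nu g w) (f ζ - f w) = ‖g w‖ * (1 - ((starRingEnd ℂ) w * ζ).re) +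
        ip (nu g w) (f ζ - f w - g w * (ζ - w)) := by
      rw [← ip_main ζ hw hgw, ← ip_add]
      congr 1
    rw [e4, add_sub_cancel_left]
    exact e3.trans e2
  have key : ∀ w : ℂ, ‖w‖ = 1 → ∀ ζ ∈ disc,
      |ip (nu g w) (f ζ - f w) - ‖g w‖ * (1 - ((starRingEnd ℂ) w * ζ).re)| ≤
        C₀ * ‖f ζ - f w‖ ^ (1 + α) := by
    intro w hw ζ hζ
    refine (err w hw ζ hζ).trans ?_
    calc M * ‖ζ - w‖ ^ (1 + α) ≤ M * (‖f ζ - f w‖ ^ (1 + α) / l ^ (1 + α)) :=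
          mul_le_mul_of_nonneg_left (pw w hw ζ hζ) hM
      _ = _ := by rw [hC₀]; ring
  refine ⟨1, C₁ + 1, one_pos, by linarith, ?_⟩
  intro w hw z _
  have hwd := hmem w hw.le
  constructor
  · rintro ⟨ζ, hζ, rfl⟩
    have hζ1 : ‖ζ‖ ≤ 1 := by simpa [disc] using hζ
    have e1 := (abs_le.1 (key w hw ζ hζ)).1
    have e2 : 0 ≤ ‖g w‖ * (1 - ((starRingEnd ℂ) w * ζ).re) :=
      mul_nonneg (norm_nonneg _) (by have := re_le hw hζ1; linarith)
    have e3 : 0 ≤ ‖f ζ - f w‖ ^ (1 + α) := by positivity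
    nlinarith
  · intro hz
    by_cases hzw : z = f w
    · rw [hzw]
      exact ⟨w, hwd, rfl⟩
    obtain ⟨V, hV⟩ : ∃ V : Set ℂ, V = {z : ℂ | C₁ * ‖z - f w‖ ^ (1 + α) < ip (nu g w) (z - f w)} :=
      ⟨_, rfl⟩
    have hzV : z ∈ V := by
      rw [hV, Set.mem_setOf_eq]
      have : 0 < ‖z - f w‖ := norm_pos_iff.2 (sub_ne_zero.2 hzw)
      have h2 : 0 < ‖z - f w‖ ^ (1 + α) := by positivity
      nlinarith
    have hVc : IsPreconnected V := by
      rw [hV]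
      exact (conv C₁ (hC₀0.trans hC₁0) (nu g w) (f w) (by linarith)).isPreconnected
    have hVcirc : ∀ ζ : ℂ, ‖ζ‖ = 1 → f ζ ∉ V := by
      intro ζ hζ hmV
      rw [hV, Set.mem_setOf_eq] at hmV
      have hζd := hmem ζ hζ.le
      have e1 := (abs_le.1 (key w hw ζ hζd)).2
      rw [circ hw hζ] at e1
      have e2 : ‖ζ - w‖ ≤ 2 := by
        refine (norm_sub_le _ _).trans ?_
        rw [hζ, hw]
        norm_num
      have e3 := sq_le (norm_nonneg (ζ - w)) e2 hα0 hα1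
      have e4 : ‖g w‖ * (‖ζ - w‖ ^ 2 / 2) ≤ H / l ^ (1 + α) * ‖f ζ - f w‖ ^ (1 + α) := by
        calc ‖g w‖ * (‖ζ - w‖ ^ 2 / 2) ≤ H * ‖ζ - w‖ ^ (1 + α) :=
              mul_le_mul (hgl w hwd).2 e3 (by positivity) hH.le
          _ ≤ H * (‖f ζ - f w‖ ^ (1 + α) / l ^ (1 + α)) :=
              mul_le_mul_of_nonneg_left (pw w hw ζ hζd) hH.le
          _ = _ := by ring
      have e5 : C₁ * ‖f ζ - f w‖ ^ (1 + α) =
          H / l ^ (1 + α) * ‖f ζ - f w‖ ^ (1 + α) + C₀ * ‖f ζ - f w‖ ^ (1 + α) := by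
        rw [hC₁]
        ring
      linarith
    have hsub : V ⊆ interior (f '' disc) ∪ (f '' disc)ᶜ := by
      intro y hy
      by_cases hyd : y ∈ f '' disc
      · left
        obtain ⟨ζ, hζ, rfl⟩ := hyd
        have hζ1 : ‖ζ‖ ≤ 1 := by simpa [disc] using hζ
        rcases hζ1.eq_or_lt with h | h
        · exact absurd hy (hVcirc ζ h)
        · exact hint ζ h
      · right
        exact hyd
    have hne : (V ∩ interior (f '' disc)).Nonempty := by
      obtain ⟨K, hK⟩ : ∃ K : ℝ, K = C₁ * H ^ (1 + α) + M := ⟨_, rfl⟩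
      have t1 : Tendsto (fun t : ℝ => K * t ^ α) (𝓝[>] 0) (𝓝 0) := by
        have h1 : ContinuousAt (fun t : ℝ => t ^ α) 0 :=
          Real.continuousAt_rpow_const 0 α (Or.inr hα0.le)
        have h2 := (h1.tendsto.mono_left (nhdsWithin_le_nhds (s := Set.Ioi (0:ℝ)))).const_mul K
        simpa [Real.zero_rpow hα0.ne'] using h2
      obtain ⟨t, ht1, ht0, ht2⟩ := ((t1.eventually (gt_mem_nhds hl)).and
        (Ioo_mem_nhdsGT (show (0:ℝ) < 1 from one_pos))).exists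
      have hζ : ‖((1 - t : ℝ) : ℂ) * w‖ = 1 - t := by
        rw [norm_mul, hw, mul_one, Complex.norm_real, Real.norm_of_nonneg (by linarith)]
      have hζd := hmem (((1 - t : ℝ) : ℂ) * w) (by rw [hζ]; linarith)
      have hd : ‖((1 - t : ℝ) : ℂ) * w - w‖ = t := by
        have : ((1 - t : ℝ) : ℂ) * w - w = ((-t : ℝ) : ℂ) * w := by
          push_cast
          ring
        rw [this, norm_mul, hw, mul_one, Complex.norm_real, Real.norm_eq_abs, abs_neg,
          abs_of_pos ht0]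
      have hre : ((starRingEnd ℂ) w * (((1 - t : ℝ) : ℂ) * w)).re = 1 - t := by
        have : (starRingEnd ℂ) w * (((1 - t : ℝ) : ℂ) * w) = ((1 - t : ℝ) : ℂ) := by
          have h1 : (starRingEnd ℂ) w * w = 1 := by
            rw [Complex.conj_mul', hw]
            simp
          linear_combination ((1 - t : ℝ) : ℂ) * h1
        rw [this, Complex.ofReal_re]
      refine ⟨f (((1 - t : ℝ) : ℂ) * w), ?_, hint _ (by rw [hζ]; linarith)⟩
      rw [hV, Set.mem_setOf_eq]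
      have e1 := (abs_le.1 (err w hw _ hζd)).1
      rw [hd, hre] at e1
      have e2 := (hLip _ hζd w hwd).2
      rw [hd] at e2
      have e3 : ‖f (((1 - t : ℝ) : ℂ) * w) - f w‖ ^ (1 + α) ≤ H ^ (1 + α) * t ^ (1 + α) := by
        rw [← Real.mul_rpow hH.le ht0.le]
        exact Real.rpow_le_rpow (norm_nonneg _) e2 (by linarith)
      have e4 : t ^ (1 + α) = t * t ^ α := by
        rw [Real.rpow_add ht0, Real.rpow_one]
      have e5 := (hgl w hwd).1
      have e6 : C₁ * ‖f (((1 - t : ℝ) : ℂ) * w) - f w‖ ^ (1 + α) ≤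
          C₁ * (H ^ (1 + α) * t ^ (1 + α)) := mul_le_mul_of_nonneg_left e3 (hC₀0.trans hC₁0)
      have e7 : K * t ^ (1 + α) < l * t := by
        rw [e4]
        calc K * (t * t ^ α) = (K * t ^ α) * t := by ring
          _ < l * t := mul_lt_mul_of_pos_right ht1 ht0
      have e8 : K * t ^ (1 + α) = C₁ * (H ^ (1 + α) * t ^ (1 + α)) + M * t ^ (1 + α) := by
        rw [hK]
        ring
      have e9 : l * t ≤ ‖g w‖ * (1 - (1 - t)) := by
        have : (1 - (1 - t)) = t := by ring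
        rw [this]
        exact mul_le_mul_of_nonneg_right e5 ht0.le
      linarith
    have hdis : Disjoint (interior (f '' disc)) (f '' disc)ᶜ :=
      Set.disjoint_compl_right_iff_subset.2 interior_subset
    exact interior_subset (hVc.subset_left_of_subset_union isOpen_interior
      hcpt.isClosed.isOpen_compl hdis hsub hne hzV)

end Pool.Agent.Y989.SD.GB
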