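import Pool.Agent.Y989.SD.Stm

/-!
Project SD (helper989), part GC (helper405): the cone property of smooth domains.
-/

set_option autoImplicit false

namespace Pool.Agent.Y989.SD.GC

open Filter Topology

theorem ip_sub (a a' b : ℂ) : ip a b - ip a' b = ip (a - a') b := by
  unfold ip
  rw [Complex.sub_re, Complex.sub_im]
  ring

theorem ip_smul (a b : ℂ) (s : ℝ) : ip a (s * b) = s * ip a b := by
  unfold ip
  rw [Complex.re_ofReal_mul, Complex.im_ofReal_mul]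
  ring

theorem ip_le (a b : ℂ) : ip a b ≤ ‖a‖ * ‖b‖ := by
  have h1 : ip a b = ((starRingEnd ℂ) a * b).re := by
    unfold ip
    rw [Complex.mul_re, Complex.conj_re, Complex.conj_im]
    ring
  rw [h1]
  refine (Complex.re_le_norm _).trans ?_
  rw [norm_mul, Complex.norm_conj]

/-- the normalization is Lipschitz -/
theorem normalize_sub (a b : ℂ) (l : ℝ) (hl : 0 < l) (ha : l ≤ ‖a‖) (hb : l ≤ ‖b‖) :
    ‖a / (‖a‖ : ℂ) - b / (‖b‖ : ℂ)‖ ≤ 2 * ‖a - b‖ / l := by
  have ha0 : 0 < ‖a‖ := hl.trans_le ha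
  have hb0 : 0 < ‖b‖ := hl.trans_le hb
  have ha' : (‖a‖ : ℂ) ≠ 0 := by exact_mod_cast ha0.ne'
  have hb' : (‖b‖ : ℂ) ≠ 0 := by exact_mod_cast hb0.ne'
  have h1 : a / (‖a‖ : ℂ) - b / (‖b‖ : ℂ) =
      ((a - b) + (b / (‖b‖ : ℂ)) * (((‖b‖ - ‖a‖ : ℝ)) : ℂ)) / (‖a‖ : ℂ) := by
    push_cast
    field_simp
    ring
  have h2 : ‖b / (‖b‖ : ℂ)‖ = 1 := by
    rw [norm_div, Complex.norm_real, norm_norm, div_self hb0.ne']
  have h3 : ‖(a - b) + (b / (‖b‖ : ℂ)) * (((‖b‖ - ‖a‖ : ℝ)) : ℂ)‖ ≤ 2 * ‖a - b‖ := by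
    refine (norm_add_le _ _).trans ?_
    rw [norm_mul, h2, one_mul, Complex.norm_real, Real.norm_eq_abs]
    have h4 := abs_norm_sub_norm_le b a
    rw [norm_sub_rev b a] at h4
    linarith
  rw [h1, norm_div, Complex.norm_real, norm_norm]
  exact div_le_div₀ (by positivity) h3 hl ha

theorem t_GC : S_GA → S_GB → S_GC := by
  intro hGA hGB f g M α hS
  obtain ⟨l, H, hl, hH, h1, h2, h3, h4, h5⟩ := hGA f g M α hS
  obtain ⟨ρ0, C, hρ0, hC, h6⟩ := hGB f g M α hS
  have hα := hS.al0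
  have hα1 := hS.al1
  -- the choice of the radius
  have key : ∀ A B c : ℝ, 0 < c → ∀ᶠ x : ℝ in 𝓝[>] 0, A * (B * x) ^ α ≤ c := by
    intro A B c hc
    have hcont : Continuous fun x : ℝ => A * (B * x) ^ α :=
      continuous_const.mul ((continuous_const.mul continuous_id).rpow_const
        fun x => Or.inr hα.le)
    have h0 : Tendsto (fun x : ℝ => A * (B * x) ^ α) (𝓝[>] 0) (𝓝 0) := by
      have h01 := hcont.tendsto 0
      rw [mul_zero, Real.zero_rpow hα.ne', mul_zero] at h01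
      exact h01.mono_left nhdsWithin_le_nhds
    exact (h0.eventually (gt_mem_nhds hc)).mono fun x hx => hx.le
  have hlin : ∀ c : ℝ, 0 < c → ∀ᶠ x : ℝ in 𝓝[>] 0, x ≤ c := by
    intro c hc
    exact (eventually_nhdsWithin_of_eventually_nhds (gt_mem_nhds hc)).mono fun x hx => le_of_lt hx
  obtain ⟨ρ, ⟨⟨⟨⟨r1, r2⟩, r3⟩, r4⟩, hρ⟩⟩ := ((((key (4 * H / l) (2 / l) (1 / 20) (by norm_num)).and
    (key C 1 (3 / 20) (by norm_num))).and (hlin (l / 2) (by positivity))).and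
    (hlin ρ0 hρ0) |>.and self_mem_nhdsWithin).exists
  have hρ' : 0 < ρ := hρ
  rw [one_mul] at r2
  refine ⟨ρ, hρ', ?_⟩
  intro w hw z hz hzw ξ hξ hcone
  -- points of the boundary
  have hbd : ∀ w' : ℂ, ‖w'‖ = 1 → ‖f w' - f w‖ ≤ 2 * ρ → ∀ s : ℝ, 0 ≤ s → s ≤ 1 →
      f w' + s * ξ ∈ f '' disc := by
    intro w' hw' hfw s hs0 hs1
    have hwd : w ∈ disc := by
      rw [disc, mem_closedBall_zero_iff, hw]
    have hwd' : w' ∈ disc := by
      rw [disc, mem_closedBall_zero_iff, hw']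
    have hdist : ‖w' - w‖ ≤ 2 / l * ρ := by
      have h7 := (h1 w' hwd' w hwd).1
      rw [div_mul_eq_mul_div, le_div_iff₀ hl]
      linarith
    have hdist1 : ‖w' - w‖ ≤ 1 := by
      refine hdist.trans ?_
      rw [div_mul_eq_mul_div, div_le_one hl]
      linarith
    have hpow : ‖w' - w‖ ≤ ‖w' - w‖ ^ α := by
      have h7 := Real.rpow_le_rpow_of_exponent_ge' (norm_nonneg (w' - w)) hdist1 hα.le hα1
      rwa [Real.rpow_one] at h7
    have hpow2 : ‖w' - w‖ ^ α ≤ (2 / l * ρ) ^ α :=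
      Real.rpow_le_rpow (norm_nonneg _) hdist hα.le
    have hnu : ‖nu g w - nu g w'‖ ≤ 1 / 20 := by
      have e1 : ∀ v : ℂ, ‖v‖ = 1 → nu g v = -((v * g v) / (‖v * g v‖ : ℂ)) := by
        intro v hv
        unfold nu
        rw [norm_mul, hv, one_mul, neg_div]
      have e2 : l ≤ ‖w * g w‖ := by
        rw [norm_mul, hw, one_mul]
        exact (h2 w hwd).1
      have e3 : l ≤ ‖w' * g w'‖ := by
        rw [norm_mul, hw', one_mul]
        exact (h2 w' hwd').1
      have e4 : ‖w' * g w' - w * g w‖ ≤ 2 * H * ‖w' - w‖ ^ α := by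
        have e5 : w' * g w' - w * g w = (w' - w) * g w' + w * (g w' - g w) := by ring
        rw [e5]
        refine (norm_add_le _ _).trans ?_
        rw [norm_mul, norm_mul, hw, one_mul]
        have e6 := (h2 w' hwd').2
        have e7 := h3 w' hwd' w hwd
        have e8 : ‖w' - w‖ * ‖g w'‖ ≤ ‖w' - w‖ ^ α * H :=
          mul_le_mul hpow e6 (norm_nonneg _) (by positivity)
        linarith
      have e9 := normalize_sub (w' * g w') (w * g w) l hl e3 e2
      have e10 : nu g w - nu g w' = w' * g w' / (‖w' * g w'‖ : ℂ) - w * g w / (‖w * g w‖ : ℂ) := by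
        rw [e1 w hw, e1 w' hw']
        ring
      rw [e10]
      refine e9.trans ((?_ : _ ≤ 4 * H / l * (2 / l * ρ) ^ α).trans r1)
      rw [div_mul_eq_mul_div]
      refine div_le_div_of_nonneg_right ?_ hl.le
      have e11 : 2 * H * ‖w' - w‖ ^ α ≤ 2 * H * (2 / l * ρ) ^ α :=
        mul_le_mul_of_nonneg_left hpow2 (by positivity)
      linarith
    have hip : 3 / 20 * ‖ξ‖ ≤ ip (nu g w') ξ := by
      have e1 := ip_sub (nu g w) (nu g w') ξ
      have e2 := ip_le (nu g w - nu g w') ξ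
      have e3 : ‖nu g w - nu g w'‖ * ‖ξ‖ ≤ 1 / 20 * ‖ξ‖ :=
        mul_le_mul_of_nonneg_right hnu (norm_nonneg _)
      linarith
    have hsξ : ‖(s : ℂ) * ξ‖ = s * ‖ξ‖ := by
      rw [norm_mul, Complex.norm_real, Real.norm_eq_abs, abs_of_nonneg hs0]
    have hsξρ : s * ‖ξ‖ ≤ ρ := by
      have := mul_le_mul hs1 hξ (norm_nonneg _) zero_le_one
      linarith
    have e12 : f w' + s * ξ - f w' = s * ξ := by ring
    refine (h6 w' hw' (f w' + s * ξ) ?_).2 ?_
    · rw [e12, hsξ]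
      exact hsξρ.trans r4
    · rw [e12, hsξ, ip_smul]
      have hnn : 0 ≤ s * ‖ξ‖ := by positivity
      have e13 : (s * ‖ξ‖) ^ (1 + α) = (s * ‖ξ‖) * (s * ‖ξ‖) ^ α := by
        rw [Real.rpow_add_of_nonneg hnn zero_le_one hα.le, Real.rpow_one]
      have e14 : C * (s * ‖ξ‖) ^ α ≤ 3 / 20 := by
        refine (mul_le_mul_of_nonneg_left (Real.rpow_le_rpow hnn hsξρ hα.le) hC.le).trans r2
      rw [e13]
      calc C * ((s * ‖ξ‖) * (s * ‖ξ‖) ^ α) = (C * (s * ‖ξ‖) ^ α) * (s * ‖ξ‖) := by ring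
        _ ≤ 3 / 20 * (s * ‖ξ‖) := mul_le_mul_of_nonneg_right e14 hnn
        _ = s * (3 / 20 * ‖ξ‖) := by ring
        _ ≤ s * ip (nu g w') ξ := mul_le_mul_of_nonneg_left hip hs0
  -- the set of good times
  obtain ⟨K, hK⟩ : ∃ K : Set ℝ, K = Set.Icc 0 1 ∩ (fun t : ℝ => z + (t : ℂ) * ξ) ⁻¹' (f '' disc) :=
    ⟨_, rfl⟩
  have hcont : Continuous fun t : ℝ => z + (t : ℂ) * ξ := by fun_prop
  have hKc : IsCompact K := by
    rw [hK]
    exact isCompact_Icc.inter_right (h4.isClosed.preimage hcont)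
  have h0K : (0 : ℝ) ∈ K := by
    rw [hK]
    refine ⟨⟨le_rfl, zero_le_one⟩, ?_⟩
    show z + ((0 : ℝ) : ℂ) * ξ ∈ f '' disc
    rw [Complex.ofReal_zero, zero_mul, add_zero]
    exact hz
  obtain ⟨t, htK, htmax⟩ := hKc.exists_isGreatest ⟨0, h0K⟩
  have ht1 : t = 1 := by
    by_contra hne
    have htK' := htK
    rw [hK] at htK'
    obtain ⟨⟨ht0, ht1⟩, ht2⟩ := htK'
    have htlt : t < 1 := lt_of_le_of_ne ht1 hne
    obtain ⟨w', hw', hfw'⟩ : z + (t : ℂ) * ξ ∈ f '' disc := ht2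
    rcases lt_or_eq_of_le (mem_closedBall_zero_iff.mp hw') with hlt | heq
    · -- interior point
      have hint := h5 w' hlt
      rw [hfw'] at hint
      have hnear : ∀ᶠ s : ℝ in 𝓝 t, z + (s : ℂ) * ξ ∈ interior (f '' disc) :=
        hcont.continuousAt.eventually (isOpen_interior.mem_nhds hint)
      have hnear2 : ∀ᶠ s : ℝ in 𝓝[>] t, z + (s : ℂ) * ξ ∈ interior (f '' disc) :=
        hnear.filter_mono nhdsWithin_le_nhds
      have hlt1 : ∀ᶠ s : ℝ in 𝓝[>] t, s < 1 :=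
        eventually_nhdsWithin_of_eventually_nhds (gt_mem_nhds htlt)
      obtain ⟨s, ⟨hs1, hs2⟩, hs3⟩ := ((hnear2.and hlt1).and self_mem_nhdsWithin).exists
      have hs3' : t < s := hs3
      have hsK : s ∈ K := by
        rw [hK]
        refine ⟨⟨ht0.trans hs3'.le, hs2.le⟩, ?_⟩
        show z + (s : ℂ) * ξ ∈ f '' disc
        exact interior_subset hs1
      exact absurd (htmax hsK) (not_le.mpr hs3')
    · have hnorm : ‖f w' - f w‖ ≤ 2 * ρ := by
        rw [hfw']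
        have e1 : z + (t : ℂ) * ξ - f w = (z - f w) + (t : ℂ) * ξ := by ring
        rw [e1]
        refine (norm_add_le _ _).trans ?_
        rw [norm_mul, Complex.norm_real, Real.norm_eq_abs, abs_of_nonneg ht0]
        have := mul_le_mul ht1 hξ (norm_nonneg _) zero_le_one
        linarith
      have h7 := hbd w' heq hnorm (1 - t) (by linarith) (by linarith)
      have h1K : (1 : ℝ) ∈ K := by
        rw [hK]
        refine ⟨⟨zero_le_one, le_rfl⟩, ?_⟩
        show z + ((1 : ℝ) : ℂ) * ξ ∈ f '' disc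
        have e1 : z + ((1 : ℝ) : ℂ) * ξ = f w' + ((1 - t : ℝ) : ℂ) * ξ := by
          rw [hfw']
          push_cast
          ring
        rw [e1]
        exact h7
      exact absurd (htmax h1K) (not_le.mpr htlt)
  rw [ht1, hK] at htK
  have h8 : z + ((1 : ℝ) : ℂ) * ξ ∈ f '' disc := htK.2
  rwa [Complex.ofReal_one, one_mul] at h8

end Pool.Agent.Y989.SD.GC
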