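import Mathlib
import Pool.Agent.Y83.SD.Frame2

/-!
Project SD (helper989): the lattice domain near its boundary (proof by helper83).
-/

set_option autoImplicit false

namespace Pool.Agent.Y989.SD.GD

open H974 H973 Finset

/-! ### The lattice points of the domain -/

theorem TD_mem {f : ℂ → ℂ} (hK : IsCompact (f '' disc)) {ε : ℝ} (hε : 0 < ε) (v : Vtx) :
    v ∈ TD f ε ↔ pos ε v ∈ f '' disc := by
  have hfin : {v : Vtx | pos ε v ∈ f '' disc}.Finite := by
    obtain ⟨K, hKb⟩ := hK.isBounded.exists_norm_le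
    set N : ℤ := ⌈K / ε⌉ with hN
    have hb : ∀ (n : ℤ), |ε * (n : ℝ)| ≤ K → n ∈ Set.Icc (-N) N := by
      intro n hn
      rw [abs_mul, abs_of_pos hε] at hn
      have h1 : |(n : ℝ)| ≤ K / ε := by
        rw [le_div_iff₀ hε]; linarith
      have h2 : |(n : ℝ)| ≤ (N : ℝ) := h1.trans (Int.le_ceil _)
      have h3 : |n| ≤ N := by exact_mod_cast h2
      exact abs_le.1 h3
    refine Set.Finite.subset ((Set.finite_Icc (-N) N).prod (Set.finite_Icc (-N) N)) ?_
    intro v hv
    have hn := hKb _ hv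
    refine Set.mk_mem_prod (hb _ ?_) (hb _ ?_)
    · exact (Complex.abs_re_le_norm (pos ε v)).trans hn
    · exact (Complex.abs_im_le_norm (pos ε v)).trans hn
  unfold TD
  rw [dif_pos hfin, Set.Finite.mem_toFinset]
  rfl

/-- a segment from the domain to its complement meets the boundary curve -/
theorem seg {f : ℂ → ℂ} (hK : IsCompact (f '' disc))
    (hint : ∀ w, ‖w‖ < 1 → f w ∈ interior (f '' disc)) {z z' : ℂ} (hz : z ∈ f '' disc)
    (hz' : z' ∉ f '' disc) : ∃ θ : ℝ, ‖z - f (cir θ)‖ ≤ ‖z' - z‖ := by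
  set γ : ℝ → ℂ := fun t => z + (t : ℂ) * (z' - z) with hγ
  have hγc : Continuous γ := by rw [hγ]; fun_prop
  set S : Set ℝ := Set.Icc 0 1 ∩ γ ⁻¹' (f '' disc) with hS
  have hSc : IsCompact S := isCompact_Icc.inter_right (hK.isClosed.preimage hγc)
  have h0 : (0 : ℝ) ∈ S := ⟨⟨le_rfl, zero_le_one⟩, by simpa [hγ] using hz⟩
  have hs := hSc.sSup_mem ⟨0, h0⟩
  set s := sSup S with hsd
  have hs1 : s < 1 := by
    refine lt_of_le_of_ne hs.1.2 fun h => hz' ?_
    have := hs.2
    rw [h] at this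
    simpa [hγ] using this
  obtain ⟨w, hw, hws⟩ := hs.2
  have hw1 : ‖w‖ = 1 := by
    have hle : ‖w‖ ≤ 1 := by
      have := hw
      unfold disc at this
      rwa [mem_closedBall_zero_iff] at this
    refine le_antisymm hle (not_lt.1 fun hlt => ?_)
    have h1 := hint w hlt
    rw [hws] at h1
    have h2 : ∀ᶠ t in nhdsWithin s (Set.Ioi s), γ t ∈ interior (f '' disc) :=
      nhdsWithin_le_nhds (hγc.continuousAt (isOpen_interior.mem_nhds h1))
    have h3 : ∀ᶠ t in nhdsWithin s (Set.Ioi s), t ∈ Set.Ioo s 1 := Ioo_mem_nhdsGT hs1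
    obtain ⟨t, ht, ht2⟩ := (h2.and h3).exists
    have ht3 : γ t ∈ f '' disc := interior_subset ht
    have h4 : t ∈ S := ⟨⟨by linarith [hs.1.1, ht2.1], ht2.2.le⟩, ht3⟩
    exact absurd (le_csSup hSc.bddAbove h4) (not_le.2 ht2.1)
  refine ⟨Complex.arg w, ?_⟩
  have h1 : cir (Complex.arg w) = w := by
    unfold cir
    have := Complex.norm_mul_exp_arg_mul_I w
    rwa [hw1, Complex.ofReal_one, one_mul] at this
  rw [h1, hws]
  have h2 : z - γ s = -((s : ℂ) * (z' - z)) := by rw [hγ]; ring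
  rw [h2, norm_neg, norm_mul, Complex.norm_real, Real.norm_eq_abs, abs_of_nonneg hs.1.1]
  exact mul_le_of_le_one_left (norm_nonneg _) hs1.le

/-! ### The frames -/

/-- the vector with coordinates `a, b` in the frame of `e` -/
noncomputable def Fr (e : Vtx) (a b : ℝ) : ℂ := ⟨a * e.2 + b * e.1, -(a * e.1) + b * e.2⟩

theorem Fr_add (e : Vtx) (a b a' b' : ℝ) : Fr e (a + a') (b + b') = Fr e a b + Fr e a' b' := by
  apply Complex.ext
  · simp only [Fr, Complex.add_re]; ring
  · simp only [Fr, Complex.add_im]; ring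

theorem Fr_norm {e : Vtx} (he : (e.1 : ℝ) ^ 2 + (e.2 : ℝ) ^ 2 = 1) (a b : ℝ) :
    ‖Fr e a b‖ ^ 2 = a ^ 2 + b ^ 2 := by
  rw [← Complex.normSq_eq_norm_sq, Complex.normSq_apply]
  simp only [Fr]
  linear_combination (a ^ 2 + b ^ 2) * he

theorem Fr_le {e : Vtx} (he : (e.1 : ℝ) ^ 2 + (e.2 : ℝ) ^ 2 = 1) (a b : ℝ) :
    ‖Fr e a b‖ ≤ |a| + |b| := by
  have h1 := Fr_norm he a b
  have h2 : ‖Fr e a b‖ ^ 2 ≤ (|a| + |b|) ^ 2 := by
    rw [h1]
    nlinarith [sq_abs a, sq_abs b, mul_nonneg (abs_nonneg a) (abs_nonneg b)]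
  exact le_of_sq_le_sq h2 (by positivity)

theorem Fr_pos (e : Vtx) (ε : ℝ) (m n : ℤ) :
    pos ε (m * e.2 + n * e.1, -(m * e.1) + n * e.2) = Fr e (ε * m) (ε * n) := by
  apply Complex.ext
  · simp only [Fr, pos]; push_cast; ring
  · simp only [Fr, pos]; push_cast; ring

theorem Fr_ip (e : Vtx) (ν : ℂ) (a b : ℝ) :
    ip ν (Fr e a b) = (ν.re * e.2 - ν.im * e.1) * a + (ν.re * e.1 + ν.im * e.2) * b := by
  simp only [Fr, ip]; ring

theorem Fr_self {e : Vtx} (he : (e.1 : ℝ) ^ 2 + (e.2 : ℝ) ^ 2 = 1) (p : ℂ) :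
    Fr e (p.re * e.2 - p.im * e.1) (p.re * e.1 + p.im * e.2) = p := by
  apply Complex.ext
  · simp only [Fr]; linear_combination p.re * he
  · simp only [Fr]; linear_combination p.im * he

/-- the choice of the direction -/
theorem dir (ν : ℂ) : ∃ e : Vtx, (e = (0, 1) ∨ e = (1, 0) ∨ e = (0, -1) ∨ e = (-1, 0)) ∧
    |ν.re * (e.2 : ℝ) - ν.im * (e.1 : ℝ)| ≤ ν.re * e.1 + ν.im * e.2 := by
  rcases le_total |ν.re| |ν.im| with h | h
  · rcases le_total 0 ν.im with h1 | h1
    · refine ⟨(0, 1), Or.inl rfl, ?_⟩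
      rw [abs_of_nonneg h1] at h
      simpa using h
    · refine ⟨(0, -1), Or.inr (Or.inr (Or.inl rfl)), ?_⟩
      rw [abs_of_nonpos h1] at h
      simpa using h
  · rcases le_total 0 ν.re with h1 | h1
    · refine ⟨(1, 0), Or.inr (Or.inl rfl), ?_⟩
      rw [abs_of_nonneg h1] at h
      simpa using h
    · refine ⟨(-1, 0), Or.inr (Or.inr (Or.inr rfl)), ?_⟩
      rw [abs_of_nonpos h1] at h
      simpa using h

theorem dir_sq {e : Vtx} (he : e = (0, 1) ∨ e = (1, 0) ∨ e = (0, -1) ∨ e = (-1, 0)) :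
    (e.1 : ℝ) ^ 2 + (e.2 : ℝ) ^ 2 = 1 := by
  rcases he with rfl | rfl | rfl | rfl <;> norm_num

theorem nu_norm {g : ℂ → ℂ} {w : ℂ} (hw : ‖w‖ = 1) (hg : g w ≠ 0) : ‖nu g w‖ = 1 := by
  unfold nu
  rw [norm_div, norm_neg, norm_mul, hw, one_mul, Complex.norm_real, norm_norm,
    div_self (norm_ne_zero_iff.2 hg)]

theorem cir_norm (θ : ℝ) : ‖cir θ‖ = 1 := Complex.norm_exp_ofReal_mul_I θ

theorem cir_mem (θ : ℝ) : cir θ ∈ disc := by
  unfold disc
  rw [mem_closedBall_zero_iff, cir_norm]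

/-- smallness of the power -/
theorem small {C α : ℝ} (hC : 0 < C) (hα : 0 < α) :
    ∃ r : ℝ, 0 < r ∧ ∀ x, 0 ≤ x → x ≤ r → C * x ^ (1 + α) ≤ x / 10 := by
  refine ⟨(1 / (10 * C)) ^ (1 / α), by positivity, fun x hx hxr => ?_⟩
  rcases hx.eq_or_lt with rfl | hx0
  · rw [Real.zero_rpow (by linarith)]; simp
  have h1 : x ^ α ≤ 1 / (10 * C) := by
    calc x ^ α ≤ ((1 / (10 * C)) ^ (1 / α)) ^ α := Real.rpow_le_rpow hx hxr hα.le
      _ = 1 / (10 * C) := by
        rw [← Real.rpow_mul (by positivity), one_div_mul_cancel hα.ne', Real.rpow_one]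
  rw [Real.rpow_add hx0, Real.rpow_one]
  have h2 : C * x ^ α ≤ 1 / 10 := by
    calc C * x ^ α ≤ C * (1 / (10 * C)) := mul_le_mul_of_nonneg_left h1 hC.le
      _ = 1 / 10 := by field_simp
  nlinarith

theorem t_GD : S_GA → S_GB → S_GC → S_GD := by
  intro hGA hGB hGC f g M α hf
  obtain ⟨l, H, -, -, -, -, -, hK, hint⟩ := hGA f g M α hf
  obtain ⟨ρB, C, hρB, hC, hB⟩ := hGB f g M α hf
  obtain ⟨ρC, hρC, hCo⟩ := hGC f g M α hf
  have hα := hf.al0
  have hα1 := hf.al1
  obtain ⟨r, hr, hsm⟩ := small hC hα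
  set ρ0 : ℝ := min ρB ρC with hρ0
  have hρ0p : 0 < ρ0 := lt_min hρB hρC
  set ρ : ℝ := min 1 (min (ρ0 / 100) (r / 100)) with hρ
  have hρp : 0 < ρ := by positivity
  have hρ1 : ρ ≤ 1 := min_le_left _ _
  have hρ2 : 100 * ρ ≤ ρ0 := by
    have : ρ ≤ ρ0 / 100 := (min_le_right _ _).trans (min_le_left _ _)
    linarith
  have hρ3 : 100 * ρ ≤ r := by
    have : ρ ≤ r / 100 := (min_le_right _ _).trans (min_le_right _ _)
    linarith
  refine ⟨ρ, 128 * C + 7, ρ / 100, hρp, by positivity, fun ε hε hερ => ⟨TD_mem hK hε, ?_, ?_⟩⟩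
  · intro θ
    set w := cir θ with hw
    have hwn : ‖w‖ = 1 := cir_norm θ
    set ν := nu g w with hν
    have hνn : ‖ν‖ = 1 := nu_norm hwn (hf.ne w (cir_mem θ))
    have hνs : ν.re ^ 2 + ν.im ^ 2 = 1 := by
      have := Complex.normSq_apply ν
      rw [Complex.normSq_eq_norm_sq, hνn] at this
      linarith
    obtain ⟨e, he, hte⟩ := dir ν
    have hes := dir_sq he
    set p := f w with hp
    set tt : ℝ := ν.re * (e.2 : ℝ) - ν.im * (e.1 : ℝ) with htt
    set ee : ℝ := ν.re * e.1 + ν.im * e.2 with hee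
    have hFm : Fm (fun a b => p + Fr e a b ∈ f '' disc) tt ee C α ρ0 ρ := by
      refine ⟨hte, ?_, hC, hα, hα1, hρp, hρ1, hρ2, fun x h1 h2 => hsm x h1 (by linarith), ?_, ?_,
        ?_⟩
      · rw [htt, hee]
        linear_combination ((e.1 : ℝ) ^ 2 + (e.2 : ℝ) ^ 2) * hνs + hes
      · intro a b hab hP
        have h1 := Fr_le hes a b
        have h2 := (hB w hwn (p + Fr e a b) (by
          rw [add_sub_cancel_left]
          exact h1.trans (hab.trans (min_le_left _ _)))).1 hP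
        rw [add_sub_cancel_left, Fr_ip] at h2
        refine le_trans ?_ h2
        apply neg_le_neg
        exact mul_le_mul_of_nonneg_left
          (Real.rpow_le_rpow (norm_nonneg _) h1 (by linarith)) hC.le
      · intro a b hab hP
        have h1 := Fr_le hes a b
        refine (hB w hwn (p + Fr e a b) (by
          rw [add_sub_cancel_left]
          exact h1.trans (hab.trans (min_le_left _ _)))).2 ?_
        rw [add_sub_cancel_left, Fr_ip]
        refine le_trans ?_ hP
        exact mul_le_mul_of_nonneg_left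
          (Real.rpow_le_rpow (norm_nonneg _) h1 (by linarith)) hC.le
      · intro a b a' b' hP hab hab' hc
        have h1 := Fr_le hes a b
        have h2 := Fr_le hes a' b'
        have := hCo w hwn (p + Fr e a b) hP (by
          rw [add_sub_cancel_left]
          exact h1.trans (hab.trans (min_le_right _ _))) (Fr e a' b')
          (h2.trans (hab'.trans (min_le_right _ _))) (by
            rw [Fr_ip]
            refine le_trans ?_ hc
            linarith)
        rw [Fr_add, ← add_assoc]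
        exact this
    set p1 : ℝ := p.re * e.2 - p.im * e.1 with hp1
    set p2 : ℝ := p.re * e.1 + p.im * e.2 with hp2
    have hself : Fr e p1 p2 = p := Fr_self hes p
    obtain ⟨m0, n0, b1, b2, b3, h, s, b4, b5, b6, b7⟩ := frame hFm hε hερ p1 p2
    have hconv : ∀ m n : ℤ, pos ε (m * e.2 + n * e.1, -(m * e.1) + n * e.2)
        = p + Fr e (ε * m - p1) (ε * n - p2) := by
      intro m n
      rw [Fr_pos]
      have h1 := Fr_add e p1 p2 (ε * m - p1) (ε * n - p2)
      rw [hself] at h1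
      rw [← h1]
      congr 1 <;> ring
    refine ⟨(m0 * e.2 + n0 * e.1, -(m0 * e.1) + n0 * e.2), ?_, ?_, e, he, h, s, b4, b5, b6, ?_⟩
    · rw [TD_mem hK hε, hconv]
      exact b1
    · rw [hconv, add_sub_cancel_left]
      have h1 := Fr_norm hes (ε * m0 - p1) (ε * n0 - p2)
      have h2 : ‖Fr e (ε * m0 - p1) (ε * n0 - p2)‖ ^ 2 ≤ (2 * ε) ^ 2 := by
        rw [h1]
        have h3 : (ε * m0 - p1) ^ 2 ≤ (ε / 2) ^ 2 := by
          rw [← sq_abs]; exact pow_le_pow_left₀ (abs_nonneg _) b2 2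
        have h4 : (ε * n0 - p2) ^ 2 ≤ (7 / 4 * ε) ^ 2 := by
          rw [← sq_abs]; exact pow_le_pow_left₀ (abs_nonneg _) b3 2
        nlinarith [sq_nonneg ε]
      exact le_of_sq_le_sq h2 (by positivity)
    · intro y hy
      rw [mem_QB] at hy
      rw [← b7 y.1 y.2 (abs_le.2 hy.1) (abs_le.2 hy.2)]
      have h1 : emb e (m0 * e.2 + n0 * e.1, -(m0 * e.1) + n0 * e.2) y
          = ((m0 + y.1) * e.2 + (n0 + y.2) * e.1, -((m0 + y.1) * e.1) + (n0 + y.2) * e.2) := by
        unfold emb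
        apply Prod.ext
        · simp only; ring
        · simp only; ring
      rw [h1, TD_mem hK hε, hconv]
  · intro v hv
    obtain ⟨hv1, hv2⟩ := hv
    rw [TD_mem hK hε] at hv1
    have hgen : ∀ v' : Vtx, v' ∉ TD f ε → ‖pos ε v' - pos ε v‖ ≤ ε →
        ∃ θ : ℝ, ‖pos ε v - f (cir θ)‖ ≤ ε := by
      intro v' h1 h2
      rw [TD_mem hK hε] at h1
      obtain ⟨θ, hθ⟩ := seg hK hint hv1 h1
      exact ⟨θ, hθ.trans h2⟩
    rcases hv2 with h | h | h | h
    · refine hgen _ h ?_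
      have : pos ε (v.1 + 1, v.2) - pos ε v = (ε : ℂ) := by
        apply Complex.ext
        · simp only [pos, Complex.sub_re, Complex.ofReal_re]; push_cast; ring
        · simp only [pos, Complex.sub_im, Complex.ofReal_im]; ring
      rw [this, Complex.norm_real, Real.norm_eq_abs, abs_of_pos hε]
    · refine hgen _ h ?_
      have : pos ε (v.1 - 1, v.2) - pos ε v = -(ε : ℂ) := by
        apply Complex.ext
        · simp only [pos, Complex.sub_re, Complex.neg_re, Complex.ofReal_re]; push_cast; ring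
        · simp only [pos, Complex.sub_im, Complex.neg_im, Complex.ofReal_im]; ring
      rw [this, norm_neg, Complex.norm_real, Real.norm_eq_abs, abs_of_pos hε]
    · refine hgen _ h ?_
      have : pos ε (v.1, v.2 + 1) - pos ε v = (ε : ℂ) * Complex.I := by
        apply Complex.ext
        · simp [pos]
        · simp only [pos, Complex.sub_im, Complex.mul_im, Complex.ofReal_re, Complex.ofReal_im,
            Complex.I_re, Complex.I_im]; push_cast; ring
      rw [this, norm_mul, Complex.norm_I, mul_one, Complex.norm_real, Real.norm_eq_abs,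
        abs_of_pos hε]
    · refine hgen _ h ?_
      have : pos ε (v.1, v.2 - 1) - pos ε v = -((ε : ℂ) * Complex.I) := by
        apply Complex.ext
        · simp [pos]
        · simp only [pos, Complex.sub_im, Complex.neg_im, Complex.mul_im, Complex.ofReal_re,
            Complex.ofReal_im, Complex.I_re, Complex.I_im]; push_cast; ring
      rw [this, norm_neg, norm_mul, Complex.norm_I, mul_one, Complex.norm_real, Real.norm_eq_abs,
        abs_of_pos hε]

end Pool.Agent.Y989.SD.GD
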