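import Pool.Agent.Y989.SD.Stm

/-!
Project SD: three crossings give a blocking cluster (S_HCD).
-/

set_option autoImplicit false

namespace Pool.Agent.Y989.SD.HCD

open H974 H973 Finset

theorem Lp_bound {h : ℤ → ℤ} (hL : Lp 10 h) (n : ℕ) :
    (-(10 * (n : ℤ)) ≤ h n ∧ h n ≤ 10 * n) ∧ (-(10 * (n : ℤ)) ≤ h (-n) ∧ h (-n) ≤ 10 * n) := by
  induction n with
  | zero =>
    have h0 := hL.zero
    simp [h0]
  | succ n ih =>
    have h1 := abs_le.1 (hL.lip n)
    have h2 := abs_le.1 (hL.lip (-(n : ℤ) - 1))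
    have e2 : -(n : ℤ) - 1 + 1 = -(n : ℤ) := by ring
    rw [e2] at h2
    have e3 : -(((n + 1 : ℕ) : ℤ)) = -(n : ℤ) - 1 := by push_cast; ring
    rw [e3]
    push_cast
    refine ⟨⟨?_, ?_⟩, ?_, ?_⟩ <;> omega

theorem Lp_bound' {h : ℤ → ℤ} (hL : Lp 10 h) {r x : ℤ} (h1 : -(2 * r) ≤ x) (h2 : x ≤ 2 * r) :
    -(20 * r) ≤ h x ∧ h x ≤ 20 * r := by
  rcases le_total 0 x with hx | hx
  · have h3 := (Lp_bound hL x.toNat).1
    rw [Int.toNat_of_nonneg hx] at h3
    omega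
  · have h3 := (Lp_bound hL (-x).toNat).2
    rw [Int.toNat_of_nonneg (by omega), neg_neg] at h3
    omega

/-- first exit from a set of vertices -/
theorem exit_P {G : Set Edg} {P : Vtx → Prop} {u v : Vtx} (hu : P u) (h : Reach G u v)
    (hv : ¬ P v) : ∃ z y, P z ∧ ¬ P y ∧ Reach (G ∩ EV P) u z ∧ Adj G z y := by
  have key : ∀ w, Reach G u w → (∃ z y, P z ∧ ¬ P y ∧ Reach (G ∩ EV P) u z ∧ Adj G z y) ∨
      (P w ∧ Reach (G ∩ EV P) u w) := by
    intro w hw
    induction hw with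
    | refl => exact Or.inr ⟨hu, Reach.refl _ _⟩
    | @tail w w' _ hs ih =>
      rcases ih with ih | ⟨ih1, ih2⟩
      · exact Or.inl ih
      · by_cases hP : P w'
        · right
          refine ⟨hP, ih2.trans (Adj.reach ?_)⟩
          obtain ⟨e, he, hc⟩ := hs
          refine ⟨e, ⟨he, ?_⟩, hc⟩
          rcases hc with ⟨h1, h2⟩ | ⟨h1, h2⟩
          · exact ⟨h1 ▸ ih1, h2 ▸ hP⟩
          · exact ⟨h1 ▸ hP, h2 ▸ ih1⟩
        · left
          exact ⟨w, w', ih1, hP, ih2, hs⟩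
  rcases key v h with h1 | h1
  · exact h1
  · exact absurd h1.1 hv

/-- the start of a nontrivial path of `EV V` satisfies `V` -/
theorem start_V {V : Vtx → Prop} {R : Set Edg} {u v : Vtx} (h : Reach (EV V ∩ R) u v)
    (hne : u ≠ v) : V u := by
  rcases Relation.ReflTransGen.cases_head h with h1 | ⟨w, hs, _⟩
  · exact absurd h1 hne
  · obtain ⟨e, he, hc⟩ := hs
    rcases hc with ⟨h1, _⟩ | ⟨_, h2⟩
    · exact h1 ▸ he.1.1
    · exact h2 ▸ he.1.2

theorem strip {h : ℤ → ℤ} {r a b : ℤ} {F : Finset Edg} (hL : Lp 10 h) (hr : 1 ≤ r)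
    (ha : -(2 * r) ≤ a) (hb : b ≤ 2 * r) (ht : TBc a b (-(64 * r)) (64 * r) F) :
    ∃ (z : Vtx) (x' : ℤ), z ∈ UU h (2 * r) ∧ btH h z ∧ z.2 ≤ 32 * r ∧
      Reach (↑(F ∩ ES (UU h (2 * r))) ∩ ↑(RE a b (-(64 * r)) (64 * r))) z (x', 64 * r) ∧
      ∀ V : Vtx → Prop, (∀ y, Reach (↑(F ∩ ES (UU h (2 * r))) : Set Edg) z y → V y) →
        (∀ y, y ∉ UU h (2 * r) → V y) → ∃ q : Vtx, q.2 ≤ -(64 * r) ∧ V q ∧
          Reach (EV V ∩ ↑(RE a b (-(64 * r)) (64 * r))) q (x', 64 * r) := by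
  obtain ⟨x, x', hx, hx', hR⟩ := ht
  have hbx := Lp_bound' hL (r := r) (x := x) (by omega) (by omega)
  have hbx' := Lp_bound' hL (r := r) (x := x') (by omega) (by omega)
  have htop : ((x', 64 * r) : Vtx) ∈ UU h (2 * r) := by
    rw [mem_UU, mem_QB]
    simp only
    omega
  have hbot : ((x, -(64 * r)) : Vtx) ∉ UU h (2 * r) := by
    rw [mem_UU]
    simp only
    omega
  obtain ⟨z, y, hz, hy, hzr, hadj⟩ := exit_P (P := fun v => v ∈ UU h (2 * r)) htop hR.symm hbot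
  obtain ⟨e, ⟨heF, heT⟩, hc⟩ := hadj
  have heR : e ∈ RE a b (-(64 * r)) (64 * r) := TBE_subset_RE (Finset.mem_coe.1 heT)
  have hends := mem_RE_ends heR
  have hyin : inR a b (-(64 * r)) (64 * r) y := by
    rcases hc with ⟨_, h2⟩ | ⟨h1, _⟩
    · exact h2 ▸ hends.2
    · exact h1 ▸ hends.1
  have hzin : inR a b (-(64 * r)) (64 * r) z := by
    rcases hc with ⟨h1, _⟩ | ⟨_, h2⟩
    · exact h1 ▸ hends.1
    · exact h2 ▸ hends.2
  unfold inR at hyin hzin
  have hylow : y.2 < h y.1 := by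
    rw [mem_UU, mem_QB] at hy
    by_contra hcon
    apply hy
    omega
  have hzu : h z.1 ≤ z.2 := (mem_UU.1 hz).2
  have hby := Lp_bound' hL (r := r) (x := y.1) (by omega) (by omega)
  have hbz := Lp_bound' hL (r := r) (x := z.1) (by omega) (by omega)
  have hbt : (z.2 < h (z.1 + 1) ∨ z.2 < h (z.1 - 1) ∨ z.2 - 1 < h z.1) ∧ z.2 ≤ 32 * r := by
    obtain ⟨x0, y0, bo⟩ := e
    cases bo
    · simp only [src_mk, tgt_false] at hc
      rcases hc with ⟨h1, h2⟩ | ⟨h1, h2⟩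
      · exfalso
        rw [← h1] at hzu
        rw [← h2] at hylow
        simp only at hzu hylow
        omega
      · rw [← h1] at hylow
        rw [← h2] at hbz ⊢
        simp only at hylow hbz ⊢
        refine ⟨Or.inr (Or.inr (by omega)), by omega⟩
    · simp only [src_mk, tgt_true] at hc
      rcases hc with ⟨h1, h2⟩ | ⟨h1, h2⟩
      · rw [← h2] at hylow hby
        rw [← h1]
        simp only at hylow hby ⊢
        exact ⟨Or.inl hylow, by omega⟩
      · rw [← h1] at hylow hby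
        rw [← h2]
        simp only at hylow hby ⊢
        refine ⟨Or.inr (Or.inl ?_), by omega⟩
        rw [add_sub_cancel_right]
        exact hylow
  -- the path from `z` up
  have hup : Reach (↑(F ∩ ES (UU h (2 * r))) ∩ ↑(RE a b (-(64 * r)) (64 * r))) z
      (x', 64 * r) := by
    refine hzr.symm.mono ?_
    rintro e' ⟨⟨h1, h2⟩, h3⟩
    refine ⟨?_, ?_⟩
    · rw [Finset.mem_coe, Finset.mem_inter, mem_ES]
      exact ⟨Finset.mem_coe.1 h1, h3⟩
    · exact Finset.mem_coe.2 (TBE_subset_RE (Finset.mem_coe.1 h2))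
  refine ⟨z, x', hz, ⟨hzu, hbt.1⟩, hbt.2, hup, ?_⟩
  intro V hV1 hV2
  refine ⟨(y.1, -(64 * r)), le_rfl, ?_, ?_⟩
  · apply hV2
    rw [mem_UU]
    simp only
    omega
  · have p1 : Reach (EV V ∩ ↑(RE a b (-(64 * r)) (64 * r))) (y.1, -(64 * r)) (y.1, y.2) := by
      refine vline' hyin.2.1 le_rfl hyin.1 hyin.2.2 ?_
      intro t _ ht2
      apply hV2
      rw [mem_UU]
      simp only
      omega
    have p2 : Reach (EV V ∩ ↑(RE a b (-(64 * r)) (64 * r))) y z := by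
      apply Adj.reach
      have hVy : V y := hV2 y hy
      have hVz : V z := hV1 z (Reach.refl _ _)
      refine ⟨e, ⟨?_, Finset.mem_coe.2 heR⟩, hc.symm⟩
      rcases hc with ⟨h1, h2⟩ | ⟨h1, h2⟩
      · exact ⟨h1 ▸ hVz, h2 ▸ hVy⟩
      · exact ⟨h1 ▸ hVy, h2 ▸ hVz⟩
    have p3 : Reach (EV V ∩ ↑(RE a b (-(64 * r)) (64 * r))) z (x', 64 * r) := by
      refine reach_EV (R := ↑(RE a b (-(64 * r)) (64 * r))) ?_ (fun e' he' => he'.2) hup
      intro w hw
      exact hV1 w (hw.mono Set.inter_subset_left)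
    exact p1.trans (p2.trans p3)

theorem t_HCD : S_HCD := by
  intro h r F hL hr hLR hTL hTR
  obtain ⟨z, xl, hz, hbt, hz2, hup, hVl⟩ := strip hL hr le_rfl (by omega) hTL
  obtain ⟨z', xr, hz', hbt', hz2', hup', hVr⟩ := strip hL hr (by omega) le_rfl hTR
  obtain ⟨t, t', ht, ht', hT⟩ := hLR
  obtain ⟨F', hF'⟩ : ∃ F', F' = F ∩ ES (UU h (2 * r)) := ⟨_, rfl⟩
  rw [← hF'] at hup hVl hup' hVr ⊢
  obtain ⟨U, hU⟩ : ∃ U, U = UU h (2 * r) := ⟨_, rfl⟩
  -- the top crossing is in `U`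
  have htop : ∀ y : Vtx, -(2 * r) ≤ y.1 → y.1 ≤ 2 * r → 32 * r ≤ y.2 → y.2 ≤ 64 * r →
      y ∈ UU h (2 * r) := by
    intro y h1 h2 h3 h4
    have := Lp_bound' hL h1 h2
    rw [mem_UU, mem_QB]
    omega
  have hT' : Reach (↑F' ∩ ↑(RE (-(2 * r)) (2 * r) (32 * r) (64 * r))) (-(2 * r), t)
      (2 * r, t') := by
    refine hT.mono ?_
    rintro e ⟨h1, h2⟩
    have h3 : e ∈ RE (-(2 * r)) (2 * r) (32 * r) (64 * r) :=
      LRE_subset_RE (Finset.mem_coe.1 h2)
    have h4 := mem_RE_ends h3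
    unfold inR at h4
    refine ⟨?_, Finset.mem_coe.2 h3⟩
    rw [hF', Finset.mem_coe, Finset.mem_inter, mem_ES]
    exact ⟨Finset.mem_coe.1 h1, htop _ h4.1.1.1 h4.1.1.2 h4.1.2.1 h4.1.2.2,
      htop _ h4.2.1.1 h4.2.1.2 h4.2.2.1 h4.2.2.2⟩
  have mL : Reach (↑F' : Set Edg) (-(2 * r), t) z :=
    (cross_meet (A := -(2 * r)) (B := 2 * r) (C := -(64 * r)) (D := 64 * r) (a := -(2 * r))
      (b := -r) (c := 32 * r) (d := 64 * r) le_rfl (by omega) (by omega) (by omega) (by omega)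
      le_rfl hT' le_rfl (by simp only; omega) hup hz2 le_rfl).mono Set.inter_subset_left
  have mR : Reach (↑F' : Set Edg) (-(2 * r), t) z' :=
    (cross_meet (A := -(2 * r)) (B := 2 * r) (C := -(64 * r)) (D := 64 * r) (a := r)
      (b := 2 * r) (c := 32 * r) (d := 64 * r) (by omega) (by omega) le_rfl (by omega)
      (by omega) le_rfl hT' (by simp only; omega) le_rfl hup' hz2' le_rfl).mono
      Set.inter_subset_left
  have mzz : Reach (↑F' : Set Edg) z z' := mL.symm.trans mR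
  refine ⟨z, hz, hbt, ?_⟩
  intro u hu huQ w hw hwQ hP
  rw [mem_QB] at huQ
  have hne : u ≠ w := by
    rintro rfl
    unfold onQ at hwQ
    omega
  obtain ⟨V', hV'⟩ : ∃ V' : Vtx → Prop, V' = fun y => y ∈ UU h (2 * r) ∧
    ¬ Reach (↑F' : Set Edg) z y := ⟨_, rfl⟩
  obtain ⟨V, hV⟩ : ∃ V : Vtx → Prop, V = fun y => y ∉ UU h (2 * r) ∨
    Reach (↑F' : Set Edg) z y := ⟨_, rfl⟩
  rw [← hV'] at hP
  have hdis : ∀ w, V' w → V w → False := by
    intro w h1 h2
    rw [hV'] at h1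
    rw [hV] at h2
    rcases h2 with h2 | h2
    · exact h2 h1.1
    · exact h1.2 h2
  have hP' : Reach (EV V' ∩ ↑(RE (-(2 * r)) (2 * r) (-(64 * r)) (64 * r))) u w := by
    refine hP.mono ?_
    intro e he
    refine ⟨he, ?_⟩
    rw [Finset.mem_coe]
    have h1 : src e ∈ UU h (2 * r) ∧ tgt e ∈ UU h (2 * r) := by
      have h2 := he
      rw [hV'] at h2
      exact ⟨h2.1.1, h2.2.1⟩
    rw [mem_UU, mem_UU, mem_QB, mem_QB] at h1
    exact mem_RE_of_ends (by unfold inR; omega) (by unfold inR; omega)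
  rcases hwQ with hw1 | hw1 | hw1
  · -- left side
    obtain ⟨y1, y2, k1, k2, k3, -⟩ := sub_LR (a := -(2 * r)) (b := -r) (c := -(64 * r))
      (d := 64 * r) (by omega)
      (by rintro x y ⟨-, h⟩ _ _; simp only [mem_coe, mem_RE_true] at h; omega)
      (by rintro x y ⟨-, h⟩ _ _; simp only [mem_coe, mem_RE_false] at h; omega)
      hP'.symm hw1.le (by omega)
    have k4 : Reach (EV V' ∩ ↑(RE (-(2 * r)) (-r) (-(64 * r)) (64 * r))) (-(2 * r), y1)
        (-r, y2) := by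
      refine k3.mono ?_
      rintro e ⟨⟨h1, -⟩, h3⟩
      exact ⟨h1, Finset.mem_coe.2 (LRE_subset_RE (Finset.mem_coe.1 h3))⟩
    obtain ⟨q, hq1, hq2, hq3⟩ := hVl V (fun y hy => by rw [hV]; exact Or.inr hy)
      (fun y hy => by rw [hV]; exact Or.inl hy)
    exact no_cross (by omega) (by omega) hdis k4 le_rfl le_rfl
      (start_V k4 (by intro h1; have := congrArg Prod.fst h1; simp only at this; omega))
      hq3 hq1 le_rfl hq2
  · -- right side
    obtain ⟨y1, y2, k1, k2, k3, -⟩ := sub_LR (a := r) (b := 2 * r) (c := -(64 * r))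
      (d := 64 * r) (by omega)
      (by rintro x y ⟨-, h⟩ _ _; simp only [mem_coe, mem_RE_true] at h; omega)
      (by rintro x y ⟨-, h⟩ _ _; simp only [mem_coe, mem_RE_false] at h; omega)
      hP' (by omega) hw1.ge
    have k4 : Reach (EV V' ∩ ↑(RE r (2 * r) (-(64 * r)) (64 * r))) (r, y1)
        (2 * r, y2) := by
      refine k3.mono ?_
      rintro e ⟨⟨h1, -⟩, h3⟩
      exact ⟨h1, Finset.mem_coe.2 (LRE_subset_RE (Finset.mem_coe.1 h3))⟩
    obtain ⟨q, hq1, hq2, hq3⟩ := hVr V (fun y hy => by rw [hV]; exact Or.inr (mzz.trans hy))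
      (fun y hy => by rw [hV]; exact Or.inl hy)
    exact no_cross (by omega) (by omega) hdis k4 le_rfl le_rfl
      (start_V k4 (by intro h1; have := congrArg Prod.fst h1; simp only at this; omega))
      hq3 hq1 le_rfl hq2
  · -- top side
    obtain ⟨x1, x2, k1, k2, k3, -⟩ := sub_TB (a := -(2 * r)) (b := 2 * r) (c := 32 * r)
      (d := 64 * r) (by omega)
      (by rintro x y ⟨-, h⟩ _ _; simp only [mem_coe, mem_RE_false] at h; omega)
      (by rintro x y ⟨-, h⟩ _ _; simp only [mem_coe, mem_RE_true] at h; omega)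
      hP' (by omega) (by omega)
    have k4 : Reach (EV V' ∩ ↑(RE (-(2 * r)) (2 * r) (32 * r) (64 * r))) (x1, 32 * r)
        (x2, 64 * r) := by
      refine k3.mono ?_
      rintro e ⟨⟨h1, -⟩, h3⟩
      exact ⟨h1, Finset.mem_coe.2 (TBE_subset_RE (Finset.mem_coe.1 h3))⟩
    have hVt : V (-(2 * r), t) := by
      rw [hV]
      exact Or.inr mL.symm
    have k5 : Reach (EV V ∩ ↑(RE (-(2 * r)) (2 * r) (32 * r) (64 * r))) (-(2 * r), t)
        (2 * r, t') := by
      refine reach_EV (R := ↑(RE (-(2 * r)) (2 * r) (32 * r) (64 * r))) ?_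
        (fun e' he' => he'.2) hT'
      intro w hw
      rw [hV]
      exact Or.inr (mL.symm.trans (hw.mono Set.inter_subset_left))
    exact no_cross (by omega) (by omega) (fun w h1 h2 => hdis w h2 h1) k5 le_rfl le_rfl hVt
      k4 le_rfl le_rfl
      (start_V k4 (by intro h1; have := congrArg Prod.snd h1; simp only at this; omega))

end Pool.Agent.Y989.SD.HCD
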