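import Pool.Agent.Y989.SD.Stm

/-!
Project SD, part HCP (job 8024, helper664): blocking clusters exist with positive probability at
every scale.
-/

set_option autoImplicit false

namespace Pool.Agent.Y989.SD.HCP

open H974 H973 Finset

/-- Crossings of rectangles of height one. -/
theorem hh_one (k : ℕ) : (1 / 2 : ℝ) ^ (2 * k + 1) ≤ hh (1 / 2) ((k : ℤ) + 2) 1 := by
  induction k with
  | zero =>
    have h1 := hh_half 1 (by norm_num)
    have e : ((0 : ℕ) : ℤ) + 2 = 1 + 1 := by norm_num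
    rw [e, h1]
    norm_num
  | succ k ih =>
    have h0 : (0 : ℝ) ≤ 1 / 2 := by norm_num
    have h1 : (1 / 2 : ℝ) ≤ 1 := by norm_num
    have g := hh_glue h0 h1 (w1 := (k : ℤ) + 2) (w2 := 2) (v := 1) (h := 1) (by norm_num)
      (by omega) (by norm_num) (by norm_num)
    have e : (k : ℤ) + 2 + 2 - 1 = ((k + 1 : ℕ) : ℤ) + 2 := by push_cast; ring
    rw [e] at g
    refine le_trans ?_ g
    have a1 : hh (1 / 2) 2 1 = 1 / 2 := by
      have h2 := hh_half 1 (by norm_num)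
      have e3 : (1 : ℤ) + 1 = 2 := by norm_num
      rw [e3] at h2
      exact h2
    have a2 := hh_square 1 (by norm_num)
    rw [a1]
    have e2 : (1 / 2 : ℝ) ^ (2 * (k + 1) + 1) = (1 / 2 : ℝ) ^ (2 * k + 1) * (1 / 2) * (1 / 2) := by
      rw [← pow_succ, ← pow_succ]
      congr 1
    rw [e2]
    have p1 : (0 : ℝ) ≤ (1 / 2 : ℝ) ^ (2 * k + 1) := by positivity
    have p2 : (1 / 2 : ℝ) ^ (2 * k + 1) * (1 / 2) ≤ hh (1 / 2) ((k : ℤ) + 2) 1 * (1 / 2) :=
      mul_le_mul_of_nonneg_right ih (by norm_num)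
    exact mul_le_mul p2 a2 (by norm_num) (mul_nonneg (p1.trans ih) (by norm_num))

/-- The constant. -/
noncomputable def kp : ℝ := (1 / 2 : ℝ) ^ 3072

theorem kp_pos : 0 < kp := by unfold kp; positivity

theorem kp_le {n : ℕ} (hn : n ≤ 3072) : kp ≤ (1 / 2 : ℝ) ^ n := by
  unfold kp
  exact pow_le_pow_of_le_one (by norm_num) (by norm_num) hn

theorem tall (r : ℤ) (hr : 1 ≤ r) : kp ≤ hh (1 / 2) (128 * r) r := by
  rcases eq_or_lt_of_le hr with h | h
  · subst h
    refine (kp_le (n := 2 * 126 + 1) (by norm_num)).trans ?_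
    have := hh_one 126
    have e : ((126 : ℕ) : ℤ) + 2 = 128 * 1 := by norm_num
    rw [e] at this
    exact this
  · refine (kp_le (n := 48 * (63 + 1)) (by norm_num)).trans ?_
    have hm : 0 < r / 2 := by omega
    refine (hh_long 63 hm).trans ?_
    refine hh_mono (by norm_num) (by norm_num) (by omega) ?_ (by omega)
    push_cast
    omega

theorem wide (r : ℤ) (hr : 1 ≤ r) : kp ≤ hh (1 / 2) (4 * r) (32 * r) := by
  refine (kp_le (n := 48 * (0 + 1)) (by norm_num)).trans ?_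
  refine (hh_long 0 (show 0 < r by omega)).trans ?_
  refine hh_mono (by norm_num) (by norm_num) (by omega) ?_ (by omega)
  push_cast
  omega

theorem t_HCP : S_HCD → S_HCP := by
  intro hd
  refine ⟨kp * kp * kp, mul_pos (mul_pos kp_pos kp_pos) kp_pos, fun h r hh' hr => ?_⟩
  obtain ⟨S, hS⟩ : ∃ S : Finset Edg, S = ES (UU h (2 * r)) ∪ (LRE (-(2 * r)) (2 * r) (32 * r) (64 * r) ∪
      (TBE (-(2 * r)) (-r) (-(64 * r)) (64 * r) ∪ TBE r (2 * r) (-(64 * r)) (64 * r))) := ⟨_, rfl⟩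
  have s0 : ES (UU h (2 * r)) ⊆ S := by rw [hS]; exact subset_union_left
  have s1 : LRE (-(2 * r)) (2 * r) (32 * r) (64 * r) ⊆ S := by
    rw [hS]
    exact subset_union_left.trans subset_union_right
  have s2 : TBE (-(2 * r)) (-r) (-(64 * r)) (64 * r) ⊆ S := by
    rw [hS]
    exact (subset_union_left.trans subset_union_right).trans subset_union_right
  have s3 : TBE r (2 * r) (-(64 * r)) (64 * r) ⊆ S := by
    rw [hS]
    exact (subset_union_right.trans subset_union_right).trans subset_union_right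
  have p1 : kp ≤ Pr hf S (LRc (-(2 * r)) (2 * r) (32 * r) (64 * r)) := by
    have e := pr_LRc (1 / 2) s1
    have e2 : Pr hf S (LRc (-(2 * r)) (2 * r) (32 * r) (64 * r)) = hh (1 / 2) (4 * r) (32 * r) := by
      refine e.trans ?_
      congr 1 <;> ring
    rw [e2]
    exact wide r hr
  have p2 : kp ≤ Pr hf S (TBc (-(2 * r)) (-r) (-(64 * r)) (64 * r)) := by
    have e := pr_TBc (1 / 2) s2
    have e2 : Pr hf S (TBc (-(2 * r)) (-r) (-(64 * r)) (64 * r)) = hh (1 / 2) (128 * r) r := by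
      refine e.trans ?_
      congr 1 <;> ring
    rw [e2]
    exact tall r hr
  have p3 : kp ≤ Pr hf S (TBc r (2 * r) (-(64 * r)) (64 * r)) := by
    have e := pr_TBc (1 / 2) s3
    have e2 : Pr hf S (TBc r (2 * r) (-(64 * r)) (64 * r)) = hh (1 / 2) (128 * r) r := by
      refine e.trans ?_
      congr 1 <;> ring
    rw [e2]
    exact tall r hr
  have i1 := LRc_incr S (-(2 * r)) (2 * r) (32 * r) (64 * r)
  have i2 := TBc_incr S (-(2 * r)) (-r) (-(64 * r)) (64 * r)
  have i3 := TBc_incr S r (2 * r) (-(64 * r)) (64 * r)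
  have i23 : IncrE S (fun F => TBc (-(2 * r)) (-r) (-(64 * r)) (64 * r) F ∧
      TBc r (2 * r) (-(64 * r)) (64 * r) F) := fun F G h1 h2 h3 =>
    ⟨i2 F G h1 h2 h3.1, i3 F G h1 h2 h3.2⟩
  have q1 := Pr_harris okhalf i2 i3
  have q2 := Pr_harris okhalf i1 i23
  have q3 : Pr hf S (fun F => LRc (-(2 * r)) (2 * r) (32 * r) (64 * r) F ∧
      (TBc (-(2 * r)) (-r) (-(64 * r)) (64 * r) F ∧ TBc r (2 * r) (-(64 * r)) (64 * r) F)) ≤
      Pr hf S (fun F => hcQ h r (F ∩ ES (UU h (2 * r)))) :=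
    Pr_mono okhalf fun F _ hF => hd h r F hh' hr hF.1 hF.2.1 hF.2.2
  have q4 : Pr hf S (fun F => hcQ h r (F ∩ ES (UU h (2 * r)))) =
      Pr hf (ES (UU h (2 * r))) (hcQ h r) := Pr_restrict s0 _
  rw [← q4]
  refine le_trans ?_ q3
  refine le_trans ?_ q2
  have k0 := kp_pos.le
  calc kp * kp * kp = kp * (kp * kp) := by ring
    _ ≤ Pr hf S (LRc (-(2 * r)) (2 * r) (32 * r) (64 * r)) *
        (Pr hf S (TBc (-(2 * r)) (-r) (-(64 * r)) (64 * r)) *
          Pr hf S (TBc r (2 * r) (-(64 * r)) (64 * r))) :=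
      mul_le_mul p1 (mul_le_mul p2 p3 k0 (k0.trans p2)) (mul_nonneg k0 k0) (k0.trans p1)
    _ ≤ _ := mul_le_mul_of_nonneg_left q1 (k0.trans p1)

end Pool.Agent.Y989.SD.HCP
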