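import Pool.Agent.Y989.SD.Stm3

/-!
Project SD: extension and quasi-multiplicativity of arms in epigraph domains.
-/

set_option autoImplicit false

namespace Pool.Agent.Y989.SD.QM

open H974 H973 Finset

theorem abs_h {h : ℤ → ℤ} (hL : Lp 10 h) : ∀ x : ℤ, |h x| ≤ 10 * |x| := by
  have h1 : ∀ n : ℕ, |h n| ≤ 10 * n ∧ |h (-n)| ≤ 10 * n := by
    intro n
    induction n with
    | zero => simp [hL.zero]
    | succ n ih =>
      have a1 := abs_le.1 (hL.lip n)
      have a2 := hL.lip (-(n : ℤ) - 1)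
      have e1 : -(n : ℤ) - 1 + 1 = -n := by ring
      have e2 : -((n + 1 : ℕ) : ℤ) = -(n : ℤ) - 1 := by push_cast; ring
      rw [e1] at a2
      have a3 := abs_le.1 a2
      have i1 := abs_le.1 ih.1
      have i2 := abs_le.1 ih.2
      rw [e2, abs_le, abs_le]
      push_cast
      omega
  intro x
  obtain ⟨n, rfl | rfl⟩ := Int.eq_nat_or_neg x
  · rw [Nat.abs_cast]; exact (h1 n).1
  · rw [abs_neg, Nat.abs_cast]; exact (h1 n).2

theorem h_bd {h : ℤ → ℤ} (hL : Lp 10 h) {x R : ℤ} (h1 : -R ≤ x) (h2 : x ≤ R) :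
    -(10 * R) ≤ h x ∧ h x ≤ 10 * R := by
  have h3 := abs_le.1 (abs_h hL x)
  have h4 : |x| ≤ R := abs_le.2 ⟨h1, h2⟩
  constructor <;> linarith [h3.1, h3.2]

theorem UU_mono {h : ℤ → ℤ} {r R : ℤ} (hr : r ≤ R) (h0 : 0 ≤ r) : UU h r ⊆ UU h R := by
  intro y hy
  rw [mem_UU, mem_QB] at hy ⊢
  omega

/-- A path of `F`, all of whose vertices satisfy `V`. -/
theorem reach_EV {F : Set Edg} {u w : Vtx} (h : Reach F u w) {V : Vtx → Prop}
    (hV : ∀ y, Reach F u y → V y) : Reach (EV V) u w := by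
  induction h with
  | refl => exact Reach.refl _ _
  | @tail v v' hv hs ih =>
    refine ih.trans (Adj.reach ?_)
    have h1 : V v := hV v hv
    have h2 : V v' := hV v' (Relation.ReflTransGen.tail hv hs)
    obtain ⟨e, he, hc⟩ := hs
    refine ⟨e, ?_, hc⟩
    rcases hc with ⟨a, b⟩ | ⟨a, b⟩
    · exact ⟨by rw [a]; exact h1, by rw [b]; exact h2⟩
    · exact ⟨by rw [a]; exact h2, by rw [b]; exact h1⟩

/-- First exit from the box inside the epigraph domain. -/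
theorem exitQ {h : ℤ → ℤ} (hL : Lp 10 h) {R R' : ℤ} (hR : 1 ≤ R) {F : Finset Edg}
    (hF : F ⊆ ES (UU h R')) {u w : Vtx} (hu : u ∈ UU h R) (huR : u ∈ UU h R')
    (hr : Reach (F : Set Edg) u w)
    (hw : w.1 ≤ -R ∨ R ≤ w.1 ∨ w.2 ≤ -(32 * R) ∨ 32 * R ≤ w.2) :
    ∃ y ∈ UU h R, onQ R y ∧ Reach (↑(F ∩ ES (UU h R)) : Set Edg) u y := by
  rw [mem_UU, mem_QB] at hu
  obtain ⟨y, h1, h2, h3⟩ := first_exit (a := -R) (b := R) (c := -(32 * R))
    (d := 32 * R) hu.1 hr hw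
  have hy : y ∈ UU h R' := reach_mem (F := (F : Set Edg))
    (fun e he => hF (Finset.mem_coe.mp he)) huR (h3.mono Set.inter_subset_left)
  have hyU : y ∈ UU h R := by
    rw [mem_UU, mem_QB] at hy ⊢
    exact ⟨h1, hy.2⟩
  have h4 : (F : Set Edg) ∩ ↑(RE (-R) R (-(32 * R)) (32 * R)) ⊆
      (↑(F ∩ ES (UU h R)) : Set Edg) := by
    rintro e ⟨he1, he2⟩
    rw [Finset.mem_coe] at he1 he2 ⊢
    rw [Finset.mem_inter, mem_ES, mem_UU, mem_UU, mem_QB, mem_QB]
    have h5 := mem_ES.mp (hF he1)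
    rw [mem_UU, mem_UU] at h5
    have h6 := mem_RE_ends he2
    exact ⟨he1, ⟨h6.1, h5.1.2⟩, ⟨h6.2, h5.2.2⟩⟩
  refine ⟨y, hyU, ?_, h3.mono h4⟩
  have h5 := h_bd hL h1.1.1 h1.1.2
  rw [mem_UU] at hyU
  unfold onQ
  omega

/-- Gluing. -/
theorem glue {h : ℤ → ℤ} (hL : Lp 10 h) {r R : ℤ} (hr : 1 ≤ r) (hR : 2 * r ≤ R)
    {F : Finset Edg} (hF : F ⊆ ES (UU h R)) {z : Vtx}
    (hz : Blk (UU h (2 * r)) (fun u => u ∈ QB r) (fun w => onQ (2 * r) w) z
      (F ∩ ES (UU h (2 * r)))) {u w : Vtx} (hu : u ∈ UU h r) (huw : Reach (F : Set Edg) u w)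
    (hw : w.1 ≤ -(2 * r) ∨ 2 * r ≤ w.1 ∨ w.2 ≤ -(32 * (2 * r)) ∨ 32 * (2 * r) ≤ w.2) :
    Reach (F : Set Edg) z u := by
  have hu2 : u ∈ UU h (2 * r) := UU_mono (by omega) (by omega) hu
  have huR : u ∈ UU h R := UU_mono (by omega) (by omega) hu
  obtain ⟨y, hy, hyQ, hyr⟩ := exitQ hL (by omega : 1 ≤ 2 * r) hF hu2 huR huw hw
  by_contra hcon
  refine hz u hu2 (mem_UU.1 hu).1 y hy hyQ (reach_EV hyr ?_)
  intro v hv
  refine ⟨reach_mem (F := (↑(F ∩ ES (UU h (2 * r))) : Set Edg))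
    (fun e he => (Finset.mem_inter.1 (Finset.mem_coe.mp he)).2) hu2 hv, fun hzv => hcon ?_⟩
  exact (hzv.trans hv.symm).mono (by
    rw [Finset.coe_inter]; exact Set.inter_subset_left)

theorem Blk_mono {T : Finset Vtx} {A B : Vtx → Prop} {z : Vtx} {F G : Finset Edg} (h : F ⊆ G)
    (hF : Blk T A B z F) : Blk T A B z G := by
  intro u hu hA w hw hB hr
  refine hF u hu hA w hw hB (hr.mono ?_)
  rintro e ⟨⟨h1, h2⟩, ⟨h3, h4⟩⟩
  exact ⟨⟨h1, fun h5 => h2 (h5.mono (by exact_mod_cast h))⟩,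
    ⟨h3, fun h5 => h4 (h5.mono (by exact_mod_cast h))⟩⟩

theorem hcQ_mono {h : ℤ → ℤ} {r : ℤ} {F G : Finset Edg} (hFG : F ⊆ G) (hF : hcQ h r F) :
    hcQ h r G := by
  obtain ⟨z, h1, h2, h3⟩ := hF
  exact ⟨z, h1, h2, Blk_mono hFG h3⟩

theorem armQ_mono {h : ℤ → ℤ} {R : ℤ} {F G : Finset Edg} (hFG : F ⊆ G) (hF : armQ h R F) :
    armQ h R G := by
  obtain ⟨y, h1, h2, h3⟩ := hF
  exact ⟨y, h1, h2, h3.mono (by exact_mod_cast hFG)⟩

theorem annQ_mono {h : ℤ → ℤ} {r R : ℤ} {F G : Finset Edg} (hFG : F ⊆ G) (hF : annQ h r R F) :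
    annQ h r R G := by
  obtain ⟨u, h0, y, h1, h2, h3⟩ := hF
  exact ⟨u, h0, y, h1, h2, h3.mono (by exact_mod_cast hFG)⟩

theorem AP_nonneg (h : ℤ → ℤ) (R : ℤ) : 0 ≤ AP h R := Pr_nonneg okhalf _ _
theorem AP_le_one (h : ℤ → ℤ) (R : ℤ) : AP h R ≤ 1 := Pr_le_one okhalf _ _
theorem XP_nonneg (h : ℤ → ℤ) (r R : ℤ) : 0 ≤ XP h r R := Pr_nonneg okhalf _ _
theorem XP_le_one (h : ℤ → ℤ) (r R : ℤ) : XP h r R ≤ 1 := Pr_le_one okhalf _ _

/-- All edges of a set are open. -/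
theorem pr_all {K S : Finset Edg} (hK : K ⊆ S) :
    (1 / 2 : ℝ) ^ K.card ≤ Pr hf S (fun F => K ⊆ F) := by
  have h1 : Pr hf S (fun F => K ⊆ F) = Pr hf K (fun F => K ⊆ F) := by
    rw [← Pr_restrict hK (fun F => K ⊆ F)]
    apply Pr_congr
    intro F _
    constructor
    · intro h; exact Finset.subset_inter h (Finset.Subset.refl _)
    · intro h; exact h.trans Finset.inter_subset_left
  rw [h1]
  unfold Pr Ex
  have h2 := Finset.single_le_sum (s := K.powerset) (f := fun F => (∏ e ∈ F, hf e) *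
    (∏ e ∈ K \ F, (1 - hf e)) * ind (K ⊆ F)) (a := K) (fun F _ => by
      apply mul_nonneg
      · apply mul_nonneg
        · exact Finset.prod_nonneg fun _ _ => by norm_num
        · exact Finset.prod_nonneg fun _ _ => by norm_num
      · exact ind_nonneg _) (Finset.mem_powerset_self K)
  refine le_trans (le_of_eq ?_) h2
  rw [ind_of (Finset.Subset.refl K), Finset.sdiff_self, Finset.prod_empty, Finset.prod_const]
  ring

/-- The column above the origin. -/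
theorem AP_col {h : ℤ → ℤ} (hL : Lp 10 h) (n : ℕ) (hn : 1 ≤ n) :
    (1 / 2 : ℝ) ^ (32 * n) ≤ AP h n := by
  classical
  let K : Finset Edg := (Finset.range (32 * n)).image fun t : ℕ => ((0 : ℤ), (t : ℤ), false)
  have hKc : K.card = 32 * n := by
    rw [Finset.card_image_of_injective, Finset.card_range]
    intro a b hab
    simpa using hab
  have hU : ∀ t : ℕ, t ≤ 32 * n → ((0 : ℤ), (t : ℤ)) ∈ UU h n := by
    intro t ht
    rw [mem_UU, mem_QB]
    have := hL.zero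
    simp only
    omega
  have hK : K ⊆ ES (UU h n) := by
    intro e he
    obtain ⟨t, ht, rfl⟩ := Finset.mem_image.1 he
    rw [Finset.mem_range] at ht
    rw [mem_ES]
    refine ⟨hU t (by omega), ?_⟩
    have := hU (t + 1) (by omega)
    push_cast at this
    exact this
  have h1 := pr_all hK
  rw [hKc] at h1
  refine h1.trans ?_
  apply Pr_mono okhalf
  intro F _ hF
  have h2 : ∀ t : ℕ, t ≤ 32 * n → Reach (F : Set Edg) (0, 0) ((0 : ℤ), (t : ℤ)) := by
    intro t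
    induction t with
    | zero => intro _; exact Reach.refl _ _
    | succ t ih =>
      intro ht
      refine (ih (by omega)).trans (Adj.reach ⟨((0 : ℤ), (t : ℤ), false), ?_, Or.inl ⟨rfl, ?_⟩⟩)
      · exact hF (Finset.mem_image.2 ⟨t, Finset.mem_range.2 (by omega), rfl⟩)
      · simp
  refine ⟨((0 : ℤ), ((32 * n : ℕ) : ℤ)), hU _ le_rfl, ?_, h2 _ le_rfl⟩
  unfold onQ
  right; right
  push_cast
  rfl

/-- The crossing of a strip, from the top down to the box of radius `r`. -/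
theorem strip {h : ℤ → ℤ} (hL : Lp 10 h) {r R : ℤ} (hr : 1 ≤ r) (hR : 2 * r ≤ R)
    {F : Finset Edg} (hF : TBc (-r) r (-(64 * R)) (64 * R) F) :
    ∃ u ∈ UU h r, ∃ w ∈ UU h (2 * R), w.2 = 64 * R ∧
      Reach (↑(F ∩ ES (UU h (2 * R))) : Set Edg) u w := by
  obtain ⟨x, x', hx, hx', hr'⟩ := hF
  have hb : ∀ {x : ℤ}, -r ≤ x → x ≤ r → -(10 * r) ≤ h x ∧ h x ≤ 10 * r :=
    fun h1 h2 => h_bd hL h1 h2
  have htop : (x', 64 * R) ∈ UU h (2 * R) := by
    rw [mem_UU, mem_QB]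
    have := hb hx'.1 hx'.2
    simp only
    omega
  have key : ∀ v, Reach ((F : Set Edg) ∩ ↑(TBE (-r) r (-(64 * R)) (64 * R))) (x', 64 * R) v →
      (v ∈ UU h (2 * R) ∧ (-r ≤ v.1 ∧ v.1 ≤ r) ∧
        Reach (↑(F ∩ ES (UU h (2 * R))) : Set Edg) (x', 64 * R) v) ∨
      ∃ p ∈ UU h r, Reach (↑(F ∩ ES (UU h (2 * R))) : Set Edg) (x', 64 * R) p := by
    intro v hv
    induction hv with
    | refl => exact Or.inl ⟨htop, hx', Reach.refl _ _⟩
    | @tail v v' _ hs ih =>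
      rcases ih with ⟨h1, h2, h3⟩ | ih
      · obtain ⟨e, ⟨heF, heT⟩, hc⟩ := hs
        have h4 := mem_RE_ends (TBE_subset_RE (Finset.mem_coe.1 heT))
        have hv' : inR (-r) r (-(64 * R)) (64 * R) v' := by
          rcases hc with ⟨a, b⟩ | ⟨a, b⟩
          · rw [← b]; exact h4.2
          · rw [← a]; exact h4.1
        by_cases hin : v' ∈ UU h (2 * R)
        · left
          refine ⟨hin, hv'.1, h3.trans (Adj.reach ⟨e, ?_, hc⟩)⟩
          rw [Finset.mem_coe, Finset.mem_inter, mem_ES]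
          refine ⟨Finset.mem_coe.1 heF, ?_⟩
          rcases hc with ⟨a, b⟩ | ⟨a, b⟩
          · rw [a, b]; exact ⟨h1, hin⟩
          · rw [a, b]; exact ⟨hin, h1⟩
        · right
          refine ⟨v, ?_, h3⟩
          have h5 : v.2 ≤ v'.2 + 1 := by
            obtain ⟨x0, y0, bo⟩ := e
            cases bo
            · simp only [src_mk, tgt_false] at hc
              rcases hc with ⟨a, b⟩ | ⟨a, b⟩
              · rw [← a, ← b]; simp only; omega
              · rw [← a, ← b]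
            · simp only [src_mk, tgt_true] at hc
              rcases hc with ⟨a, b⟩ | ⟨a, b⟩
              · rw [← a, ← b]; simp only; omega
              · rw [← a, ← b]; simp only; omega
          unfold inR at hv'
          rw [mem_UU, mem_QB] at hin h1 ⊢
          have h6 := hb hv'.1.1 hv'.1.2
          have h7 := hb h2.1 h2.2
          omega
      · exact Or.inr ih
  rcases key _ hr'.symm with ⟨h1, -, -⟩ | ⟨p, hp, hpr⟩
  · exfalso
    rw [mem_UU] at h1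
    have := hb hx.1 hx.2
    have h2 := h1.2
    simp only at h2
    omega
  · exact ⟨p, hp, (x', 64 * R), htop, rfl, hpr.symm⟩

/-- The event of `strip`. -/
def Dn (h : ℤ → ℤ) (r R : ℤ) (F : Finset Edg) : Prop :=
  ∃ u ∈ UU h r, ∃ w ∈ UU h (2 * R), w.2 = 64 * R ∧ Reach (F : Set Edg) u w

theorem Dn_mono {h : ℤ → ℤ} {r R : ℤ} {F G : Finset Edg} (hFG : F ⊆ G) (hF : Dn h r R F) :
    Dn h r R G := by
  obtain ⟨u, h0, y, h1, h2, h3⟩ := hF
  exact ⟨u, h0, y, h1, h2, h3.mono (by exact_mod_cast hFG)⟩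

theorem pr_Dn {h : ℤ → ℤ} (hL : Lp 10 h) {r R : ℤ} (hr : 1 ≤ r) (hR : 2 * r ≤ R)
    (hR3 : R ≤ 3 * r) :
    (1 / 2 : ℝ) ^ (48 * (63 + 1)) ≤ Pr hf (ES (UU h (2 * R))) (Dn h r R) := by
  have hsub : ES (UU h (2 * R)) ⊆ ES (QB (2 * R)) := ES_mono (by
    intro y hy; exact (mem_UU.1 hy).1)
  have hT : TBE (-r) r (-(64 * R)) (64 * R) ⊆ ES (QB (2 * R)) := by
    intro e he
    have h4 := mem_RE_ends (TBE_subset_RE he)
    unfold inR at h4
    rw [mem_ES, mem_QB, mem_QB]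
    omega
  rw [← Pr_restrict hsub]
  have h1 : (1 / 2 : ℝ) ^ (48 * (63 + 1)) ≤ Pr hf (ES (QB (2 * R)))
      (TBc (-r) r (-(64 * R)) (64 * R)) := by
    have h2 := pr_TBc (1 / 2) hT
    have h3 : Pr hf (ES (QB (2 * R))) (TBc (-r) r (-(64 * R)) (64 * R)) =
      hh (1 / 2) (64 * R - -(64 * R)) (r - -r) := h2
    rw [h3]
    have h4 := hh_long 63 (m := r) (by omega)
    refine h4.trans ?_
    have e1 : (8 + 6 * ((63 : ℕ) : ℤ)) * r = 386 * r := by push_cast; ring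
    rw [e1]
    refine hh_mono (by norm_num) (by norm_num) (by omega) (by omega) (by omega)
  refine h1.trans ?_
  apply Pr_mono okhalf
  intro F _ hF
  exact strip hL hr hR hF

/-- Harris for three events. -/
theorem harris3 {S : Finset Edg} {A B D : Finset Edg → Prop} (hA : IncrE S A) (hB : IncrE S B)
    (hD : IncrE S D) : Pr hf S A * Pr hf S B * Pr hf S D ≤ Pr hf S (fun F => (A F ∧ B F) ∧ D F) := by
  have h1 := Pr_harris okhalf hA hB
  have h2 : IncrE S (fun F => A F ∧ B F) := fun F G h1 h2 h3 => ⟨hA F G h1 h2 h3.1, hB F G h1 h2 h3.2⟩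
  have h3 := Pr_harris okhalf h2 hD
  refine le_trans ?_ h3
  exact mul_le_mul_of_nonneg_right h1 (Pr_nonneg okhalf _ _)

theorem zero_mem {h : ℤ → ℤ} (hL : Lp 10 h) {r : ℤ} (hr : 1 ≤ r) : ((0, 0) : Vtx) ∈ UU h r := by
  rw [mem_UU, mem_QB]
  have := hL.zero
  simp only
  omega

theorem ext_step {c : ℝ} (hc0 : 0 < c) (hc : ∀ (h : ℤ → ℤ) (r : ℤ), Lp 10 h → 1 ≤ r →
    c ≤ Pr hf (ES (UU h (2 * r))) (hcQ h r)) (h : ℤ → ℤ) (R : ℤ) (hL : Lp 10 h) (hR : 2 ≤ R) :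
    AP h R * c * (1 / 2 : ℝ) ^ (48 * (63 + 1)) ≤ AP h (2 * R) := by
  set r := R / 2 with hr
  have hr1 : 1 ≤ r := by omega
  have hr2 : 2 * r ≤ R := by omega
  have hr3 : R ≤ 3 * r := by omega
  set S := ES (UU h (2 * R)) with hS
  have hs1 : ES (UU h R) ⊆ S := ES_mono (UU_mono (by omega) (by omega))
  have hs2 : ES (UU h (2 * r)) ⊆ S := ES_mono (UU_mono (by omega) (by omega))
  have hA : IncrE S (fun F => armQ h R (F ∩ ES (UU h R))) := fun F G h1 _ h3 =>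
    armQ_mono (Finset.inter_subset_inter_right h1) h3
  have hB : IncrE S (fun F => hcQ h r (F ∩ ES (UU h (2 * r)))) := fun F G h1 _ h3 =>
    hcQ_mono (Finset.inter_subset_inter_right h1) h3
  have hD : IncrE S (Dn h r R) := fun F G h1 _ h3 => Dn_mono h1 h3
  have h1 := harris3 hA hB hD
  have e1 : Pr hf S (fun F => armQ h R (F ∩ ES (UU h R))) = AP h R :=
    Pr_restrict hs1 (armQ h R)
  have e2 : Pr hf S (fun F => hcQ h r (F ∩ ES (UU h (2 * r)))) =
    Pr hf (ES (UU h (2 * r))) (hcQ h r) := Pr_restrict hs2 (hcQ h r)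
  rw [e1, e2] at h1
  have h2 : AP h R * c * (1 / 2 : ℝ) ^ (48 * (63 + 1)) ≤
      AP h R * Pr hf (ES (UU h (2 * r))) (hcQ h r) * Pr hf S (Dn h r R) := by
    refine mul_le_mul (mul_le_mul_of_nonneg_left (hc h r hL hr1) (AP_nonneg _ _))
      (pr_Dn hL hr1 hr2 hr3) (by positivity) (mul_nonneg (AP_nonneg _ _) (Pr_nonneg okhalf _ _))
  refine h2.trans (h1.trans ?_)
  apply Pr_mono okhalf
  rintro F hF ⟨⟨hA', hB'⟩, hD'⟩
  obtain ⟨y, hy, hyQ, hyr⟩ := hA'
  obtain ⟨z, hz, -, hzB⟩ := hB'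
  obtain ⟨u, hu, w, hw, hwt, huw⟩ := hD'
  have g1 : Reach (F : Set Edg) z (0, 0) := by
    refine glue hL hr1 (by omega) hF hzB (zero_mem hL hr1)
      (hyr.mono (by rw [Finset.coe_inter]; exact Set.inter_subset_left)) ?_
    unfold onQ at hyQ
    omega
  have g2 : Reach (F : Set Edg) z u := by
    refine glue hL hr1 (by omega) hF hzB hu huw ?_
    omega
  refine ⟨w, hw, ?_, (g1.symm.trans g2).trans huw⟩
  unfold onQ
  omega

theorem t_EXT : S_HCP → S_EXT := by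
  rintro ⟨c, hc0, hc⟩
  set d : ℝ := (1 / 2 : ℝ) ^ (48 * (63 + 1)) with hd
  have hd0 : 0 < d := by positivity
  have e64 : (0 : ℝ) < (1 / 2 : ℝ) ^ 64 := by positivity
  refine ⟨min ((1 / 2 : ℝ) ^ 64) (c * d), lt_min e64 (mul_pos hc0 hd0), ?_⟩
  intro h R hL hR
  have hc1 := AP_col hL 1 le_rfl
  have hc2 := AP_col hL 2 (by norm_num)
  constructor
  · refine (min_le_left _ _).trans (le_trans ?_ hc1)
    exact pow_le_pow_of_le_one (by norm_num) (by norm_num) (by norm_num)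
  · rcases eq_or_lt_of_le hR with h1 | h1
    · rw [← h1]
      have h2 : min ((1 / 2 : ℝ) ^ 64) (c * d) * AP h 1 ≤ (1 / 2 : ℝ) ^ 64 * 1 :=
        mul_le_mul (min_le_left _ _) (AP_le_one _ _) (AP_nonneg _ _) e64.le
      refine h2.trans ?_
      rw [mul_one]
      exact hc2
    · have h2 := ext_step hc0 hc h R hL (by omega)
      refine le_trans ?_ h2
      have h3 : min ((1 / 2 : ℝ) ^ 64) (c * d) * AP h R ≤ (c * d) * AP h R :=
        mul_le_mul_of_nonneg_right (min_le_right _ _) (AP_nonneg _ _)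
      refine h3.trans (le_of_eq ?_)
      ring

/-- Monotonicity in the radius. -/
theorem AP_anti {h : ℤ → ℤ} (hL : Lp 10 h) {R R' : ℤ} (hR : 1 ≤ R) (hRR : R ≤ R') :
    AP h R' ≤ AP h R := by
  have hs : ES (UU h R) ⊆ ES (UU h R') := ES_mono (UU_mono hRR (by omega))
  have e1 : Pr hf (ES (UU h R')) (fun F => armQ h R (F ∩ ES (UU h R))) = AP h R :=
    Pr_restrict hs (armQ h R)
  rw [← e1]
  apply Pr_mono okhalf
  rintro F hF ⟨y, hy, hyQ, hyr⟩
  refine exitQ hL hR hF (zero_mem hL hR) (zero_mem hL (by omega)) hyr ?_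
  unfold onQ at hyQ
  omega

theorem t_QM : S_HCP → S_QM := by
  intro H
  obtain ⟨c1, hc10, hc1⟩ := t_EXT H
  obtain ⟨c, hc0, hc⟩ := H
  refine ⟨min c1 (c1 * c), lt_min hc10 (mul_pos hc10 hc0), ?_⟩
  intro h r R hL hr hrR
  have hext := (hc1 h r hL hr).2
  by_cases h2 : 2 * r ≤ R
  · set S := ES (UU h R) with hS
    have hs2 : ES (UU h (2 * r)) ⊆ S := ES_mono (UU_mono h2 (by omega))
    have hA : IncrE S (fun F => armQ h (2 * r) (F ∩ ES (UU h (2 * r)))) := fun F G h1 _ h3 =>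
      armQ_mono (Finset.inter_subset_inter_right h1) h3
    have hB : IncrE S (fun F => hcQ h r (F ∩ ES (UU h (2 * r)))) := fun F G h1 _ h3 =>
      hcQ_mono (Finset.inter_subset_inter_right h1) h3
    have hD : IncrE S (annQ h r R) := fun F G h1 _ h3 => annQ_mono h1 h3
    have h3 := harris3 hA hB hD
    have e1 : Pr hf S (fun F => armQ h (2 * r) (F ∩ ES (UU h (2 * r)))) = AP h (2 * r) :=
      Pr_restrict hs2 (armQ h (2 * r))
    have e2 : Pr hf S (fun F => hcQ h r (F ∩ ES (UU h (2 * r)))) =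
      Pr hf (ES (UU h (2 * r))) (hcQ h r) := Pr_restrict hs2 (hcQ h r)
    rw [e1, e2] at h3
    have h4 : min c1 (c1 * c) * (AP h r * XP h r R) ≤
        AP h (2 * r) * Pr hf (ES (UU h (2 * r))) (hcQ h r) * Pr hf S (annQ h r R) := by
      have h5 : min c1 (c1 * c) * (AP h r * XP h r R) ≤ (c1 * c) * (AP h r * XP h r R) :=
        mul_le_mul_of_nonneg_right (min_le_right _ _) (mul_nonneg (AP_nonneg _ _) (XP_nonneg _ _ _))
      refine h5.trans ?_
      have h6 : (c1 * c) * (AP h r * XP h r R) = (c1 * AP h r * c) * XP h r R := by ring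
      rw [h6]
      refine mul_le_mul_of_nonneg_right ?_ (XP_nonneg _ _ _)
      exact mul_le_mul hext (hc h r hL hr) hc0.le (AP_nonneg _ _)
    refine h4.trans (h3.trans ?_)
    apply Pr_mono okhalf
    rintro F hF ⟨⟨hA', hB'⟩, hD'⟩
    obtain ⟨y, hy, hyQ, hyr⟩ := hA'
    obtain ⟨z, hz, -, hzB⟩ := hB'
    obtain ⟨u, hu, w, hw, hwt, huw⟩ := hD'
    have g1 : Reach (F : Set Edg) z (0, 0) := by
      refine glue hL hr h2 hF hzB (zero_mem hL hr)
        (hyr.mono (by rw [Finset.coe_inter]; exact Set.inter_subset_left)) ?_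
      unfold onQ at hyQ
      omega
    have g2 : Reach (F : Set Edg) z u := by
      refine glue hL hr h2 hF hzB hu huw ?_
      unfold onQ at hwt
      omega
    exact ⟨w, hw, hwt, (g1.symm.trans g2).trans huw⟩
  · have h3 := AP_anti hL (by omega : 1 ≤ R) (by omega : R ≤ 2 * r)
    have h4 : min c1 (c1 * c) * (AP h r * XP h r R) ≤ c1 * (AP h r * 1) := by
      refine mul_le_mul (min_le_left _ _) (mul_le_mul_of_nonneg_left (XP_le_one _ _ _)
        (AP_nonneg _ _)) (mul_nonneg (AP_nonneg _ _) (XP_nonneg _ _ _)) hc10.le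
    rw [mul_one] at h4
    exact h4.trans (hext.trans h3)

end Pool.Agent.Y989.SD.QM
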