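import Pool.Agent.Y989.SD.Stm

/-!
# Project SD, part SUB: submultiplicativity and monotonicity of arms in epigraph domains
-/

set_option autoImplicit false

namespace Pool.Agent.Y989.SD.SUB

open H974 H973 Finset

theorem hf_ok : Ok hf := fun _ => ⟨by norm_num, by norm_num⟩

theorem lp_nat {h : ℤ → ℤ} (hh : Lp 10 h) (n : ℕ) :
    |h (n : ℤ)| ≤ 10 * (n : ℤ) ∧ |h (-(n : ℤ))| ≤ 10 * (n : ℤ) := by
  induction n with
  | zero =>
    have h0 := hh.zero
    simp [h0]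
  | succ n ih =>
    have h1 := hh.lip (n : ℤ)
    have h2 := hh.lip (-((n : ℤ) + 1))
    have e2 : -((n : ℤ) + 1) + 1 = -(n : ℤ) := by ring
    rw [e2] at h2
    push_cast
    rw [abs_le] at h1 h2 ih ⊢
    rw [abs_le] at ih ⊢
    constructor <;> constructor <;> omega

theorem lp_bound {h : ℤ → ℤ} (hh : Lp 10 h) (x : ℤ) : |h x| ≤ 10 * |x| := by
  rcases le_total 0 x with hx | hx
  · obtain ⟨n, rfl⟩ := Int.eq_ofNat_of_zero_le hx
    rw [abs_of_nonneg hx]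
    exact (lp_nat hh n).1
  · obtain ⟨n, hn⟩ := Int.eq_ofNat_of_zero_le (by omega : 0 ≤ -x)
    have e : x = -(n : ℤ) := by omega
    subst e
    rw [abs_neg, Nat.abs_cast]
    exact (lp_nat hh n).2

theorem ES_mono {S T : Finset Vtx} (h : S ⊆ T) : ES S ⊆ ES T := by
  intro e he
  rw [mem_ES] at he ⊢
  exact ⟨h he.1, h he.2⟩

theorem UU_mono {h : ℤ → ℤ} {r R : ℤ} (hr : r ≤ R) : UU h r ⊆ UU h R := by
  intro y hy
  rw [mem_UU, mem_QB] at hy ⊢
  obtain ⟨⟨⟨h1, h2⟩, h3, h4⟩, h5⟩ := hy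
  refine ⟨⟨⟨by omega, by omega⟩, by omega, by omega⟩, h5⟩

theorem zero_mem {h : ℤ → ℤ} (hh : Lp 10 h) {r : ℤ} (hr : 1 ≤ r) : ((0, 0) : Vtx) ∈ UU h r := by
  rw [mem_UU, mem_QB]
  have h0 := hh.zero
  simp only
  refine ⟨⟨⟨by omega, by omega⟩, by omega, by omega⟩, by omega⟩

/-- an arm leaves the smaller box through its sides -/
theorem exit_box {h : ℤ → ℤ} (hh : Lp 10 h) {r R : ℤ} (hr : 1 ≤ r) (hrR : r ≤ R)
    {F : Finset Edg} (hF : F ⊆ ES (UU h R)) {u y : Vtx} (hu : u ∈ UU h r) (hy : onQ R y)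
    (hR : Reach (F : Set Edg) u y) :
    ∃ w ∈ UU h r, onQ r w ∧ Reach (↑(F ∩ ES (UU h r)) : Set Edg) u w := by
  have hu' := hu
  rw [mem_UU, mem_QB] at hu'
  obtain ⟨w, h1, h2, h3⟩ := first_exit (a := -r) (b := r) (c := -(32 * r)) (d := 32 * r)
    ⟨hu'.1.1, hu'.1.2⟩ hR (by
      rcases hy with h | h | h
      · left; omega
      · right; left; omega
      · right; right; right; omega)
  have hwR : w ∈ UU h R := reach_mem (F := (F : Set Edg)) (fun e he => hF (Finset.mem_coe.mp he))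
    (UU_mono hrR hu) (h3.mono Set.inter_subset_left)
  have hwr : w ∈ UU h r := by
    rw [mem_UU, mem_QB]
    exact ⟨⟨h1.1, h1.2⟩, (mem_UU.1 hwR).2⟩
  refine ⟨w, hwr, ?_, h3.mono ?_⟩
  · rcases h2 with h2 | h2 | h2 | h2
    · exact Or.inl h2
    · exact Or.inr (Or.inl h2)
    · exfalso
      have h4 := lp_bound hh w.1
      have h5 : |w.1| ≤ r := abs_le.2 h1.1
      have h6 := (mem_UU.1 hwR).2
      have h7 := (abs_le.1 h4).1
      omega
    · exact Or.inr (Or.inr h2)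
  · rintro e ⟨he1, he2⟩
    rw [Finset.mem_coe] at he1 he2 ⊢
    have h5 := mem_ES.mp (hF he1)
    have h6 := mem_RE_ends he2
    refine Finset.mem_inter.2 ⟨he1, mem_ES.2 ⟨?_, ?_⟩⟩
    · rw [mem_UU, mem_QB]
      exact ⟨⟨h6.1.1, h6.1.2⟩, (mem_UU.1 h5.1).2⟩
    · rw [mem_UU, mem_QB]
      exact ⟨⟨h6.2.1, h6.2.2⟩, (mem_UU.1 h5.2).2⟩

theorem t_MONO : S_MONO := by
  refine ⟨fun h h' R hh hh' hR hle => ?_, fun h r R hh hr hrR => ?_⟩
  · have hsub : UU h R ⊆ UU h' R := by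
      intro y hy
      rw [mem_UU] at hy ⊢
      refine ⟨hy.1, ?_⟩
      have h1 := (mem_QB.1 hy.1).1
      have h2 := hle y.1 (abs_le.2 h1)
      have h3 := hy.2
      omega
    unfold AP
    rw [← Pr_restrict (ES_mono hsub) (armQ h R)]
    refine Pr_mono hf_ok fun F _ hA => ?_
    obtain ⟨y, hy, hyQ, hyR⟩ := hA
    exact ⟨y, hsub hy, hyQ, hyR.mono (Finset.coe_subset.2 Finset.inter_subset_left)⟩
  · unfold AP
    rw [← Pr_restrict (ES_mono (UU_mono (h := h) hrR)) (armQ h r)]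
    refine Pr_mono hf_ok fun F hF hA => ?_
    obtain ⟨y, hy, hyQ, hyR⟩ := hA
    exact exit_box hh hr hrR hF (zero_mem hh hr) hyQ hyR

/-- the last vertex of a path in a set -/
theorem last_vertex {F : Finset Edg} {S : Finset Vtx} {u y : Vtx} (hu : u ∈ S)
    (hR : Reach (F : Set Edg) u y) : ∃ w ∈ S, Reach (↑(F \ ES S) : Set Edg) w y := by
  induction hR with
  | refl => exact ⟨u, hu, Reach.refl _ _⟩
  | @tail v v' _ hs ih =>
    by_cases hv : v' ∈ S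
    · exact ⟨v', hv, Reach.refl _ _⟩
    · obtain ⟨w, hw, hwR⟩ := ih
      refine ⟨w, hw, hwR.trans ?_⟩
      obtain ⟨e, he, hcase⟩ := hs
      refine Adj.reach ⟨e, ?_, hcase⟩
      rw [Finset.mem_coe] at he ⊢
      refine Finset.mem_sdiff.2 ⟨he, fun h1 => hv ?_⟩
      rw [mem_ES] at h1
      rcases hcase with ⟨h2, h3⟩ | ⟨h2, h3⟩
      · rw [← h3]; exact h1.2
      · rw [← h2]; exact h1.1

theorem t_SUB : S_SUB := by
  intro h r R hh hr hrR
  have hsub := ES_mono (UU_mono (h := h) hrR)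
  have h1 : AP h R ≤ Pr hf (ES (UU h R)) (fun F => armQ h r (F ∩ ES (UU h r)) ∧
      annQ h r R (F ∩ (ES (UU h R) \ ES (UU h r)))) := by
    refine Pr_mono hf_ok fun F hF hA => ?_
    obtain ⟨y, hy, hyQ, hyR⟩ := hA
    refine ⟨exit_box hh hr hrR hF (zero_mem hh hr) hyQ hyR, ?_⟩
    obtain ⟨w, hw, hwR⟩ := last_vertex (zero_mem hh hr) hyR
    refine ⟨w, hw, y, hy, hyQ, hwR.mono (Finset.coe_subset.2 ?_)⟩
    intro e he
    have h2 := Finset.mem_sdiff.1 he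
    exact Finset.mem_inter.2 ⟨h2.1, Finset.mem_sdiff.2 ⟨hF h2.1, h2.2⟩⟩
  refine h1.trans ?_
  have h2 := Pr_indep' (U := ES (UU h R)) hsub (Finset.sdiff_subset (s := ES (UU h R))
    (t := ES (UU h r))) Finset.disjoint_sdiff (armQ h r) (annQ h r R)
  refine (le_of_eq h2).trans ?_
  have h3 : Pr hf (ES (UU h R) \ ES (UU h r)) (annQ h r R) ≤ XP h r R := by
    refine Pr_mono_set hf_ok Finset.sdiff_subset ?_
    rintro F G hFG _ ⟨u, hu, y, hy, hyQ, hyR⟩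
    exact ⟨u, hu, y, hy, hyQ, hyR.mono (Finset.coe_subset.2 hFG)⟩
  exact mul_le_mul_of_nonneg_left h3 (Pr_nonneg hf_ok _ _)

end Pool.Agent.Y989.SD.SUB
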