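import Pool.Agent.Y989.SD.Stm

/-!
Project SD (helper989), job SD-TEL (helper219): comparison with the half-plane.
-/

set_option autoImplicit false

namespace Pool.Agent.Y989.SD.TEL

open H974 H973 Finset

theorem okhf : Ok hf := fun _ => by norm_num [hf]

theorem AP_nonneg (h : ℤ → ℤ) (R : ℤ) : 0 ≤ AP h R := Pr_nonneg okhf _ _

theorem AP_le_one (h : ℤ → ℤ) (R : ℤ) : AP h R ≤ 1 := Pr_le_one okhf _ _

theorem lp_mono {K K' : ℤ} {h : ℤ → ℤ} (hK : K ≤ K') (hh : Lp K h) : Lp K' h :=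
  ⟨hh.zero, fun x => (hh.lip x).trans hK⟩

theorem lp_abs {K : ℤ} {h : ℤ → ℤ} (hh : Lp K h) (x : ℤ) : |h x| ≤ K * |x| := by
  have hn : ∀ n : ℕ, |h (n : ℤ)| ≤ K * n ∧ |h (-(n : ℤ))| ≤ K * n := by
    intro n
    induction n with
    | zero => simp [hh.zero]
    | succ n ih =>
      have h1 := abs_le.mp (hh.lip n)
      have h2 := abs_le.mp (hh.lip (-((n : ℤ) + 1)))
      have e1 : -((n : ℤ) + 1) + 1 = -(n : ℤ) := by ring
      rw [e1] at h2
      have h3 := abs_le.mp ih.1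
      have h4 := abs_le.mp ih.2
      push_cast
      have e2 : K * ((n : ℤ) + 1) = K * n + K := by ring
      rw [e2]
      constructor <;> rw [abs_le] <;> constructor <;> linarith [h1.1, h1.2, h2.1, h2.2]
  rcases le_total 0 x with h | h
  · obtain ⟨n, rfl⟩ := Int.eq_ofNat_of_zero_le h
    simpa using (hn n).1
  · obtain ⟨n, hn'⟩ := Int.eq_ofNat_of_zero_le (neg_nonneg.mpr h)
    have : x = -(n : ℤ) := by rw [← hn']; ring
    rw [this]
    simpa using (hn n).2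

/-- the interpolating functions -/
noncomputable def gk (h1 H : ℤ → ℤ) (P : ℤ) (x : ℤ) : ℤ :=
  max (h1 x) (H x - 7 * max 0 (|x| - P))

theorem gk_lp {h1 H : ℤ → ℤ} {P : ℤ} (hH : Lp 3 H) (h1H : Lp 3 h1) (hP : 0 ≤ P) :
    Lp 10 (gk h1 H P) := by
  constructor
  · unfold gk
    rw [hH.zero, h1H.zero, abs_zero]
    omega
  · intro x
    have a1 := abs_le.mp (hH.lip x)
    have a2 := abs_le.mp (h1H.lip x)
    have a3 : |x + 1| ≤ |x| + 1 := by simpa using abs_add_le x 1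
    have a4 : |x| ≤ |x + 1| + 1 := by
      have := abs_sub (x + 1) 1
      simpa using this
    unfold gk
    rw [abs_le]
    obtain ⟨a1, a1'⟩ := a1
    obtain ⟨a2, a2'⟩ := a2
    constructor <;> omega

theorem dif6 {h1 H : ℤ → ℤ} (hH : Lp 3 H) (h1H : Lp 3 h1) (x : ℤ) : H x - h1 x ≤ 6 * |x| := by
  have a1 := abs_le.mp (lp_abs hH x)
  have a2 := abs_le.mp (lp_abs h1H x)
  linarith [a1.2, a2.1]

theorem gk_mono (h1 H : ℤ → ℤ) (P : ℤ) (hP : 0 ≤ P) (x : ℤ) : gk h1 H P x ≤ gk h1 H (2 * P) x := by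
  unfold gk; omega

theorem gk_eqH {h1 H : ℤ → ℤ} (hle : ∀ x, h1 x ≤ H x) (P : ℤ) (x : ℤ) (hx : |x| ≤ P) :
    gk h1 H P x = H x := by
  have := hle x
  unfold gk; omega

theorem gk_same {h1 H : ℤ → ℤ} (hH : Lp 3 H) (h1H : Lp 3 h1) (hle : ∀ x, h1 x ≤ H x) (P : ℤ)
    (hP : 1 ≤ P) (x : ℤ) (hx : |x| < P ∨ 14 * P < |x|) : gk h1 H (2 * P) x = gk h1 H P x := by
  have a := hle x
  have b := dif6 hH h1H x
  have a3 := abs_nonneg x
  unfold gk
  omega

theorem gk_dif {h1 H : ℤ → ℤ} (hH : Lp 3 H) (h1H : Lp 3 h1) (hle : ∀ x, h1 x ≤ H x) (P : ℤ)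
    (hP : 1 ≤ P) (w : ℤ) (hw0 : 0 ≤ w) (hw : ∀ x, |x| ≤ 14 * P → H x - h1 x ≤ w) (x : ℤ) :
    gk h1 H (2 * P) x - gk h1 H P x ≤ w := by
  rcases le_or_gt |x| (14 * P) with h | h
  · have a := hle x
    have b := hw x h
    unfold gk
    omega
  · rw [gk_same hH h1H hle P hP x (Or.inr h)]
    omega

theorem ext5 {c : ℝ} (hc : 0 < c) (hE : ∀ (h : ℤ → ℤ) (R : ℤ), Lp 10 h → 1 ≤ R →
    c ≤ AP h 1 ∧ c * AP h R ≤ AP h (2 * R)) (h : ℤ → ℤ) (hh : Lp 10 h) (r : ℤ) (hr : 1 ≤ r) :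
    c ^ 5 * AP h r ≤ AP h (32 * r) := by
  have h1 := (hE h r hh hr).2
  have h2 := (hE h (2 * r) hh (by omega)).2
  have h3 := (hE h (2 * (2 * r)) hh (by omega)).2
  have h4 := (hE h (2 * (2 * (2 * r))) hh (by omega)).2
  have h5 := (hE h (2 * (2 * (2 * (2 * r)))) hh (by omega)).2
  have e : (32 : ℤ) * r = 2 * (2 * (2 * (2 * (2 * r)))) := by ring
  rw [e]
  calc c ^ 5 * AP h r = c * (c * (c * (c * (c * AP h r)))) := by ring
    _ ≤ c * (c * (c * (c * AP h (2 * r)))) := by gcongr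
    _ ≤ c * (c * (c * AP h (2 * (2 * r)))) := by gcongr
    _ ≤ c * (c * AP h (2 * (2 * (2 * r)))) := by gcongr
    _ ≤ c * AP h (2 * (2 * (2 * (2 * r)))) := by gcongr
    _ ≤ _ := h5

/-- `(a + b)^β ≤ (2a)^β + (2b)^β` -/
theorem add_rpow {a b β : ℝ} (ha : 0 ≤ a) (hb : 0 ≤ b) (hβ : 0 < β) :
    (a + b) ^ β ≤ (2 * a) ^ β + (2 * b) ^ β := by
  rcases le_total a b with h | h
  · have h1 : (a + b) ^ β ≤ (2 * b) ^ β :=
      Real.rpow_le_rpow (by positivity) (by linarith) hβ.le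
    have h2 : 0 ≤ (2 * a) ^ β := Real.rpow_nonneg (by positivity) _
    linarith
  · have h1 : (a + b) ^ β ≤ (2 * a) ^ β :=
      Real.rpow_le_rpow (by positivity) (by linarith) hβ.le
    have h2 : 0 ≤ (2 * b) ^ β := Real.rpow_nonneg (by positivity) _
    linarith

theorem geo_bound {q : ℝ} (h0 : 0 ≤ q) (h1 : q < 1) (n : ℕ) :
    ∑ k ∈ range n, q ^ k ≤ 1 / (1 - q) := by
  have h2 := (summable_geometric_of_lt_one h0 h1).sum_le_tsum (range n)
    (fun k _ => pow_nonneg h0 k)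
  rw [tsum_geometric_of_lt_one h0 h1] at h2
  simpa using h2

/-- the size of one error term -/
theorem width {B α β : ℝ} (hB : 0 ≤ B) (hα : 0 < α) (hβ : 0 < β) (k K : ℕ) (hk : k ≤ K) (L : ℝ)
    (hL : 32 * 2 ^ K ≤ L) :
    ((B * (1 + 14 * 2 ^ k * (14 * 2 ^ k / L) ^ α) + 1) / 2 ^ k) ^ β ≤
      (2 * (B + 1)) ^ β * ((2 : ℝ) ^ (-β)) ^ k +
        (28 * B) ^ β * ((2 : ℝ) ^ (-(α * β))) ^ (K - k) := by
  have h2k : (0 : ℝ) < 2 ^ k := by positivity
  have h2K : (0 : ℝ) < 2 ^ K := by positivity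
  have hL0 : 0 < L := by linarith
  have hr : 0 ≤ (14 * 2 ^ k / L) ^ α := Real.rpow_nonneg (by positivity) _
  have e1 : (B * (1 + 14 * 2 ^ k * (14 * 2 ^ k / L) ^ α) + 1) / 2 ^ k =
      (B + 1) / 2 ^ k + 14 * B * (14 * 2 ^ k / L) ^ α := by
    field_simp; ring
  rw [e1]
  refine (add_rpow (by positivity) (by positivity) hβ).trans (add_le_add (le_of_eq ?_) ?_)
  · have e2 : 2 * ((B + 1) / 2 ^ k) = 2 * (B + 1) * ((2 : ℝ) ^ k)⁻¹ := by ring
    rw [e2, Real.mul_rpow (by positivity) (by positivity)]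
    congr 1
    rw [← Real.rpow_natCast ((2 : ℝ) ^ (-β)) k, ← Real.rpow_mul (by norm_num),
      ← Real.rpow_natCast 2 k, ← Real.rpow_neg (by norm_num), ← Real.rpow_mul (by norm_num)]
    congr 1; ring
  · have e3 : 2 * (14 * B * (14 * 2 ^ k / L) ^ α) = 28 * B * (14 * 2 ^ k / L) ^ α := by ring
    rw [e3, Real.mul_rpow (by positivity) hr]
    refine mul_le_mul_of_nonneg_left ?_ (Real.rpow_nonneg (by positivity) _)
    have h3 : 14 * 2 ^ k / L ≤ (2 : ℝ) ^ (-((K - k : ℕ) : ℝ)) := by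
      rw [Real.rpow_neg (by norm_num), Real.rpow_natCast, div_le_iff₀ hL0]
      have e4 : (2 : ℝ) ^ K = 2 ^ (K - k) * 2 ^ k := by
        rw [← pow_add]; congr 1; omega
      have h5 : (0 : ℝ) < 2 ^ (K - k) := by positivity
      rw [inv_mul_eq_div, le_div_iff₀ h5]
      rw [e4] at hL
      nlinarith [mul_pos h5 h2k]
    rw [← Real.rpow_mul (by positivity)]
    have h4 := Real.rpow_le_rpow (by positivity) h3 (mul_pos hα hβ).le
    refine h4.trans (le_of_eq ?_)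
    rw [← Real.rpow_natCast, ← Real.rpow_mul (by norm_num), ← Real.rpow_mul (by norm_num)]
    congr 1; ring

theorem key {C β c : ℝ} (hC : 0 < C) (hβ : 0 < β) (hc : 0 < c)
    (hCMP : ∀ (h h' : ℤ → ℤ) (X w R : ℤ), Lp 10 h → Lp 10 h' →
      (∀ x, h' x ≤ h x) → (∀ x, h x - h' x ≤ w) → (∀ x, |x| < X ∨ 14 * X < |x| → h x = h' x) →
      1 ≤ w → 1 ≤ X → 32 * X ≤ R → AP h' R ≤ (1 + C * ((w : ℝ) / X) ^ β) * AP h R)
    (hE : ∀ (h : ℤ → ℤ) (R : ℤ), Lp 10 h → 1 ≤ R → c ≤ AP h 1 ∧ c * AP h R ≤ AP h (2 * R))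
    (hM : S_MONO) {B α : ℝ} (hB : 0 ≤ B) (hα : 0 < α) :
    ∃ C1 : ℝ, 0 < C1 ∧ ∀ (H h1 : ℤ → ℤ) (L R : ℤ), Lp 3 H → Lp 3 h1 → (∀ x, h1 x ≤ H x) →
      (∀ x : ℤ, |x| ≤ L → ((H x : ℝ) - h1 x) ≤ B * (1 + |(x : ℝ)| * (|(x : ℝ)| / L) ^ α)) →
      1 ≤ R → R ≤ L → AP h1 R ≤ C1 * AP H R := by
  have hq1 : (2 : ℝ) ^ (-β) < 1 := Real.rpow_lt_one_of_one_lt_of_neg (by norm_num) (by linarith)
  have hq2 : (2 : ℝ) ^ (-(α * β)) < 1 :=
    Real.rpow_lt_one_of_one_lt_of_neg (by norm_num) (by linarith [mul_pos hα hβ])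
  have hq1' : 0 ≤ (2 : ℝ) ^ (-β) := Real.rpow_nonneg (by norm_num) _
  have hq2' : 0 ≤ (2 : ℝ) ^ (-(α * β)) := Real.rpow_nonneg (by norm_num) _
  obtain ⟨q1, hq1d⟩ : ∃ q, q = (2 : ℝ) ^ (-β) := ⟨_, rfl⟩
  obtain ⟨q2, hq2d⟩ : ∃ q, q = (2 : ℝ) ^ (-(α * β)) := ⟨_, rfl⟩
  obtain ⟨D1, hD1d⟩ : ∃ D, D = (2 * (B + 1)) ^ β := ⟨_, rfl⟩
  obtain ⟨D2, hD2d⟩ : ∃ D, D = (28 * B) ^ β := ⟨_, rfl⟩
  have hD1 : 0 ≤ D1 := by rw [hD1d]; exact Real.rpow_nonneg (by positivity) _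
  have hD2 : 0 ≤ D2 := by rw [hD2d]; exact Real.rpow_nonneg (by positivity) _
  obtain ⟨S, hS⟩ : ∃ S, S = C * (D1 * (1 / (1 - q1)) + D2 * (1 / (1 - q2))) := ⟨_, rfl⟩
  refine ⟨(c ^ 6)⁻¹ + (1 + C * (84 : ℝ) ^ β) * Real.exp S * (c ^ 5)⁻¹, by positivity, ?_⟩
  intro H h1 L R hH h1H hle hdif hR hRL
  have hH10 : Lp 10 H := lp_mono (by norm_num) hH
  have h1H10 : Lp 10 h1 := lp_mono (by norm_num) h1H
  have hAP0 := AP_nonneg H R
  rcases lt_or_ge R 32 with hR32 | hR32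
  · have a1 : c ^ 6 ≤ AP H R := by
      have b1 := ext5 hc hE H hH10 1 le_rfl
      have b2 := (hE H 1 hH10 le_rfl).1
      have b3 := hM.2 H R (32 * 1) hH10 hR (by omega)
      calc c ^ 6 = c ^ 5 * c := by ring
        _ ≤ c ^ 5 * AP H 1 := by gcongr
        _ ≤ _ := b1.trans b3
    have a2 : AP h1 R ≤ (c ^ 6)⁻¹ * AP H R := by
      refine (AP_le_one h1 R).trans ?_
      rw [inv_mul_eq_div, le_div_iff₀ (by positivity)]
      simpa using a1
    have a3 : 0 ≤ (1 + C * (84 : ℝ) ^ β) * Real.exp S * (c ^ 5)⁻¹ * AP H R := by positivity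
    rw [add_mul]; linarith
  -- the number of scales
  obtain ⟨K, hK1, hK2⟩ : ∃ K : ℕ, 32 * (2 : ℤ) ^ K ≤ R ∧ R < 32 * (2 : ℤ) ^ (K + 1) := by
    refine ⟨Nat.log 2 (R / 32).toNat, ?_, ?_⟩
    · have h0 : (R / 32).toNat ≠ 0 := by omega
      have h1' := Nat.pow_log_le_self 2 h0
      have h2' : (2 : ℤ) ^ (Nat.log 2 (R / 32).toNat) ≤ ((R / 32).toNat : ℤ) := by exact_mod_cast h1'
      omega
    · have h1' := Nat.lt_pow_succ_log_self (b := 2) (by norm_num) (R / 32).toNat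
      have h2' : ((R / 32).toNat : ℤ) < (2 : ℤ) ^ (Nat.log 2 (R / 32).toNat + 1) := by
        exact_mod_cast h1'
      omega
  have hLr : (32 : ℝ) * 2 ^ K ≤ L := by
    have : 32 * (2 : ℤ) ^ K ≤ L := hK1.trans hRL
    exact_mod_cast this
  have hL0 : (0 : ℝ) < L := lt_of_lt_of_le (by positivity) hLr
  -- the error terms
  obtain ⟨e, he⟩ : ∃ e : ℕ → ℝ, e = fun k => C * (D1 * q1 ^ k + D2 * q2 ^ (K - k)) := ⟨_, rfl⟩
  have he0 : ∀ k, 0 ≤ e k := fun k => by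
    rw [he]; simp only
    rw [hq1d, hq2d]; positivity
  have hstep : ∀ k, k ≤ K → AP (gk h1 H (2 ^ k)) R ≤ (1 + e k) * AP (gk h1 H (2 * 2 ^ k)) R := by
    intro k hk
    have hP : (1 : ℤ) ≤ 2 ^ k := one_le_pow₀ (by norm_num)
    have hPK : (2 : ℤ) ^ k ≤ 2 ^ K := pow_le_pow_right₀ (by norm_num) hk
    obtain ⟨y, hy⟩ : ∃ y : ℝ, y = B * (1 + 14 * 2 ^ k * (14 * 2 ^ k / L) ^ α) := ⟨_, rfl⟩
    have hy0 : 0 ≤ y := by
      rw [hy]
      have : 0 ≤ (14 * 2 ^ k / (L : ℝ)) ^ α := Real.rpow_nonneg (by positivity) _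
      positivity
    have hw : ∀ x, |x| ≤ 14 * 2 ^ k → H x - h1 x ≤ max 1 ⌈y⌉ := by
      intro x hx
      have hxL : |x| ≤ L := by omega
      have hxr : |(x : ℝ)| ≤ 14 * 2 ^ k := by exact_mod_cast hx
      have b1 := hdif x hxL
      have b2 : ((H x : ℝ) - h1 x) ≤ y := by
        refine b1.trans ?_
        rw [hy]
        refine mul_le_mul_of_nonneg_left ?_ hB
        refine add_le_add le_rfl ?_
        refine mul_le_mul hxr ?_ (Real.rpow_nonneg (by positivity) _) (by positivity)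
        exact Real.rpow_le_rpow (by positivity) (by gcongr) hα.le
      have b3 : H x - h1 x ≤ ⌈y⌉ := by
        have : ((H x - h1 x : ℤ) : ℝ) ≤ (⌈y⌉ : ℤ) := by
          push_cast; exact b2.trans (Int.le_ceil y)
        exact_mod_cast this
      exact b3.trans (le_max_right _ _)
    have hwy : ((max 1 ⌈y⌉ : ℤ) : ℝ) ≤ y + 1 := by
      rw [Int.cast_max]
      refine max_le (by push_cast; linarith) (Int.ceil_lt_add_one y).le
    have hmain := hCMP (gk h1 H (2 * 2 ^ k)) (gk h1 H (2 ^ k)) (2 ^ k) (max 1 ⌈y⌉) R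
      (gk_lp hH h1H (by omega)) (gk_lp hH h1H (by omega)) (gk_mono h1 H _ (by omega))
      (gk_dif hH h1H hle _ hP _ (by omega) hw)
      (gk_same hH h1H hle _ hP) (le_max_left _ _) hP (by omega)
    refine hmain.trans (mul_le_mul_of_nonneg_right ?_ (AP_nonneg _ _))
    have hwid := width hB hα hβ k K hk L hLr
    have h5 : (((max 1 ⌈y⌉ : ℤ) : ℝ) / ((2 ^ k : ℤ) : ℝ)) ^ β ≤
        ((B * (1 + 14 * 2 ^ k * (14 * 2 ^ k / L) ^ α) + 1) / 2 ^ k) ^ β := by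
      have hmx : (0 : ℝ) ≤ ((max 1 ⌈y⌉ : ℤ) : ℝ) := by
        have : (0 : ℤ) ≤ max 1 ⌈y⌉ := by omega
        exact_mod_cast this
      refine Real.rpow_le_rpow (by positivity) ?_ hβ.le
      rw [← hy]
      push_cast at hwy ⊢
      gcongr
    have h6 := h5.trans hwid
    rw [← hq1d, ← hq2d, ← hD1d, ← hD2d] at h6
    rw [he]
    have := mul_le_mul_of_nonneg_left h6 hC.le
    simp only
    linarith
  have htel : ∀ j, j ≤ K + 1 → AP (gk h1 H (2 ^ 0)) R ≤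
      Real.exp (∑ k ∈ range j, e k) * AP (gk h1 H (2 ^ j)) R := by
    intro j
    induction j with
    | zero => intro _; simp
    | succ j ih =>
      intro hj
      refine (ih (by omega)).trans ?_
      have h1' := hstep j (by omega)
      have e1 : (2 : ℤ) ^ (j + 1) = 2 * 2 ^ j := by ring
      rw [e1, sum_range_succ, Real.exp_add, mul_assoc]
      refine mul_le_mul_of_nonneg_left (h1'.trans ?_) (Real.exp_pos _).le
      refine mul_le_mul_of_nonneg_right ?_ (AP_nonneg _ _)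
      linarith [Real.add_one_le_exp (e j)]
  have hsum : ∑ k ∈ range (K + 1), e k ≤ S := by
    rw [he, hS]
    simp only
    rw [← mul_sum, sum_add_distrib, ← mul_sum, ← mul_sum]
    refine mul_le_mul_of_nonneg_left (add_le_add ?_ ?_) hC.le
    · refine mul_le_mul_of_nonneg_left ?_ hD1
      rw [hq1d]; exact geo_bound hq1' hq1 _
    · refine mul_le_mul_of_nonneg_left ?_ hD2
      have e2 : ∑ k ∈ range (K + 1), q2 ^ (K - k) = ∑ k ∈ range (K + 1), q2 ^ k := by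
        have := sum_range_reflect (fun k => q2 ^ k) (K + 1)
        simpa using this
      rw [e2, hq2d]; exact geo_bound hq2' hq2 _
  -- the first step
  have hfirst : AP h1 R ≤ (1 + C * (84 : ℝ) ^ β) * AP (gk h1 H 1) R := by
    have hmain := hCMP (gk h1 H 1) h1 1 84 R (gk_lp hH h1H (by norm_num)) h1H10
      (fun x => le_max_left _ _)
      (fun x => by
        have a := hle x
        have b := dif6 hH h1H x
        have a3 := abs_nonneg x
        unfold gk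
        omega)
      (fun x hx => by
        have a := hle x
        have b := dif6 hH h1H x
        have a3 := abs_nonneg x
        unfold gk
        omega) (by norm_num) le_rfl (by omega)
    simpa using hmain
  have hlast : AP (gk h1 H (2 ^ (K + 1))) R ≤ (c ^ 5)⁻¹ * AP H R := by
    have hP : (1 : ℤ) ≤ 2 ^ (K + 1) := one_le_pow₀ (by norm_num)
    have e1 : (2 : ℤ) ^ (K + 1) = 2 * 2 ^ K := by ring
    have b1 := hM.2 (gk h1 H (2 ^ (K + 1))) (2 ^ (K + 1)) R (gk_lp hH h1H (by omega)) hP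
      (by rw [e1]; omega)
    have b2 := hM.1 (gk h1 H (2 ^ (K + 1))) H (2 ^ (K + 1)) (gk_lp hH h1H (by omega)) hH10 hP
      (fun x hx => (gk_eqH hle _ x hx).ge)
    have b3 := ext5 hc hE H hH10 (2 ^ (K + 1)) hP
    have b4 := hM.2 H R (32 * 2 ^ (K + 1)) hH10 hR hK2.le
    have b5 : c ^ 5 * AP (gk h1 H (2 ^ (K + 1))) R ≤ AP H R := by
      calc c ^ 5 * AP (gk h1 H (2 ^ (K + 1))) R ≤ c ^ 5 * AP H (2 ^ (K + 1)) := by
            refine mul_le_mul_of_nonneg_left (b1.trans b2) (by positivity)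
        _ ≤ _ := b3.trans b4
    rw [inv_mul_eq_div, le_div_iff₀ (by positivity), mul_comm]
    exact b5
  have h0 : gk h1 H 1 = gk h1 H (2 ^ 0) := by simp
  rw [h0] at hfirst
  have hc5 : 0 < (c ^ 5)⁻¹ := by positivity
  have hfin : AP h1 R ≤ (1 + C * (84 : ℝ) ^ β) * Real.exp S * (c ^ 5)⁻¹ * AP H R := by
    calc AP h1 R ≤ (1 + C * (84 : ℝ) ^ β) * AP (gk h1 H (2 ^ 0)) R := hfirst
      _ ≤ (1 + C * (84 : ℝ) ^ β) * (Real.exp S * ((c ^ 5)⁻¹ * AP H R)) := by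
          refine mul_le_mul_of_nonneg_left ?_ (by positivity)
          refine (htel (K + 1) le_rfl).trans ?_
          exact mul_le_mul (Real.exp_le_exp.mpr hsum) hlast (AP_nonneg _ _) (Real.exp_pos _).le
      _ = _ := by ring
  have a3 : 0 ≤ (c ^ 6)⁻¹ * AP H R := by positivity
  rw [add_mul]; linarith

theorem lp_hs {s : ℝ} (hs2 : |s| ≤ 2) : Lp 3 (hs s) := by
  obtain ⟨h1, h2⟩ := abs_le.mp hs2
  constructor
  · simp [hs]
  · intro x
    unfold hs
    have a1 : ⌈s * ((x + 1 : ℤ) : ℝ)⌉ ≤ ⌈s * (x : ℝ)⌉ + 2 := by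
      rw [Int.ceil_le]; push_cast
      have := Int.le_ceil (s * (x : ℝ))
      linarith
    have a2 : ⌈s * (x : ℝ)⌉ ≤ ⌈s * ((x + 1 : ℤ) : ℝ)⌉ + 2 := by
      rw [Int.ceil_le]; push_cast
      have := Int.le_ceil (s * ((x : ℝ) + 1))
      linarith
    rw [abs_le]; constructor <;> omega

theorem lp_min {h h' : ℤ → ℤ} (hh : Lp 3 h) (hh' : Lp 3 h') : Lp 3 (fun x => min (h x) (h' x)) := by
  constructor
  · simp [hh.zero, hh'.zero]
  · intro x
    obtain ⟨a1, a2⟩ := abs_le.mp (hh.lip x)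
    obtain ⟨b1, b2⟩ := abs_le.mp (hh'.lip x)
    rw [abs_le]; constructor <;> omega

theorem t_TEL : S_CMP → S_EXT → S_MONO → S_TEL := by
  rintro ⟨C, β, hC, hβ, hCMP⟩ ⟨c, hc, hE⟩ hM B α hα
  obtain ⟨C1, hC1, hkey⟩ := key hC hβ hc hCMP hE hM (B := |B| + 1) (by positivity) hα
  refine ⟨C1⁻¹, by positivity, ?_⟩
  intro h s L R hh hs2 hflat hR hRL
  have hL : (1 : ℤ) ≤ L := hR.trans hRL
  have hLr : (0 : ℝ) < L := by
    have : (0 : ℤ) < L := by omega
    exact_mod_cast this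
  have hls := lp_hs hs2
  have hmin := lp_min hh hls
  have hd : ∀ x : ℤ, |x| ≤ L → |(h x : ℝ) - hs s x| ≤
      (|B| + 1) * (1 + |(x : ℝ)| * (|(x : ℝ)| / L) ^ α) := by
    intro x hx
    have a1 := hflat x hx
    have a2 : |(hs s x : ℝ) - s * x| ≤ 1 := by
      unfold hs
      rw [abs_le]
      constructor
      · linarith [Int.le_ceil (s * (x : ℝ))]
      · linarith [Int.ceil_lt_add_one (s * (x : ℝ))]
    have a3 : 0 ≤ |(x : ℝ)| * (|(x : ℝ)| / L) ^ α :=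
      mul_nonneg (abs_nonneg _) (Real.rpow_nonneg (by positivity) _)
    have a4 : |(h x : ℝ) - hs s x| ≤ |(h x : ℝ) - s * x| + |(hs s x : ℝ) - s * x| := by
      have := abs_sub ((h x : ℝ) - s * x) ((hs s x : ℝ) - s * x)
      have e : (h x : ℝ) - s * x - ((hs s x : ℝ) - s * x) = (h x : ℝ) - hs s x := by ring
      rw [e] at this
      exact this
    have a5 : B * (1 + |(x : ℝ)| * (|(x : ℝ)| / L) ^ α) ≤
        |B| * (1 + |(x : ℝ)| * (|(x : ℝ)| / L) ^ α) :=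
      mul_le_mul_of_nonneg_right (le_abs_self B) (by linarith)
    nlinarith
  have k1 := hkey h (fun x => min (h x) (hs s x)) L R hh hmin (fun x => min_le_left _ _)
    (fun x hx => by
      have a := abs_le.mp (hd x hx)
      rcases le_total (h x) (hs s x) with h' | h'
      · simp only [min_eq_left h', sub_self]
        exact le_trans (abs_nonneg _) (hd x hx)
      · simp only [min_eq_right h']
        exact a.2) hR hRL
  have k2 := hkey (hs s) (fun x => min (h x) (hs s x)) L R hls hmin (fun x => min_le_right _ _)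
    (fun x hx => by
      have a := abs_le.mp (hd x hx)
      rcases le_total (h x) (hs s x) with h' | h'
      · simp only [min_eq_left h']
        linarith [a.1]
      · simp only [min_eq_right h', sub_self]
        exact le_trans (abs_nonneg _) (hd x hx)) hR hRL
  have hh10 := lp_mono (by norm_num : (3 : ℤ) ≤ 10) hh
  have hls10 := lp_mono (by norm_num : (3 : ℤ) ≤ 10) hls
  have hmin10 := lp_mono (by norm_num : (3 : ℤ) ≤ 10) hmin
  have m1 := hM.1 h (fun x => min (h x) (hs s x)) R hh10 hmin10 hR (fun x _ => min_le_left _ _)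
  have m2 := hM.1 (hs s) (fun x => min (h x) (hs s x)) R hls10 hmin10 hR
    (fun x _ => min_le_right _ _)
  constructor
  · rw [inv_mul_eq_div, div_le_iff₀ hC1, mul_comm]
    exact m2.trans k1
  · rw [inv_mul_eq_div, div_le_iff₀ hC1, mul_comm]
    exact m1.trans k2

end Pool.Agent.Y989.SD.TEL
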