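import Pool.Agent.Y989.SD.Stm2

/-!
Project SD, job WA: arms in flat epigraph domains.
-/

set_option autoImplicit false

namespace Pool.Agent.Y989.SD.WA

open H974 H973 Finset

lemma arith {c₁ cb Cb cq a b x ρ P q : ℝ} (hc₁ : 0 < c₁) (hcb : 0 < cb) (hCb : 0 < Cb) (hcq : 0 < cq)
    (hρ : 0 < ρ) (hP : 0 < P) (hq : q * ρ = P) (ha1 : c₁ * (cb * P) ≤ a) (ha2 : c₁ * a ≤ Cb * P)
    (hb1 : c₁ * (cb * ρ) ≤ b) (hb2 : c₁ * b ≤ Cb * ρ) (hsub : a ≤ b * x) (hqm : cq * (b * x) ≤ a) :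
    c₁ ^ 2 * cb / Cb * q ≤ x ∧ x ≤ Cb / (c₁ ^ 2 * cq * cb) * q := by
  have hb0 : 0 < b := lt_of_lt_of_le (by positivity) hb1
  have ha0 : 0 < a := lt_of_lt_of_le (by positivity) ha1
  have hx0 : 0 < x := by
    by_contra h
    push Not at h
    have : b * x ≤ 0 := mul_nonpos_of_nonneg_of_nonpos hb0.le h
    linarith
  have hq0 : 0 < q := by
    by_contra h
    push Not at h
    have : q * ρ ≤ 0 := mul_nonpos_of_nonpos_of_nonneg h hρ.le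
    linarith
  constructor
  · -- c₁² cb q ρ ≤ c₁ a ≤ c₁ b x ≤ Cb ρ x
    rw [div_mul_eq_mul_div, div_le_iff₀ hCb]
    have h1 : c₁ ^ 2 * cb * q * ρ ≤ x * Cb * ρ := by
      calc c₁ ^ 2 * cb * q * ρ = c₁ * (c₁ * (cb * P)) := by rw [← hq]; ring
        _ ≤ c₁ * a := by gcongr
        _ ≤ c₁ * (b * x) := by gcongr
        _ = (c₁ * b) * x := by ring
        _ ≤ (Cb * ρ) * x := by gcongr
        _ = x * Cb * ρ := by ring
    exact le_of_mul_le_mul_right h1 hρ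
  · rw [div_mul_eq_mul_div, le_div_iff₀ (by positivity)]
    have h1 : x * (c₁ ^ 2 * cq * cb) * ρ ≤ Cb * q * ρ := by
      calc x * (c₁ ^ 2 * cq * cb) * ρ = c₁ * (cq * ((c₁ * (cb * ρ)) * x)) := by ring
        _ ≤ c₁ * (cq * (b * x)) := by gcongr
        _ ≤ c₁ * a := by gcongr
        _ ≤ Cb * P := ha2
        _ = Cb * q * ρ := by rw [← hq]; ring
    exact le_of_mul_le_mul_right h1 hρ

theorem t_WA : S_TEL → S_BASE → S_EXT → S_QM → S_SUB → S_WA := by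
  intro hTEL hBASE _ hQM hSUB B α hα
  obtain ⟨c₁, hc₁, htel⟩ := hTEL B α hα
  obtain ⟨cb, Cb, hcb, hCb, hbase⟩ := hBASE
  obtain ⟨cq, hcq, hqm⟩ := hQM
  refine ⟨min (c₁ * cb) (c₁ ^ 2 * cb / Cb), Cb / (c₁ ^ 2 * cq * cb), lt_min (by positivity) (by positivity),
    by positivity, ?_⟩
  intro h s L hL hs hF r R hr hrR hRL
  have hR1 : 1 ≤ R := hr.trans hrR
  have hL10 : Lp 10 h := ⟨hL.zero, fun x => (hL.lip x).trans (by norm_num)⟩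
  have hA : ∀ m : ℤ, 1 ≤ m → m ≤ L → c₁ * (cb * (m : ℝ) ^ (-(1 / 3 : ℝ))) ≤ AP h m ∧
      c₁ * AP h m ≤ Cb * (m : ℝ) ^ (-(1 / 3 : ℝ)) := by
    intro m hm hmL
    obtain ⟨t1, t2⟩ := htel h s L m hL hs hF hm hmL
    obtain ⟨b1, b2⟩ := hbase s m hs hm
    exact ⟨(mul_le_mul_of_nonneg_left b1 hc₁.le).trans t1, t2.trans b2⟩
  obtain ⟨a1, a2⟩ := hA R hR1 hRL
  obtain ⟨b1, b2⟩ := hA r hr (hrR.trans hRL)
  have hr0 : (0 : ℝ) < r := by exact_mod_cast (by omega : 0 < r)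
  have hR0 : (0 : ℝ) < R := by exact_mod_cast (by omega : 0 < R)
  have hq : ((r : ℝ) / R) ^ (1 / 3 : ℝ) * (r : ℝ) ^ (-(1 / 3 : ℝ)) = (R : ℝ) ^ (-(1 / 3 : ℝ)) := by
    rw [Real.div_rpow hr0.le hR0.le, Real.rpow_neg hr0.le, Real.rpow_neg hR0.le]
    have h1 : (r : ℝ) ^ (1 / 3 : ℝ) ≠ 0 := (Real.rpow_pos_of_pos hr0 _).ne'
    field_simp
  obtain ⟨x1, x2⟩ := arith hc₁ hcb hCb hcq (Real.rpow_pos_of_pos hr0 _) (Real.rpow_pos_of_pos hR0 _) hq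
    a1 a2 b1 b2 (hSUB h r R hL10 hr hrR) (hqm h r R hL10 hr hrR)
  have hP0 : 0 ≤ (R : ℝ) ^ (-(1 / 3 : ℝ)) := (Real.rpow_pos_of_pos hR0 _).le
  have hq0 : 0 ≤ ((r : ℝ) / R) ^ (1 / 3 : ℝ) := Real.rpow_nonneg (by positivity) _
  refine ⟨?_, ?_, x2⟩
  · refine le_trans ?_ a1
    rw [← mul_assoc]
    exact mul_le_mul_of_nonneg_right (min_le_left _ _) hP0
  · exact le_trans (mul_le_mul_of_nonneg_right (min_le_right _ _) hq0) x1

end Pool.Agent.Y989.SD.WA
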