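import Pool.Agent.Y989.SD.T_ARCH
import Pool.Agent.Y989.SD.T_HCD
import Pool.Agent.Y989.SD.T_HCP
import Pool.Agent.Y989.SD.T_FPA
import Pool.Agent.Y989.SD.T_QM
import Pool.Agent.Y989.SD.T_SUB
import Pool.Agent.Y989.SD.T_CMPD
import Pool.Agent.Y989.SD.T_CMPA
import Pool.Agent.Y989.SD.T_CMP2
import Pool.Agent.Y989.SD.T_TEL
import Pool.Agent.Y989.SD.T_BASE
import Pool.Agent.Y989.SD.T_WA
import Pool.Agent.Y989.SD.T_EMB
import Pool.Agent.Y989.SD.T_WIN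
import Pool.Agent.Y989.SD.T_GA
import Pool.Agent.Y989.SD.T_GB
import Pool.Agent.Y989.SD.T_GC
import Pool.Agent.Y989.SD.T_GD
import Pool.Agent.Y989.SD.T_CHN
import Pool.Agent.Y989.SD.T_ARM1
import Pool.Agent.Y989.SD.T_AUP
import Pool.Agent.Y989.SD.T_ALO
import Pool.Agent.Y989.SD.T_XR
import Pool.Agent.Y989.SD.T_CDY

/-!
Project SD (helper989): assembly.
-/

set_option autoImplicit false

namespace Pool.Agent.Y989.SD

theorem m_HCP : S_HCP := HCP.t_HCP HCD.t_HCD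
theorem m_EXT : S_EXT := QM.t_EXT m_HCP
theorem m_QM : S_QM := QM.t_QM m_HCP
theorem m_SUB : S_SUB := SUB.t_SUB
theorem m_MONO : S_MONO := SUB.t_MONO
theorem m_CMPA : S_CMPA2 := CMPA.t_CMPA FPA.t_FPA
theorem m_CMPD : S_CMPD := CMPD.t_CMPD ARCH.t_ARCH
theorem m_CMP : S_CMP := CMP.t_CMP2 m_CMPD m_CMPA CMPA.t_XPL m_EXT m_QM m_SUB m_MONO
theorem m_TEL : S_TEL := TEL.t_TEL m_CMP m_EXT m_MONO
theorem m_WA : S_WA := WA.t_WA m_TEL BASE.t_BASE m_EXT m_QM m_SUB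
theorem m_WIN : S_WIN := WIN.t_WIN EMB.t_EMB m_WA m_HCP
theorem m_GA : S_GA := GA.t_GA
theorem m_GB : S_GB := GB.t_GB m_GA
theorem m_GC : S_GC := GC.t_GC m_GA m_GB
theorem m_GD : S_GD := GD.t_GD m_GA m_GB m_GC
theorem m_CHN : S_CHN := CHN.t_CHN m_WIN m_GA
theorem m_ARM1 : S_ARM1 := ARM1.t_ARM1 m_WIN m_GA
theorem m_AUP : S_AUP := AUP.t_AUP m_WIN m_GA m_GD
theorem m_ALO : S_ALO := ALO.t_ALO m_WIN m_GA m_GD m_CHN m_ARM1
theorem m_XR : S_XR := XR.t_XR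
theorem m_CDY : S_CDY := CDY.t_CDY

end Pool.Agent.Y989.SD
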