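import Pool.Agent.Y989.SD.Stm

/-!
Project SD (helper989): further statements (intermediate steps).
-/

set_option autoImplicit false

namespace Pool.Agent.Y989.SD

open H974 H973 Finset

/-- Probability of the event of `S_CMPD`. -/
def S_CMPA : Prop := ∃ C β : ℝ, 0 < C ∧ 0 < β ∧ ∀ (h h' : ℤ → ℤ) (X w R : ℤ), Lp 10 h → Lp 10 h' →
  (∀ x, h' x ≤ h x) → (∀ x, h x - h' x ≤ w) → (∀ x, |x| < X ∨ 14 * X < |x| → h x = h' x) →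
  1 ≤ w → 1 ≤ X → 32 * X ≤ R →
  Pr hf (ES (UU h' R)) (fun F =>
    ∃ x, (ColR h X (Kap h R F) x ∨ ColL h X (Kap h R F) x) ∧
      ∃ u ∈ BX (x, h x) (w + 24), ∃ y ∈ UU h' R, onQ R y ∧
        Reach ((F : Set Edg) ∩ {e | ¬ Kap h R F (src e) ∧ ¬ Kap h R F (tgt e)}) u y) ≤
    C * ((w : ℝ) / X) ^ β * (AP h (max 1 (X - 1)) * XP h (32 * X) R)

/-- Arms in flat epigraph domains. -/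
def S_WA : Prop := ∀ B α : ℝ, 0 < α → ∃ c C : ℝ, 0 < c ∧ 0 < C ∧
  ∀ (h : ℤ → ℤ) (s : ℝ) (L : ℤ), Lp 3 h → |s| ≤ 2 → Flat h s B α L → ∀ r R : ℤ, 1 ≤ r → r ≤ R →
    R ≤ L → c * (R : ℝ) ^ (-(1 / 3 : ℝ)) ≤ AP h R ∧ c * ((r : ℝ) / R) ^ (1 / 3 : ℝ) ≤ XP h r R ∧
      XP h r R ≤ C * ((r : ℝ) / R) ^ (1 / 3 : ℝ)

/-- The symmetry which brings a window to the standard position. -/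
def S_EMB : Prop := ∀ (T : Finset Vtx) (v : Vtx) (L : ℤ) (B α : ℝ), Win T v L B α →
  ∃ (g : LSym) (h : ℤ → ℤ) (s : ℝ), g.ψ (0, 0) = v ∧
    (∀ (y z : Vtx) (n : ℤ), g.ψ y ∈ BX (g.ψ z) n ↔ y ∈ BX z n) ∧ Lp 3 h ∧ |s| ≤ 2 ∧
    Flat h s B α L ∧ ∀ y ∈ QB L, (g.ψ y ∈ T ↔ h y.1 ≤ y.2)

/-- What `S_GD` says about one mesh. -/
def GDc (f : ℂ → ℂ) (ε ρ B α : ℝ) : Prop :=
  (∀ v : Vtx, v ∈ TD f ε ↔ pos ε v ∈ f '' disc) ∧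
  (∀ θ : ℝ, ∃ v ∈ TD f ε, ‖pos ε v - f (cir θ)‖ ≤ 2 * ε ∧ Win (TD f ε) v ⌊ρ / ε⌋ B α) ∧
  (∀ v : Vtx, btT (TD f ε) v → ∃ θ : ℝ, ‖pos ε v - f (cir θ)‖ ≤ ε)

/-- `v` is the base vertex of a window at the boundary point `f (cir θ)`. -/
def Bp (f : ℂ → ℂ) (ε ρ B α θ : ℝ) (v : Vtx) : Prop :=
  v ∈ TD f ε ∧ ‖pos ε v - f (cir θ)‖ ≤ 2 * ε ∧ Win (TD f ε) v ⌊ρ / ε⌋ B α

/-- Any two macroscopic windows are connected. -/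
def S_CHN : Prop := ∀ (f g : ℂ → ℂ) (M α : ℝ), SmW f g M α → ∀ ρ B ε0 : ℝ, 0 < ρ → 0 < ε0 →
  (∀ ε : ℝ, 0 < ε → ε ≤ ε0 → GDc f ε ρ B α) → ∀ ρ' : ℝ, 0 < ρ' → 200 * ρ' ≤ ρ →
  ∃ c ε1 : ℝ, 0 < c ∧ 0 < ε1 ∧ ∀ ε : ℝ, 0 < ε → ε ≤ ε1 → ∀ (θ θ' : ℝ) (v v' : Vtx),
    Bp f ε ρ B α θ v → Bp f ε ρ B α θ' v' →
    c ≤ Pr hf (ES (TD f ε)) (fun F => ∃ z ∈ TD f ε,
      Blk (TD f ε) (fun u => u ∈ BX v ⌊ρ' / ε⌋) (fun w => w ∉ BX v (64 * ⌊ρ' / ε⌋ - 1)) z F ∧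
      Blk (TD f ε) (fun u => u ∈ BX v' ⌊ρ' / ε⌋) (fun w => w ∉ BX v' (64 * ⌊ρ' / ε⌋ - 1)) z F)

/-- Arms from small boundary arcs. -/
def S_ARM1 : Prop := ∀ (f g : ℂ → ℂ) (M α : ℝ), SmW f g M α → ∀ ρ B ε0 : ℝ, 0 < ρ → 0 < ε0 →
  (∀ ε : ℝ, 0 < ε → ε ≤ ε0 → GDc f ε ρ B α) →
  ∃ c : ℝ, 0 < c ∧ ∀ ε : ℝ, 0 < ε → ε ≤ ε0 → ∀ (θ a : ℝ) (v : Vtx) (R : ℤ),
    Bp f ε ρ B α θ v → ε / 2 ≤ a → a ≤ 1 → a / ε ≤ R → 1 ≤ R → R ≤ ⌊ρ / ε⌋ → 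
    c * (a / (ε * R)) ^ (1 / 3 : ℝ) ≤ Pr hf (ES (TD f ε)) (fun F =>
      ∃ u ∈ near f ε (θ - a) (θ + a), ∃ w ∈ TD f ε, w ∉ BX v (R - 1) ∧
        Reach (F : Set Edg) u w)

end Pool.Agent.Y989.SD
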