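import Pool.Agent.Y989.SD.Stm2

/-!
Project SD (helper989): further statements (intermediate steps).
-/

set_option autoImplicit false

namespace Pool.Agent.Y989.SD

open H974 H973 Finset

/-- Polynomial decay of the crossing probability of annuli in the full plane. -/
def S_FPA : Prop := ∃ C β : ℝ, 0 < C ∧ 0 < β ∧ ∀ (v : Vtx) (r R : ℤ), 1 ≤ r → r ≤ R →
  Pr hf (ES (BX v R)) (fun F => ∃ u ∈ BX v r, ∃ y ∈ BX v R, onBX v R y ∧
    Reach (F : Set Edg) u y) ≤ C * ((r : ℝ) / R) ^ β

end Pool.Agent.Y989.SD
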