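import Pool.Agent.Y989.SD.Stm3

/-!
Project SD (helper989): further statements (intermediate steps).
-/

set_option autoImplicit false

namespace Pool.Agent.Y989.SD

open H974 H973 Finset

/-- `S_CMPA` when `w` is not too large. -/
def S_CMPA2 : Prop := ∃ C β : ℝ, 0 < C ∧ 0 < β ∧ ∀ (h h' : ℤ → ℤ) (X w R : ℤ), Lp 10 h → Lp 10 h' →
  (∀ x, h' x ≤ h x) → (∀ x, h x - h' x ≤ w) → (∀ x, |x| < X ∨ 14 * X < |x| → h x = h' x) →
  1 ≤ w → 4 * (w + 24) ≤ X → 32 * X ≤ R →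
  Pr hf (ES (UU h' R)) (fun F =>
    ∃ x, (ColR h X (Kap h R F) x ∨ ColL h X (Kap h R F) x) ∧
      ∃ u ∈ BX (x, h x) (w + 24), ∃ y ∈ UU h' R, onQ R y ∧
        Reach ((F : Set Edg) ∩ {e | ¬ Kap h R F (src e) ∧ ¬ Kap h R F (tgt e)}) u y) ≤
    C * ((w : ℝ) / X) ^ β * (AP h (X - 1) * XP h (32 * X) R)

/-- Crossings of the outer annulus. -/
def S_XPL : Prop := ∀ (h h' : ℤ → ℤ) (X R : ℤ), Lp 10 h → Lp 10 h' →
  (∀ x, 14 * X < |x| → h x = h' x) → 1 ≤ X → 32 * X ≤ R → XP h' (32 * X) R ≤ XP h (32 * X) R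

end Pool.Agent.Y989.SD
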