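import Pool.Agent.Y989.SD.Stm

/-!
Project SD: an arch separates in a rectangle (written by helper657).
-/

set_option autoImplicit false
set_option linter.unusedSimpArgs false

namespace Pool.Agent.Y989.SD.ARCH

open H974 H973 Finset

/-- The cells of the box satisfying `V` together with new cells. -/
def Ex (a b c d : ℤ) (V N : Vtx → Prop) (w : Vtx) : Prop := (V w ∧ inR a b c d w) ∨ N w

/-- The vertices of a path in the box. -/
theorem stay {a b c d : ℤ} {V : Vtx → Prop} {u w : Vtx} (hu : V u) (hR : inR a b c d u)
    (h : Reach (EV V ∩ ↑(RE a b c d)) u w) : V w ∧ inR a b c d w := by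
  induction h with
  | refl => exact ⟨hu, hR⟩
  | tail _ hs _ =>
    obtain ⟨e, ⟨h1, h2⟩, hc⟩ := hs
    have h3 := mem_RE_ends (Finset.mem_coe.mp h2)
    rcases hc with ⟨_, h⟩ | ⟨h, _⟩
    · rw [← h]; exact ⟨h1.2, h3.2⟩
    · rw [← h]; exact ⟨h1.1, h3.1⟩

/-- A path in the box is a path in the larger box. -/
theorem lift {a b c d A B C D : ℤ} (hA : A ≤ a) (hB : b ≤ B) (hC : C ≤ c) (hD : d ≤ D)
    {V N : Vtx → Prop} {u w : Vtx} (hu : V u) (hR : inR a b c d u)
    (h : Reach (EV V ∩ ↑(RE a b c d)) u w) :
    Reach (EV (Ex a b c d V N) ∩ ↑(RE A B C D)) u w := by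
  refine reach_EV (fun w hw => Or.inl (stay hu hR hw)) ?_ h
  intro e he
  have h1 := mem_RE_ends (Finset.mem_coe.mp he.2)
  unfold inR at h1
  rw [Finset.mem_coe]
  exact mem_RE_of_ends (by unfold inR; omega) (by unfold inR; omega)

theorem disj {a b c d : ℤ} {V V' N N' : Vtx → Prop} (h : ∀ w, V w → V' w → False)
    (hN : ∀ w, N w → ¬ inR a b c d w) (hN' : ∀ w, N' w → ¬ inR a b c d w)
    (hNN : ∀ w, N w → N' w → False) (w : Vtx) (h1 : Ex a b c d V N w) (h2 : Ex a b c d V' N' w) :
    False := by
  rcases h1 with h1 | h1 <;> rcases h2 with h2 | h2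
  · exact h w h1.1 h2.1
  · exact hN' w h2 h1.2
  · exact hN w h1 h2.2
  · exact hNN w h1 h2

/-- An arch separates. -/
theorem t_ARCH : S_ARCH := by
  intro a b c d V V' x1 x2 x' w' h1 h2 h3 h4 h5 hd hV1 hr hV' hr' hw
  have hR1 : inR a b c d (x1, c) := by unfold inR; simp only; omega
  have hR' : inR a b c d (x', c) := by unfold inR; simp only; omega
  have e1 := stay hV1 hR1 hr
  have e2 := stay hV' hR' hr'
  obtain ⟨p, q⟩ := w'
  have hpq : (a ≤ p ∧ p ≤ b) ∧ (c ≤ q ∧ q ≤ d) := e2.2
  simp only at hw
  have hc1 : ∀ (N : Vtx → Prop), Ex a b c d V N (x1, c) := fun N => Or.inl ⟨hV1, hR1⟩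
  have hc2 : ∀ (N : Vtx → Prop), Ex a b c d V N (x2, c) := fun N => Or.inl e1
  have hc3 : ∀ (N : Vtx → Prop), Ex a b c d V' N (x', c) := fun N => Or.inl ⟨hV', hR'⟩
  have hc4 : ∀ (N : Vtx → Prop), Ex a b c d V' N (p, q) := fun N => Or.inl e2
  by_cases hcase : p ≤ a ∨ b ≤ p ∨ d ≤ q
  · -- the second path leaves at the left, right or top side
    let N : Vtx → Prop := fun w => w.2 = c - 1 ∧ (w.1 ≤ x1 ∨ x2 ≤ w.1)
    let N' : Vtx → Prop := fun w => (w.1 = x' ∧ w.2 ≤ c - 1) ∨
      (c ≤ w.2 ∧ (w.1 = a - 1 ∨ w.1 = b + 1 ∨ w.2 = d + 1))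
    have hdis := disj (a := a) (b := b) (c := c) (d := d) (N := N) (N' := N') hd
      (fun w h => by simp only [N] at h; unfold inR; omega)
      (fun w h => by simp only [N'] at h; unfold inR; omega)
      (fun w h h' => by simp only [N] at h; simp only [N'] at h'; omega)
    have m := lift (A := a - 1) (B := b + 1) (C := c - 2) (D := d + 1) (N := N) (by omega)
      (by omega) (by omega) (by omega) hV1 hR1 hr
    have m' := lift (A := a - 1) (B := b + 1) (C := c - 2) (D := d + 1) (N := N') (by omega)
      (by omega) (by omega) (by omega) hV' hR' hr'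
    have r1 : Reach (EV (Ex a b c d V N) ∩ ↑(RE (a - 1) (b + 1) (c - 2) (d + 1)))
        (a - 1, c - 1) (x1, c - 1) :=
      hline' (by omega) (by omega) (by omega) (by omega)
        (fun t ht1 ht2 => Or.inr (by simp only [N, true_and, and_true]; omega))
    have r2 : Reach (EV (Ex a b c d V N) ∩ ↑(RE (a - 1) (b + 1) (c - 2) (d + 1)))
        (x1, c - 1) (x1, c) := by
      refine vline' (by omega) (by omega) (by omega) (by omega) (fun t ht1 ht2 => ?_)
      rcases eq_or_lt_of_le ht2 with rfl | h
      · exact hc1 N
      · exact Or.inr (by simp only [N, true_and, and_true]; omega)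
    have r3 : Reach (EV (Ex a b c d V N) ∩ ↑(RE (a - 1) (b + 1) (c - 2) (d + 1)))
        (x2, c - 1) (x2, c) := by
      refine vline' (by omega) (by omega) (by omega) (by omega) (fun t ht1 ht2 => ?_)
      rcases eq_or_lt_of_le ht2 with rfl | h
      · exact hc2 N
      · exact Or.inr (by simp only [N, true_and, and_true]; omega)
    have r4 : Reach (EV (Ex a b c d V N) ∩ ↑(RE (a - 1) (b + 1) (c - 2) (d + 1)))
        (x2, c - 1) (b + 1, c - 1) :=
      hline' (by omega) (by omega) (by omega) (by omega)
        (fun t ht1 ht2 => Or.inr (by simp only [N, true_and, and_true]; omega))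
    have path := ((r1.trans r2).trans m).trans (r3.symm.trans r4)
    have s1 : Reach (EV (Ex a b c d V' N') ∩ ↑(RE (a - 1) (b + 1) (c - 2) (d + 1)))
        (x', c - 2) (x', c) := by
      refine vline' (by omega) (by omega) (by omega) (by omega) (fun t ht1 ht2 => ?_)
      rcases eq_or_lt_of_le ht2 with rfl | h
      · exact hc3 N'
      · exact Or.inr (by simp only [N', true_and, and_true]; omega)
    obtain ⟨z, s2⟩ : ∃ z : ℤ, Reach (EV (Ex a b c d V' N') ∩
        ↑(RE (a - 1) (b + 1) (c - 2) (d + 1))) (p, q) (z, d + 1) := by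
      rcases hcase with h | h | h
      · obtain rfl : p = a := by omega
        refine ⟨p - 1, ?_⟩
        have t1 : Reach (EV (Ex p b c d V' N') ∩ ↑(RE (p - 1) (b + 1) (c - 2) (d + 1)))
            (p - 1, q) (p, q) := by
          refine hline' (by omega) (by omega) (by omega) (by omega) (fun t ht1 ht2 => ?_)
          rcases eq_or_lt_of_le ht2 with rfl | h
          · exact hc4 N'
          · exact Or.inr (by simp only [N', true_and, and_true]; omega)
        have t2 : Reach (EV (Ex p b c d V' N') ∩ ↑(RE (p - 1) (b + 1) (c - 2) (d + 1)))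
            (p - 1, q) (p - 1, d + 1) :=
          vline' (by omega) (by omega) (by omega) (by omega)
            (fun t ht1 ht2 => Or.inr (by simp only [N', true_or, or_true, and_true]; omega))
        exact t1.symm.trans t2
      · obtain rfl : p = b := by omega
        refine ⟨p + 1, ?_⟩
        have t1 : Reach (EV (Ex a p c d V' N') ∩ ↑(RE (a - 1) (p + 1) (c - 2) (d + 1)))
            (p, q) (p + 1, q) := by
          refine hline' (by omega) (by omega) (by omega) (by omega) (fun t ht1 ht2 => ?_)
          rcases eq_or_lt_of_le ht1 with rfl | h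
          · exact hc4 N'
          · exact Or.inr (by simp only [N', true_and, and_true]; omega)
        have t2 : Reach (EV (Ex a p c d V' N') ∩ ↑(RE (a - 1) (p + 1) (c - 2) (d + 1)))
            (p + 1, q) (p + 1, d + 1) :=
          vline' (by omega) (by omega) (by omega) (by omega)
            (fun t ht1 ht2 => Or.inr (by simp only [N', true_or, or_true, and_true]; omega))
        exact t1.trans t2
      · obtain rfl : q = d := by omega
        refine ⟨p, ?_⟩
        refine vline' (by omega) (by omega) (by omega) (by omega) (fun t ht1 ht2 => ?_)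
        rcases eq_or_lt_of_le ht1 with rfl | h
        · exact hc4 N'
        · exact Or.inr (by simp only [N', true_and, and_true]; omega)
    have path' := (s1.trans m').trans s2
    exact no_cross (by omega) (by omega) hdis path le_rfl le_rfl
      (Or.inr (by simp only [N, true_and, and_true]; omega)) path' le_rfl le_rfl (Or.inr (by simp only [N', true_and, and_true]; omega))
  · obtain ⟨hq, hp⟩ : q = c ∧ (p < x1 ∨ x2 < p) := by omega
    subst hq
    rcases hp with hp | hp
    · let N : Vtx → Prop := fun w => (w.1 = x1 ∧ w.2 = q - 1) ∨ (w.2 = q - 2 ∧ w.1 ≤ x1) ∨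
        (w.2 = q - 1 ∧ x2 ≤ w.1)
      let N' : Vtx → Prop := fun w => (w.1 = x' ∧ w.2 ≤ q - 1) ∨ (w.2 = q - 1 ∧ w.1 ≤ p) ∨
        (w.1 = a - 1 ∧ q - 1 ≤ w.2)
      have hdis := disj (a := a) (b := b) (c := q) (d := d) (N := N) (N' := N') hd
        (fun w h => by simp only [N] at h; unfold inR; omega)
        (fun w h => by simp only [N'] at h; unfold inR; omega)
        (fun w h h' => by simp only [N] at h; simp only [N'] at h'; omega)
      have m := lift (A := a - 1) (B := b + 1) (C := q - 2) (D := d + 1) (N := N) (by omega)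
        (by omega) (by omega) (by omega) hV1 hR1 hr
      have m' := lift (A := a - 1) (B := b + 1) (C := q - 2) (D := d + 1) (N := N') (by omega)
        (by omega) (by omega) (by omega) hV' hR' hr'
      have r1 : Reach (EV (Ex a b q d V N) ∩ ↑(RE (a - 1) (b + 1) (q - 2) (d + 1)))
          (a - 1, q - 2) (x1, q - 2) :=
        hline' (by omega) (by omega) (by omega) (by omega)
          (fun t ht1 ht2 => Or.inr (by simp only [N, true_and, and_true]; omega))
      have r2 : Reach (EV (Ex a b q d V N) ∩ ↑(RE (a - 1) (b + 1) (q - 2) (d + 1)))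
          (x1, q - 2) (x1, q) := by
        refine vline' (by omega) (by omega) (by omega) (by omega) (fun t ht1 ht2 => ?_)
        rcases eq_or_lt_of_le ht2 with rfl | h
        · exact hc1 N
        · exact Or.inr (by simp only [N, true_and, and_true]; omega)
      have r3 : Reach (EV (Ex a b q d V N) ∩ ↑(RE (a - 1) (b + 1) (q - 2) (d + 1)))
          (x2, q - 1) (x2, q) := by
        refine vline' (by omega) (by omega) (by omega) (by omega) (fun t ht1 ht2 => ?_)
        rcases eq_or_lt_of_le ht2 with rfl | h
        · exact hc2 N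
        · exact Or.inr (by simp only [N, true_and, and_true]; omega)
      have r4 : Reach (EV (Ex a b q d V N) ∩ ↑(RE (a - 1) (b + 1) (q - 2) (d + 1)))
          (x2, q - 1) (b + 1, q - 1) :=
        hline' (by omega) (by omega) (by omega) (by omega)
          (fun t ht1 ht2 => Or.inr (by simp only [N, true_and, and_true]; omega))
      have path := ((r1.trans r2).trans m).trans (r3.symm.trans r4)
      have s1 : Reach (EV (Ex a b q d V' N') ∩ ↑(RE (a - 1) (b + 1) (q - 2) (d + 1)))
          (x', q - 2) (x', q) := by
        refine vline' (by omega) (by omega) (by omega) (by omega) (fun t ht1 ht2 => ?_)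
        rcases eq_or_lt_of_le ht2 with rfl | h
        · exact hc3 N'
        · exact Or.inr (by simp only [N', true_and, and_true]; omega)
      have s2 : Reach (EV (Ex a b q d V' N') ∩ ↑(RE (a - 1) (b + 1) (q - 2) (d + 1)))
          (p, q - 1) (p, q) := by
        refine vline' (by omega) (by omega) (by omega) (by omega) (fun t ht1 ht2 => ?_)
        rcases eq_or_lt_of_le ht2 with rfl | h
        · exact hc4 N'
        · exact Or.inr (by simp only [N', true_and, and_true]; omega)
      have s3 : Reach (EV (Ex a b q d V' N') ∩ ↑(RE (a - 1) (b + 1) (q - 2) (d + 1)))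
          (a - 1, q - 1) (p, q - 1) :=
        hline' (by omega) (by omega) (by omega) (by omega)
          (fun t ht1 ht2 => Or.inr (by simp only [N', true_and, and_true]; omega))
      have s4 : Reach (EV (Ex a b q d V' N') ∩ ↑(RE (a - 1) (b + 1) (q - 2) (d + 1)))
          (a - 1, q - 1) (a - 1, d + 1) :=
        vline' (by omega) (by omega) (by omega) (by omega)
          (fun t ht1 ht2 => Or.inr (by simp only [N', true_and, and_true]; omega))
      have path' := ((s1.trans m').trans s2.symm).trans (s3.symm.trans s4)
      exact no_cross (by omega) (by omega) hdis path le_rfl le_rfl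
        (Or.inr (by simp only [N, true_and, and_true]; omega)) path' le_rfl le_rfl (Or.inr (by simp only [N', true_and, and_true]; omega))
    · let N : Vtx → Prop := fun w => (w.2 = q - 1 ∧ w.1 ≤ x1) ∨ (w.1 = x2 ∧ w.2 = q - 1) ∨
        (w.2 = q - 2 ∧ x2 ≤ w.1)
      let N' : Vtx → Prop := fun w => (w.1 = x' ∧ w.2 ≤ q - 1) ∨ (w.2 = q - 1 ∧ p ≤ w.1) ∨
        (w.1 = b + 1 ∧ q - 1 ≤ w.2)
      have hdis := disj (a := a) (b := b) (c := q) (d := d) (N := N) (N' := N') hd
        (fun w h => by simp only [N] at h; unfold inR; omega)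
        (fun w h => by simp only [N'] at h; unfold inR; omega)
        (fun w h h' => by simp only [N] at h; simp only [N'] at h'; omega)
      have m := lift (A := a - 1) (B := b + 1) (C := q - 2) (D := d + 1) (N := N) (by omega)
        (by omega) (by omega) (by omega) hV1 hR1 hr
      have m' := lift (A := a - 1) (B := b + 1) (C := q - 2) (D := d + 1) (N := N') (by omega)
        (by omega) (by omega) (by omega) hV' hR' hr'
      have r1 : Reach (EV (Ex a b q d V N) ∩ ↑(RE (a - 1) (b + 1) (q - 2) (d + 1)))
          (a - 1, q - 1) (x1, q - 1) :=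
        hline' (by omega) (by omega) (by omega) (by omega)
          (fun t ht1 ht2 => Or.inr (by simp only [N, true_and, and_true]; omega))
      have r2 : Reach (EV (Ex a b q d V N) ∩ ↑(RE (a - 1) (b + 1) (q - 2) (d + 1)))
          (x1, q - 1) (x1, q) := by
        refine vline' (by omega) (by omega) (by omega) (by omega) (fun t ht1 ht2 => ?_)
        rcases eq_or_lt_of_le ht2 with rfl | h
        · exact hc1 N
        · exact Or.inr (by simp only [N, true_and, and_true]; omega)
      have r3 : Reach (EV (Ex a b q d V N) ∩ ↑(RE (a - 1) (b + 1) (q - 2) (d + 1)))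
          (x2, q - 2) (x2, q) := by
        refine vline' (by omega) (by omega) (by omega) (by omega) (fun t ht1 ht2 => ?_)
        rcases eq_or_lt_of_le ht2 with rfl | h
        · exact hc2 N
        · exact Or.inr (by simp only [N, true_and, and_true]; omega)
      have r4 : Reach (EV (Ex a b q d V N) ∩ ↑(RE (a - 1) (b + 1) (q - 2) (d + 1)))
          (x2, q - 2) (b + 1, q - 2) :=
        hline' (by omega) (by omega) (by omega) (by omega)
          (fun t ht1 ht2 => Or.inr (by simp only [N, true_and, and_true]; omega))
      have path := ((r1.trans r2).trans m).trans (r3.symm.trans r4)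
      have s1 : Reach (EV (Ex a b q d V' N') ∩ ↑(RE (a - 1) (b + 1) (q - 2) (d + 1)))
          (x', q - 2) (x', q) := by
        refine vline' (by omega) (by omega) (by omega) (by omega) (fun t ht1 ht2 => ?_)
        rcases eq_or_lt_of_le ht2 with rfl | h
        · exact hc3 N'
        · exact Or.inr (by simp only [N', true_and, and_true]; omega)
      have s2 : Reach (EV (Ex a b q d V' N') ∩ ↑(RE (a - 1) (b + 1) (q - 2) (d + 1)))
          (p, q - 1) (p, q) := by
        refine vline' (by omega) (by omega) (by omega) (by omega) (fun t ht1 ht2 => ?_)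
        rcases eq_or_lt_of_le ht2 with rfl | h
        · exact hc4 N'
        · exact Or.inr (by simp only [N', true_and, and_true]; omega)
      have s3 : Reach (EV (Ex a b q d V' N') ∩ ↑(RE (a - 1) (b + 1) (q - 2) (d + 1)))
          (p, q - 1) (b + 1, q - 1) :=
        hline' (by omega) (by omega) (by omega) (by omega)
          (fun t ht1 ht2 => Or.inr (by simp only [N', true_and, and_true]; omega))
      have s4 : Reach (EV (Ex a b q d V' N') ∩ ↑(RE (a - 1) (b + 1) (q - 2) (d + 1)))
          (b + 1, q - 1) (b + 1, d + 1) :=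
        vline' (by omega) (by omega) (by omega) (by omega)
          (fun t ht1 ht2 => Or.inr (by simp only [N', true_and, and_true]; omega))
      have path' := ((s1.trans m').trans s2.symm).trans (s3.trans s4)
      exact no_cross (by omega) (by omega) hdis path le_rfl le_rfl
        (Or.inr (by simp only [N, true_and, and_true]; omega)) path' le_rfl le_rfl (Or.inr (by simp only [N', true_and, and_true]; omega))

end Pool.Agent.Y989.SD.ARCH
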