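import Pool.Agent.Y989.SD.Stm2

/-!
Project SD, job SD-CMP (proved by helper872): one-scale comparison.
-/

set_option autoImplicit false

namespace Pool.Agent.Y989.SD.CMP

open H974 H973 Finset

theorem t_CMP : S_CMPD → S_CMPA → S_EXT → S_QM → S_MONO → S_CMP := by
  intro hD hA hE hQ hM
  obtain ⟨C, β, hC, hβ, hA⟩ := hA
  obtain ⟨c, hc, hE⟩ := hE
  obtain ⟨c', hc', hQ⟩ := hQ
  refine ⟨C / (c ^ 6 * c'), β, by positivity, hβ, ?_⟩
  intro h h' X w R hh hh' hle hw hout hw1 hX hR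
  have okh : Ok hf := fun e => ⟨by norm_num, by norm_num⟩
  have hR1 : 1 ≤ R := by omega
  have hsub : UU h R ⊆ UU h' R := by
    intro y hy
    rw [mem_UU] at hy ⊢
    exact ⟨hy.1, (hle y.1).trans hy.2⟩
  have hES : ES (UU h R) ⊆ ES (UU h' R) := by
    intro e he
    rw [mem_ES] at he ⊢
    exact ⟨hsub he.1, hsub he.2⟩
  -- the two events
  have h1 : AP h' R ≤ Pr hf (ES (UU h' R)) (fun F => armQ h R (F ∩ ES (UU h R))) +
      Pr hf (ES (UU h' R)) (fun F => armQ h' R F ∧ ¬ armQ h R (F ∩ ES (UU h R))) := by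
    unfold AP
    refine le_trans (Pr_mono okh ?_) (Pr_or_le okh _ _ _)
    intro F _ hF
    by_cases h2 : armQ h R (F ∩ ES (UU h R))
    · exact Or.inl h2
    · exact Or.inr ⟨hF, h2⟩
  have h2 : Pr hf (ES (UU h' R)) (fun F => armQ h R (F ∩ ES (UU h R))) = AP h R := by
    unfold AP
    rw [Pr_local hES (A := fun F => armQ h R (F ∩ ES (UU h R)))
      (fun F _ => by rw [Finset.inter_assoc, Finset.inter_self])]
    apply Pr_congr
    intro F hF
    rw [Finset.inter_eq_left.2 hF]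
  have h3 := hA h h' X w R hh hh' hle hw hout hw1 hX hR
  have h4 : Pr hf (ES (UU h' R)) (fun F => armQ h' R F ∧ ¬ armQ h R (F ∩ ES (UU h R))) ≤
      C * ((w : ℝ) / X) ^ β * (AP h (max 1 (X - 1)) * XP h (32 * X) R) := by
    refine le_trans (Pr_mono okh ?_) h3
    intro F hF hF2
    exact hD h h' X w R F hh hh' hle hw hout hX hR hF hF2.1 hF2.2
  -- extension of the arms
  obtain ⟨Z, hZ⟩ : ∃ Z : ℤ, Z = max 1 (X - 1) := ⟨_, rfl⟩
  have hZ1 : 1 ≤ Z := by omega
  have hZX : 32 * X ≤ 64 * Z := by omega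
  have hZX' : Z ≤ X := by omega
  rw [← hZ] at h4
  have h5 : c ^ 6 * AP h Z ≤ AP h (64 * Z) := by
    have e1 := (hE h Z hh hZ1).2
    have e2 := (hE h (2 * Z) hh (by omega)).2
    have e3 := (hE h (2 * (2 * Z)) hh (by omega)).2
    have e4 := (hE h (2 * (2 * (2 * Z))) hh (by omega)).2
    have e5 := (hE h (2 * (2 * (2 * (2 * Z)))) hh (by omega)).2
    have e6 := (hE h (2 * (2 * (2 * (2 * (2 * Z))))) hh (by omega)).2
    have e7 : 2 * (2 * (2 * (2 * (2 * (2 * Z))))) = 64 * Z := by ring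
    rw [e7] at e6
    calc c ^ 6 * AP h Z = c * (c * (c * (c * (c * (c * AP h Z))))) := by ring
      _ ≤ c * (c * (c * (c * (c * AP h (2 * Z))))) := by gcongr
      _ ≤ c * (c * (c * (c * AP h (2 * (2 * Z))))) := by gcongr
      _ ≤ c * (c * (c * AP h (2 * (2 * (2 * Z))))) := by gcongr
      _ ≤ c * (c * AP h (2 * (2 * (2 * (2 * Z))))) := by gcongr
      _ ≤ c * AP h (2 * (2 * (2 * (2 * (2 * Z))))) := by gcongr
      _ ≤ AP h (64 * Z) := e6
  have h6 : AP h (64 * Z) ≤ AP h (32 * X) := hM.2 h (32 * X) (64 * Z) hh (by omega) hZX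
  have h7 := hQ h (32 * X) R hh (by omega) hR
  have hXP : 0 ≤ XP h (32 * X) R := Pr_nonneg okh _ _
  have hAP : 0 ≤ AP h R := Pr_nonneg okh _ _
  have hw0 : (0 : ℝ) < w := by exact_mod_cast hw1
  have hX0 : (0 : ℝ) < X := by exact_mod_cast hX
  have hpow : 0 ≤ ((w : ℝ) / X) ^ β := by positivity
  have h8 : c ^ 6 * c' * (AP h Z * XP h (32 * X) R) ≤ AP h R := by
    calc c ^ 6 * c' * (AP h Z * XP h (32 * X) R) =
          c' * ((c ^ 6 * AP h Z) * XP h (32 * X) R) := by ring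
      _ ≤ c' * (AP h (32 * X) * XP h (32 * X) R) := by
          apply mul_le_mul_of_nonneg_left _ hc'.le
          exact mul_le_mul_of_nonneg_right (h5.trans h6) hXP
      _ ≤ AP h R := h7
  have h9 : AP h Z * XP h (32 * X) R ≤ AP h R / (c ^ 6 * c') := by
    rw [le_div_iff₀ (by positivity)]
    linarith
  have h10 : C * ((w : ℝ) / X) ^ β * (AP h Z * XP h (32 * X) R) ≤
      C * ((w : ℝ) / X) ^ β * (AP h R / (c ^ 6 * c')) :=
    mul_le_mul_of_nonneg_left h9 (by positivity)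
  rw [h2] at h1
  have h11 : (1 + C / (c ^ 6 * c') * ((w : ℝ) / X) ^ β) * AP h R =
      AP h R + C * ((w : ℝ) / X) ^ β * (AP h R / (c ^ 6 * c')) := by
    field_simp
  rw [h11]
  linarith

end Pool.Agent.Y989.SD.CMP
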