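import Pool.Agent.Y989.SD.Stm2

/-!
Project SD: estimates in the windows of a lattice domain (helper332).
-/

set_option autoImplicit false

namespace Pool.Agent.Y989.SD.WIN

open H974 H973 Finset

theorem lp_bd {K : ℤ} {h : ℤ → ℤ} (hh : Lp K h) (n : ℕ) :
    |h n| ≤ K * n ∧ |h (-(n : ℤ))| ≤ K * n := by
  induction n with
  | zero => simp [hh.zero]
  | succ n ih =>
    obtain ⟨h1, h2⟩ := ih
    have a1 := hh.lip n
    have a2 := hh.lip (-(n : ℤ) - 1)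
    have e1 : -(n : ℤ) - 1 + 1 = -(n : ℤ) := by ring
    rw [e1] at a2
    have e2 : (-((n + 1 : ℕ) : ℤ)) = -(n : ℤ) - 1 := by push_cast; ring
    rw [e2]
    push_cast
    rw [abs_le] at h1 h2 a1 a2 ⊢
    rw [abs_le]
    refine ⟨⟨?_, ?_⟩, ?_, ?_⟩ <;> linarith [h1.1, h1.2, h2.1, h2.2, a1.1, a1.2, a2.1, a2.2]

theorem lp_low {h : ℤ → ℤ} (hh : Lp 3 h) {x ρ : ℤ} (h1 : -ρ ≤ x) (h2 : x ≤ ρ) :
    -(3 * ρ) ≤ h x := by
  rcases le_total 0 x with hx | hx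
  · lift x to ℕ using hx
    have := (lp_bd hh x).1
    rw [abs_le] at this
    linarith [this.1]
  · obtain ⟨n, rfl⟩ : ∃ n : ℕ, x = -(n : ℤ) := ⟨x.natAbs, by omega⟩
    have := (lp_bd hh n).2
    rw [abs_le] at this
    linarith [this.1]

/-! ### Transfer by a symmetry -/

/-- The preimage of `T`. -/
def tT (g : LSym) (T : Finset Vtx) : Finset Vtx := LSymV g.inv T

theorem mem_tT {g : LSym} {T : Finset Vtx} {y : Vtx} : y ∈ tT g T ↔ g.ψ y ∈ T := by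
  unfold tT
  rw [mem_LSymV]
  rfl

theorem tT_img (g : LSym) (T : Finset Vtx) : LSymV g (tT g T) = T := by
  ext y
  rw [mem_LSymV, mem_tT, Equiv.apply_symm_apply]

theorem pr_tT (g : LSym) (T : Finset Vtx) (A : Finset Edg → Prop) :
    Pr hf (ES T) A = Pr hf (ES (tT g T)) (fun F => A (g.mp F)) := by
  have h1 : ES T = g.mp (ES (tT g T)) := by rw [ES_mp, tT_img]
  rw [h1]
  exact LSym.pr g _ _ _

theorem reach_mp (g : LSym) (F : Finset Edg) (u v : Vtx) :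
    Reach (↑(g.mp F) : Set Edg) (g.ψ u) (g.ψ v) ↔ Reach (F : Set Edg) u v := by
  rw [LSym.coe_mp]
  exact g.reach_iff

section tr

variable {g : LSym} {T : Finset Vtx}
  (hg : ∀ (y z : Vtx) (n : ℤ), g.ψ y ∈ BX (g.ψ z) n ↔ y ∈ BX z n)

include hg

theorem XT_tr {r R : ℤ} {F : Finset Edg} :
    XT T (g.ψ (0, 0)) r R (g.mp F) ↔ XT (tT g T) (0, 0) r R F := by
  constructor
  · rintro ⟨u, hu, hu', w, hw, hw', hr⟩
    obtain ⟨u, rfl⟩ := g.ψ.surjective u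
    obtain ⟨w, rfl⟩ := g.ψ.surjective w
    exact ⟨u, mem_tT.mpr hu, (hg _ _ _).mp hu', w, mem_tT.mpr hw,
      fun h => hw' ((hg _ _ _).mpr h), (reach_mp g F u w).mp hr⟩
  · rintro ⟨u, hu, hu', w, hw, hw', hr⟩
    exact ⟨g.ψ u, mem_tT.mp hu, (hg _ _ _).mpr hu', g.ψ w, mem_tT.mp hw,
      fun h => hw' ((hg _ _ _).mp h), (reach_mp g F u w).mpr hr⟩

theorem VT_tr {R : ℤ} {F : Finset Edg} (h : VT (tT g T) (0, 0) R F) :
    VT T (g.ψ (0, 0)) R (g.mp F) := by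
  obtain ⟨w, hw, hw', hr⟩ := h
  exact ⟨g.ψ w, mem_tT.mp hw, fun h => hw' ((hg _ _ _).mp h), (reach_mp g F _ w).mpr hr⟩

end tr

theorem adj_univ {u y : Vtx} : Adj Set.univ u y ↔
    (y = (u.1 + 1, u.2) ∨ y = (u.1 - 1, u.2) ∨ y = (u.1, u.2 + 1) ∨ y = (u.1, u.2 - 1)) := by
  constructor
  · rintro ⟨⟨x0, y0, bo⟩, -, hc⟩
    cases bo
    · simp only [src_mk, tgt_false] at hc
      rcases hc with ⟨h3, h4⟩ | ⟨h3, h4⟩
      · right; right; left; rw [← h3, ← h4]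
      · right; right; right
        rw [← h3, ← h4]
        simp
    · simp only [src_mk, tgt_true] at hc
      rcases hc with ⟨h3, h4⟩ | ⟨h3, h4⟩
      · left; rw [← h3, ← h4]
      · right; left
        rw [← h3, ← h4]
        simp
  · rintro (rfl | rfl | rfl | rfl)
    · exact ⟨(u.1, u.2, true), trivial, Or.inl ⟨by simp, by simp⟩⟩
    · exact ⟨(u.1 - 1, u.2, true), trivial, Or.inr ⟨by simp, by simp⟩⟩
    · exact ⟨(u.1, u.2, false), trivial, Or.inl ⟨by simp, by simp⟩⟩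
    · exact ⟨(u.1, u.2 - 1, false), trivial, Or.inr ⟨by simp, by simp⟩⟩

theorem btT_iff {T : Finset Vtx} {u : Vtx} : btT T u ↔ u ∈ T ∧ ∃ y, y ∉ T ∧ Adj Set.univ u y := by
  unfold btT
  constructor
  · rintro ⟨h1, h2 | h2 | h2 | h2⟩
    · exact ⟨h1, _, h2, adj_univ.mpr (by simp)⟩
    · exact ⟨h1, _, h2, adj_univ.mpr (by simp)⟩
    · exact ⟨h1, _, h2, adj_univ.mpr (by simp)⟩
    · exact ⟨h1, _, h2, adj_univ.mpr (by simp)⟩
  · rintro ⟨h1, y, h2, h3⟩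
    refine ⟨h1, ?_⟩
    rcases adj_univ.mp h3 with rfl | rfl | rfl | rfl
    · exact Or.inl h2
    · exact Or.inr (Or.inl h2)
    · exact Or.inr (Or.inr (Or.inl h2))
    · exact Or.inr (Or.inr (Or.inr h2))

theorem btT_tr {g : LSym} {T : Finset Vtx} {u : Vtx} (h : btT (tT g T) u) : btT T (g.ψ u) := by
  rw [btT_iff] at h ⊢
  obtain ⟨h1, y, h2, h3⟩ := h
  exact ⟨mem_tT.mp h1, g.ψ y, fun h => h2 (mem_tT.mpr h), (g.adj h3).mono (Set.subset_univ _)⟩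

theorem HT_tr {g : LSym} {T : Finset Vtx}
    (hg : ∀ (y z : Vtx) (n : ℤ), g.ψ y ∈ BX (g.ψ z) n ↔ y ∈ BX z n) {r R : ℤ} {F : Finset Edg}
    (h : HT (tT g T) (0, 0) r R F) : HT T (g.ψ (0, 0)) r R (g.mp F) := by
  obtain ⟨z, h1, h2, h3, h4⟩ := h
  refine ⟨g.ψ z, mem_tT.mp h1, (hg _ _ _).mpr h2, btT_tr h3, ?_⟩
  intro u hu hu' w hw hw' hr
  obtain ⟨u, rfl⟩ := g.ψ.surjective u
  obtain ⟨w, rfl⟩ := g.ψ.surjective w
  refine h4 u (mem_tT.mpr hu) ((hg _ _ _).mp hu') w (mem_tT.mpr hw)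
    (fun h => hw' ((hg _ _ _).mpr h)) ?_
  rw [← g.reach_iff]
  refine hr.mono ?_
  rintro e ⟨⟨he1, he2⟩, ⟨he3, he4⟩⟩
  refine ⟨g.φ.symm e, ?_, g.φ.apply_symm_apply e⟩
  have hc := g.compat (g.φ.symm e)
  rw [g.φ.apply_symm_apply] at hc
  have key : ∀ y : Vtx, g.ψ y ∈ T → ¬ Reach (↑(g.mp F) : Set Edg) (g.ψ z) (g.ψ y) →
      (y ∈ tT g T ∧ ¬ Reach (F : Set Edg) z y) := fun y h5 h6 =>
    ⟨mem_tT.mpr h5, fun h7 => h6 ((reach_mp g F z y).mpr h7)⟩
  rcases hc with ⟨hc1, hc2⟩ | ⟨hc1, hc2⟩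
  · rw [hc1] at he1 he2
    rw [hc2] at he3 he4
    exact ⟨key _ he1 he2, key _ he3 he4⟩
  · rw [hc1] at he1 he2
    rw [hc2] at he3 he4
    exact ⟨key _ he3 he4, key _ he1 he2⟩

/-! ### Windows in standard position -/

theorem QB_mono {a b : ℤ} (h : a ≤ b) {y : Vtx} (hy : y ∈ QB a) : y ∈ QB b := by
  rw [mem_QB] at hy ⊢
  omega

section std

variable {T : Finset Vtx} {h : ℤ → ℤ} {L : ℤ} (hT : ∀ y ∈ QB L, (y ∈ T ↔ h y.1 ≤ y.2))

include hT

theorem UU_sub {R : ℤ} (hR : R ≤ L) : UU h R ⊆ T := by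
  intro y hy
  rw [mem_UU] at hy
  exact (hT y (QB_mono hR hy.1)).mpr hy.2

theorem mem_UU_of {R : ℤ} (hR : R ≤ L) {y : Vtx} (h1 : y ∈ T) (h2 : y ∈ QB R) : y ∈ UU h R :=
  mem_UU.mpr ⟨h2, (hT y (QB_mono hR h2)).mp h1⟩

theorem zero_mem (hh : Lp 3 h) (hL : 0 ≤ L) : ((0, 0) : Vtx) ∈ T := by
  refine (hT _ ?_).mpr ?_
  · rw [mem_QB]; simp only; omega
  · simp only; rw [hh.zero]

/-- Upper bound, deterministic part. -/
theorem XT_up (hh : Lp 3 h) {r R ρ : ℤ} (hr : 1 ≤ r) (hrρ : r ≤ ρ) (hρ : 32 * ρ ≤ R - 1)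
    (hR : R ≤ L) {F : Finset Edg} (hF : F ⊆ ES T) (hX : XT T (0, 0) r R F) :
    annQ h r ρ (F ∩ ES (UU h ρ)) := by
  obtain ⟨u, hu, hu', w, hw, hw', hre⟩ := hX
  rw [mem_BX] at hu' hw'
  simp only at hu' hw'
  have huq : u ∈ QB r := by rw [mem_QB]; omega
  obtain ⟨y, h1, h2, h3⟩ := first_exit (a := -ρ) (b := ρ) (c := -(32 * ρ)) (d := 32 * ρ)
    (by unfold inR; omega) hre (by omega)
  have hyT : y ∈ T := reach_mem (F := (F : Set Edg)) (fun e he => hF (Finset.mem_coe.mp he)) hu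
    (h3.mono Set.inter_subset_left)
  have hyq : y ∈ QB ρ := by rw [mem_QB]; exact h1
  have hyU := mem_UU_of hT (by omega : ρ ≤ L) hyT hyq
  have hlow := lp_low hh h1.1.1 h1.1.2
  have hyU2 := (mem_UU.mp hyU).2
  refine ⟨u, mem_UU_of hT (by omega) hu huq, y, hyU, ?_, h3.mono ?_⟩
  · unfold onQ
    omega
  · rintro e ⟨he1, he2⟩
    rw [Finset.mem_coe] at he1 he2 ⊢
    rw [Finset.mem_inter, mem_ES]
    have h5 := mem_ES.mp (hF he1)
    have h6 := mem_RE_ends he2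
    exact ⟨he1, mem_UU_of hT (by omega) h5.1 (by rw [mem_QB]; exact h6.1),
      mem_UU_of hT (by omega) h5.2 (by rw [mem_QB]; exact h6.2)⟩

/-- Lower bound, deterministic part. -/
theorem XT_lo {r R r' : ℤ} (hr' : 32 * r' ≤ r) (_h0 : 1 ≤ r') (hrR : r ≤ R)
    (hR : R ≤ L) {F : Finset Edg} (hX : annQ h r' R (F ∩ ES (UU h R))) :
    XT T (0, 0) r R F := by
  obtain ⟨u, hu, y, hy, h2, h3⟩ := hX
  have huq := mem_QB.mp (mem_UU.mp hu).1
  refine ⟨u, UU_sub hT (by omega) hu, ?_, y, UU_sub hT hR hy, ?_, h3.mono ?_⟩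
  · rw [mem_BX]; simp only; omega
  · rw [mem_BX]; simp only
    unfold onQ at h2
    omega
  · intro e he
    rw [Finset.mem_coe] at he ⊢
    exact (Finset.mem_inter.mp he).1

theorem VT_lo {R : ℤ} (_h1 : 1 ≤ R)
    (hR : R ≤ L) {F : Finset Edg} (hX : armQ h R (F ∩ ES (UU h R))) :
    VT T (0, 0) R F := by
  obtain ⟨y, hy, h2, h3⟩ := hX
  refine ⟨y, UU_sub hT hR hy, ?_, h3.mono ?_⟩
  · rw [mem_BX]; simp only
    unfold onQ at h2
    omega
  · intro e he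
    rw [Finset.mem_coe] at he ⊢
    exact (Finset.mem_inter.mp he).1

theorem HT_lo (hh : Lp 3 h) {r : ℤ} (hr : 1 ≤ r) (hR : 128 * r ≤ L) {F : Finset Edg}
    (hX : hcQ h r (F ∩ ES (UU h (2 * r)))) : HT T (0, 0) r (64 * r) F := by
  obtain ⟨z, hz, hb, hB⟩ := hX
  have hzT := UU_sub hT (by omega) hz
  have hzq := mem_QB.mp (mem_UU.mp hz).1
  refine ⟨z, hzT, ?_, ?_, ?_⟩
  · rw [mem_BX]; simp only; omega
  · refine ⟨hzT, ?_⟩
    rcases hb.2 with h1 | h1 | h1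
    · left
      intro h2
      have := (hT (z.1 + 1, z.2) (by rw [mem_QB]; simp only; omega)).mp h2
      simp only at this
      omega
    · right; left
      intro h2
      have := (hT (z.1 - 1, z.2) (by rw [mem_QB]; simp only; omega)).mp h2
      simp only at this
      omega
    · right; right; right
      intro h2
      have := (hT (z.1, z.2 - 1) (by rw [mem_QB]; simp only; omega)).mp h2
      simp only at this
      omega
  · intro u hu hu' w hw hw' hre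
    rw [mem_BX] at hu' hw'
    simp only at hu' hw'
    obtain ⟨y, h1, h2, h3⟩ := first_exit (a := -(2 * r)) (b := 2 * r) (c := -(32 * (2 * r)))
      (d := 32 * (2 * r)) (by unfold inR; omega) hre (by omega)
    have hyT : y ∈ T := by
      have : ∀ y, Reach (EV (fun y => y ∈ T ∧ ¬ Reach (F : Set Edg) z y)) u y → y ∈ T := by
        intro y hy
        induction hy with
        | refl => exact hu
        | tail _ hs ih =>
          obtain ⟨e, he, hc⟩ := hs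
          rcases hc with ⟨-, hc2⟩ | ⟨hc1, -⟩
          · rw [← hc2]; exact he.2.1
          · rw [← hc1]; exact he.1.1
      exact this y (h3.mono Set.inter_subset_left)
    have hyU := mem_UU_of hT (by omega : 2 * r ≤ L) hyT (mem_QB.mpr h1)
    have hlow := lp_low hh h1.1.1 h1.1.2
    have hyU2 := (mem_UU.mp hyU).2
    refine hB u (mem_UU_of hT (by omega) hu (by rw [mem_QB]; omega)) (mem_QB.mpr (by omega)) y hyU
      (show onQ (2 * r) y by unfold onQ; omega) (h3.mono ?_)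
    rintro e ⟨⟨he1, he2⟩, he3⟩
    rw [Finset.mem_coe] at he3
    have h6 := mem_RE_ends he3
    have key : ∀ y, y ∈ T → y ∈ QB (2 * r) → ¬ Reach (F : Set Edg) z y →
        (y ∈ UU h (2 * r) ∧ ¬ Reach (↑(F ∩ ES (UU h (2 * r))) : Set Edg) z y) := by
      intro y h7 h8 h9
      refine ⟨mem_UU_of hT (by omega) h7 h8, fun h10 => h9 (h10.mono ?_)⟩
      intro e he
      rw [Finset.mem_coe] at he ⊢
      exact (Finset.mem_inter.mp he).1
    exact ⟨key _ he1.1 (mem_QB.mpr h6.1) he1.2, key _ he2.1 (mem_QB.mpr h6.2) he2.2⟩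

end std

theorem rpow_64 {x : ℝ} (hx : 0 ≤ x) : (64 * x) ^ (1 / 3 : ℝ) = 4 * x ^ (1 / 3 : ℝ) := by
  rw [Real.mul_rpow (by norm_num) hx]
  congr 1
  have : (64 : ℝ) = 4 ^ (3 : ℝ) := by norm_num
  rw [this, ← Real.rpow_mul (by norm_num)]
  norm_num

theorem t_WIN : S_EMB → S_WA → S_HCP → S_WIN := by
  intro hEMB hWA hHCP B α hα
  obtain ⟨c1, C1, hc1, hC1, hWA⟩ := hWA B α hα
  obtain ⟨c2, hc2, hHCP⟩ := hHCP
  refine ⟨min (c1 / 4) c2, 4 * (C1 + 1), lt_min (by linarith) hc2, by linarith, ?_⟩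
  intro T0 v L hWin r R hr hrR hRL
  obtain ⟨g, h, s, hv, hg, hLp, hs, hFl, hQ⟩ := hEMB T0 v L B α hWin
  subst hv
  set T := tT g T0 with hTdef
  have hT : ∀ y ∈ QB L, (y ∈ T ↔ h y.1 ≤ y.2) := by
    intro y hy
    rw [hTdef, mem_tT]
    exact hQ y hy
  have hRpos : (0 : ℝ) < R := by exact_mod_cast (by omega : 0 < R)
  have hrpos : (0 : ℝ) < r := by exact_mod_cast (by omega : 0 < r)
  have hok : Ok hf := okhalf
  -- the lower bound for the arm
  have hV : c1 * (R : ℝ) ^ (-(1 / 3 : ℝ)) ≤ Pr hf (ES T) (VT T (0, 0) R) := by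
    refine (hWA h s L hLp hs hFl R R (by omega) le_rfl hRL).1.trans ?_
    unfold AP
    rw [← Pr_restrict (ES_mono (UU_sub hT hRL))]
    exact Pr_mono hok fun F _ hA => VT_lo hT (by omega) hRL hA
  have hVX : Pr hf (ES T) (VT T (0, 0) R) ≤ Pr hf (ES T) (XT T (0, 0) r R) := by
    refine Pr_mono hok fun F _ hA => ?_
    obtain ⟨w, h1, h2, h3⟩ := hA
    refine ⟨(0, 0), zero_mem hT hLp (by omega), ?_, w, h1, h2, h3⟩
    rw [mem_BX]; simp only; omega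
  have hX : Pr hf (ES T0) (XT T0 (g.ψ (0, 0)) r R) = Pr hf (ES T) (XT T (0, 0) r R) := by
    rw [pr_tT g]
    exact Pr_congr fun F _ => XT_tr hg
  have hx0 : (0 : ℝ) ≤ (r : ℝ) / R := by positivity
  refine ⟨?_, ?_, ?_, ?_⟩
  · rw [hX]
    by_cases hρ : r ≤ (R - 1) / 32
    · set ρ := (R - 1) / 32 with hρd
      have h1 : 32 * ρ ≤ R - 1 := by omega
      have h2 : R ≤ 64 * ρ := by omega
      have hρpos : (0 : ℝ) < ρ := by exact_mod_cast (by omega : 0 < ρ)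
      have h3 : Pr hf (ES T) (XT T (0, 0) r R) ≤ XP h r ρ := by
        unfold XP
        rw [← Pr_restrict (ES_mono (UU_sub hT (by omega : ρ ≤ L)))]
        exact Pr_mono hok fun F hF hA => XT_up hT hLp hr hρ h1 hRL hF hA
      have h4 := (hWA h s L hLp hs hFl r ρ hr hρ (by omega)).2.2
      have h5 : ((r : ℝ) / ρ) ^ (1 / 3 : ℝ) ≤ 4 * ((r : ℝ) / R) ^ (1 / 3 : ℝ) := by
        rw [← rpow_64 hx0]
        refine Real.rpow_le_rpow (by positivity) ?_ (by norm_num)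
        have h6 : (R : ℝ) ≤ 64 * ρ := by exact_mod_cast h2
        rw [div_le_iff₀ hρpos]
        have : 64 * ((r : ℝ) / R) * ρ = r * (64 * ρ / R) := by ring
        rw [this]
        have h7 : 1 ≤ 64 * (ρ : ℝ) / R := by rw [le_div_iff₀ hRpos]; linarith
        nlinarith
      have h8 : (0 : ℝ) ≤ ((r : ℝ) / R) ^ (1 / 3 : ℝ) := Real.rpow_nonneg hx0 _
      calc Pr hf (ES T) (XT T (0, 0) r R) ≤ XP h r ρ := h3
        _ ≤ C1 * ((r : ℝ) / ρ) ^ (1 / 3 : ℝ) := h4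
        _ ≤ C1 * (4 * ((r : ℝ) / R) ^ (1 / 3 : ℝ)) := mul_le_mul_of_nonneg_left h5 hC1.le
        _ ≤ 4 * (C1 + 1) * ((r : ℝ) / R) ^ (1 / 3 : ℝ) := by nlinarith
    · have h1 : R ≤ 32 * r := by omega
      have h2 : (1 : ℝ) ≤ 4 * ((r : ℝ) / R) ^ (1 / 3 : ℝ) := by
        rw [← rpow_64 hx0]
        refine Real.one_le_rpow ?_ (by norm_num)
        have h6 : (R : ℝ) ≤ 32 * r := by exact_mod_cast h1
        rw [← mul_div_assoc, le_div_iff₀ hRpos]
        linarith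
      have h3 := Pr_le_one hok (ES T) (XT T (0, 0) r R)
      have h8 : (0 : ℝ) ≤ ((r : ℝ) / R) ^ (1 / 3 : ℝ) := Real.rpow_nonneg hx0 _
      nlinarith
  · rw [hX]
    have h8 : (0 : ℝ) ≤ ((r : ℝ) / R) ^ (1 / 3 : ℝ) := Real.rpow_nonneg hx0 _
    have hmin : min (c1 / 4) c2 * ((r : ℝ) / R) ^ (1 / 3 : ℝ) ≤
        c1 / 4 * ((r : ℝ) / R) ^ (1 / 3 : ℝ) :=
      mul_le_mul_of_nonneg_right (min_le_left _ _) h8
    refine hmin.trans ?_
    by_cases hr32 : 32 ≤ r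
    · set r' := r / 32 with hr'
      have h1 : 32 * r' ≤ r := by omega
      have h2 : r ≤ 64 * r' := by omega
      have h3 : 1 ≤ r' := by omega
      have h4 := (hWA h s L hLp hs hFl r' R h3 (by omega) hRL).2.1
      have h5 : ((r : ℝ) / R) ^ (1 / 3 : ℝ) ≤ 4 * ((r' : ℝ) / R) ^ (1 / 3 : ℝ) := by
        have h3' : (0 : ℝ) < r' := by exact_mod_cast (by omega : 0 < r')
        rw [← rpow_64 (by positivity)]
        refine Real.rpow_le_rpow hx0 ?_ (by norm_num)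
        have h6 : (r : ℝ) ≤ 64 * r' := by exact_mod_cast h2
        rw [← mul_div_assoc]
        exact div_le_div_of_nonneg_right h6 hRpos.le
      have h6 : XP h r' R ≤ Pr hf (ES T) (XT T (0, 0) r R) := by
        unfold XP
        rw [← Pr_restrict (ES_mono (UU_sub hT hRL))]
        exact Pr_mono hok fun F _ hA => XT_lo hT h1 h3 hrR hRL hA
      calc c1 / 4 * ((r : ℝ) / R) ^ (1 / 3 : ℝ)
          ≤ c1 / 4 * (4 * ((r' : ℝ) / R) ^ (1 / 3 : ℝ)) :=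
            mul_le_mul_of_nonneg_left h5 (by linarith)
        _ = c1 * ((r' : ℝ) / R) ^ (1 / 3 : ℝ) := by ring
        _ ≤ _ := h4.trans h6
    · have h5 : ((r : ℝ) / R) ^ (1 / 3 : ℝ) ≤ 4 * (R : ℝ) ^ (-(1 / 3 : ℝ)) := by
        have e : (R : ℝ) ^ (-(1 / 3 : ℝ)) = (1 / (R : ℝ)) ^ (1 / 3 : ℝ) := by
          rw [Real.rpow_neg hRpos.le, one_div, one_div, Real.inv_rpow hRpos.le]
        rw [e, ← rpow_64 (by positivity)]
        refine Real.rpow_le_rpow hx0 ?_ (by norm_num)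
        have h6 : (r : ℝ) ≤ 64 := by exact_mod_cast (by omega : r ≤ 64)
        rw [← mul_div_assoc, mul_one]
        exact div_le_div_of_nonneg_right h6 hRpos.le
      calc c1 / 4 * ((r : ℝ) / R) ^ (1 / 3 : ℝ)
          ≤ c1 / 4 * (4 * (R : ℝ) ^ (-(1 / 3 : ℝ))) :=
            mul_le_mul_of_nonneg_left h5 (by linarith)
        _ = c1 * (R : ℝ) ^ (-(1 / 3 : ℝ)) := by ring
        _ ≤ _ := hV.trans hVX
  · have h8 : (0 : ℝ) ≤ (R : ℝ) ^ (-(1 / 3 : ℝ)) := Real.rpow_nonneg hRpos.le _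
    have h9 : min (c1 / 4) c2 ≤ c1 := (min_le_left _ _).trans (by linarith)
    refine (mul_le_mul_of_nonneg_right h9 h8).trans (hV.trans ?_)
    rw [pr_tT g T0]
    exact Pr_mono hok fun F _ hA => VT_tr hg hA
  · intro h128
    refine (min_le_right _ _).trans ?_
    have hLp10 : Lp 10 h := ⟨hLp.zero, fun x => (hLp.lip x).trans (by norm_num)⟩
    refine (hHCP h r hLp10 hr).trans ?_
    rw [← Pr_restrict (ES_mono (UU_sub hT (by omega : 2 * r ≤ L))), pr_tT g T0]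
    exact Pr_mono hok fun F _ hA => HT_tr hg (HT_lo hT hLp hr h128 hA)

end Pool.Agent.Y989.SD.WIN
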